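import Pool.Agent.EscK.KDefs
import Pool.Agent.EscF.O3
import Pool.Agent.helper1.Esc.ModD

/-!
Project EscK, module A2b: elementary bounds for Lagrangians at distance `O(1 + ‖v‖)` of a Finsler energy.
-/

noncomputable section

namespace EscK

open MeasureTheory Set Filter Topology Esc EscF EscG
open scoped ContDiff

section A2b

variable {E : Type*} [NormedAddCommGroup E] [InnerProductSpace ℝ E] [FiniteDimensional ℝ E]
  {ι : Type*} [Fintype ι] {β : Module.Basis ι ℝ E} {F : E → E → ℝ} {mF MF m M Mf : ℝ}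
  {l : E → E → ℝ → ℝ} {f : E → ℝ → ℝ}

theorem A2b_low (h : TE β F mF MF m M l) (x v : E) (t : ℝ) : -(M * (1 + ‖v‖)) ≤ l x v t := by
  have h1 := (abs_le.1 (h.l_F x v t)).1
  nlinarith [sq_nonneg (F x v)]

theorem TE.cb (h : TE β F mF MF m M l) : CB (M + (M / mF) ^ 2) l where
  cont := h.smooth.continuous
  low := fun x u t => by
    have h1 := (abs_le.1 (h.l_F x u t)).1
    have hF := h.fins.low x u
    have hm := h.fins.mF_pos
    have hM := h.M_nonneg
    have h2 : M * ‖u‖ ≤ M / mF * F x u := by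
      have h3 : M / mF * (mF * ‖u‖) ≤ M / mF * F x u :=
        mul_le_mul_of_nonneg_left hF (div_nonneg hM hm.le)
      have h4 : M / mF * (mF * ‖u‖) = M * ‖u‖ := by
        field_simp
      linarith
    nlinarith [sq_nonneg (F x u - M / mF), sq_nonneg (M / mF)]

theorem TE.upp (h : TE β F mF MF m M l) (x v : E) (t : ℝ) : l x v t ≤ MF ^ 2 / 2 * ‖v‖ ^ 2 + M * (1 + ‖v‖) := by
  have h1 := (abs_le.1 (h.l_F x v t)).2
  have h2 := h.fins.upp x v
  have h3 : 0 ≤ F x v := le_trans (mul_nonneg h.fins.mF_pos.le (norm_nonneg v)) (h.fins.low x v)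
  have h4 : F x v ^ 2 ≤ (MF * ‖v‖) ^ 2 := pow_le_pow_left₀ h3 h2 2
  nlinarith

/-! ### derivatives -/

theorem A2b_fdu (h : TE β F mF MF m M l) (x v : E) (t : ℝ) :
    fderiv ℝ (fun w => l x w t) v =
      (fderiv ℝ (fun p : E × E × ℝ => l p.1 p.2.1 p.2.2) (x, v, t)).comp
        ((ContinuousLinearMap.inr ℝ E (E × ℝ)).comp (ContinuousLinearMap.inl ℝ E ℝ)) := by
  have h1 : HasFDerivAt (fun p : E × E × ℝ => l p.1 p.2.1 p.2.2)
      (fderiv ℝ (fun p : E × E × ℝ => l p.1 p.2.1 p.2.2) (x, v, t)) (x, v, t) :=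
    ((h.smooth.differentiable (by norm_num)) _).hasFDerivAt
  have h2 : HasFDerivAt (fun w : E => (x, w, t))
      ((ContinuousLinearMap.inr ℝ E (E × ℝ)).comp (ContinuousLinearMap.inl ℝ E ℝ)) v := by
    have h3 : HasFDerivAt (fun w : E => (w, t)) (ContinuousLinearMap.inl ℝ E ℝ) v :=
      hasFDerivAt_prodMk_left v t
    exact (hasFDerivAt_prodMk_right x (v, t)).comp v h3
  exact (h1.comp v h2).fderiv

theorem A2b_fdx (h : TE β F mF MF m M l) (x v : E) (t : ℝ) :
    HasFDerivAt (fun y => l y v t)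
      ((fderiv ℝ (fun p : E × E × ℝ => l p.1 p.2.1 p.2.2) (x, v, t)).comp
        (ContinuousLinearMap.inl ℝ E (E × ℝ))) x := by
  have h1 : HasFDerivAt (fun p : E × E × ℝ => l p.1 p.2.1 p.2.2)
      (fderiv ℝ (fun p : E × E × ℝ => l p.1 p.2.1 p.2.2) (x, v, t)) (x, v, t) :=
    ((h.smooth.differentiable (by norm_num)) _).hasFDerivAt
  have h2 : HasFDerivAt (fun y : E => (y, v, t)) (ContinuousLinearMap.inl ℝ E (E × ℝ)) x :=
    hasFDerivAt_prodMk_left x (v, t)
  exact h1.comp x h2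

set_option linter.unusedVariables false in
theorem gu_lf (h : TE β F mF MF m M l) (x v : E) (t : ℝ) : gu (lf l f) x v t = gu l x v t := by
  unfold gu lf gradient
  rw [fderiv_add_const]

theorem gx_lf (h : TE β F mF MF m M l) (hf : Pt β f) (x v : E) (t : ℝ) :
    gx (lf l f) x v t = gx l x v t + gradient (fun y => f y t) x := by
  have h1 : DifferentiableAt ℝ (fun y => l y v t) x := (A2b_fdx h x v t).differentiableAt
  have h2 : DifferentiableAt ℝ (fun y => f y t) x := by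
    have h3 : DifferentiableAt ℝ (fun p : E × ℝ => f p.1 p.2) (x, t) :=
      (hf.smooth.differentiable (by norm_num)) _
    have h4 : DifferentiableAt ℝ (fun y : E => (y, t)) x :=
      (hasFDerivAt_prodMk_left x t).differentiableAt
    exact DifferentiableAt.comp x (g := fun p : E × ℝ => f p.1 p.2) h3 h4
  unfold gx lf gradient
  rw [fderiv_fun_add h1 h2, map_add]

theorem TE.add (h : TE β F mF MF m M l) (hf : Pt β f) (hg : Good Mf f) :
    TE β F mF MF m (M + Mf) (lf l f) where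
  fins := h.fins
  m_pos := h.m_pos
  M_nonneg := add_nonneg h.M_nonneg hg.pos
  smooth := by
    have h1 : ContDiff ℝ 2 (fun p : E × E × ℝ => f p.1 p.2.2) :=
      hf.smooth.comp (contDiff_fst.prodMk (contDiff_snd.comp contDiff_snd))
    exact h.smooth.add h1
  per := fun i x v t => by simp only [lf, h.per, hf.per]
  pert := fun x v t => by simp only [lf, h.pert, hf.pert]
  conv := fun x u v t => by
    rw [gu_lf h]
    have := h.conv x u v t
    simp only [lf]
    linarith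
  l_t := fun x v t t' => by
    have h1 := h.l_t x v t t'
    have h2 := hg.lipt x t t'
    have h3 : Mf * |t - t'| ≤ Mf * (1 + ‖v‖) * |t - t'| := by
      have h4 : 0 ≤ Mf * |t - t'| := mul_nonneg hg.pos (abs_nonneg _)
      nlinarith [mul_nonneg h4 (norm_nonneg v)]
    simp only [lf]
    calc |l x v t + f x t - (l x v t' + f x t')| = |(l x v t - l x v t') + (f x t - f x t')| := by
          congr 1; ring
      _ ≤ |l x v t - l x v t'| + |f x t - f x t'| := abs_add_le _ _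
      _ ≤ (M + Mf) * (1 + ‖v‖) * |t - t'| := by linarith
  l_F := fun x v t => by
    have h1 := h.l_F x v t
    have h2 := hg.bd x t
    have h3 : 0 ≤ Mf * ‖v‖ := mul_nonneg hg.pos (norm_nonneg v)
    simp only [lf]
    calc |l x v t + f x t - F x v ^ 2 / 2| = |(l x v t - F x v ^ 2 / 2) + f x t| := by
          congr 1; ring
      _ ≤ |l x v t - F x v ^ 2 / 2| + |f x t| := abs_add_le _ _
      _ ≤ (M + Mf) * (1 + ‖v‖) := by linarith

/-! ### bounds -/

theorem TE.gu_bd (h : TE β F mF MF m M l) (x v : E) (t : ℝ) :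
    ‖gu l x v t‖ ≤ kG MF M * (1 + ‖v‖) := by
  set g := gu l x v t with hg
  have hM := h.M_nonneg
  have hv := norm_nonneg v
  have hr1 : 1 ≤ 1 + ‖v‖ := by linarith
  have hc : 0 ≤ kG MF M := by unfold kG; positivity
  rcases eq_or_ne g 0 with h0 | h0
  · rw [h0, norm_zero]; positivity
  have hgp : 0 < ‖g‖ := norm_pos_iff.2 h0
  have h1 := h.conv x (v + ((1 + ‖v‖) / ‖g‖) • g) v t
  rw [← hg, add_sub_cancel_left, inner_smul_right, real_inner_self_eq_norm_sq] at h1
  have h2 := h.upp x (v + ((1 + ‖v‖) / ‖g‖) • g) t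
  have h3 := A2b_low h x v t
  have h4 : ‖v + ((1 + ‖v‖) / ‖g‖) • g‖ ≤ 2 * (1 + ‖v‖) := by
    refine (norm_add_le _ _).trans ?_
    rw [norm_smul, Real.norm_of_nonneg (by positivity), div_mul_cancel₀ _ hgp.ne']
    linarith
  have h5 : ‖v + ((1 + ‖v‖) / ‖g‖) • g‖ ^ 2 ≤ (2 * (1 + ‖v‖)) ^ 2 :=
    pow_le_pow_left₀ (norm_nonneg _) h4 2
  have h6 : (1 + ‖v‖) / ‖g‖ * ‖g‖ ^ 2 = (1 + ‖v‖) * ‖g‖ := by
    field_simp
  have h7 : 0 ≤ m / 2 * ‖((1 + ‖v‖) / ‖g‖) • g‖ ^ 2 := by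
    have := h.m_pos
    positivity
  have h8 : MF ^ 2 / 2 * ‖v + ((1 + ‖v‖) / ‖g‖) • g‖ ^ 2 ≤ MF ^ 2 / 2 * (2 * (1 + ‖v‖)) ^ 2 :=
    mul_le_mul_of_nonneg_left h5 (by positivity)
  have h8' : M * (1 + ‖v + ((1 + ‖v‖) / ‖g‖) • g‖) ≤ M * (1 + 2 * (1 + ‖v‖)) :=
    mul_le_mul_of_nonneg_left (by linarith) hM
  have h9 : (1 + ‖v‖) * ‖g‖ ≤
      MF ^ 2 / 2 * (2 * (1 + ‖v‖)) ^ 2 + M * (1 + 2 * (1 + ‖v‖)) + M * (1 + ‖v‖) := by
    rw [← h6]; linarith
  have h10 : (1 + ‖v‖) * ‖g‖ ≤ (1 + ‖v‖) * (kG MF M * (1 + ‖v‖)) := by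
    unfold kG
    have h11 : M * (1 + ‖v‖) ≤ M * (1 + ‖v‖) ^ 2 :=
      mul_le_mul_of_nonneg_left (by nlinarith) hM
    have h12 : M ≤ M * (1 + ‖v‖) ^ 2 := by nlinarith
    nlinarith [sq_nonneg (MF * (1 + ‖v‖)), mul_nonneg hM (sq_nonneg (1 + ‖v‖))]
  exact le_of_mul_le_mul_left h10 (by linarith)

theorem TE.low (h : TE β F mF MF m M l) (x v : E) (t : ℝ) :
    m / 4 * ‖v‖ ^ 2 - kC MF m M ≤ l x v t := by
  have h1 := h.conv x v 0 t
  have h2 := A2b_low h x 0 t
  have h3 := h.gu_bd x 0 t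
  have hm := h.m_pos
  rw [norm_zero, add_zero, mul_one] at h3
  rw [norm_zero, add_zero, mul_one] at h2
  rw [sub_zero] at h1
  have h4 : -(‖gu l x 0 t‖ * ‖v‖) ≤ inner ℝ (gu l x 0 t) v := by
    have := abs_real_inner_le_norm (gu l x 0 t) v
    exact (abs_le.1 this).1
  have h5 : ‖gu l x 0 t‖ * ‖v‖ ≤ kG MF M * ‖v‖ := mul_le_mul_of_nonneg_right h3 (norm_nonneg v)
  have h6 : kG MF M * ‖v‖ ≤ kG MF M ^ 2 / m + m / 4 * ‖v‖ ^ 2 := by
    have h7 : 0 ≤ (kG MF M - m / 2 * ‖v‖) ^ 2 / m := by positivity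
    have h8 : (kG MF M - m / 2 * ‖v‖) ^ 2 / m =
        kG MF M ^ 2 / m + m / 4 * ‖v‖ ^ 2 - kG MF M * ‖v‖ := by
      field_simp
      ring
    linarith
  unfold kC
  nlinarith

/-! ### continuity of the gradients -/

theorem TE.gu_cont (h : TE β F mF MF m M l) :
    Continuous (fun p : E × E × ℝ => gu l p.1 p.2.1 p.2.2) := by
  have h1 : (fun p : E × E × ℝ => gu l p.1 p.2.1 p.2.2) = fun p : E × E × ℝ =>
      (InnerProductSpace.toDual ℝ E).symm
        ((fderiv ℝ (fun p : E × E × ℝ => l p.1 p.2.1 p.2.2) p).comp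
        ((ContinuousLinearMap.inr ℝ E (E × ℝ)).comp (ContinuousLinearMap.inl ℝ E ℝ))) := by
    funext p
    unfold gu gradient
    rw [A2b_fdu h]
  rw [h1]
  have h2 : Continuous (fderiv ℝ (fun p : E × E × ℝ => l p.1 p.2.1 p.2.2)) :=
    h.smooth.continuous_fderiv (by norm_num)
  exact (InnerProductSpace.toDual ℝ E).symm.continuous.comp (h2.clm_comp continuous_const)

theorem TE.gx_cont (h : TE β F mF MF m M l) :
    Continuous (fun p : E × E × ℝ => gx l p.1 p.2.1 p.2.2) := by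
  have h1 : (fun p : E × E × ℝ => gx l p.1 p.2.1 p.2.2) = fun p : E × E × ℝ =>
      (InnerProductSpace.toDual ℝ E).symm
        ((fderiv ℝ (fun p : E × E × ℝ => l p.1 p.2.1 p.2.2) p).comp
        (ContinuousLinearMap.inl ℝ E (E × ℝ))) := by
    funext p
    unfold gx gradient
    rw [(A2b_fdx h p.1 p.2.1 p.2.2).fderiv]
  rw [h1]
  have h2 : Continuous (fderiv ℝ (fun p : E × E × ℝ => l p.1 p.2.1 p.2.2)) :=
    h.smooth.continuous_fderiv (by norm_num)
  exact (InnerProductSpace.toDual ℝ E).symm.continuous.comp (h2.clm_comp continuous_const)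

/-! ### periodicity -/

/-- periodic continuous functions are bounded for bounded velocities -/
theorem per_bdd {W : Type*} [NormedAddCommGroup W] (β : Module.Basis ι ℝ E) {Φ : E × E × ℝ → W}
    (hc : Continuous Φ) (hx : ∀ i x v t, Φ (x + β i, v, t) = Φ (x, v, t))
    (ht : ∀ x v t, Φ (x, v, t + 1) = Φ (x, v, t)) (R : ℝ) :
    ∃ C : ℝ, 0 ≤ C ∧ ∀ x v t, ‖v‖ ≤ R → ‖Φ (x, v, t)‖ ≤ C := by
  have hsp : ∀ y ∈ Submodule.span ℤ (Set.range β), ∀ x v t, Φ (x + y, v, t) = Φ (x, v, t) := by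
    intro y hy
    induction hy using Submodule.span_induction with
    | mem y hy =>
      obtain ⟨i, rfl⟩ := hy
      exact hx i
    | zero => intro x v t; rw [add_zero]
    | add y z _ _ h1 h2 => intro x v t; rw [← add_assoc, h2, h1]
    | smul n y _ h1 =>
      intro x v t
      induction n using Int.induction_on generalizing x with
      | zero => rw [zero_smul, add_zero]
      | succ k ih => rw [add_smul, one_smul, ← add_assoc, h1, ih]
      | pred k ih =>
        rw [sub_smul, one_smul]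
        have := h1 (x + (-(k : ℤ) • y - y)) v t
        rw [add_assoc, sub_add_cancel] at this
        rw [← this, ih]
  obtain ⟨r, hr⟩ := (ZSpan.fundamentalDomain_isBounded β).subset_closedBall 0
  have hK : IsCompact (Metric.closedBall (0 : E) r ×ˢ (Metric.closedBall (0 : E) R ×ˢ Icc (0 : ℝ) 1)) :=
    (isCompact_closedBall _ _).prod ((isCompact_closedBall _ _).prod isCompact_Icc)
  obtain ⟨C, hC⟩ := hK.exists_bound_of_continuousOn hc.continuousOn
  refine ⟨max C 0, le_max_right _ _, fun x v t hv => ?_⟩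
  have h1 : Φ (x, v, t) = Φ (ZSpan.fract β x, v, Int.fract t) := by
    have h2 : Φ (ZSpan.fract β x + (ZSpan.floor β x : E), v, t) = Φ (ZSpan.fract β x, v, t) :=
      hsp _ (ZSpan.floor β x).2 _ _ _
    have h3 : ZSpan.fract β x + (ZSpan.floor β x : E) = x := by
      rw [ZSpan.fract_apply, sub_add_cancel]
    rw [h3] at h2
    have h4 : Function.Periodic (fun t => Φ (ZSpan.fract β x, v, t)) 1 := fun t => ht _ _ _
    have h5 := h4.sub_zsmul_eq ⌊t⌋ (x := t)
    simp only [zsmul_eq_mul, mul_one] at h5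
    rw [h2, ← h5]
    rfl
  rw [h1]
  refine (hC _ ?_).trans (le_max_left _ _)
  refine ⟨hr (ZSpan.fract_mem_fundamentalDomain β x), ?_, ?_⟩
  · simpa using hv
  · exact ⟨Int.fract_nonneg t, (Int.fract_lt_one t).le⟩

/-- `l` is Lipschitz for bounded velocities -/
theorem TE.lip (h : TE β F mF MF m M l) (R : ℝ) : ∃ C : ℝ, 0 ≤ C ∧ ∀ x v x' v' t, ‖v‖ ≤ R → ‖v'‖ ≤ R →
    |l x v t - l x' v' t| ≤ C * (‖x - x'‖ + ‖v - v'‖) := by
  have h2 : Continuous (fderiv ℝ (fun p : E × E × ℝ => l p.1 p.2.1 p.2.2)) :=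
    h.smooth.continuous_fderiv (by norm_num)
  obtain ⟨C, hC0, hC⟩ := per_bdd (W := E × E × ℝ →L[ℝ] ℝ) β
    (Φ := fderiv ℝ (fun p : E × E × ℝ => l p.1 p.2.1 p.2.2)) h2
    (fun i x v t => by
      have h3 := fderiv_comp_add_right (𝕜 := ℝ) (f := fun p : E × E × ℝ => l p.1 p.2.1 p.2.2)
        (x := (x, v, t)) (β i, 0, 0)
      have h4 : (fun p : E × E × ℝ => (fun p : E × E × ℝ => l p.1 p.2.1 p.2.2) (p + (β i, 0, 0))) =
          fun p : E × E × ℝ => l p.1 p.2.1 p.2.2 := by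
        funext p
        simp [h.per]
      rw [h4] at h3
      rw [h3]
      simp)
    (fun x v t => by
      have h3 := fderiv_comp_add_right (𝕜 := ℝ) (f := fun p : E × E × ℝ => l p.1 p.2.1 p.2.2)
        (x := (x, v, t)) (0, 0, 1)
      have h4 : (fun p : E × E × ℝ => (fun p : E × E × ℝ => l p.1 p.2.1 p.2.2) (p + (0, 0, 1))) =
          fun p : E × E × ℝ => l p.1 p.2.1 p.2.2 := by
        funext p
        simp [h.pert]
      rw [h4] at h3
      rw [h3]
      simp) R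
  refine ⟨C, hC0, fun x v x' v' t hv hv' => ?_⟩
  have hconv : Convex ℝ {p : E × E × ℝ | ‖p.2.1‖ ≤ R} := by
    have h5 : Convex ℝ (Metric.closedBall (0 : E) R) := convex_closedBall _ _
    have h6 : {p : E × E × ℝ | ‖p.2.1‖ ≤ R} =
        ((LinearMap.fst ℝ E ℝ).comp (LinearMap.snd ℝ E (E × ℝ))) ⁻¹' (Metric.closedBall (0 : E) R) := by
      ext p; simp
    rw [h6]
    exact h5.linear_preimage _
  have h7 := hconv.norm_image_sub_le_of_norm_fderiv_le (𝕜 := ℝ)
    (f := fun p : E × E × ℝ => l p.1 p.2.1 p.2.2) (C := C) (x := (x', v', t)) (y := (x, v, t))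
    (fun p _ => (h.smooth.differentiable (by norm_num)) p) (fun p hp => hC p.1 p.2.1 p.2.2 hp) hv' hv
  have h8 : ‖((x, v, t) : E × E × ℝ) - (x', v', t)‖ ≤ ‖x - x'‖ + ‖v - v'‖ := by
    rw [Prod.mk_sub_mk, Prod.mk_sub_mk, sub_self, Prod.norm_mk, Prod.norm_mk, norm_zero]
    refine max_le ?_ (max_le ?_ ?_) <;> linarith [norm_nonneg (x - x'), norm_nonneg (v - v')]
  exact h7.trans (mul_le_mul_of_nonneg_left h8 hC0)

end A2b

end EscK
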