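import Pool.Agent.EscK.KDefs
import Pool.Agent.EscG.A1
import Pool.Agent.EscK.A2b
import Pool.Agent.EscK.A2c
import Pool.Agent.EscK.A3a
import Pool.Agent.EscF.O3
import Pool.Agent.EscF.O4
import Pool.Agent.EscF.O5

/-!
Project EscK, module A3b: geodesics of the true Lagrangian.
-/

noncomputable section

namespace EscK

open MeasureTheory Set Filter Topology Esc EscF EscG
open scoped ContDiff

variable {E : Type*} [NormedAddCommGroup E] [InnerProductSpace ℝ E] [FiniteDimensional ℝ E]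

namespace A3b

theorem cont_of_lip {a b : ℝ} {v : ℝ → E}
    (hv : ∃ C : ℝ, ∀ s ∈ Icc a b, ∀ t ∈ Icc a b, ‖v t - v s‖ ≤ C * |t - s|) :
    ContinuousOn v (Icc a b) := by
  obtain ⟨C0, hC0⟩ := hv
  have h : LipschitzOnWith ⟨max C0 0, le_max_right _ _⟩ v (Icc a b) :=
    LipschitzOnWith.of_dist_le_mul fun t ht s hs => by
      rw [dist_eq_norm, Real.dist_eq]
      exact (hC0 s hs t ht).trans (mul_le_mul_of_nonneg_right (le_max_left _ _) (abs_nonneg _))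
  exact h.continuousOn

theorem pos_bd {a b V : ℝ} {Z v : ℝ → E}
    (hZ : ∀ s ∈ Icc a b, ∀ t ∈ Icc a b, Z t - Z s = ∫ r in s..t, v r)
    (hbd : ∀ t ∈ Icc a b, ‖v t‖ ≤ V) : ∀ s ∈ Icc a b, ∀ t ∈ Icc a b, ‖Z t - Z s‖ ≤ V * |t - s| := by
  intro s hs t ht
  rw [hZ s hs t ht]
  refine intervalIntegral.norm_integral_le_of_norm_le_const fun r hr => hbd r ?_
  exact uIcc_subset_Icc hs ht (uIoc_subset_uIcc hr)

theorem exists_bd {a b : ℝ} {v : ℝ → E}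
    (hv : ∃ C : ℝ, ∀ s ∈ Icc a b, ∀ t ∈ Icc a b, ‖v t - v s‖ ≤ C * |t - s|) :
    ∃ V : ℝ, ∀ t ∈ Icc a b, ‖v t‖ ≤ V :=
  isCompact_Icc.exists_bound_of_continuousOn (cont_of_lip hv)

theorem pos_cont {a b : ℝ} {Z v : ℝ → E}
    (hv : ∃ C : ℝ, ∀ s ∈ Icc a b, ∀ t ∈ Icc a b, ‖v t - v s‖ ≤ C * |t - s|)
    (hZ : ∀ s ∈ Icc a b, ∀ t ∈ Icc a b, Z t - Z s = ∫ r in s..t, v r) :
    ContinuousOn Z (Icc a b) := by
  obtain ⟨V, hV⟩ := exists_bd hv
  have hV0 := pos_bd hZ hV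
  exact cont_of_lip ⟨V, hV0⟩

/-- integrability along a curve -/
theorem curve_ii {a b : ℝ} {Z v : ℝ → E}
    (hv : ∃ C : ℝ, ∀ s ∈ Icc a b, ∀ t ∈ Icc a b, ‖v t - v s‖ ≤ C * |t - s|)
    (hZ : ∀ s ∈ Icc a b, ∀ t ∈ Icc a b, Z t - Z s = ∫ r in s..t, v r)
    {l : E → E → ℝ → ℝ} (hl : Continuous (fun p : E × E × ℝ => l p.1 p.2.1 p.2.2)) :
    ∀ s ∈ Icc a b, ∀ t ∈ Icc a b, IntervalIntegrable (fun r => l (Z r) (v r) r) volume s t := by
  intro s hs t ht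
  have h1 := cont_of_lip hv
  have h2 := pos_cont hv hZ
  have h3 : ContinuousOn (fun r => l (Z r) (v r) r) (Icc a b) :=
    hl.comp_continuousOn (h2.prodMk (h1.prodMk continuousOn_id))
  exact (h3.mono (uIcc_subset_Icc hs ht)).intervalIntegrable

section

variable {ι : Type*} [Fintype ι] {β : Module.Basis ι ℝ E} {F : E → E → ℝ} {mF MF m M Mf : ℝ}
  {l l' : E → E → ℝ → ℝ} {lx' lu' : E → E → ℝ → E} {R Λ : ℝ}

theorem cb_l (h : TE β F mF MF m M l) : CB (kC MF m M) l :=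
  ⟨h.cb.cont, fun x u t => by
    have h1 := h.low x u t
    have h2 : 0 ≤ m / 4 * ‖u‖ ^ 2 := by
      have := h.m_pos
      positivity
    linarith⟩

theorem cb_cut (hm : 0 < m) (hc : Cut l l' lx' lu' m (kC MF m M) M R Λ) : CB (kC MF m M) l' :=
  ⟨hc.cl.toCK.cont, fun x u t => by
    have h1 := hc.low x u t
    have h2 : 0 ≤ m / 4 * ‖u‖ ^ 2 := by positivity
    linarith⟩

theorem cut_le (h : TE β F mF MF m M l) (hc : Cut l l' lx' lu' m (kC MF m M) M R Λ) {a b : ℝ}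
    (hab : a < b) (z z' : E) : kerl l' a b z z' ≤ kerl l a b z z' :=
  (cb_cut h.m_pos hc).kerl_mono (cb_l h) hc.le hab z z'

/-- a kernel geodesic of the cut-off Lagrangian is a geodesic of `l` -/
theorem geo_of_cut (h : TE β F mF MF m M l) (hc : Cut l l' lx' lu' m (kC MF m M) M R Λ)
    {a b V : ℝ} (hab : a < b) (hVR : V ≤ R) {Z v : ℝ → E} (hG : KGeo l' a b Z)
    (hv : ∃ C : ℝ, ∀ s ∈ Icc a b, ∀ t ∈ Icc a b, ‖v t - v s‖ ≤ C * |t - s|)
    (hZ : ∀ s ∈ Icc a b, ∀ t ∈ Icc a b, Z t - Z s = ∫ r in s..t, v r)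
    (hbd : ∀ t ∈ Icc a b, ‖v t‖ ≤ V) :
    Geo l a b V Z v ∧ ∀ s t, a ≤ s → s < t → t ≤ b → kerl l s t (Z s) (Z t) = kerl l' s t (Z s) (Z t) := by
  obtain ⟨C, hC⟩ := hv
  obtain ⟨u, hu, huv, htr, hact⟩ := adm_of_lip hab hC hZ
  have ha : a ∈ Icc a b := ⟨le_rfl, hab.le⟩
  have hb : b ∈ Icc a b := ⟨hab.le, le_rfl⟩
  have hck := hc.cl.toCK
  have heq : ∀ s ∈ Icc a b, ∀ t ∈ Icc a b, ∫ r in s..t, l' (Z r) (v r) r =
      ∫ r in s..t, l (Z r) (v r) r := by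
    intro s hs t ht
    refine intervalIntegral.integral_congr fun r hr => ?_
    exact hc.eq _ _ _ ((hbd r (uIcc_subset_Icc hs ht hr)).trans hVR)
  have hii := curve_ii ⟨C, hC⟩ hZ hck.cont
  have key : ∀ s t, a ≤ s → s < t → t ≤ b →
      ∫ r in s..t, l' (Z r) (v r) r = kerl l' s t (Z s) (Z t) := by
    intro s t has hst htb
    have hs : s ∈ Icc a b := ⟨has, hst.le.trans htb⟩
    have ht : t ∈ Icc a b := ⟨has.trans hst.le, htb⟩
    have e1 := kgeo_act hc.cl hab hG ⟨C, hC⟩ hZ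
    have e2 := hG.add s t has hst.le htb
    have k1 := O3.kerl_le' hck has hu (htr a ha s hs)
    have k2 := O3.kerl_le' hck hst.le hu (htr s hs t ht)
    have k3 := O3.kerl_le' hck htb hu (htr t ht b hb)
    rw [hact l' a ha s hs has] at k1
    rw [hact l' s hs t ht hst.le] at k2
    rw [hact l' t ht b hb htb] at k3
    have e3 := intervalIntegral.integral_add_adjacent_intervals (hii a ha s hs) (hii s hs b hb)
    have e4 := intervalIntegral.integral_add_adjacent_intervals (hii s hs t ht) (hii t ht b hb)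
    linarith
  have main : ∀ s t, a ≤ s → s < t → t ≤ b →
      ∫ r in s..t, l (Z r) (v r) r = kerl l s t (Z s) (Z t) ∧
        kerl l s t (Z s) (Z t) = kerl l' s t (Z s) (Z t) := by
    intro s t has hst htb
    have hs : s ∈ Icc a b := ⟨has, hst.le.trans htb⟩
    have ht : t ∈ Icc a b := ⟨has.trans hst.le, htb⟩
    have e1 := key s t has hst htb
    rw [heq s hs t ht] at e1
    have k1 := (cb_l h).kerl_le hst hu (htr s hs t ht)
    rw [hact l s hs t ht hst.le] at k1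
    have k2 := cut_le h hc hst (Z s) (Z t)
    constructor
    · linarith
    · linarith
  refine ⟨⟨⟨C, hC⟩, hZ, hbd, fun s t h1 h2 h3 => (main s t h1 h2 h3).1, ?_⟩,
    fun s t h1 h2 h3 => (main s t h1 h2 h3).2⟩
  intro s hs t ht
  have e := kgeo_el hc.cl hab hG ⟨C, hC⟩ hZ s hs t ht
  rw [hc.equ _ _ _ ((hbd t ht).trans hVR), hc.equ _ _ _ ((hbd s hs).trans hVR)] at e
  rw [e]
  refine intervalIntegral.integral_congr fun r hr => ?_
  exact hc.eqx _ _ _ ((hbd r (uIcc_subset_Icc hs ht hr)).trans hVR)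

end

end A3b

section

variable {ι : Type*} [Fintype ι] {β : Module.Basis ι ℝ E} {F : E → E → ℝ} {mF MF m M Mf : ℝ}
  {l : E → E → ℝ → ℝ} {f : E → ℝ → ℝ}

/-- minimizers of the kernels -/
theorem exists_geo (MF m M D0 : ℝ) {T0 T1 : ℝ} (hm : 0 < m) (hT0 : 0 < T0) : ∃ V : ℝ, 0 < V ∧
    ∀ {ι : Type} [Fintype ι] {β : Module.Basis ι ℝ E} {F : E → E → ℝ} {mF : ℝ}
      {l : E → E → ℝ → ℝ}, TE β F mF MF m M l → ∀ {a b : ℝ}, T0 ≤ b - a → b - a ≤ T1 →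
      ∀ {z z' : E}, ‖z' - z‖ ≤ D0 →
      (∃ Z v : ℝ → E, Z a = z ∧ Z b = z' ∧ Geo l a b V Z v) ∧
      ∀ {l' : E → E → ℝ → ℝ} {lx' lu' : E → E → ℝ → E} {R Λ : ℝ},
        Cut l l' lx' lu' m (kC MF m M) M R Λ → V ≤ R → kerl l a b z z' = kerl l' a b z z' := by
  obtain ⟨V, hV, hsp⟩ := cut_speed (E := E) MF m M D0 (T1 := T1) hm hT0
  refine ⟨V, hV, ?_⟩
  intro ι _ β F mF l h a b h0 h1 z z' hz
  have hab : a < b := by linarith
  have key : ∀ {l' : E → E → ℝ → ℝ} {lx' lu' : E → E → ℝ → E} {R Λ : ℝ},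
      Cut l l' lx' lu' m (kC MF m M) M R Λ → V ≤ R →
      ∃ Z v : ℝ → E, Z a = z ∧ Z b = z' ∧ Geo l a b V Z v ∧ kerl l a b z z' = kerl l' a b z z' := by
    intro l' lx' lu' R Λ hc hR
    obtain ⟨Z, hZa, hZb, hG⟩ := exists_kgeo hc.cl.toCK hab z z'
    obtain ⟨v, hv, hZ⟩ := kgeo_c11 hc.cl hab hG
    have hbd := hsp h hc h0 h1 hG (by rw [hZa, hZb]; exact hz) hv hZ
    obtain ⟨k1, k2⟩ := A3b.geo_of_cut h hc hab hR hG hv hZ hbd
    have k3 := k2 a b le_rfl hab le_rfl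
    rw [hZa, hZb] at k3
    exact ⟨Z, v, hZa, hZb, k1, k3⟩
  constructor
  · obtain ⟨l', lx', lu', Λ, hc⟩ := h.exists_cut V
    obtain ⟨Z, v, e1, e2, e3, -⟩ := key hc le_rfl
    exact ⟨Z, v, e1, e2, e3⟩
  · intro l' lx' lu' R Λ hc hR
    obtain ⟨Z, v, -, -, -, e4⟩ := key hc hR
    exact e4

/-- the kernel is additive along a geodesic -/
theorem geo_add (hl : TE β F mF MF m M l) {V : ℝ} {a b : ℝ} {Z v : ℝ → E} (h : Geo l a b V Z v)
    {r : ℝ} (ha : a < r) (hb : r < b) :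
    kerl l a r (Z a) (Z r) + kerl l r b (Z r) (Z b) = kerl l a b (Z a) (Z b) := by
  have hii := A3b.curve_ii h.lip h.pos hl.cb.cont
  have ha' : a ∈ Icc a b := ⟨le_rfl, (ha.trans hb).le⟩
  have hb' : b ∈ Icc a b := ⟨(ha.trans hb).le, le_rfl⟩
  have hr' : r ∈ Icc a b := ⟨ha.le, hb.le⟩
  rw [← h.act a r le_rfl ha hb.le, ← h.act r b ha.le hb le_rfl, ← h.act a b le_rfl (ha.trans hb) le_rfl]
  exact intervalIntegral.integral_add_adjacent_intervals (hii a ha' r hr') (hii r hr' b hb')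

/-- cone lemma: the bump is felt only in the cones at the end points -/
theorem geo_cone (hl : TE β F mF MF m M (lf l f)) {f' : E → ℝ → ℝ} (hf : Pt β f) (hf' : Pt β f')
    {V : ℝ} {a b : ℝ} (hab : a < b) {Z v : ℝ → E} (h : Geo (lf l f') a b V Z v) (κ : ℝ → ℝ)
    (hκ : IntervalIntegrable κ volume a b)
    (hle : ∀ t ∈ Icc a b, ∀ x, ‖x - Z a‖ ≤ V * (t - a) → ‖x - Z b‖ ≤ V * (b - t) →
      f x t + κ t ≤ f' x t) :
    kerl (lf l f) a b (Z a) (Z b) + ∫ t in a..b, κ t ≤ kerl (lf l f') a b (Z a) (Z b) := by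
  have ha' : a ∈ Icc a b := ⟨le_rfl, hab.le⟩
  have hb' : b ∈ Icc a b := ⟨hab.le, le_rfl⟩
  have hcf : Continuous (fun p : E × ℝ => f p.1 p.2) := hf.smooth.continuous
  have hcf' : Continuous (fun p : E × ℝ => f' p.1 p.2) := hf'.smooth.continuous
  have hc : Continuous (fun p : E × E × ℝ => lf l f p.1 p.2.1 p.2.2) := hl.cb.cont
  have hc' : Continuous (fun p : E × E × ℝ => lf l f' p.1 p.2.1 p.2.2) := by
    have e : (fun p : E × E × ℝ => lf l f' p.1 p.2.1 p.2.2) = fun p : E × E × ℝ =>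
        lf l f p.1 p.2.1 p.2.2 - f p.1 p.2.2 + f' p.1 p.2.2 := by
      funext p
      simp only [lf]
      ring
    rw [e]
    have h1 : Continuous (fun p : E × E × ℝ => f p.1 p.2.2) :=
      hcf.comp (continuous_fst.prodMk (continuous_snd.comp continuous_snd))
    have h2 : Continuous (fun p : E × E × ℝ => f' p.1 p.2.2) :=
      hcf'.comp (continuous_fst.prodMk (continuous_snd.comp continuous_snd))
    exact (hc.sub h1).add h2
  have hii := A3b.curve_ii h.lip h.pos hc a ha' b hb'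
  have hii' := A3b.curve_ii h.lip h.pos hc' a ha' b hb'
  have hpos := A3b.pos_bd h.pos h.bd
  obtain ⟨C, hC⟩ := h.lip
  obtain ⟨u, hu, huv, htr, hact⟩ := adm_of_lip hab hC h.pos
  have k1 := hl.cb.kerl_le hab hu (htr a ha' b hb')
  rw [hact (lf l f) a ha' b hb' hab.le] at k1
  rw [← h.act a b le_rfl hab le_rfl]
  have k2 : (∫ r in a..b, lf l f (Z r) (v r) r) + ∫ t in a..b, κ t =
      ∫ r in a..b, (lf l f (Z r) (v r) r + κ r) := (intervalIntegral.integral_add hii hκ).symm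
  have k3 : ∫ r in a..b, (lf l f (Z r) (v r) r + κ r) ≤ ∫ r in a..b, lf l f' (Z r) (v r) r := by
    refine intervalIntegral.integral_mono_on hab.le (hii.add hκ) hii' fun r hr => ?_
    have h1 := hpos a ha' r hr
    have h2 := hpos b hb' r hr
    rw [abs_of_nonneg (by linarith [hr.1])] at h1
    rw [abs_of_nonpos (by linarith [hr.2])] at h2
    have h3 := hle r hr (Z r) h1 (by linarith)
    simp only [lf]
    linarith
  linarith

/-- lower bound of the speed, uniform -/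
theorem speed_low (MF m M T1 : ℝ) (hm : 0 < m) (hT1 : 0 < T1) : ∃ c C : ℝ, 0 < c ∧
    ∀ {ι : Type} [Fintype ι] {β : Module.Basis ι ℝ E} {F : E → E → ℝ} {mF : ℝ}
      {l : E → E → ℝ → ℝ}, TE β F mF MF m M l → ∀ {a b : ℝ}, a < b → b - a ≤ T1 →
      ∀ {V : ℝ} {Z v : ℝ → E}, Geo l a b V Z v →
      ∀ t ∈ Icc a b, c * ‖Z b - Z a‖ ^ 2 - C ≤ ‖v t‖ ^ 2 := by
  set G : ℝ := |kG MF M| with hG
  set k : ℝ := 3 / 2 * G + 1 with hk
  have hG0 : 0 ≤ G := abs_nonneg _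
  have hk0 : 0 < k := by positivity
  refine ⟨m / (4 * k * T1 ^ 2), (G / 2 + kC MF m M + M + M * T1 + (M * T1) ^ 2 / m) / k, by positivity, ?_⟩
  intro ι _ β F mF l h a b hab hT V Z v hGeo t ht
  have ha' : a ∈ Icc a b := ⟨le_rfl, hab.le⟩
  have hb' : b ∈ Icc a b := ⟨hab.le, le_rfl⟩
  have hM := h.M_nonneg
  -- the energy
  obtain ⟨l', lx', lu', Λ, hc⟩ := h.exists_cut V
  have hen := energy_lip hc.cl hc.l_t hGeo.lip hGeo.pos (fun s hs t ht => by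
    rw [hc.equ _ _ _ (hGeo.bd t ht), hc.equ _ _ _ (hGeo.bd s hs), hGeo.el s hs t ht]
    refine intervalIntegral.integral_congr fun r hr => ?_
    exact (hc.eqx _ _ _ (hGeo.bd r (uIcc_subset_Icc hs ht hr))).symm)
  -- maximal speed
  obtain ⟨t0, ht0, hmax⟩ := isCompact_Icc.exists_isMaxOn ⟨a, ha'⟩
    (A3b.cont_of_lip hGeo.lip).norm
  have hZ1 : ‖Z b - Z a‖ ≤ ‖v t0‖ * T1 := by
    have h1 := A3b.pos_bd hGeo.pos (V := ‖v t0‖) (fun r hr => hmax hr) a ha' b hb'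
    rw [abs_of_pos (by linarith)] at h1
    exact h1.trans (mul_le_mul_of_nonneg_left hT (norm_nonneg _))
  have hZ2 : ‖Z b - Z a‖ ^ 2 ≤ ‖v t0‖ ^ 2 * T1 ^ 2 := by
    rw [← mul_pow]
    exact pow_le_pow_left₀ (norm_nonneg _) hZ1 2
  -- lower bound of the energy
  have hF0 : ∀ x, F x 0 = 0 := by
    intro x
    have := h.fins.hom x 0 0 le_rfl
    simpa using this
  have hlow : ∀ x w t, m / 2 * ‖w‖ ^ 2 - M ≤ inner ℝ (gu l x w t) w - l x w t := by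
    intro x w t
    have h1 := h.conv x 0 w t
    have h2 := (abs_le.mp (h.l_F x 0 t)).2
    rw [hF0] at h2
    rw [zero_sub, inner_neg_right, norm_neg] at h1
    norm_num at h2
    linarith
  -- upper bound
  have hupp : ∀ x w t, inner ℝ (gu l x w t) w - l x w t ≤ G / 2 + k * ‖w‖ ^ 2 + kC MF m M := by
    intro x w t
    have h1 := real_inner_le_norm (gu l x w t) w
    have h2 := h.gu_bd x w t
    have h3 := h.low x w t
    have h3' : 0 ≤ m / 4 * ‖w‖ ^ 2 := by positivity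
    have h4 : kG MF M ≤ G := le_abs_self _
    have hw := norm_nonneg w
    have h5 : ‖gu l x w t‖ * ‖w‖ ≤ G * (1 + ‖w‖) * ‖w‖ :=
      mul_le_mul_of_nonneg_right (h2.trans (mul_le_mul_of_nonneg_right h4 (by linarith))) hw
    have h6 : (1 + ‖w‖) * ‖w‖ ≤ 1 / 2 + 3 / 2 * ‖w‖ ^ 2 := by nlinarith [sq_nonneg (‖w‖ - 1)]
    have h7 := mul_le_mul_of_nonneg_left h6 hG0
    have h8 : k * ‖w‖ ^ 2 = 3 / 2 * G * ‖w‖ ^ 2 + ‖w‖ ^ 2 := by rw [hk]; ring
    nlinarith [sq_nonneg ‖w‖]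
  -- variation of the energy
  have hint : ∀ s' ∈ Icc a b, ∀ t' ∈ Icc a b, s' ≤ t' →
      M * ∫ r in s'..t', (1 + ‖v r‖) ≤ M * (T1 * (1 + ‖v t0‖)) := by
    intro s' hs' t' ht' hst
    refine mul_le_mul_of_nonneg_left ?_ hM
    have h1 : ‖∫ r in s'..t', (1 + ‖v r‖)‖ ≤ (1 + ‖v t0‖) * |t' - s'| := by
      refine intervalIntegral.norm_integral_le_of_norm_le_const fun r hr => ?_
      have hr' : r ∈ Icc a b := uIcc_subset_Icc hs' ht' (uIoc_subset_uIcc hr)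
      have h2 : ‖v r‖ ≤ ‖v t0‖ := hmax hr'
      rw [Real.norm_eq_abs, abs_of_nonneg (by positivity)]
      linarith
    have h3 : |t' - s'| ≤ T1 := by
      rw [abs_le]
      constructor <;> linarith [ht'.1, ht'.2, hs'.1, hs'.2]
    have h4 : (0 : ℝ) ≤ 1 + ‖v t0‖ := by positivity
    calc ∫ r in s'..t', (1 + ‖v r‖) ≤ ‖∫ r in s'..t', (1 + ‖v r‖)‖ := Real.le_norm_self _
      _ ≤ (1 + ‖v t0‖) * |t' - s'| := h1
      _ ≤ (1 + ‖v t0‖) * T1 := mul_le_mul_of_nonneg_left h3 h4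
      _ = T1 * (1 + ‖v t0‖) := by ring
  have e1 : |(inner ℝ (gu l (Z t) (v t) t) (v t) - l (Z t) (v t) t) -
      (inner ℝ (gu l (Z t0) (v t0) t0) (v t0) - l (Z t0) (v t0) t0)| ≤ M * (T1 * (1 + ‖v t0‖)) := by
    rcases le_total t0 t with h1 | h1
    · have h2 := hen t0 ht0 t ht h1
      rw [hc.equ _ _ _ (hGeo.bd t ht), hc.equ _ _ _ (hGeo.bd t0 ht0), hc.eq _ _ _ (hGeo.bd t ht),
        hc.eq _ _ _ (hGeo.bd t0 ht0)] at h2
      exact h2.trans (hint t0 ht0 t ht h1)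
    · have h2 := hen t ht t0 ht0 h1
      rw [hc.equ _ _ _ (hGeo.bd t ht), hc.equ _ _ _ (hGeo.bd t0 ht0), hc.eq _ _ _ (hGeo.bd t ht),
        hc.eq _ _ _ (hGeo.bd t0 ht0), abs_sub_comm] at h2
      exact h2.trans (hint t ht t0 ht0 h1)
  have e2 := (abs_le.mp e1).1
  have e3 := hlow (Z t0) (v t0) t0
  have e4 := hupp (Z t) (v t) t
  have e5 : M * T1 * ‖v t0‖ ≤ m / 4 * ‖v t0‖ ^ 2 + (M * T1) ^ 2 / m := by
    have h1 : 0 ≤ m / 4 * (‖v t0‖ - 2 * (M * T1) / m) ^ 2 := by positivity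
    have h2 : m / 4 * (‖v t0‖ - 2 * (M * T1) / m) ^ 2 =
        m / 4 * ‖v t0‖ ^ 2 + (M * T1) ^ 2 / m - M * T1 * ‖v t0‖ := by
      field_simp
      ring
    linarith
  have e7 : m / 4 * ‖v t0‖ ^ 2 ≤
      k * ‖v t‖ ^ 2 + (G / 2 + kC MF m M + M + M * T1 + (M * T1) ^ 2 / m) := by
    have h1 : M * (T1 * (1 + ‖v t0‖)) = M * T1 + M * T1 * ‖v t0‖ := by ring
    linarith
  have e8 : m / (4 * k * T1 ^ 2) * ‖Z b - Z a‖ ^ 2 ≤ m / (4 * k) * ‖v t0‖ ^ 2 := by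
    have : m / (4 * k * T1 ^ 2) * ‖Z b - Z a‖ ^ 2 ≤ m / (4 * k * T1 ^ 2) * (‖v t0‖ ^ 2 * T1 ^ 2) :=
      mul_le_mul_of_nonneg_left hZ2 (by positivity)
    refine this.trans (le_of_eq ?_)
    field_simp
  have e9 : m / (4 * k) * ‖v t0‖ ^ 2 ≤
      ‖v t‖ ^ 2 + (G / 2 + kC MF m M + M + M * T1 + (M * T1) ^ 2 / m) / k := by
    have h1 : m / (4 * k) * ‖v t0‖ ^ 2 = (m / 4 * ‖v t0‖ ^ 2) / k := by
      field_simp
    have h2 : ‖v t‖ ^ 2 + (G / 2 + kC MF m M + M + M * T1 + (M * T1) ^ 2 / m) / k =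
        (k * ‖v t‖ ^ 2 + (G / 2 + kC MF m M + M + M * T1 + (M * T1) ^ 2 / m)) / k := by
      rw [add_div (k * ‖v t‖ ^ 2), mul_div_cancel_left₀ _ hk0.ne']
    rw [h1, h2]
    exact div_le_div_of_nonneg_right e7 hk0.le
  linarith

end

end EscK
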