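import Pool.Agent.EscK.KDefs
import Pool.Agent.EscG.A5a

/-!
Project EscK (MP_6acca1_an), module A5a: kernels at speed `s`, elementary properties (helper21).
-/

set_option linter.unusedSectionVars false
set_option linter.unusedVariables false

noncomputable section

namespace EscK

open MeasureTheory Set Filter Topology Esc EscF EscG
open scoped ContDiff

section A5

variable {E : Type*} [NormedAddCommGroup E] [InnerProductSpace ℝ E] [FiniteDimensional ℝ E]
  {ι : Type} [Fintype ι] {β : Module.Basis ι ℝ E} {F : E → E → ℝ} {mF MF m M Mf : ℝ}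
  {l : E → E → ℝ → ℝ} {d : ℕ} {b : Fin d → E} {B : E → ℝ} {c : Fin d → ℝ}

/-- pointwise lower bound at speed `s` -/
theorem A5a_pt (h : TE β F mF MF m M l) (s : ℝ) (x v : E) (t : ℝ) :
    (F x v - s) ^ 2 / 4 + s * F x v - (kc mF M s + s ^ 2 / 2) ≤ l x v t := by
  have h1 := (abs_le.mp (h.l_F x v t)).1
  have h2 := h.fins.low x v
  have hm := h.fins.mF_pos
  have h3 : M * ‖v‖ ≤ M / mF * F x v := by
    have h4 : M / mF * (mF * ‖v‖) ≤ M / mF * F x v :=
      mul_le_mul_of_nonneg_left h2 (div_nonneg h.M_nonneg hm.le)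
    have h5 : M / mF * (mF * ‖v‖) = M * ‖v‖ := by
      field_simp
    linarith
  have h6 := sq_nonneg ((F x v - s) / 2 - M / mF)
  unfold kc
  nlinarith

theorem A5a_cb (h : TE β F mF MF m M l) : CB (M + (M / mF) ^ 2) l := by
  refine ⟨h.smooth.continuous, fun x u t => ?_⟩
  have h1 := A5a_pt h 0 x u t
  have h2 := sq_nonneg (F x u - 0)
  unfold kc at h1
  nlinarith

theorem A5a_perl (hbβ : ∀ i, ∃ j, b i = β j) (h : TE β F mF MF m M l) (n : Fin d → ℤ) :
    ∀ x u t, l (x + lv b n) u t = l x u t := by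
  intro x u t
  refine A5a_per (g := fun y => l y u t) (fun i y => ?_) n x
  obtain ⟨j, hj⟩ := hbβ i
  simp only [hj]
  exact h.per j y u t

/-- lower bound of the action at speed `s` -/
theorem act_speed (h : TE β F mF MF m M l) (hB : Cal b F B c) {s : ℝ} (hs : 0 ≤ s) {t t' : ℝ} (htt : t < t') (z : E)
    {u : ℝ → E} (hu : Adm u) :
    (∫ r in t..t', (F (traj t z u r) (u r) - s) ^ 2 / 4) + s * ((∫ r in t..t', F (traj t z u r) (u r)) -
      (B (traj t z u t') - B z)) - kc mF M s * (t' - t) ≤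
      actl l t t' z u - s * (B (traj t z u t') - B z) + s ^ 2 / 2 * (t' - t) := by
  have hi := A5a_ii h.fins hu t z t t'
  have hq : IntervalIntegrable (fun r => (F (traj t z u r) (u r) - s) ^ 2 / 4) volume t t' := by
    have hq := (A5a_iiQ h.fins s hu t z t t').const_mul (1 / 2)
    refine hq.congr (fun r _ => ?_)
    show 1 / 2 * ((F (traj t z u r) (u r) - s) ^ 2 / 2) = (F (traj t z u r) (u r) - s) ^ 2 / 4
    ring
  have h1 : (∫ r in t..t', ((F (traj t z u r) (u r) - s) ^ 2 / 4 + s * F (traj t z u r) (u r) -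
      (kc mF M s + s ^ 2 / 2))) ≤ actl l t t' z u := by
    unfold actl
    exact intervalIntegral.integral_mono_on htt.le ((hq.add (hi.const_mul s)).sub (by simp))
      ((A5a_cb h).ii hu t z t t') fun r _ => A5a_pt h s _ _ r
  rw [intervalIntegral.integral_sub (hq.add (hi.const_mul s)) (by simp),
    intervalIntegral.integral_add hq (hi.const_mul s), intervalIntegral.integral_const_mul,
    intervalIntegral.integral_const, smul_eq_mul] at h1
  linarith

theorem kerl_speed_ge (h : TE β F mF MF m M l) (hB : Cal b F B c) {s : ℝ} (hs : 0 ≤ s) {t t' : ℝ}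
    (htt : t < t') (z z' : E) :
    -kc mF M s * (t' - t) ≤ kerl l t t' z z' - s * (B z' - B z) + s ^ 2 / 2 * (t' - t) := by
  have h1 : -kc mF M s * (t' - t) + s * (B z' - B z) - s ^ 2 / 2 * (t' - t) ≤ kerl l t t' z z' := by
    refine le_kerl htt z z' fun u hu hz => ?_
    have h2 := act_speed h hB hs htt z hu
    have h3 := hB.cal z u hu t t' htt.le
    have h4 : 0 ≤ ∫ r in t..t', (F (traj t z u r) (u r) - s) ^ 2 / 4 :=
      intervalIntegral.integral_nonneg htt.le fun r _ => by positivity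
    have h5 : 0 ≤ s * ((∫ r in t..t', F (traj t z u r) (u r)) - (B (traj t z u t') - B z)) :=
      mul_nonneg hs (by linarith)
    rw [hz] at h2 h5
    linarith
  linarith

/-- displacement bound -/
theorem disp_le (h : TE β F mF MF m M l) (hB : Cal b F B c) {s : ℝ} (hs : 0 ≤ s) {t t' N : ℝ}
    (htt : t < t') (z z' : E)
    (hN : kerl l t t' z z' - s * (B z' - B z) + s ^ 2 / 2 * (t' - t) ≤ N) :
    mF * ‖z' - z‖ ≤ s * (t' - t) + Real.sqrt (4 * (N + kc mF M s * (t' - t)) * (t' - t)) := by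
  have hT : 0 < t' - t := by linarith
  by_cases hX : mF * ‖z' - z‖ - s * (t' - t) ≤ 0
  · have := Real.sqrt_nonneg (4 * (N + kc mF M s * (t' - t)) * (t' - t))
    linarith
  · push Not at hX
    have h1 : (mF * ‖z' - z‖ - s * (t' - t)) ^ 2 ≤ 4 * (N + kc mF M s * (t' - t)) * (t' - t) := by
      refine le_of_forall_pos_le_add fun ε hε => ?_
      have hε' : 0 < ε / (4 * (t' - t)) := by positivity
      obtain ⟨u, hu, hz, hlt⟩ := (A5a_cb h).exists_lt htt z z' hε'
      have h2 := act_speed h hB hs htt z hu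
      have h3 := hB.cal z u hu t t' htt.le
      have h5 : 0 ≤ s * ((∫ r in t..t', F (traj t z u r) (u r)) - (B (traj t z u t') - B z)) :=
        mul_nonneg hs (by linarith)
      rw [hz] at h2 h5
      have hi := A5a_ii h.fins hu t z t t'
      have hq := A5a_iiQ h.fins s hu t z t t'
      have h6 := A5a_cs (g := fun r => F (traj t z u r) (u r) - s) htt (hi.sub (by simp)) hq
      have hq2 : (∫ r in t..t', (F (traj t z u r) (u r) - s) ^ 2 / 2) =
          2 * ∫ r in t..t', (F (traj t z u r) (u r) - s) ^ 2 / 4 := by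
        rw [← intervalIntegral.integral_const_mul]
        refine intervalIntegral.integral_congr fun r _ => ?_
        show (F (traj t z u r) (u r) - s) ^ 2 / 2 = 2 * ((F (traj t z u r) (u r) - s) ^ 2 / 4)
        ring
      rw [intervalIntegral.integral_sub hi (by simp), intervalIntegral.integral_const,
        smul_eq_mul, hq2] at h6
      have h7 : mF * ‖z' - z‖ ≤ ∫ r in t..t', F (traj t z u r) (u r) := by
        have h8 : ‖z' - z‖ ≤ ∫ r in t..t', ‖u r‖ := by
          have h9 : z' - z = ∫ r in t..t', u r := by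
            rw [← hz]
            simp [traj]
          rw [h9]
          exact intervalIntegral.norm_integral_le_integral_norm htt.le
        have h10 : (∫ r in t..t', mF * ‖u r‖) ≤ ∫ r in t..t', F (traj t z u r) (u r) :=
          intervalIntegral.integral_mono_on htt.le ((hu.ii t t').norm.const_mul mF) hi
            fun r _ => h.fins.low _ _
        rw [intervalIntegral.integral_const_mul] at h10
        have h11 := mul_le_mul_of_nonneg_left h8 h.fins.mF_pos.le
        linarith
      have h12 : (∫ r in t..t', (F (traj t z u r) (u r) - s) ^ 2 / 4) ≤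
          N + kc mF M s * (t' - t) + ε / (4 * (t' - t)) := by linarith
      have h13 : (mF * ‖z' - z‖ - s * (t' - t)) ^ 2 ≤
          ((∫ r in t..t', F (traj t z u r) (u r)) - (t' - t) * s) ^ 2 := by
        refine pow_le_pow_left₀ hX.le ?_ 2
        linarith
      have h14 : 2 * (t' - t) * (2 * ∫ r in t..t', (F (traj t z u r) (u r) - s) ^ 2 / 4) ≤
          2 * (t' - t) * (2 * (N + kc mF M s * (t' - t) + ε / (4 * (t' - t)))) :=
        mul_le_mul_of_nonneg_left (by linarith) (by positivity)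
      have h15 : 2 * (t' - t) * (2 * (N + kc mF M s * (t' - t) + ε / (4 * (t' - t)))) =
          4 * (N + kc mF M s * (t' - t)) * (t' - t) + ε := by
        field_simp
        ring
      linarith
    have h2 : mF * ‖z' - z‖ - s * (t' - t) ≤
        Real.sqrt (4 * (N + kc mF M s * (t' - t)) * (t' - t)) := Real.le_sqrt_of_sq_le h1
    linarith

theorem A5a_bdd (h : TE β F mF MF m M l) (hB : Cal b F B c) {s : ℝ} (hs : 0 ≤ s) {t t' : ℝ}
    (htt : t < t') (z z' : E) : BddBelow (range fun n : Fin d → ℤ =>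
      kerl l t t' z (z' + lv b n) - s * (B (z' + lv b n) - B z) + s ^ 2 / 2 * (t' - t)) := by
  refine ⟨-kc mF M s * (t' - t), ?_⟩
  rintro _ ⟨n, rfl⟩
  exact kerl_speed_ge h hB hs htt z _

theorem K_le (h : TE β F mF MF m M l) (hB : Cal b F B c) {s : ℝ} (hs : 0 ≤ s) {t t' : ℝ}
    (htt : t < t') (z z' : E) (n : Fin d → ℤ) : K b B s l t t' z z' ≤
      kerl l t t' z (z' + lv b n) - s * (B (z' + lv b n) - B z) + s ^ 2 / 2 * (t' - t) :=
  ciInf_le (A5a_bdd h hB hs htt z z') n

theorem K_ge (h : TE β F mF MF m M l) (hB : Cal b F B c) {s : ℝ} (hs : 0 ≤ s) {t t' : ℝ}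
    (htt : t < t') (z z' : E) : -kc mF M s * (t' - t) ≤ K b B s l t t' z z' :=
  le_ciInf fun _ => kerl_speed_ge h hB hs htt z _

theorem K_attained (hb : LinearIndependent ℝ b) (h : TE β F mF MF m M l) (hB : Cal b F B c) {s : ℝ}
    (hs : 0 ≤ s) {t t' : ℝ} (htt : t < t') (z z' : E) : ∃ n : Fin d → ℤ, K b B s l t t' z z' =
      kerl l t t' z (z' + lv b n) - s * (B (z' + lv b n) - B z) + s ^ 2 / 2 * (t' - t) := by
  set g : (Fin d → ℤ) → ℝ := fun n =>
    kerl l t t' z (z' + lv b n) - s * (B (z' + lv b n) - B z) + s ^ 2 / 2 * (t' - t) with hg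
  have hfin : {n | g n ≤ g 0}.Finite := by
    refine (A5a_fin hb ((s * (t' - t) +
      Real.sqrt (4 * (g 0 + kc mF M s * (t' - t)) * (t' - t))) / mF +
      ‖z' - z‖)).subset fun n hn => ?_
    have h1 := disp_le h hB hs htt z (z' + lv b n) hn
    have h2 : ‖z' + lv b n - z‖ ≤
        (s * (t' - t) + Real.sqrt (4 * (g 0 + kc mF M s * (t' - t)) * (t' - t))) / mF := by
      rw [le_div_iff₀ h.fins.mF_pos]
      linarith
    have h3 : ‖lv b n‖ ≤ ‖z' + lv b n - z‖ + ‖z' - z‖ := by
      have e : lv b n = (z' + lv b n - z) - (z' - z) := by abel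
      calc ‖lv b n‖ = ‖(z' + lv b n - z) - (z' - z)‖ := by rw [← e]
        _ ≤ _ := norm_sub_le _ _
    show ‖lv b n‖ ≤ _
    linarith
  obtain ⟨n, hn, hmin⟩ := Set.exists_min_image _ g hfin ⟨0, le_refl (g 0)⟩
  refine ⟨n, le_antisymm (K_le h hB hs htt z z' n) (le_ciInf fun k => ?_)⟩
  show g n ≤ g k
  by_cases hk : g k ≤ g 0
  · exact hmin k hk
  · exact hn.trans (not_le.mp hk).le

theorem K_le_add (hb : LinearIndependent ℝ b) (hbβ : ∀ i, ∃ j, b i = β j) (h : TE β F mF MF m M l)
    (hB : Cal b F B c) {s : ℝ} (hs : 0 ≤ s) {t t' t'' : ℝ} (htt : t < t') (htt' : t' < t'')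
    (z x z' : E) : K b B s l t t'' z z' ≤ K b B s l t t' z x + K b B s l t' t'' x z' := by
  obtain ⟨n, hn⟩ := K_attained hb h hB hs htt z x
  obtain ⟨k, hk⟩ := K_attained hb h hB hs htt' x z'
  rw [hn, hk]
  refine (K_le h hB hs (htt.trans htt') z z' (k + n)).trans ?_
  have h1 := (A5a_cb h).kerl_le_add htt htt' z (x + lv b n) (z' + lv b k + lv b n)
  rw [kerl_shift (lv b n) (A5a_perl hbβ h n)] at h1
  have h2 := hB.lvB n (z' + lv b k)
  have h3 := hB.lvB n x
  rw [A5a_lv_add, ← add_assoc]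
  have h4 : B (z' + lv b k + lv b n) - B z = (B (x + lv b n) - B z) + (B (z' + lv b k) - B x) := by
    linarith
  rw [h4]
  nlinarith

theorem K_per (hbβ : ∀ i, ∃ j, b i = β j) (h : TE β F mF MF m M l) (hB : Cal b F B c) (s : ℝ)
    (t t' : ℝ) (z z' : E) (n n' : Fin d → ℤ) :
    K b B s l t t' (z + lv b n) (z' + lv b n') = K b B s l t t' z z' := by
  unfold K
  refine Equiv.iInf_congr (Equiv.addRight (n' - n)) fun k => ?_
  have h1 : z' + lv b n' + lv b k = z' + lv b (k + (n' - n)) + lv b n := by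
    rw [add_assoc, add_assoc, ← A5a_lv_add, ← A5a_lv_add]
    congr 2
    abel
  have h2 := hB.lvB n (z' + lv b (k + (n' - n)))
  have h3 := hB.lvB n z
  simp only [Equiv.coe_addRight]
  rw [h1, kerl_shift (lv b n) (A5a_perl hbβ h n), h2, h3]
  ring

end A5

end EscK
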