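import Pool.Agent.EscK.KDefs
import Pool.Agent.EscG.B3

/-!
Project EscK, module B3b: the data of a calibrated closed curve, with the minimality of the slow vector.
-/

noncomputable section

namespace EscK

open MeasureTheory Set Filter Topology Esc EscF EscG
open scoped ContDiff

variable {ι : Type} [Fintype ι] {E : Type*} [NormedAddCommGroup E] [InnerProductSpace ℝ E]
  [FiniteDimensional ℝ E] {β : Module.Basis ι ℝ E} {F : E → E → ℝ} {mF MF : ℝ} {B : E → ℝ} {k0 : ι}
  {len : ℝ} {c c' : ℝ → E}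

/-- the slow vector `g` can be chosen such that the passage through the gap is the cheapest one -/
theorem gdC_ok_min (h : CalC β F mF MF B k0 len c c') {k1 : ι} (hk : k1 ≠ k0) :
    ∃ g : E, (gdC β F mF MF B k0 len c g).Ok ∧
      ∀ v ∈ (gdC β F mF MF B k0 len c g).Lam, ¬ (gdC β F mF MF B k0 len c g).InJ v →
        (gdC β F mF MF B k0 len c g).U ≤ (gdC β F mF MF B k0 len c g).j (c 0) (c 0 + v) := by
  have hne : ∃ v ∈ (gdC β F mF MF B k0 len c 0).Lam, ¬ (gdC β F mF MF B k0 len c 0).InJ v := by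
    refine ⟨β k1, Submodule.subset_span (Set.mem_range_self k1), ?_⟩
    rintro ⟨n, hn⟩
    have h1 : β k1 = ((n 0 : ℤ) : ℝ) • β k0 := by
      rw [hn]
      simp [lv, gdC]
    have h2 := congrArg (fun v => β.repr v k1) h1
    simp only [Module.Basis.repr_self, map_smul, Finsupp.smul_apply, Finsupp.single_eq_same] at h2
    rw [Finsupp.single_eq_of_ne hk] at h2
    simp at h2
  obtain ⟨g, hg, hgJ, hU, hmin⟩ := B3_exists_min (gdC_ok0 h 0) hne
  exact ⟨g, B3_ok (gdC_ok0 h g) rfl hg hgJ hU hmin, hmin⟩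

end EscK
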