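import Pool.Agent.EscK.KDefs
import Pool.Agent.EscG.A1
import Pool.Agent.EscG.A5a
import Pool.Agent.EscG.C1
import Pool.Agent.EscG.C2
import Pool.Agent.EscK.A2b
import Pool.Agent.EscK.A5a

/-!
Project EscK (MP_6acca1_an), module C6: kernels against passing costs, Lagrangians at distance
`O(1 + ‖v‖)` of the energy.
-/

set_option linter.unusedSectionVars false
set_option linter.unusedVariables false

noncomputable section

namespace EscK

open MeasureTheory Set Filter Topology Esc EscF EscG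
open scoped ContDiff

variable {ι : Type} [Fintype ι] {d : ℕ} {E : Type*} [NormedAddCommGroup E] [InnerProductSpace ℝ E]
  [FiniteDimensional ℝ E] {D : GD ι d E} {p : GP} {m M Mf : ℝ} {L : LP} {ll l : E → E → ℝ → ℝ}
  {f f' : E → ℝ → ℝ}

/-! ### auxiliary facts -/

theorem C6_cbsq {β : Module.Basis ι ℝ E} {F : E → E → ℝ} {mF MF : ℝ} (hF : Fins β F mF MF) :
    CB 0 (fun y v (_ : ℝ) => F y v ^ 2 / 2) := by
  refine ⟨?_, fun x u t => ?_⟩
  · have h1 : Continuous (fun p : E × E × ℝ => F p.1 p.2.1) :=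
      hF.cont.comp (continuous_fst.prodMk (continuous_fst.comp continuous_snd))
    exact (h1.pow 2).div_const 2
  · have := sq_nonneg (F x u)
    linarith

/-- pointwise lower bound with the energy parameter `y` -/
theorem C6_pt (y s τ K M : ℝ) (hτ : 0 < τ) :
    τ * ((y - s) ^ 2 / 4 + s * y - s ^ 2 / 2 - (M + K * s + K ^ 2)) ≤
      τ * (y ^ 2 / 2 - K * y - M) := by
  refine mul_le_mul_of_nonneg_left ?_ hτ.le
  nlinarith [sq_nonneg ((y - s) / 2 - K)]

/-- the action against the energy distance -/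
theorem C6_act_ge (h : D.Ok) (hl : TE D.β D.F D.mF D.MF m M ll) (s : ℝ) {t t' : ℝ} (htt : t < t')
    (x : E) {u : ℝ → E} (hu : Adm u) :
    ∃ a, fd D.F x (traj t x u t') ≤ a ∧
      (a - s * (t' - t)) ^ 2 / (4 * (t' - t)) + s * a - s ^ 2 / 2 * (t' - t) -
        kc D.mF M s * (t' - t) ≤ actl ll t t' x u := by
  have h0 : 0 < t' - t := by linarith
  have hm : 0 < D.mF := h.fins.mF_pos
  have hK : 0 ≤ M / D.mF := div_nonneg hl.M_nonneg hm.le
  obtain ⟨I, hI⟩ : ∃ I, I = ∫ r in t..t', D.F (traj t x u r) (u r) ^ 2 := ⟨_, rfl⟩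
  obtain ⟨J, hJ⟩ : ∃ J, J = ∫ r in t..t', D.F (traj t x u r) (u r) := ⟨_, rfl⟩
  have iF := A5a_ii h.fins hu t x t t'
  have iQ := (C6_cbsq h.fins).ii hu t x t t'
  have iQ2 : IntervalIntegrable (fun r => D.F (traj t x u r) (u r) ^ 2) volume t t' := by
    refine (iQ.const_mul 2).congr fun r _ => ?_
    ring
  have hI0 : 0 ≤ I := by
    rw [hI]
    exact intervalIntegral.integral_nonneg htt.le fun r _ => sq_nonneg _
  have h1 : fd D.F x (traj t x u t') ^ 2 ≤ (t' - t) * I := by
    rw [hI]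
    exact fd_sq_le h.fins htt x hu
  have h2 : J ^ 2 ≤ (t' - t) * I := by
    have := A5a_cs htt iF iQ
    rw [intervalIntegral.integral_div, ← hI, ← hJ] at this
    linarith
  have h3 : I / 2 - M / D.mF * J - M * (t' - t) ≤ actl ll t t' x u := by
    have h4 : (∫ r in t..t', (D.F (traj t x u r) (u r) ^ 2 / 2 -
        M / D.mF * D.F (traj t x u r) (u r) - M)) ≤ actl ll t t' x u := by
      unfold actl
      refine intervalIntegral.integral_mono_on htt.le ((iQ.sub (iF.const_mul _)).sub (by simp))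
        (hl.cb.ii hu t x t t') (fun r _ => ?_)
      have h5 := (abs_le.mp (hl.l_F (traj t x u r) (u r) r)).1
      have h6 := h.fins.low (traj t x u r) (u r)
      have h7 : M * ‖u r‖ ≤ M / D.mF * D.F (traj t x u r) (u r) := by
        rw [div_mul_eq_mul_div, le_div_iff₀ hm]
        have := mul_le_mul_of_nonneg_left h6 hl.M_nonneg
        linarith
      linarith
    rw [intervalIntegral.integral_sub (iQ.sub (iF.const_mul _)) (by simp),
      intervalIntegral.integral_sub iQ (iF.const_mul _), intervalIntegral.integral_div,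
      intervalIntegral.integral_const_mul, ← hI, ← hJ] at h4
    simp only [intervalIntegral.integral_const, smul_eq_mul] at h4
    linarith
  obtain ⟨y, hy⟩ : ∃ y, y = Real.sqrt ((t' - t) * I) / (t' - t) := ⟨_, rfl⟩
  have hS0 : 0 ≤ (t' - t) * I := mul_nonneg h0.le hI0
  have hS : Real.sqrt ((t' - t) * I) = (t' - t) * y := by
    rw [hy]
    field_simp
  have hyI : (t' - t) * y ^ 2 = I := by
    have h8 := Real.sq_sqrt hS0
    rw [hS] at h8
    have h9 : (t' - t) * ((t' - t) * y ^ 2) = (t' - t) * I := by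
      rw [← h8]
      ring
    exact mul_left_cancel₀ h0.ne' h9
  have hJy : J ≤ (t' - t) * y := by
    rw [← hS]
    exact (le_abs_self J).trans (Real.abs_le_sqrt h2)
  refine ⟨(t' - t) * y, ?_, ?_⟩
  · rw [← hS]
    exact (le_abs_self _).trans (Real.abs_le_sqrt h1)
  · have h10 := C6_pt y s (t' - t) (M / D.mF) M h0
    have h11 := mul_le_mul_of_nonneg_left hJy hK
    have h12 : ((t' - t) * y - s * (t' - t)) ^ 2 / (4 * (t' - t)) =
        (t' - t) * ((y - s) ^ 2 / 4) := by
      field_simp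
    rw [h12]
    unfold kc
    rw [← hyI] at h3
    linarith

theorem C6_kerl_ge (h : D.Ok) (hl : TE D.β D.F D.mF D.MF m M ll) (s : ℝ) {t t' N : ℝ}
    (htt : t < t') (x x' : E) (hN : ∀ a, fd D.F x x' ≤ a →
      N ≤ (a - s * (t' - t)) ^ 2 / (4 * (t' - t)) + s * (a - (D.B x' - D.B x)) -
        kc D.mF M s * (t' - t)) :
    N ≤ kerl ll t t' x x' - s * (D.B x' - D.B x) + s ^ 2 / 2 * (t' - t) := by
  have h1 : N + s * (D.B x' - D.B x) - s ^ 2 / 2 * (t' - t) ≤ kerl ll t t' x x' := by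
    refine le_kerl htt x x' fun u hu hx => ?_
    obtain ⟨a, ha, h2⟩ := C6_act_ge h hl s htt x hu
    rw [hx] at ha
    have := hN a ha
    linarith
  linarith

theorem C6_per (hl : TE D.β D.F D.mF D.MF m M ll) {v : E} (hv : v ∈ D.Lam) :
    ∀ x u t, ll (x + v) u t = ll x u t := by
  have hv' : v ∈ Submodule.span ℤ (Set.range D.β) := hv
  clear hv
  induction hv' using Submodule.span_induction with
  | mem w hw =>
    obtain ⟨i, rfl⟩ := hw
    exact fun x u t => hl.per i x u t
  | zero => intro x u t; rw [add_zero]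
  | add a b ha hb iha ihb =>
    intro x u t
    rw [← add_assoc, ihb, iha]
  | smul k a ha iha =>
    have key : ∀ x u t, ll (x + a) u t = ll x u t := iha
    clear iha ha
    intro x u t
    induction k using Int.induction_on generalizing x with
    | zero => rw [zero_smul, add_zero]
    | succ n ih => rw [add_smul, one_smul, ← add_assoc, key, ih]
    | pred n ih =>
      have e : x + (-(n : ℤ) - 1) • a = (x - a) + (-(n : ℤ)) • a := by
        rw [sub_smul, one_smul]; abel
      rw [e, ih, ← key (x - a), sub_add_cancel]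

/-! ### kernels against passing costs -/

/-- cheap lower bound, all speeds -/
theorem kk_ge0 (h : D.Ok) (hl : TE D.β D.F D.mF D.MF m M ll) {s : ℝ} (hs : 0 ≤ s) {t t' : ℝ}
    (htt : t < t') (x x' : E) : s * D.j x x' - kc D.mF M s * (t' - t) ≤ D.kk ll s t t' x x' := by
  have h0 : 0 < t' - t := by linarith
  obtain ⟨n, hn⟩ := K_attained h.li hl h.cal hs htt x x'
  unfold GD.kk
  rw [hn]
  refine C6_kerl_ge h hl s htt x (x' + lv D.b n) fun a ha => ?_
  have h3 := j_le h.toOk0 x x' n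
  have h4 : 0 ≤ (a - s * (t' - t)) ^ 2 / (4 * (t' - t)) := by positivity
  have h5 : s * D.j x x' ≤ s * (a - (D.B (x' + lv D.b n) - D.B x)) :=
    mul_le_mul_of_nonneg_left (by linarith) hs
  linarith

/-- fast crossing of a distance is expensive -/
theorem kk_ge_fast (h : D.Ok) (hl : TE D.β D.F D.mF D.MF m M ll) {s : ℝ} (hs : 0 ≤ s) {t t' δ : ℝ}
    (htt : t < t') (x x' : E) (hd : ∀ n : Fin d → ℤ, δ ≤ ‖x' + lv D.b n - x‖)
    (hδ : s * (t' - t) ≤ D.mF * δ) :
    (D.mF * δ - s * (t' - t)) ^ 2 / (4 * (t' - t)) - kc D.mF M s * (t' - t) ≤ D.kk ll s t t' x x' := by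
  have h0 : 0 < t' - t := by linarith
  obtain ⟨n, hn⟩ := K_attained h.li hl h.cal hs htt x x'
  unfold GD.kk
  rw [hn]
  refine C6_kerl_ge h hl s htt x (x' + lv D.b n) fun a ha => ?_
  have h3 := B_le_fd h.toOk0 x (x' + lv D.b n)
  have h5 : 0 ≤ s * (a - (D.B (x' + lv D.b n) - D.B x)) :=
    mul_nonneg hs (by linarith)
  have h6 : D.mF * δ ≤ fd D.F x (x' + lv D.b n) :=
    (mul_le_mul_of_nonneg_left (hd n) h.fins.mF_pos.le).trans (le_fd h.fins _ _)
  have h7 : (D.mF * δ - s * (t' - t)) ^ 2 / (4 * (t' - t)) ≤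
      (a - s * (t' - t)) ^ 2 / (4 * (t' - t)) := by
    refine div_le_div_of_nonneg_right (pow_le_pow_left₀ (by linarith) (by linarith) 2)
      (by positivity)
  linarith

theorem kk_add (h : D.Ok) (hl : TE D.β D.F D.mF D.MF m M ll) {s : ℝ} (hs : 0 ≤ s) {t t' t'' : ℝ}
    (htt : t < t') (htt' : t' < t'') (x y z : E) :
    D.kk ll s t t'' x z ≤ D.kk ll s t t' x y + D.kk ll s t' t'' y z :=
  K_le_add h.li h.bβ hl h.cal hs htt htt' x y z

theorem kk_J (h : D.Ok) (hl : TE D.β D.F D.mF D.MF m M ll) (s t t' : ℝ) (x x' : E)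
    (n n' : Fin d → ℤ) : D.kk ll s t t' (x + lv D.b n) (x' + lv D.b n') = D.kk ll s t t' x x' :=
  K_per h.bβ hl h.cal s t t' x x' n n'

theorem kk_Lam (h : D.Ok) (hl : TE D.β D.F D.mF D.MF m M ll) {v : E} (hv : v ∈ D.Lam) (s t t' : ℝ)
    (x x' : E) : D.kk ll s t t' (x + v) (x' + v) = D.kk ll s t t' x x' := by
  obtain ⟨a, ha⟩ := h.Bper v hv
  exact K_shift v (C6_per hl hv) ha s t t' x x'

theorem kk_time (h : D.Ok) (hl : TE D.β D.F D.mF D.MF m M ll) (k : ℤ) (s t t' : ℝ) (x x' : E) :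
    D.kk ll s (t + k) (t' + k) x x' = D.kk ll s t t' x x' := by
  have key : ∀ a a' : ℝ, D.kk ll s (a + 1) (a' + 1) x x' = D.kk ll s a a' x x' := fun a a' =>
    K_time (fun x u t => hl.pert x u t) s a a' x x'
  induction k using Int.induction_on generalizing t t' with
  | zero => simp
  | succ n ih =>
    push_cast
    rw [← add_assoc, ← add_assoc, key]
    exact ih t t'
  | pred n ih =>
    have h1 := ih (t - 1) (t' - 1)
    have h2 := key (t - 1) (t' - 1)
    rw [sub_add_cancel, sub_add_cancel] at h2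
    rw [h2, ← h1]
    push_cast
    congr 1 <;> ring

/-- upper bound of the cost of a control -/
theorem kk_le_cst (h : D.Ok) (hl : TE D.β D.F D.mF D.MF m M ll) {s : ℝ} (hs : 0 ≤ s) {t t' : ℝ}
    (htt : t < t') {x x' : E} {u : ℝ → E} (hu : Adm u) {n : Fin d → ℤ}
    (hx : traj t x u t' = x' + lv D.b n) : D.kk ll s t t' x x' ≤ D.cst ll s t t' x u := by
  have h1 := K_le hl h.cal hs htt x x' n
  have h2 := hl.cb.kerl_le htt hu hx
  unfold GD.kk GD.cst
  rw [hx]
  linarith

theorem exists_cst_lt (h : D.Ok) (hl : TE D.β D.F D.mF D.MF m M ll) {s : ℝ} (hs : 0 ≤ s) {t t' ε : ℝ}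
    (htt : t < t') (hε : 0 < ε) (x x' : E) : ∃ (u : ℝ → E) (n : Fin d → ℤ), Adm u ∧
      traj t x u t' = x' + lv D.b n ∧ D.cst ll s t t' x u < D.kk ll s t t' x x' + ε := by
  obtain ⟨n, hn⟩ := K_attained h.li hl h.cal hs htt x x'
  obtain ⟨u, hu, hx, hlt⟩ := hl.cb.exists_lt htt x (x' + lv D.b n) hε
  refine ⟨u, n, hu, hx, ?_⟩
  unfold GD.kk GD.cst
  rw [hn, hx]
  linarith

theorem C6_traj {u : ℝ → E} (hu : Adm u) (t t' r : ℝ) (x : E) :
    traj t' (traj t x u t') u r = traj t x u r := by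
  unfold traj
  rw [add_assoc, intervalIntegral.integral_add_adjacent_intervals (hu.ii _ _) (hu.ii _ _)]

theorem cst_add (hl : TE D.β D.F D.mF D.MF m M ll) (s : ℝ) {t t' t'' : ℝ} (htt : t ≤ t')
    (htt' : t' ≤ t'') (x : E) {u : ℝ → E} (hu : Adm u) :
    D.cst ll s t t'' x u = D.cst ll s t t' x u + D.cst ll s t' t'' (traj t x u t') u := by
  have h1 : actl ll t t'' x u = actl ll t t' x u + actl ll t' t'' (traj t x u t') u := by
    unfold actl
    simp only [C6_traj hu]
    exact (intervalIntegral.integral_add_adjacent_intervals (hl.cb.ii hu t x t t')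
      (hl.cb.ii hu t x t' t'')).symm
  unfold GD.cst
  rw [h1, C6_traj hu]
  ring

end EscK
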