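import Pool.Agent.EscK.KDefs
import Pool.Agent.EscK.A2b
import Pool.Agent.EscK.C6
import Pool.Agent.EscG.A1
import Pool.Agent.EscG.C1
import Pool.Agent.EscG.C2

/-!
Project EscK (MP_6acca1_an), module C6b: costs and kernels against flux, excess and passing costs.
-/

set_option linter.unusedSectionVars false
set_option linter.unusedVariables false

noncomputable section

namespace EscK

open MeasureTheory Set Filter Topology Esc EscF EscG
open scoped ContDiff

section MID

variable {ι : Type} [Fintype ι] {d : ℕ} {E : Type*} [NormedAddCommGroup E] [InnerProductSpace ℝ E]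
  [FiniteDimensional ℝ E] {D : GD ι d E} {p : GP} {m M Mf : ℝ} {L : LP} {ll l : E → E → ℝ → ℝ}
  {f f' : E → ℝ → ℝ}

/-! ### auxiliary facts -/

theorem C6b_cb1 {β : Module.Basis ι ℝ E} {F : E → E → ℝ} {mF MF : ℝ} (hF : Fins β F mF MF) :
    CB 0 (fun y v (_ : ℝ) => F y v) := by
  refine ⟨hF.cont.comp (continuous_fst.prodMk (continuous_fst.comp continuous_snd)),
    fun y v _ => ?_⟩
  have h1 := hF.low y v
  have h2 := mul_nonneg hF.mF_pos.le (norm_nonneg v)
  linarith

theorem C6b_cb2 {β : Module.Basis ι ℝ E} {F : E → E → ℝ} {mF MF : ℝ} (hF : Fins β F mF MF) :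
    CB 0 (fun y v (_ : ℝ) => F y v ^ 2) := by
  refine ⟨(C6b_cb1 hF).cont.pow 2, fun y v _ => ?_⟩
  have h1 := sq_nonneg (F y v)
  linarith

theorem C6b_F0 {β : Module.Basis ι ℝ E} {F : E → E → ℝ} {mF MF : ℝ} (hF : Fins β F mF MF)
    (y v : E) : 0 ≤ F y v :=
  (mul_nonneg hF.mF_pos.le (norm_nonneg v)).trans (hF.low y v)

theorem C6b_traj {u : ℝ → E} (hu : Adm u) (t t' r : ℝ) (x : E) :
    traj t' (traj t x u t') u r = traj t x u r := by
  unfold traj
  rw [add_assoc, intervalIntegral.integral_add_adjacent_intervals (hu.ii _ _) (hu.ii _ _)]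

/-- the length of a control is at least the energy distance of its end points -/
theorem C6b_len {β : Module.Basis ι ℝ E} {F : E → E → ℝ} {mF MF : ℝ} (hF : Fins β F mF MF)
    {t t' : ℝ} (htt : t ≤ t') (x : E) {u : ℝ → E} (hu : Adm u) :
    fd F x (traj t x u t') ≤ ∫ r in t..t', F (traj t x u r) (u r) := by
  obtain ⟨C, hC⟩ := hu.2
  have hMF : 0 ≤ MF := hF.mF_pos.le.trans hF.mF_le
  have hC0 : 0 ≤ C := (norm_nonneg _).trans (hC 0)
  have i1 : IntervalIntegrable (fun r => F (traj t x u r) (u r)) volume t t' :=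
    (C6b_cb1 hF).ii hu t x t t'
  have i2 : ∀ a b, IntervalIntegrable (fun r => F (traj t x u r) (u r) ^ 2) volume a b :=
    fun a b => (C6b_cb2 hF).ii hu t x a b
  have hX : ∀ r r', ‖traj t x u r' - traj t x u r‖ ≤ C * |r' - r| := by
    intro r r'
    have e : traj t x u r' - traj t x u r = ∫ q in r..r', u q := by
      unfold traj
      rw [add_sub_add_left_eq_sub,
        intervalIntegral.integral_interval_sub_left (hu.ii _ _) (hu.ii _ _)]
    rw [e]
    exact intervalIntegral.norm_integral_le_of_norm_le_const fun q _ => hC q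
  obtain ⟨φ, hφ⟩ : ∃ φ : ℝ → ℝ, φ = fun r => fd F x (traj t x u r) := ⟨_, rfl⟩
  have hφ1 : ∀ r r', φ r' - φ r ≤ fd F (traj t x u r) (traj t x u r') := by
    intro r r'
    have := fd_tri hF x (traj t x u r) (traj t x u r')
    rw [hφ]
    linarith
  have hφ2 : ∀ r r', φ r' - φ r ≤ MF * C * |r' - r| := by
    intro r r'
    have h1 := fd_le hF (traj t x u r) (traj t x u r')
    have h2 := mul_le_mul_of_nonneg_left (hX r r') hMF
    have h3 := hφ1 r r'
    linarith
  have hlip : LipschitzOnWith (Real.toNNReal (MF * C)) φ (uIcc t t') := by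
    refine LipschitzOnWith.of_dist_le_mul fun r _ r' _ => ?_
    rw [Real.coe_toNNReal _ (mul_nonneg hMF hC0), Real.dist_eq, Real.dist_eq, abs_le]
    have h1 := hφ2 r r'
    have h2 := hφ2 r' r
    rw [abs_sub_comm r' r] at h1
    constructor <;> linarith
  have hac := hlip.absolutelyContinuousOnInterval
  have h0 : φ t = 0 := by
    rw [hφ]
    have e : traj t x u t = x := by simp [traj]
    simp only [e]
    exact C1_self hF x
  have h1 := hac.integral_deriv_eq_sub
  rw [h0, sub_zero] at h1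
  have h2 : ∀ᵐ r, r ∈ Icc t t' → deriv φ r ≤ F (traj t x u r) (u r) := by
    filter_upwards [(i2 t t').ae_hasDerivAt_integral] with r hr hr'
    rw [uIcc_of_le htt] at hr
    by_cases hd : DifferentiableAt ℝ φ r
    · have hG := hr hr' t ⟨le_rfl, htt⟩
      have k1 := hd.hasDerivAt.tendsto_slope_zero_right
      have k2 := hG.tendsto_slope_zero_right
      have k3 := (Real.continuous_sqrt.tendsto _).comp k2
      rw [Real.sqrt_sq (C6b_F0 hF _ _)] at k3
      refine le_of_tendsto_of_tendsto k1 k3 ?_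
      filter_upwards [self_mem_nhdsWithin] with q hq
      have hq0 : (0 : ℝ) < q := hq
      have e1 : (∫ y in t..(r + q), F (traj t x u y) (u y) ^ 2) -
          ∫ y in t..r, F (traj t x u y) (u y) ^ 2 = ∫ y in r..(r + q), F (traj t x u y) (u y) ^ 2 :=
        intervalIntegral.integral_interval_sub_left (i2 _ _) (i2 _ _)
      have e2 := fd_sq_le hF (show r < r + q by linarith) (traj t x u r) hu
      simp only [C6b_traj hu] at e2
      rw [add_sub_cancel_left] at e2
      simp only [Function.comp, smul_eq_mul]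
      rw [e1]
      have e3 := hφ1 r (r + q)
      have e4 : q⁻¹ * (φ (r + q) - φ r) ≤ q⁻¹ * fd F (traj t x u r) (traj t x u (r + q)) :=
        mul_le_mul_of_nonneg_left e3 (inv_nonneg.2 hq0.le)
      refine e4.trans ((le_abs_self _).trans (Real.abs_le_sqrt ?_))
      rw [mul_pow]
      have e5 := mul_le_mul_of_nonneg_left e2 (sq_nonneg q⁻¹)
      refine e5.trans (le_of_eq ?_)
      field_simp
    · rw [deriv_zero_of_not_differentiableAt hd]
      exact C6b_F0 hF _ _
  have h3 : (∫ r in t..t', deriv φ r) ≤ ∫ r in t..t', F (traj t x u r) (u r) :=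
    intervalIntegral.integral_mono_ae_restrict htt hac.intervalIntegrable_deriv i1
      ((ae_restrict_iff' measurableSet_Icc).2 h2)
  rw [h1] at h3
  rw [hφ] at h3
  exact h3

/-- the excess of a control is at least the passing cost -/
theorem j_le_exc (h : D.Ok0) {t t' : ℝ} (htt : t ≤ t') (x : E) {u : ℝ → E} (hu : Adm u) :
    D.j x (traj t x u t') ≤ (∫ r in t..t', D.F (traj t x u r) (u r)) - (D.B (traj t x u t') - D.B x) := by
  have h1 := j_le h x (traj t x u t') 0
  have h2 : lv D.b 0 = 0 := by simp [lv]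
  rw [h2, add_zero] at h1
  have h3 := C6b_len h.fins htt x hu
  linarith

/-- completing the square -/
theorem C6b_cst (h : D.Ok) (hl : TE D.β D.F D.mF D.MF m M ll) (s t t' : ℝ) (x : E) {u : ℝ → E}
    (hu : Adm u) : D.cst ll s t t' x u =
      (∫ r in t..t', (ll (traj t x u r) (u r) r - D.F (traj t x u r) (u r) ^ 2 / 2)) +
      (∫ r in t..t', (D.F (traj t x u r) (u r) - s) ^ 2) / 2 +
      s * ((∫ r in t..t', D.F (traj t x u r) (u r)) - (D.B (traj t x u t') - D.B x)) := by
  have i1 : IntervalIntegrable (fun r => D.F (traj t x u r) (u r)) volume t t' :=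
    (C6b_cb1 h.fins).ii hu t x t t'
  have i2 : IntervalIntegrable (fun r => D.F (traj t x u r) (u r) ^ 2) volume t t' :=
    (C6b_cb2 h.fins).ii hu t x t t'
  have i3 : IntervalIntegrable (fun r => ll (traj t x u r) (u r) r) volume t t' :=
    hl.cb.ii hu t x t t'
  have e1 : (∫ r in t..t', (ll (traj t x u r) (u r) r - D.F (traj t x u r) (u r) ^ 2 / 2)) =
      (∫ r in t..t', ll (traj t x u r) (u r) r) -
        (∫ r in t..t', D.F (traj t x u r) (u r) ^ 2) / 2 := by
    rw [intervalIntegral.integral_sub i3 (i2.div_const 2), intervalIntegral.integral_div]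
  have e2 : (∫ r in t..t', (D.F (traj t x u r) (u r) - s) ^ 2) =
      (∫ r in t..t', D.F (traj t x u r) (u r) ^ 2) -
        2 * s * (∫ r in t..t', D.F (traj t x u r) (u r)) + (t' - t) * s ^ 2 := by
    have e3 : (fun r => (D.F (traj t x u r) (u r) - s) ^ 2) =
        fun r => (D.F (traj t x u r) (u r) ^ 2 - 2 * s * D.F (traj t x u r) (u r)) + s ^ 2 := by
      ext r
      ring
    rw [e3, intervalIntegral.integral_add (i2.sub (i1.const_mul _)) (by simp),
      intervalIntegral.integral_sub i2 (i1.const_mul _), intervalIntegral.integral_const_mul,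
      intervalIntegral.integral_const, smul_eq_mul]
  unfold GD.cst actl
  rw [e1, e2]
  ring

theorem C6b_exc (h : D.Ok0) {t t' : ℝ} (htt : t ≤ t') (x : E) {u : ℝ → E} (hu : Adm u) :
    0 ≤ (∫ r in t..t', D.F (traj t x u r) (u r)) - (D.B (traj t x u t') - D.B x) := by
  have h1 := h.cal.cal x u hu t t' htt
  linarith

theorem C6b_iabs (h : D.Ok0) (s t t' : ℝ) (x : E) {u : ℝ → E} (hu : Adm u) :
    IntervalIntegrable (fun r => |D.F (traj t x u r) (u r) - s|) volume t t' :=
  (((C6b_cb1 h.fins).ii hu t x t t').sub (by simp)).abs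

theorem C6b_isq (h : D.Ok0) (s t t' : ℝ) (x : E) {u : ℝ → E} (hu : Adm u) :
    IntervalIntegrable (fun r => (D.F (traj t x u r) (u r) - s) ^ 2) volume t t' := by
  have i1 : IntervalIntegrable (fun r => D.F (traj t x u r) (u r)) volume t t' :=
    (C6b_cb1 h.fins).ii hu t x t t'
  have i2 : IntervalIntegrable (fun r => D.F (traj t x u r) (u r) ^ 2) volume t t' :=
    (C6b_cb2 h.fins).ii hu t x t t'
  have e3 : (fun r => (D.F (traj t x u r) (u r) - s) ^ 2) =
      fun r => (D.F (traj t x u r) (u r) ^ 2 - 2 * s * D.F (traj t x u r) (u r)) + s ^ 2 := by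
    ext r
    ring
  rw [e3]
  exact (i2.sub (i1.const_mul _)).add (by simp)

/-- the error term of the flux -/
theorem C6b_abs (h : D.Ok0) {c : ℝ} (hc : 0 ≤ c) (s : ℝ) {t t' : ℝ} (htt : t ≤ t') (ht4 : t' ≤ t + 4)
    (x : E) {u : ℝ → E} (hu : Adm u) : c * (∫ r in t..t', |D.F (traj t x u r) (u r) - s|) ≤
      (∫ r in t..t', (D.F (traj t x u r) (u r) - s) ^ 2) / 4 + 4 * c ^ 2 := by
  have i1 := C6b_iabs h s t t' x hu
  have i2 := C6b_isq h s t t' x hu
  have h1 : (∫ r in t..t', c * |D.F (traj t x u r) (u r) - s|) ≤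
      ∫ r in t..t', ((D.F (traj t x u r) (u r) - s) ^ 2 / 4 + c ^ 2) := by
    refine intervalIntegral.integral_mono_on htt (i1.const_mul c)
      ((i2.div_const 4).add (by simp)) fun r _ => ?_
    have h2 := sq_nonneg (|D.F (traj t x u r) (u r) - s| / 2 - c)
    have h3 := sq_abs (D.F (traj t x u r) (u r) - s)
    rw [← h3]
    nlinarith
  rw [intervalIntegral.integral_const_mul, intervalIntegral.integral_add (i2.div_const 4) (by simp),
    intervalIntegral.integral_div, intervalIntegral.integral_const, smul_eq_mul] at h1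
  have h4 : (t' - t) * c ^ 2 ≤ 4 * c ^ 2 := mul_le_mul_of_nonneg_right (by linarith) (sq_nonneg c)
  linarith

theorem C6b_s0 {ε c : ℝ} (hε : 0 < ε) : 1 ≤ 1 + 2 * (|c| + 4 * c ^ 2) / ε := by
  have : 0 ≤ 2 * (|c| + 4 * c ^ 2) / ε := by positivity
  linarith

theorem C6b_s1 {ε c s : ℝ} (hε : 0 < ε) (hs : 1 + 2 * (|c| + 4 * c ^ 2) / ε ≤ s) :
    2 * (|c| + 4 * c ^ 2) ≤ ε * s := by
  have h1 := mul_le_mul_of_nonneg_left hs hε.le
  have h2 : ε * (1 + 2 * (|c| + 4 * c ^ 2) / ε) = ε + 2 * (|c| + 4 * c ^ 2) := by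
    field_simp
  linarith

theorem cst_low (h : D.Ok) (m : ℝ) (L : LP) {ε : ℝ} (hε : 0 < ε) : ∃ s0 : ℝ, 1 ≤ s0 ∧ ∀ s, s0 ≤ s → ∀ ll,
    FL D m L ll → ∀ (x : E) (u : ℝ → E), Adm u → ∀ t t', t ≤ t' → t' ≤ t + 4 →
    L.fl s t t' + (1 - ε) * (s * ((∫ r in t..t', D.F (traj t x u r) (u r)) -
        (D.B (traj t x u t') - D.B x))) + (∫ r in t..t', (D.F (traj t x u r) (u r) - s) ^ 2) / 4 - ε * s ≤
      D.cst ll s t t' x u := by
  refine ⟨1 + 2 * (|L.c (ε / 4)| + 4 * L.c (ε / 4) ^ 2) / ε, C6b_s0 hε, ?_⟩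
  intro s hs ll hl x u hu t t' htt ht4
  have hs1 : 1 ≤ s := (C6b_s0 hε).trans hs
  have hK := C6b_s1 hε hs
  have hc := hl.c_nonneg (ε / 4)
  rw [abs_of_nonneg hc] at hK
  have hf := (abs_le.1 (hl.flux (ε / 4) (by linarith) s hs1 x u hu t t' htt ht4)).1
  have ha := C6b_abs h.toOk0 hc s htt ht4 x hu
  have he := C6b_exc h.toOk0 htt x hu
  rw [C6b_cst h hl.toTE s t t' x hu]
  revert hf ha he
  generalize (∫ r in t..t', (ll (traj t x u r) (u r) r - D.F (traj t x u r) (u r) ^ 2 / 2)) = I1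
  generalize (∫ r in t..t', (D.F (traj t x u r) (u r) - s) ^ 2) = I2
  generalize (∫ r in t..t', |D.F (traj t x u r) (u r) - s|) = I3
  generalize (∫ r in t..t', D.F (traj t x u r) (u r)) - (D.B (traj t x u t') - D.B x) = X
  generalize L.fl s t t' = fl
  revert hK hc
  generalize L.c (ε / 4) = c
  intro hK hc hf ha he
  have hcs : 0 ≤ ε * s - c := by nlinarith [sq_nonneg c]
  have hp := mul_nonneg hcs he
  have hes : 0 ≤ ε * s := by positivity
  nlinarith [sq_nonneg c]

theorem cst_upp (h : D.Ok) (m : ℝ) (L : LP) {ε : ℝ} (hε : 0 < ε) : ∃ s0 : ℝ, 1 ≤ s0 ∧ ∀ s, s0 ≤ s → ∀ ll,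
    FL D m L ll → ∀ (x : E) (u : ℝ → E), Adm u → ∀ t t', t ≤ t' → t' ≤ t + 4 →
    D.cst ll s t t' x u ≤ L.fl s t t' + (1 + ε) * (s * ((∫ r in t..t', D.F (traj t x u r) (u r)) -
        (D.B (traj t x u t') - D.B x))) + (∫ r in t..t', (D.F (traj t x u r) (u r) - s) ^ 2) + ε * s := by
  refine ⟨1 + 2 * (|L.c (ε / 4)| + 4 * L.c (ε / 4) ^ 2) / ε, C6b_s0 hε, ?_⟩
  intro s hs ll hl x u hu t t' htt ht4
  have hs1 : 1 ≤ s := (C6b_s0 hε).trans hs
  have hK := C6b_s1 hε hs
  have hc := hl.c_nonneg (ε / 4)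
  rw [abs_of_nonneg hc] at hK
  have hf := (abs_le.1 (hl.flux (ε / 4) (by linarith) s hs1 x u hu t t' htt ht4)).2
  have ha := C6b_abs h.toOk0 hc s htt ht4 x hu
  have he := C6b_exc h.toOk0 htt x hu
  have hi : 0 ≤ ∫ r in t..t', (D.F (traj t x u r) (u r) - s) ^ 2 :=
    intervalIntegral.integral_nonneg htt fun r _ => sq_nonneg _
  rw [C6b_cst h hl.toTE s t t' x hu]
  revert hf ha he hi
  generalize (∫ r in t..t', (ll (traj t x u r) (u r) r - D.F (traj t x u r) (u r) ^ 2 / 2)) = I1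
  generalize (∫ r in t..t', (D.F (traj t x u r) (u r) - s) ^ 2) = I2
  generalize (∫ r in t..t', |D.F (traj t x u r) (u r) - s|) = I3
  generalize (∫ r in t..t', D.F (traj t x u r) (u r)) - (D.B (traj t x u t') - D.B x) = X
  generalize L.fl s t t' = fl
  revert hK hc
  generalize L.c (ε / 4) = c
  intro hK hc hf ha he hi
  have hcs : 0 ≤ ε * s - c := by nlinarith [sq_nonneg c]
  have hp := mul_nonneg hcs he
  have hes : 0 ≤ ε * s := by positivity
  nlinarith [sq_nonneg c]

/-- kernels against passing costs -/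
theorem kk_ge (h : D.Ok) (m : ℝ) (L : LP) {ε : ℝ} (hε : 0 < ε) : ∃ s0 : ℝ, 1 ≤ s0 ∧ ∀ s, s0 ≤ s → ∀ ll,
    FL D m L ll → ∀ t t', t < t' → t' ≤ t + 4 → ∀ x x' : E,
    L.fl s t t' + (1 - ε) * (s * D.j x x') - ε * s ≤ D.kk ll s t t' x x' := by
  have hε1 : 0 < min ε 1 := lt_min hε one_pos
  obtain ⟨s0, hs0, H⟩ := cst_low h m L hε1
  refine ⟨s0, hs0, fun s hs ll hl t t' htt ht4 x x' => ?_⟩
  have hs1 : 1 ≤ s := hs0.trans hs
  refine le_of_forall_pos_le_add fun δ hδ => ?_
  obtain ⟨u, n, hu, hx, hlt⟩ := exists_cst_lt h hl.toTE (by linarith : (0 : ℝ) ≤ s) htt hδ x x'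
  have h1 := H s hs ll hl x u hu t t' htt.le ht4
  have h2 := j_le_exc h.toOk0 htt.le x hu
  have h3 : D.j x (traj t x u t') = D.j x x' := by
    have h4 := j_J h.toOk0 x x' 0 n
    have h5 : lv D.b 0 = 0 := by simp [lv]
    rw [h5, add_zero] at h4
    rw [hx]
    exact h4
  rw [h3] at h2
  have h6 := j_nonneg h.toOk0 x x'
  have hi : 0 ≤ ∫ r in t..t', (D.F (traj t x u r) (u r) - s) ^ 2 :=
    intervalIntegral.integral_nonneg htt.le fun r _ => sq_nonneg _
  revert h1 h2 hi
  generalize (∫ r in t..t', (D.F (traj t x u r) (u r) - s) ^ 2) = I2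
  generalize (∫ r in t..t', D.F (traj t x u r) (u r)) - (D.B (traj t x u t') - D.B x) = X
  intro h1 h2 hi
  have h7 : (1 - min ε 1) * (s * D.j x x') ≤ (1 - min ε 1) * (s * X) :=
    mul_le_mul_of_nonneg_left (mul_le_mul_of_nonneg_left h2 (by linarith))
      (by have := min_le_right ε 1; linarith)
  have h8 : (1 - ε) * (s * D.j x x') ≤ (1 - min ε 1) * (s * D.j x x') :=
    mul_le_mul_of_nonneg_right (by have := min_le_left ε 1; linarith)
      (mul_nonneg (by linarith) h6)
  have h9 : min ε 1 * s ≤ ε * s := mul_le_mul_of_nonneg_right (min_le_left _ _) (by linarith)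
  linarith

/-! ### the flux -/

theorem fl_add {L : LP} (ha : ∀ s, Continuous (L.a s)) (s t t' t'' : ℝ) :
    L.fl s t t'' = L.fl s t t' + L.fl s t' t'' :=
  (intervalIntegral.integral_add_adjacent_intervals ((ha s).intervalIntegrable _ _)
    ((ha s).intervalIntegrable _ _)).symm

theorem C6b_per {g : ℝ → ℝ} (hg : ∀ t, g (t + 1) = g t) (k : ℤ) (t : ℝ) : g (t + k) = g t := by
  have : Function.Periodic g 1 := hg
  have h := this.int_mul k t
  rwa [mul_one] at h

theorem fl_per {L : LP} (ha : ∀ s t, L.a s (t + 1) = L.a s t) (s t t' : ℝ) (k : ℤ) :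
    L.fl s (t + k) (t' + k) = L.fl s t t' := by
  unfold LP.fl
  rw [← intervalIntegral.integral_comp_add_right]
  congr 1
  ext r
  exact C6b_per (ha s) k r

theorem fl_bd {L : LP} (hb : ∀ s t, 1 ≤ s → |L.a s t| ≤ L.A * s) {s : ℝ} (hs : 1 ≤ s) (t t' : ℝ) :
    |L.fl s t t'| ≤ L.A * s * |t' - t| := by
  have h := intervalIntegral.norm_integral_le_of_norm_le_const (f := L.a s) (a := t) (b := t')
    (C := L.A * s) (fun r _ => by rw [Real.norm_eq_abs]; exact hb s r hs)
  rwa [Real.norm_eq_abs] at h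

theorem fl_lip {L : LP} (ha : ∀ s, Continuous (L.a s))
    (hb : ∀ s s' t, 1 ≤ s → 1 ≤ s' → |L.a s t - L.a s' t| ≤ L.A * |s - s'|) {s s' : ℝ} (hs : 1 ≤ s)
    (hs' : 1 ≤ s') (t t' : ℝ) : |L.fl s t t' - L.fl s' t t'| ≤ L.A * |s - s'| * |t' - t| := by
  unfold LP.fl
  rw [← intervalIntegral.integral_sub ((ha s).intervalIntegrable _ _)
    ((ha s').intervalIntegrable _ _)]
  have h := intervalIntegral.norm_integral_le_of_norm_le_const
    (f := fun r => L.a s r - L.a s' r) (a := t) (b := t') (C := L.A * |s - s'|)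
    (fun r _ => by rw [Real.norm_eq_abs]; exact hb s s' r hs hs')
  rwa [Real.norm_eq_abs] at h

theorem FL.add (h : D.Ok0) (hl : FL D m L l) (hf : Pt D.β f) (hg : Good Mf f) :
    FL D m (L + Mf) (lf l f) where
  toTE := hl.toTE.add hf hg
  A_nonneg := hl.A_nonneg
  c_nonneg := fun ε => by
    have h1 := hl.c_nonneg ε
    have h2 := hg.pos
    change 0 ≤ L.c ε + 4 * Mf
    linarith
  a_cont := hl.a_cont
  a_per := hl.a_per
  a_bd := hl.a_bd
  a_lip := hl.a_lip
  flux := by
    intro ε hε s hs z u hu t t' htt ht4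
    have h0 := hg.pos
    have i3 : IntervalIntegrable (fun r => l (traj t z u r) (u r) r) volume t t' :=
      hl.toTE.cb.ii hu t z t t'
    have i2 : IntervalIntegrable (fun r => D.F (traj t z u r) (u r) ^ 2 / 2) volume t t' :=
      ((C6b_cb2 h.fins).ii hu t z t t').div_const 2
    have i4 : IntervalIntegrable (fun r => f (traj t z u r) r) volume t t' :=
      (hg.cont.comp ((traj_cont hu t z).prodMk continuous_id)).intervalIntegrable _ _
    have e1 : (fun r => (lf l f (traj t z u r) (u r) r - D.F (traj t z u r) (u r) ^ 2 / 2)) =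
        fun r => (l (traj t z u r) (u r) r - D.F (traj t z u r) (u r) ^ 2 / 2) +
          f (traj t z u r) r := by
      ext r
      unfold lf
      ring
    rw [e1, intervalIntegral.integral_add (i3.sub i2) i4]
    have h1 := hl.flux ε hε s hs z u hu t t' htt ht4
    have h2 : |∫ r in t..t', f (traj t z u r) r| ≤ Mf * |t' - t| := by
      have h := intervalIntegral.norm_integral_le_of_norm_le_const
        (f := fun r => f (traj t z u r) r) (a := t) (b := t') (C := Mf)
        (fun r _ => by rw [Real.norm_eq_abs]; exact hg.bd _ r)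
      rwa [Real.norm_eq_abs] at h
    have h3 : Mf * |t' - t| ≤ 4 * Mf := by
      rw [abs_of_nonneg (by linarith : (0 : ℝ) ≤ t' - t)]
      nlinarith
    have h4 := C6b_exc h htt z hu
    have h5 : 0 ≤ ∫ r in t..t', |D.F (traj t z u r) (u r) - s| :=
      intervalIntegral.integral_nonneg htt fun r _ => abs_nonneg _
    change |_ - L.fl s t t'| ≤ ε * s + (L.c ε + 4 * Mf) * _
    revert h1 h2 h4 h5
    generalize (∫ r in t..t', (l (traj t z u r) (u r) r - D.F (traj t z u r) (u r) ^ 2 / 2)) = I1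
    generalize (∫ r in t..t', f (traj t z u r) r) = I2
    generalize (∫ r in t..t', |D.F (traj t z u r) (u r) - s|) = I3
    generalize (∫ r in t..t', D.F (traj t z u r) (u r)) - (D.B (traj t z u t') - D.B z) = X
    generalize L.fl s t t' = fl
    intro h1 h2 h4 h5
    have h6 : 0 ≤ Mf * (X + I3) := mul_nonneg h0 (by linarith)
    rw [abs_le] at h1 h2 ⊢
    constructor <;> nlinarith

end MID

end EscK
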