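import Pool.Agent.EscK.KDefs
import Pool.Agent.EscG.C3
import Pool.Agent.EscK.C6
import Pool.Agent.EscK.C6b

/-!
Project EscK (MP_6acca1_an), core, module C7: fast cheap paths pass near an anchor.
-/

noncomputable section

namespace EscK

open MeasureTheory Set Filter Topology Esc EscF EscG
open scoped ContDiff

variable {ι : Type} [Fintype ι] {d : ℕ} {E : Type*} [NormedAddCommGroup E] [InnerProductSpace ℝ E]
  [FiniteDimensional ℝ E] {D : GD ι d E} {m M : ℝ} {L : LP} {ll : E → E → ℝ → ℝ}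

set_option linter.unusedSectionVars false

theorem C7_lv0 (b : Fin d → E) : lv b 0 = 0 := by simp [lv]

theorem C7_traj {u : ℝ → E} (hu : Adm u) (t t' r : ℝ) (x : E) :
    traj t' (traj t x u t') u r = traj t x u r := by
  unfold traj
  rw [add_assoc, intervalIntegral.integral_add_adjacent_intervals (hu.ii _ _) (hu.ii _ _)]

theorem C7_cbF {β : Module.Basis ι ℝ E} {F : E → E → ℝ} {mF MF : ℝ} (hF : Fins β F mF MF) :
    CB 0 (fun x u (_ : ℝ) => F x u) := by
  refine ⟨?_, fun x u _ => ?_⟩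
  · exact hF.cont.comp (continuous_fst.prodMk (continuous_fst.comp continuous_snd))
  · have := hF.low x u
    have h2 := mul_nonneg hF.mF_pos.le (norm_nonneg u)
    simp only [neg_zero]
    linarith

theorem C7_cbQ {β : Module.Basis ι ℝ E} {F : E → E → ℝ} {mF MF : ℝ} (hF : Fins β F mF MF) (s : ℝ) :
    CB 0 (fun x u (_ : ℝ) => (F x u - s) ^ 2) := by
  refine ⟨?_, fun x u _ => ?_⟩
  · exact ((C7_cbF hF).cont.sub continuous_const).pow 2
  · have := sq_nonneg (F x u - s)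
    simp only [neg_zero]
    linarith

theorem C7_lv_mem (h : D.Ok) (n : Fin d → ℤ) : lv D.b n ∈ D.Lam := by
  unfold lv
  refine sum_mem fun i _ => ?_
  obtain ⟨k, hk⟩ := h.bβ i
  rw [hk, Int.cast_smul_eq_zsmul]
  exact zsmul_mem (Submodule.subset_span ⟨k, rfl⟩ : D.β k ∈ Submodule.span ℤ (Set.range D.β)) _

/-- a continuous path which enters a closed set meets its frontier -/
theorem C7_cross {Z : Set E} (hZ : IsClosed Z) {γ : ℝ → E} (hγ : Continuous γ) {a b a' b' : ℝ}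
    (ha : a' ∈ Icc a b) (hb : b' ∈ Icc a b) (h1 : γ a' ∉ Z) (h2 : γ b' ∈ Z) :
    ∃ r ∈ Icc a b, γ r ∈ frontier Z := by
  by_contra hcon
  push Not at hcon
  have hin : ∀ r ∈ Icc a b, γ r ∈ Z → γ r ∈ interior Z := by
    intro r hr hz
    by_contra hn
    exact hcon r hr ⟨subset_closure hz, hn⟩
  obtain ⟨r, hr, h3, h4⟩ := isPreconnected_Icc (γ ⁻¹' Zᶜ) (γ ⁻¹' interior Z)
    (hZ.isOpen_compl.preimage hγ) (isOpen_interior.preimage hγ) (fun r hr => by
      by_cases hz : γ r ∈ Z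
      · exact Or.inr (hin r hr hz)
      · exact Or.inl hz) ⟨a', ha, h1⟩ ⟨b', hb, hin b' hb h2⟩
  exact h3 (interior_subset h4)

/-- a path which does not stay away from all rooms and is outside of all rooms at some time passes
near an anchor -/
theorem C7_anchor (h : D.Ok) {u : ℝ → E} (hu : Adm u) {t t' η : ℝ} (hη : 0 < η) (x : E)
    (hout : ¬ ∀ r ∈ Icc t t', traj t x u r ∈ D.Out η) {r0 : ℝ} (hr0 : r0 ∈ Icc t t')
    (hend : ∀ v ∈ D.Lam, traj t x u r0 + v ∉ D.Z) :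
    ∃ r1 ∈ Icc t t', ∃ q ∈ D.P0, ∃ v ∈ D.Lam,
      D.j (traj t x u r1) (q + v) + D.j (q + v) (traj t x u r1) ≤ 4 * D.MF * η := by
  have hMF : 0 < D.MF := lt_of_lt_of_le h.fins.mF_pos h.fins.mF_le
  push Not at hout
  obtain ⟨r, hr, hn⟩ := hout
  simp only [GD.Out, mem_ofPred_eq, not_forall, not_le] at hn
  obtain ⟨v, hv, hlt⟩ := hn
  by_cases hz : traj t x u r + v ∈ D.Z
  · obtain ⟨r1, hr1, hf⟩ := C7_cross h.Z_closed (γ := fun r => traj t x u r + v)
      ((traj_cont hu t x).add continuous_const) hr0 hr (hend v hv) hz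
    obtain ⟨q, hq, hj⟩ := h.front _ hf
    refine ⟨r1, hr1, q, hq, -v, neg_mem hv, ?_⟩
    have e1 := j_Lam h.toOk0 hv (traj t x u r1) (q + -v)
    have e2 := j_Lam h.toOk0 hv (q + -v) (traj t x u r1)
    have e3 : q + -v + v = q := by abel
    rw [e3] at e1 e2
    have : 0 ≤ 4 * D.MF * η := by positivity
    linarith
  · obtain ⟨q, hq, v', hv', hj⟩ := nearP h.toOk0 hv hz hlt.le
    exact ⟨r, hr, q, hq, v', hv', hj⟩

/-- speed part of the cost of a path which stays away from all rooms -/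
theorem C7_exp (h : D.Ok) {s θ : ℝ} (hs : 0 ≤ s) (hθ : 0 < θ) (hθ1 : θ ≤ 1) {t t' : ℝ} (htt : t < t')
    (x : E) {u : ℝ → E} (hu : Adm u) :
    θ * s ^ 2 / 4 * (t' - t) ≤ (∫ r in t..t', (D.F (traj t x u r) (u r) - s) ^ 2) / 4 +
      1 / 2 * (s * (θ * ∫ r in t..t', D.F (traj t x u r) (u r))) := by
  have i1 := (C7_cbF h.fins).ii hu t x t t'
  have i2 := (C7_cbQ h.fins s).ii hu t x t t'
  have h3 : (∫ r in t..t', θ * s ^ 2) ≤
      ∫ r in t..t', ((D.F (traj t x u r) (u r) - s) ^ 2 +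
        2 * s * θ * D.F (traj t x u r) (u r)) := by
    refine intervalIntegral.integral_mono_on htt.le (by simp) (i2.add (i1.const_mul _)) (fun r _ => ?_)
    set F := D.F (traj t x u r) (u r)
    nlinarith [sq_nonneg (F - s * (1 - θ)), mul_nonneg (mul_nonneg (sq_nonneg s) hθ.le)
      (sub_nonneg.2 hθ1)]
  rw [intervalIntegral.integral_add i2 (i1.const_mul _),
    intervalIntegral.integral_const_mul (2 * s * θ), intervalIntegral.integral_const, smul_eq_mul] at h3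
  linarith

theorem C7_low (h : D.Ok) (m : ℝ) (L : LP) (C : ℝ) {ε : ℝ} (hε : 0 < ε) : ∃ s0 : ℝ, 1 ≤ s0 ∧ ∀ s, s0 ≤ s → ∀ ll,
    FL D m L ll → ∀ t t', 1 / 4 ≤ t' - t → t' - t ≤ 4 → ∀ x x' : E,
    ((∀ v ∈ D.Lam, x + v ∉ D.Z) ∨ ∀ v ∈ D.Lam, x' + v ∉ D.Z) →
    D.kk ll s t t' x x' ≤ C * s → ∃ q ∈ D.P0, ∃ v ∈ D.Lam,
      s * (D.j x (q + v) + D.j (q + v) x') + L.fl s t t' ≤ D.kk ll s t t' x x' + ε * s := by
  have hMF : 0 < D.MF := lt_of_lt_of_le h.fins.mF_pos h.fins.mF_le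
  set η : ℝ := ε / (16 * D.MF) with hηd
  have hη : 0 < η := by positivity
  have hη4 : 4 * D.MF * η = ε / 4 := by
    rw [hηd]; field_simp; ring
  obtain ⟨θ, hθ, hθ1, hst⟩ := h.strict η hη
  set K : ℝ := 2 * (|C| + 4 * |L.A| + 2) with hK
  have hK0 : 0 < K := by positivity
  set ε' : ℝ := ε / (4 * (K + 1)) with hε'
  have hε'0 : 0 < ε' := by positivity
  have hε'K : ε' * K + ε' = ε / 4 := by
    rw [hε']; field_simp
  obtain ⟨s1, hs1, H1⟩ := cst_low h m L (show (0 : ℝ) < 1 / 2 by norm_num)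
  obtain ⟨s2, hs2, H2⟩ := cst_low h m L hε'0
  refine ⟨max (max s1 s2) (max (16 * (|C| + 4 * |L.A| + 3) / θ) (4 / ε)),
    (hs1.trans (le_max_left _ _)).trans (le_max_left _ _), ?_⟩
  intro s hs ll hl t t' h14 h4 x x' hend hC
  have hss1 : s1 ≤ s := ((le_max_left _ _).trans (le_max_left _ _)).trans hs
  have hss2 : s2 ≤ s := ((le_max_right _ _).trans (le_max_left _ _)).trans hs
  have hs1' : 1 ≤ s := hs1.trans hss1
  have hs0 : 0 ≤ s := by linarith
  have hsθ : 16 * (|C| + 4 * |L.A| + 3) / θ ≤ s :=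
    ((le_max_left _ _).trans (le_max_right _ _)).trans hs
  have hsε : 4 / ε ≤ s := ((le_max_right _ _).trans (le_max_right _ _)).trans hs
  rw [div_le_iff₀ hθ] at hsθ
  rw [div_le_iff₀ hε] at hsε
  have htt : t < t' := by linarith
  have htt4 : t' ≤ t + 4 := by linarith
  have hTE := hl.toTE
  have hA : |L.A| = L.A := abs_of_nonneg hl.A_nonneg
  obtain ⟨u, n, hu, hx, hlt⟩ := exists_cst_lt h hTE hs0 htt one_pos x x'
  set exc : ℝ := (∫ r in t..t', D.F (traj t x u r) (u r)) - (D.B (traj t x u t') - D.B x) with hexc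
  have hI : 0 ≤ ∫ r in t..t', (D.F (traj t x u r) (u r) - s) ^ 2 :=
    intervalIntegral.integral_nonneg htt.le fun r _ => sq_nonneg _
  have G1 := H1 s hss1 ll hl x u hu t t' htt.le htt4
  have G2 := H2 s hss2 ll hl x u hu t t' htt.le htt4
  rw [← hexc] at G1 G2
  -- the flux
  have hfl : |L.fl s t t'| ≤ 4 * L.A * s := by
    have h1 := fl_bd hl.a_bd hs1' t t'
    rw [abs_of_pos (by linarith : 0 < t' - t)] at h1
    have h2 : 0 ≤ L.A * s := mul_nonneg hl.A_nonneg hs0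
    nlinarith
  have hfl' := (abs_le.1 hfl).1
  have hCs : C * s ≤ |C| * s := mul_le_mul_of_nonneg_right (le_abs_self C) hs0
  -- the excess is bounded
  have hsum : 1 / 2 * (s * exc) + (∫ r in t..t', (D.F (traj t x u r) (u r) - s) ^ 2) / 4 ≤
      (|C| + 4 * L.A + 2) * s := by nlinarith
  have hexc0 : exc ≤ K := by
    have h1 : 1 / 2 * (s * exc) ≤ (|C| + 4 * L.A + 2) * s := by linarith
    have h2 : s * exc ≤ s * K := by rw [hK, hA]; linarith
    exact le_of_mul_le_mul_left h2 (by linarith)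
  -- the path does not stay away from the rooms
  have hout : ¬ ∀ r ∈ Icc t t', traj t x u r ∈ D.Out η := by
    intro hout
    have h1 := C7_exp h hs0 hθ hθ1 htt x hu
    have h2 := hst x u hu t t' htt.le hout
    have h3 : θ * (∫ r in t..t', D.F (traj t x u r) (u r)) ≤ exc := by
      rw [hexc]; linarith
    have h5 : s * (θ * ∫ r in t..t', D.F (traj t x u r) (u r)) ≤ s * exc :=
      mul_le_mul_of_nonneg_left h3 hs0
    have h6 : θ * s ^ 2 / 16 ≤ θ * s ^ 2 / 4 * (t' - t) := by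
      have : 0 ≤ θ * s ^ 2 := by positivity
      nlinarith
    have h7 : 16 * (|C| + 4 * L.A + 3) * s ≤ s * θ * s := by
      rw [hA] at hsθ
      exact mul_le_mul_of_nonneg_right hsθ hs0
    nlinarith
  obtain ⟨r0, hr0, hend'⟩ : ∃ r0 ∈ Icc t t', ∀ v ∈ D.Lam, traj t x u r0 + v ∉ D.Z := by
    rcases hend with hend | hend
    · refine ⟨t, ⟨le_rfl, htt.le⟩, fun v hv => ?_⟩
      have : traj t x u t = x := by simp [traj]
      rw [this]
      exact hend v hv
    · refine ⟨t', ⟨htt.le, le_rfl⟩, fun v hv => ?_⟩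
      rw [hx, add_assoc]
      exact hend _ (add_mem (C7_lv_mem h n) hv)
  obtain ⟨r1, hr1, q, hq, v, hv, hj⟩ := C7_anchor h hu hη x hout hr0 hend'
  refine ⟨q, hq, v, hv, ?_⟩
  set z := traj t x u r1 with hz
  have h1 := j_le_exc h.toOk0 hr1.1 x hu
  have h2 := j_le_exc h.toOk0 hr1.2 z hu
  rw [← hz] at h1
  have h4' : traj r1 z u t' = traj t x u t' := by rw [hz, C7_traj hu]
  have h5 : D.j z (traj t x u t') = D.j z x' := by
    rw [hx]
    have := j_J h.toOk0 z x' 0 n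
    rwa [C7_lv0, add_zero] at this
  rw [h4', h5] at h2
  have h6 : (∫ r in r1..t', D.F (traj r1 z u r) (u r)) = ∫ r in r1..t', D.F (traj t x u r) (u r) := by
    simp only [hz, C7_traj hu]
  rw [h6] at h2
  have i1 := (C7_cbF h.fins).ii hu t x t r1
  have i2 := (C7_cbF h.fins).ii hu t x r1 t'
  have h7 := intervalIntegral.integral_add_adjacent_intervals i1 i2
  have h8 : D.j x z + D.j z x' ≤ exc := by
    rw [hexc, ← h7]
    linarith
  have t1 := j_tri h.toOk0 x z (q + v)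
  have t2 := j_tri h.toOk0 (q + v) z x'
  rw [hη4] at hj
  have h9 : D.j x (q + v) + D.j (q + v) x' ≤ exc + ε / 4 := by linarith
  have h10 := mul_le_mul_of_nonneg_left h9 hs0
  have h11 : ε' * (s * exc) ≤ ε' * (s * K) :=
    mul_le_mul_of_nonneg_left (mul_le_mul_of_nonneg_left hexc0 hs0) hε'0.le
  have h12 : ε' * (s * K) + ε' * s = ε / 4 * s := by rw [← hε'K]; ring
  nlinarith

/-- lower bound through an anchor if the starting point is outside of the rooms -/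
theorem low0 (h : D.Ok) (m : ℝ) (L : LP) (C : ℝ) {ε : ℝ} (hε : 0 < ε) : ∃ s0 : ℝ, 1 ≤ s0 ∧ ∀ s, s0 ≤ s → ∀ ll,
    FL D m L ll → ∀ t t', 1 / 4 ≤ t' - t → t' - t ≤ 4 → ∀ x x' : E,
    (∀ v ∈ D.Lam, x + v ∉ D.Z) → D.kk ll s t t' x x' ≤ C * s → ∃ q ∈ D.P0, ∃ v ∈ D.Lam,
      s * (D.j x (q + v) + D.j (q + v) x') + L.fl s t t' ≤ D.kk ll s t t' x x' + ε * s := by
  obtain ⟨s0, h1, H⟩ := C7_low h m L C hε
  exact ⟨s0, h1, fun s hs ll hl t t' h14 h4 x x' hx => H s hs ll hl t t' h14 h4 x x' (Or.inl hx)⟩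

/-- the same if the end point is outside of the rooms -/
theorem low1 (h : D.Ok) (m : ℝ) (L : LP) (C : ℝ) {ε : ℝ} (hε : 0 < ε) : ∃ s0 : ℝ, 1 ≤ s0 ∧ ∀ s, s0 ≤ s → ∀ ll,
    FL D m L ll → ∀ t t', 1 / 4 ≤ t' - t → t' - t ≤ 4 → ∀ x x' : E,
    (∀ v ∈ D.Lam, x' + v ∉ D.Z) → D.kk ll s t t' x x' ≤ C * s → ∃ q ∈ D.P0, ∃ v ∈ D.Lam,
      s * (D.j x (q + v) + D.j (q + v) x') + L.fl s t t' ≤ D.kk ll s t t' x x' + ε * s := by
  obtain ⟨s0, h1, H⟩ := C7_low h m L C hε
  exact ⟨s0, h1, fun s hs ll hl t t' h14 h4 x x' hx => H s hs ll hl t t' h14 h4 x x' (Or.inr hx)⟩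

end EscK
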