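import Pool.Agent.EscG.C1

/-!
Project EscK (MP_6acca1_an): the energy distance is at most the length of every control (helper46).
-/


set_option linter.unusedSectionVars false
set_option linter.unusedVariables false

noncomputable section

namespace EscK

open MeasureTheory Set Filter Topology Esc EscF EscG
open scoped ContDiff

/-- the length of a control is at least the energy distance of its end points -/
theorem fd_le_len {ι : Type} [Fintype ι] {E : Type*} [NormedAddCommGroup E] [InnerProductSpace ℝ E]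
    [FiniteDimensional ℝ E] {β : Module.Basis ι ℝ E} {F : E → E → ℝ} {mF MF : ℝ} (hF : Fins β F mF MF)
    {u : ℝ → E} (hu : Adm u) {a b : ℝ} (hab : a ≤ b) (z : E) :
    fd F z (traj a z u b) ≤ ∫ t in a..b, F (traj a z u t) (u t) := by
  have hMF : 0 ≤ MF := hF.mF_pos.le.trans hF.mF_le
  have hF0 : ∀ x v, 0 ≤ F x v := fun x v =>
    (mul_nonneg hF.mF_pos.le (norm_nonneg v)).trans (hF.low x v)
  obtain ⟨Z, hZ⟩ : ∃ Z, Z = traj a z u := ⟨_, rfl⟩
  obtain ⟨f, hf⟩ : ∃ f : ℝ → ℝ, f = fun t => F (Z t) (u t) := ⟨_, rfl⟩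
  obtain ⟨G, hG⟩ : ∃ G : ℝ → ℝ, G = fun t => fd F z (Z t) := ⟨_, rfl⟩
  have hf0 : ∀ t, 0 ≤ f t := fun t => by rw [hf]; exact hF0 _ _
  have hfii : ∀ p q : ℝ, IntervalIntegrable f volume p q := by
    intro p q
    rw [hf, hZ]
    exact A5a_ii hF hu a z p q
  have hf2ii : ∀ p q : ℝ, IntervalIntegrable (fun t => f t ^ 2) volume p q := by
    intro p q
    have h1 := (A5a_iiQ hF 0 hu a z p q).const_mul 2
    have h2 : (fun t => f t ^ 2) = fun r => 2 * ((F (traj a z u r) (u r) - 0) ^ 2 / 2) := by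
      funext r
      rw [hf, hZ]
      ring
    rw [h2]
    exact h1
  -- the distance between two points of the curve
  have hd : ∀ s t, s < t → fd F (Z s) (Z t) ^ 2 ≤ (t - s) * ∫ r in s..t, f r ^ 2 := by
    intro s t hst
    have h1 := fd_sq_le hF hst (Z s) hu
    have h2 : ∀ r, traj s (Z s) u r = Z r := fun r => by rw [hZ, ← traj_split hu a s z r]
    rw [h2 t] at h1
    have h3 : (∫ r in s..t, F (traj s (Z s) u r) (u r) ^ 2) = ∫ r in s..t, f r ^ 2 := by
      congr 1
      funext r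
      rw [h2 r, hf]
    rwa [h3] at h1
  obtain ⟨C, hC0, hC⟩ : ∃ C : ℝ, 0 ≤ C ∧ ∀ t, ‖u t‖ ≤ C := by
    obtain ⟨-, C, hC⟩ := hu
    exact ⟨C, (norm_nonneg _).trans (hC 0), hC⟩
  have hZl : ∀ s t, ‖Z t - Z s‖ ≤ C * |t - s| := by
    intro s t
    have h1 : Z t - Z s = ∫ r in s..t, u r := by
      rw [hZ]
      unfold traj
      rw [add_sub_add_left_eq_sub, intervalIntegral.integral_interval_sub_left (hu.ii a t) (hu.ii a s)]
    rw [h1]
    exact intervalIntegral.norm_integral_le_of_norm_le_const fun r _ => hC r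
  have hGd : ∀ s t, G t - G s ≤ fd F (Z s) (Z t) := by
    intro s t
    have := fd_tri hF z (Z s) (Z t)
    rw [hG]
    simp only
    linarith
  have hGl : LipschitzWith ⟨MF * C, mul_nonneg hMF hC0⟩ G := by
    refine LipschitzWith.of_dist_le_mul fun s t => ?_
    have h1 : ∀ s t, G t - G s ≤ MF * C * |t - s| := by
      intro s t
      refine (hGd s t).trans ((fd_le hF _ _).trans ?_)
      rw [mul_assoc]
      exact mul_le_mul_of_nonneg_left (hZl s t) hMF
    rw [Real.dist_eq, Real.dist_eq, abs_sub_le_iff]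
    refine ⟨h1 t s, ?_⟩
    rw [abs_sub_comm]
    exact h1 s t
  have hAC : AbsolutelyContinuousOnInterval G a b :=
    (hGl.lipschitzOnWith (s := uIcc a b)).absolutelyContinuousOnInterval
  have hint := hAC.integral_deriv_eq_sub
  have hGa : G a = 0 := by
    rw [hG, hZ]
    have h1 : traj a z u a = z := by simp [traj]
    simp only [h1]
    exact C1_self hF z
  -- the derivative is at most the speed
  have hae : ∀ᵐ t ∂(volume.restrict (Icc a b)), deriv G t ≤ f t := by
    rw [ae_restrict_iff' measurableSet_Icc]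
    filter_upwards [hGl.ae_differentiableAt_real, (hf2ii a b).ae_hasDerivAt_integral] with t h1 h2 ht
    have ht' : t ∈ uIcc a b := by rw [uIcc_of_le hab]; exact ht
    have h3 := h2 ht' a left_mem_uIcc
    have h4 := hasDerivAt_iff_tendsto_slope_zero.1 h1.hasDerivAt
    have h5 := hasDerivAt_iff_tendsto_slope_zero.1 h3
    have h4' : Tendsto (fun h : ℝ => h⁻¹ • (G (t + h) - G t)) (𝓝[>] 0) (𝓝 (deriv G t)) :=
      h4.mono_left (nhdsWithin_mono _ fun x hx => ne_of_gt hx)
    have h5' : Tendsto (fun h : ℝ => Real.sqrt (h⁻¹ • ((∫ r in a..(t + h), f r ^ 2) -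
        ∫ r in a..t, f r ^ 2))) (𝓝[>] 0) (𝓝 (f t)) := by
      have h6 := (Real.continuous_sqrt.tendsto (f t ^ 2)).comp
        (h5.mono_left (nhdsWithin_mono _ fun x hx => ne_of_gt hx : 𝓝[>] (0:ℝ) ≤ 𝓝[≠] 0))
      rwa [Real.sqrt_sq (hf0 t)] at h6
    refine le_of_tendsto_of_tendsto h4' h5' ?_
    filter_upwards [self_mem_nhdsWithin] with h hh
    have hh : 0 < h := hh
    have h7 := hd t (t + h) (by linarith)
    have h8 : (∫ r in a..(t + h), f r ^ 2) - ∫ r in a..t, f r ^ 2 = ∫ r in t..(t + h), f r ^ 2 :=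
      intervalIntegral.integral_interval_sub_left (hf2ii a (t + h)) (hf2ii a t)
    rw [h8, smul_eq_mul, smul_eq_mul]
    rw [add_sub_cancel_left] at h7
    refine le_trans (mul_le_mul_of_nonneg_left (hGd t (t + h)) (inv_nonneg.2 hh.le))
      (Real.le_sqrt_of_sq_le ?_)
    have h9 : (h⁻¹ * fd F (Z t) (Z (t + h))) ^ 2 = h⁻¹ * (h⁻¹ * fd F (Z t) (Z (t + h)) ^ 2) := by ring
    rw [h9]
    refine mul_le_mul_of_nonneg_left ?_ (inv_nonneg.2 hh.le)
    rw [inv_mul_le_iff₀ hh]
    exact h7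
  have h1 : G b ≤ ∫ t in a..b, f t := by
    have h2 := intervalIntegral.integral_mono_ae_restrict hab hAC.intervalIntegrable_deriv (hfii a b) hae
    rw [hint, hGa, sub_zero] at h2
    exact h2
  rw [hG, hf, hZ] at h1
  exact h1

end EscK
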