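import Pool.Agent.EscK.KDefs
import Pool.Agent.EscG.A1
import Pool.Agent.EscG.A5a
import Pool.Agent.EscG.C1
import Pool.Agent.EscG.C2
import Pool.Agent.EscK.Len
import Pool.Agent.EscK.C6
import Pool.Agent.EscK.C6b

/-!
Project EscK (MP_6acca1_an), module C8: upper bound of the kernels at speed `s` through an anchor
(helper46).
-/

set_option linter.unusedSectionVars false
set_option linter.unusedVariables false

noncomputable section

namespace EscK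

open MeasureTheory Set Filter Topology Esc EscF EscG
open scoped ContDiff

variable {ι : Type} [Fintype ι] {d : ℕ} {E : Type*} [NormedAddCommGroup E] [InnerProductSpace ℝ E]
  [FiniteDimensional ℝ E] {D : GD ι d E} {p : GP} {m M Mf : ℝ} {L : LP} {ll l : E → E → ℝ → ℝ}
  {f f' : E → ℝ → ℝ}

/-! ### a control of almost minimal energy -/

/-- a control from `z` to `z'` with almost minimal length and almost constant speed -/
theorem C8_ctl (h : D.Ok) {t t' : ℝ} (htt : t < t') {η : ℝ} (hη : 0 < η) (s : ℝ) (hs : 0 ≤ s) (z z' : E) :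
    ∃ u : ℝ → E, Adm u ∧ traj t z u t' = z' ∧
      (∫ r in t..t', D.F (traj t z u r) (u r)) ≤ fd D.F z z' + η ∧
      fd D.F z z' ≤ ∫ r in t..t', D.F (traj t z u r) (u r) ∧
      (∫ r in t..t', (D.F (traj t z u r) (u r) - s) ^ 2) ≤
        ((fd D.F z z' - s * (t' - t)) ^ 2 + η ^ 2) / (t' - t) := by
  have hτ : 0 < t' - t := sub_pos.mpr htt
  obtain ⟨u, hu, hz, hE⟩ := exists_energy h.fins htt (pow_pos hη 2) z z'
  have hlow := fd_le_len h.fins hu htt.le z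
  rw [hz] at hlow
  have hd := fd_nonneg D.F z z'
  have i1 := EscG.A5a_ii h.fins hu t z t t'
  have i2 : IntervalIntegrable (fun r => D.F (traj t z u r) (u r) ^ 2) volume t t' := by
    have h1 := (EscG.A5a_iiQ h.fins 0 hu t z t t').const_mul 2
    have h2 : (fun r => D.F (traj t z u r) (u r) ^ 2) =
        fun r => 2 * ((D.F (traj t z u r) (u r) - 0) ^ 2 / 2) := by
      funext r
      ring
    rw [h2]
    exact h1
  have hcs := EscG.A5a_cs htt i1 (i2.div_const 2)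
  rw [intervalIntegral.integral_div] at hcs
  obtain ⟨I, hI⟩ : ∃ I, I = ∫ r in t..t', D.F (traj t z u r) (u r) := ⟨_, rfl⟩
  obtain ⟨Q, hQ⟩ : ∃ Q, Q = ∫ r in t..t', D.F (traj t z u r) (u r) ^ 2 := ⟨_, rfl⟩
  rw [← hI] at hcs hlow
  rw [← hQ] at hcs hE
  refine ⟨u, hu, hz, ?_, ?_, ?_⟩
  · rw [← hI]
    have h1 : I ^ 2 ≤ (fd D.F z z' + η) ^ 2 := by nlinarith
    exact le_of_sq_le_sq h1 (by linarith)
  · rw [← hI]
    exact hlow
  · have h1 : (∫ r in t..t', (D.F (traj t z u r) (u r) - s) ^ 2) = Q - 2 * s * I + s ^ 2 * (t' - t) := by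
      have e1 : ∀ r, (D.F (traj t z u r) (u r) - s) ^ 2 =
          D.F (traj t z u r) (u r) ^ 2 - 2 * s * D.F (traj t z u r) (u r) + s ^ 2 := fun r => by ring
      simp_rw [e1]
      rw [intervalIntegral.integral_add (i2.sub (i1.const_mul _)) (by simp),
        intervalIntegral.integral_sub i2 (i1.const_mul _), intervalIntegral.integral_const_mul,
        intervalIntegral.integral_const, smul_eq_mul, ← hI, ← hQ]
      ring
    rw [h1, le_div_iff₀ hτ]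
    have h2 : 2 * s * fd D.F z z' ≤ 2 * s * I := mul_le_mul_of_nonneg_left hlow (by linarith)
    have h3 := mul_le_mul_of_nonneg_right h2 hτ.le
    nlinarith

/-! ### near-optimal shifts from finite sets -/

theorem C8_F_per (h : D.Ok) (n : Fin d → ℤ) (x u : E) : D.F (x + lv D.b n) u = D.F x u := by
  refine EscG.A5a_per (g := fun y => D.F y u) (fun i y => ?_) n x
  obtain ⟨k, hk⟩ := h.bβ i
  simp only [hk]
  exact h.fins.per k y u

theorem C8_shifts (h : D.Ok) (ρ : ℝ) {ε : ℝ} (hε : 0 < ε) : ∃ C : ℝ, ∀ x x' : E, ‖x‖ ≤ ρ → ‖x'‖ ≤ ρ →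
    ∃ n : Fin d → ℤ, fd D.F x (x' + lv D.b n) ≤ C ∧
      fd D.F x (x' + lv D.b n) - (D.B (x' + lv D.b n) - D.B x) ≤ D.j x x' + ε := by
  have hMF : 0 < D.MF := lt_of_lt_of_le h.fins.mF_pos h.fins.mF_le
  set P : Set (E × E) → Prop := fun S => ∃ C : ℝ, ∀ y ∈ S, ∃ n : Fin d → ℤ,
    fd D.F y.1 (y.2 + lv D.b n) ≤ C ∧
      fd D.F y.1 (y.2 + lv D.b n) - (D.B (y.2 + lv D.b n) - D.B y.1) ≤ D.j y.1 y.2 + ε with hP
  have hK : IsCompact (Metric.closedBall (0 : E) ρ ×ˢ Metric.closedBall (0 : E) ρ) :=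
    (isCompact_closedBall _ _).prod (isCompact_closedBall _ _)
  have hmain : P (Metric.closedBall (0 : E) ρ ×ˢ Metric.closedBall (0 : E) ρ) := by
    refine hK.induction_on (p := P) ?_ ?_ ?_ ?_
    · exact ⟨0, fun y hy => absurd hy (Set.notMem_empty y)⟩
    · rintro S T hST ⟨C, hC⟩
      exact ⟨C, fun y hy => hC y (hST hy)⟩
    · rintro S T ⟨C, hC⟩ ⟨C', hC'⟩
      refine ⟨max C C', fun y hy => ?_⟩
      rcases hy with hy | hy
      · obtain ⟨n, h1, h2⟩ := hC y hy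
        exact ⟨n, h1.trans (le_max_left _ _), h2⟩
      · obtain ⟨n, h1, h2⟩ := hC' y hy
        exact ⟨n, h1.trans (le_max_right _ _), h2⟩
    · intro y0 _
      obtain ⟨n, hn⟩ := exists_j_lt h.toOk0 y0.1 y0.2 (ε := ε / 2) (half_pos hε)
      set δ : ℝ := ε / (16 * D.MF) with hδ
      have hδ0 : 0 < δ := div_pos hε (by linarith)
      have hδ1 : D.MF * δ = ε / 16 := by
        rw [hδ]
        field_simp
      refine ⟨Metric.ball y0 δ, mem_nhdsWithin_of_mem_nhds (Metric.ball_mem_nhds y0 hδ0),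
        fd D.F y0.1 (y0.2 + lv D.b n) + ε, fun y hy => ⟨n, ?_⟩⟩
      have hy' : dist y y0 < δ := hy
      rw [Prod.dist_eq, max_lt_iff, dist_eq_norm, dist_eq_norm] at hy'
      have hy1 : ‖y.1 - y0.1‖ ≤ δ := hy'.1.le
      have hy2 : ‖y.2 - y0.2‖ ≤ δ := hy'.2.le
      have hy1' : ‖y0.1 - y.1‖ ≤ δ := by rw [norm_sub_rev]; exact hy1
      have hy2' : ‖y0.2 - y.2‖ ≤ δ := by rw [norm_sub_rev]; exact hy2
      have e1 : D.MF * ‖y.1 - y0.1‖ ≤ ε / 16 := by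
        rw [← hδ1]; exact mul_le_mul_of_nonneg_left hy1 hMF.le
      have e1' : D.MF * ‖y0.1 - y.1‖ ≤ ε / 16 := by
        rw [← hδ1]; exact mul_le_mul_of_nonneg_left hy1' hMF.le
      have e2 : D.MF * ‖y.2 - y0.2‖ ≤ ε / 16 := by
        rw [← hδ1]; exact mul_le_mul_of_nonneg_left hy2 hMF.le
      have e2' : D.MF * ‖y0.2 - y.2‖ ≤ ε / 16 := by
        rw [← hδ1]; exact mul_le_mul_of_nonneg_left hy2' hMF.le
      have a1 := fd_tri h.fins y.1 y0.1 (y.2 + lv D.b n)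
      have a2 := fd_tri h.fins y0.1 (y0.2 + lv D.b n) (y.2 + lv D.b n)
      have a3 := fd_le h.fins y.1 y0.1
      have a4 := fd_le h.fins (y0.2 + lv D.b n) (y.2 + lv D.b n)
      rw [add_sub_add_right_eq_sub] at a4
      have b1 := abs_le.mp (Cal.lip h.fins h.cal y.1 y0.1)
      have b2 := abs_le.mp (Cal.lip h.fins h.cal (y.2 + lv D.b n) (y0.2 + lv D.b n))
      rw [add_sub_add_right_eq_sub] at b2
      have c1 := j_tri h.toOk0 y0.1 y.1 y0.2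
      have c2 := j_tri h.toOk0 y.1 y.2 y0.2
      have c3 := j_lip h.toOk0 y0.1 y.1
      have c4 := j_lip h.toOk0 y.2 y0.2
      constructor
      · linarith
      · linarith [b1.1, b1.2, b2.1, b2.2]
  obtain ⟨C, hC⟩ := hmain
  refine ⟨C, fun x x' hx hx' => hC (x, x') ⟨?_, ?_⟩⟩
  · rw [mem_closedBall_zero_iff]; exact hx
  · rw [mem_closedBall_zero_iff]; exact hx'

/-! ### upper bound through an anchor -/

theorem C8_route (h : D.Ok) (x q x' : E) (n1 n n2 : Fin d → ℤ) :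
    fd D.F x (x' + lv D.b (n1 + n + n2)) ≤
        fd D.F x (q + lv D.b n1) + fd D.F q (q + lv D.b n) + fd D.F q (x' + lv D.b n2) ∧
      D.B (x' + lv D.b (n1 + n + n2)) - D.B x = (D.B (q + lv D.b n1) - D.B x) +
        (D.B (q + lv D.b n) - D.B q) + (D.B (x' + lv D.b n2) - D.B q) := by
  have hs : ∀ k : Fin d → ℤ, ∀ y y' : E, fd D.F (y + lv D.b k) (y' + lv D.b k) = fd D.F y y' :=
    fun k y y' => fd_shift (lv D.b k) (C8_F_per h k) y y'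
  have e1 : q + lv D.b n + lv D.b n1 = q + lv D.b (n1 + n) := by
    rw [EscG.A5a_lv_add]; abel
  have e2 : x' + lv D.b n2 + lv D.b (n1 + n) = x' + lv D.b (n1 + n + n2) := by
    rw [EscG.A5a_lv_add, EscG.A5a_lv_add, EscG.A5a_lv_add]; abel
  constructor
  · have a1 := fd_tri h.fins x (q + lv D.b n1) (x' + lv D.b (n1 + n + n2))
    have a2 := fd_tri h.fins (q + lv D.b n1) (q + lv D.b (n1 + n)) (x' + lv D.b (n1 + n + n2))
    have a3 := hs n1 q (q + lv D.b n)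
    rw [e1] at a3
    have a4 := hs (n1 + n) q (x' + lv D.b n2)
    rw [e2] at a4
    linarith
  · rw [h.cal.lvB, h.cal.lvB n1 q, h.cal.lvB n q, h.cal.lvB n2 x']
    have e3 : ∑ i, (((n1 + n + n2) i : ℤ) : ℝ) * D.c i = (∑ i, (n1 i : ℝ) * D.c i) +
        (∑ i, (n i : ℝ) * D.c i) + ∑ i, (n2 i : ℝ) * D.c i := by
      rw [← Finset.sum_add_distrib, ← Finset.sum_add_distrib]
      refine Finset.sum_congr rfl fun i _ => ?_
      rw [Pi.add_apply, Pi.add_apply, Int.cast_add, Int.cast_add]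
      ring
    rw [e3]
    ring

theorem C8_lv0 (x : E) : x + lv D.b (0 : Fin d → ℤ) = x := by
  rw [EscG.A5a_lv_zero, add_zero]

theorem C8_upp_ball (h : D.Ok) (m : ℝ) (L : LP) (ρ : ℝ) {ε : ℝ} (hε : 0 < ε) {q : E} (hq : D.Anc q) :
    ∃ s0 : ℝ, 1 ≤ s0 ∧ ∀ s, s0 ≤ s → ∀ ll,
    FL D m L ll → ∀ t t', 1 / 4 ≤ t' - t → t' - t ≤ 4 → ∀ x x' : E, ‖x‖ ≤ ρ → ‖x'‖ ≤ ρ →
    D.kk ll s t t' x x' ≤ L.fl s t t' + s * (D.j x q + D.j q x') + ε * s := by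
  have hMF : 0 < D.MF := lt_of_lt_of_le h.fins.mF_pos h.fins.mF_le
  obtain ⟨ε0, hε0, hε01, hε0ε⟩ : ∃ ε0 : ℝ, 0 < ε0 ∧ ε0 ≤ 1 ∧ ε0 ≤ ε :=
    ⟨min ε 1, lt_min hε one_pos, min_le_right _ _, min_le_left _ _⟩
  have hε1 : 0 < ε0 / 16 := by linarith
  obtain ⟨C0, hC0⟩ := C8_shifts h (max ρ ‖q‖) hε1
  obtain ⟨C2, hC2⟩ := hq (ε0 / 16) hε1
  obtain ⟨CJ, hCJ⟩ : ∃ CJ : ℝ, CJ = 4 * D.MF * (|ρ| + ‖q‖) := ⟨_, rfl⟩
  have hCJ0 : 0 ≤ CJ := by rw [hCJ]; positivity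
  obtain ⟨ε2, hε2, hε2J⟩ : ∃ ε2 : ℝ, 0 < ε2 ∧ ε2 * (CJ + 2) = ε0 / 8 :=
    ⟨ε0 / 8 / (CJ + 2), by positivity, div_mul_cancel₀ _ (by positivity)⟩
  obtain ⟨s1, hs11, hs1⟩ := cst_upp h m L hε2
  obtain ⟨C1, hC1⟩ : ∃ C1 : ℝ, C1 = |C0| := ⟨_, rfl⟩
  have hC1n : 0 ≤ C1 := hC1 ▸ abs_nonneg _
  have hC01 : C0 ≤ C1 := hC1 ▸ le_abs_self _
  obtain ⟨C3, hC3⟩ : ∃ C3 : ℝ, C3 = |C2| + CJ + 1 := ⟨_, rfl⟩
  have hC3n : 0 ≤ C3 := by rw [hC3]; positivity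
  refine ⟨s1 + 8 * C1 + 4 * (C3 ^ 2 + 1) * 2 / ε, ?_, ?_⟩
  · have : 0 ≤ 4 * (C3 ^ 2 + 1) * 2 / ε := by positivity
    linarith
  intro s hs ll hl t t' htt1 htt4 x x' hx hx'
  have hK : 0 ≤ 4 * (C3 ^ 2 + 1) * 2 / ε := by positivity
  have hss1 : s1 ≤ s := by linarith
  have hsp : 0 ≤ s := by linarith
  have hs8 : 8 * C1 ≤ s := by linarith
  have hsK : 4 * (C3 ^ 2 + 1) ≤ ε / 2 * s := by
    have h1 : 4 * (C3 ^ 2 + 1) * 2 / ε ≤ s := by linarith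
    rw [div_le_iff₀ hε] at h1
    linarith
  have htt : t < t' := by linarith
  have hτ : 0 < t' - t := by linarith
  obtain ⟨n1, hd1, hj1⟩ := hC0 x q (hx.trans (le_max_left _ _)) (le_max_right _ _)
  obtain ⟨n2, hd2, hj2⟩ := hC0 q x' (le_max_right _ _) (hx'.trans (le_max_left _ _))
  obtain ⟨d1, hd1d⟩ : ∃ d1 : ℝ, d1 = fd D.F x (q + lv D.b n1) := ⟨_, rfl⟩
  obtain ⟨d2, hd2d⟩ : ∃ d2 : ℝ, d2 = fd D.F q (x' + lv D.b n2) := ⟨_, rfl⟩
  rw [← hd1d] at hd1 hj1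
  rw [← hd2d] at hd2 hj2
  have hsτ : s / 4 ≤ s * (t' - t) := by
    have := mul_le_mul_of_nonneg_left htt1 hsp
    linarith
  obtain ⟨n, hn1, hn2, hn3⟩ := hC2 (s * (t' - t) - d1 - d2) (by linarith)
  obtain ⟨hr1, hr2⟩ := C8_route h x q x' n1 n n2
  rw [← hd1d, ← hd2d] at hr1
  obtain ⟨Lp, hLp⟩ : ∃ Lp : ℝ, Lp = fd D.F q (q + lv D.b n) := ⟨_, rfl⟩
  rw [← hLp] at hn1 hn2 hn3 hr1
  obtain ⟨dd, hdd⟩ : ∃ dd : ℝ, dd = fd D.F x (x' + lv D.b (n1 + n + n2)) := ⟨_, rfl⟩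
  obtain ⟨ΔB, hΔB⟩ : ∃ ΔB : ℝ, ΔB = D.B (x' + lv D.b (n1 + n + n2)) - D.B x := ⟨_, rfl⟩
  have hBd : ΔB ≤ dd := by
    rw [hΔB, hdd]
    exact B_le_fd h.toOk0 _ _
  obtain ⟨J, hJ⟩ : ∃ J : ℝ, J = D.j x q + D.j q x' := ⟨_, rfl⟩
  have hJC : J ≤ CJ := by
    have e1 : D.j x q ≤ 2 * D.MF * (|ρ| + ‖q‖) := by
      refine (j_lip h.toOk0 _ _).trans (mul_le_mul_of_nonneg_left ?_ (by linarith))
      have := norm_sub_le q x
      linarith [le_abs_self ρ]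
    have e2 : D.j q x' ≤ 2 * D.MF * (|ρ| + ‖q‖) := by
      refine (j_lip h.toOk0 _ _).trans (mul_le_mul_of_nonneg_left ?_ (by linarith))
      have := norm_sub_le x' q
      linarith [le_abs_self ρ]
    rw [hJ, hCJ]
    linarith
  rw [← hdd] at hr1
  rw [← hΔB] at hr2
  -- the sum of the three passages
  have h4 : d1 + Lp + d2 - ΔB ≤ J + 3 * (ε0 / 16) := by
    rw [hr2, hJ]
    linarith
  have hlow : s * (t' - t) - C3 ≤ dd := by
    have := abs_nonneg C2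
    rw [hC3]
    linarith
  have hupp : dd ≤ s * (t' - t) + C3 := by
    have := le_abs_self C2
    rw [hC3]
    linarith
  obtain ⟨u, hu, hz, hu1, hu2, hu3⟩ := C8_ctl h htt (η := ε0 / 8) (by linarith) s hsp x
    (x' + lv D.b (n1 + n + n2))
  rw [← hdd] at hu1 hu2 hu3
  have hkk := kk_le_cst h hl.toTE hsp htt hu hz
  have hc := hs1 s hss1 ll hl x u hu t t' htt.le (by linarith)
  rw [hz, ← hΔB] at hc
  obtain ⟨I, hI⟩ : ∃ I, I = ∫ r in t..t', D.F (traj t x u r) (u r) := ⟨_, rfl⟩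
  obtain ⟨V, hV⟩ : ∃ V, V = ∫ r in t..t', (D.F (traj t x u r) (u r) - s) ^ 2 := ⟨_, rfl⟩
  rw [← hI] at hu1 hu2
  rw [← hV] at hu3
  rw [← hI, ← hV] at hc
  have hV4 : V ≤ 4 * (C3 ^ 2 + 1) := by
    refine hu3.trans ?_
    rw [div_le_iff₀ hτ]
    have e1 : (dd - s * (t' - t)) ^ 2 ≤ C3 ^ 2 := by
      rw [sq_le_sq, abs_of_nonneg hC3n, abs_le]
      constructor
      · linarith only [hlow, hupp]
      · linarith only [hlow, hupp]
    have e2 : (ε0 / 8) ^ 2 ≤ 1 := by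
      have e5 : ε0 / 8 ≤ 1 := by linarith only [hε01, hε0]
      exact pow_le_one₀ (by positivity) e5
    have e3 : 4 * (C3 ^ 2 + 1) * (1 / 4) ≤ 4 * (C3 ^ 2 + 1) * (t' - t) :=
      mul_le_mul_of_nonneg_left htt1 (by positivity)
    linarith
  have hexc : I - ΔB ≤ J + 5 / 16 * ε0 := by linarith
  have h5 := mul_le_mul_of_nonneg_left hexc hsp
  have h6 := mul_le_mul_of_nonneg_left h5 (by linarith : (0:ℝ) ≤ 1 + ε2)
  have h7 : (1 + ε2) * (s * (J + 5 / 16 * ε0)) ≤ s * J + 5 / 16 * (ε0 * s) + ε2 * (CJ + 1) * s := by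
    have e1 : ε2 * (s * (J + 5 / 16 * ε0)) ≤ ε2 * (s * (CJ + 1)) := by
      refine mul_le_mul_of_nonneg_left (mul_le_mul_of_nonneg_left ?_ hsp) hε2.le
      linarith
    have e2 : (1 + ε2) * (s * (J + 5 / 16 * ε0)) =
        s * J + 5 / 16 * (ε0 * s) + ε2 * (s * (J + 5 / 16 * ε0)) := by ring
    have e3 : ε2 * (s * (CJ + 1)) = ε2 * (CJ + 1) * s := by ring
    rw [e2, ← e3]
    exact add_le_add_right e1 _
  have h8 : ε2 * (CJ + 1) * s + ε2 * s = 1 / 8 * (ε0 * s) := by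
    have : ε2 * (CJ + 1) * s + ε2 * s = ε2 * (CJ + 2) * s := by ring
    rw [this, hε2J]
    ring
  have h9 : ε0 * s ≤ ε * s := mul_le_mul_of_nonneg_right hε0ε hsp
  have h10 : 0 ≤ ε0 * s := mul_nonneg hε0.le hsp
  have h11 : ε / 2 * s = 1 / 2 * (ε * s) := by ring
  rw [← hJ]
  linarith

theorem upp (h : D.Ok) (m : ℝ) (L : LP) (ρ : ℝ) {ε : ℝ} (hε : 0 < ε) : ∃ s0 : ℝ, 1 ≤ s0 ∧ ∀ s, s0 ≤ s → ∀ ll,
    FL D m L ll → ∀ t t', 1 / 4 ≤ t' - t → t' - t ≤ 4 → ∀ x ∈ D.X ρ, ∀ x' ∈ D.X ρ,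
    ∀ q ∈ D.P0, D.kk ll s t t' x x' ≤ L.fl s t t' + s * (D.j x q + D.j q x') + ε * s := by
  obtain ⟨s1, h11, hs1⟩ := C8_upp_ball h m L ρ hε h.anc0
  obtain ⟨s2, h12, hs2⟩ := C8_upp_ball h m L ρ hε h.anc1
  refine ⟨max s1 s2, h11.trans (le_max_left _ _), ?_⟩
  intro s hs ll hl t t' htt1 htt4 x hx x' hx' q hq
  obtain ⟨k, hk⟩ := hx
  obtain ⟨k', hk'⟩ := hx'
  rw [← kk_J h hl.toTE s t t' x x' k k', ← j_J h.toOk0 x q k 0, ← j_J h.toOk0 q x' 0 k', C8_lv0]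
  rcases hq with hq | hq
  · rw [hq]
    exact hs1 s ((le_max_left _ _).trans hs) ll hl t t' htt1 htt4 _ _ hk hk'
  · rw [mem_singleton_iff] at hq
    rw [hq]
    exact hs2 s ((le_max_right _ _).trans hs) ll hl t t' htt1 htt4 _ _ hk hk'

/-- hence a linear bound -/
theorem kk_lin (h : D.Ok) (m : ℝ) (L : LP) (ρ : ℝ) : ∃ C s0 : ℝ, 0 ≤ C ∧ 1 ≤ s0 ∧ ∀ s, s0 ≤ s → ∀ ll,
    FL D m L ll → ∀ t t', 1 / 4 ≤ t' - t → t' - t ≤ 4 → ∀ x ∈ D.X ρ, ∀ x' ∈ D.X ρ,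
    |D.kk ll s t t' x x'| ≤ C * s := by
  have hMF : 0 < D.MF := lt_of_lt_of_le h.fins.mF_pos h.fins.mF_le
  obtain ⟨s1, h1, hs1⟩ := upp h m L ρ one_pos
  obtain ⟨s2, h2, hs2⟩ := kk_ge h m L (one_half_pos (α := ℝ))
  refine ⟨4 * D.MF * (|ρ| + ‖D.q0‖) + 1 + 4 * |L.A|, max s1 s2, by positivity,
    h1.trans (le_max_left _ _), ?_⟩
  intro s hs ll hl t t' htt1 htt4 x hx x' hx'
  have hss1 := (le_max_left s1 s2).trans hs
  have hss2 := (le_max_right s1 s2).trans hs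
  have hu := hs1 s hss1 ll hl t t' htt1 htt4 x hx x' hx' D.q0 (Or.inl rfl)
  have hge := hs2 s hss2 ll hl t t' (by linarith) (by linarith) x x'
  have hs1' : 1 ≤ s := h1.trans hss1
  have hjn := j_nonneg h.toOk0 x x'
  have hfl := abs_le.1 (fl_bd hl.a_bd hs1' t t')
  have hfl4 : L.A * s * |t' - t| ≤ 4 * |L.A| * s := by
    rw [abs_of_pos (by linarith : 0 < t' - t)]
    have e1 : L.A * s ≤ |L.A| * s := mul_le_mul_of_nonneg_right (le_abs_self _) (by linarith)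
    have e2 : L.A * s * (t' - t) ≤ |L.A| * s * (t' - t) :=
      mul_le_mul_of_nonneg_right e1 (by linarith)
    have e3 : |L.A| * s * (t' - t) ≤ |L.A| * s * 4 :=
      mul_le_mul_of_nonneg_left htt4 (by positivity)
    linarith
  obtain ⟨k, hk⟩ := hx
  obtain ⟨k', hk'⟩ := hx'
  have hj1 : D.j x D.q0 ≤ 2 * D.MF * (|ρ| + ‖D.q0‖) := by
    rw [← j_J h.toOk0 x D.q0 k 0, C8_lv0]
    refine (j_lip h.toOk0 _ _).trans (mul_le_mul_of_nonneg_left ?_ (by linarith))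
    have := norm_sub_le D.q0 (x + lv D.b k)
    linarith [le_abs_self ρ]
  have hj2 : D.j D.q0 x' ≤ 2 * D.MF * (|ρ| + ‖D.q0‖) := by
    rw [← j_J h.toOk0 D.q0 x' 0 k', C8_lv0]
    refine (j_lip h.toOk0 _ _).trans (mul_le_mul_of_nonneg_left ?_ (by linarith))
    have := norm_sub_le (x' + lv D.b k') D.q0
    linarith [le_abs_self ρ]
  have hj3 : s * (D.j x D.q0 + D.j D.q0 x') ≤ s * (4 * D.MF * (|ρ| + ‖D.q0‖)) := by
    refine mul_le_mul_of_nonneg_left ?_ (by linarith)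
    linarith
  have hA : 0 ≤ 4 * D.MF * (|ρ| + ‖D.q0‖) * s := by positivity
  have hjs : 0 ≤ (1 - 1 / 2) * (s * D.j x x') :=
    mul_nonneg (by norm_num) (mul_nonneg (by linarith) hjn)
  rw [abs_le]
  constructor
  · linarith
  · linarith

end EscK
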