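import Pool.Agent.EscK.KDefs
import Pool.Agent.EscG.C2
import Pool.Agent.EscG.C5
import Pool.Agent.EscK.C6b
import Pool.Agent.EscK.C7
import Pool.Agent.EscK.C8

/-!
Project EscK, module C10: optimal points are not on the boundary of the room.
-/

noncomputable section

namespace EscK

open MeasureTheory Set Filter Topology Esc EscF EscG
open scoped ContDiff

variable {ι : Type} [Fintype ι] {d : ℕ} {E : Type*} [NormedAddCommGroup E] [InnerProductSpace ℝ E]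
  [FiniteDimensional ℝ E] {D : GD ι d E} {p : GP} {m M Mf : ℝ} {L : LP} {ll l : E → E → ℝ → ℝ}
  {f f' : E → ℝ → ℝ}

omit [FiniteDimensional ℝ E] in
theorem C10_lv0 (b : Fin d → E) : lv b 0 = 0 := by
  simp [lv]

omit [FiniteDimensional ℝ E] in
/-- points at distance `η1` of the zone are outside of all rooms -/
theorem C10_out (h : D.Ok) (hp : p.Ok D) {x : E} (hx : Metric.infDist x D.Z = p.η1) :
    ∀ v ∈ D.Lam, x + v ∉ D.Z := by
  intro v hv hxv
  have hη1 := hp.η1_pos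
  have hηc := hp.ηc_pos
  have hle := hp.η1_le
  by_cases hJ : D.InJ v
  · obtain ⟨n, rfl⟩ := hJ
    have h1 := h.Z_J (-n) _ hxv
    have h2 : x + lv D.b n + lv D.b (-n) = x := by
      have : lv D.b (-n) = - lv D.b n := by
        simp [lv]
      rw [this]
      abel
    rw [h2] at h1
    rw [Metric.infDist_zero_of_mem h1] at hx
    linarith
  · have hJ' : ¬ D.InJ (-v) := by
      rintro ⟨n, hn⟩
      apply hJ
      refine ⟨-n, ?_⟩
      have : lv D.b (-n) = - lv D.b n := by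
        simp [lv]
      rw [this, ← hn, neg_neg]
    have h1 := hp.sep (-v) (neg_mem hv) hJ' _ hxv
    rw [add_neg_cancel_right, hx] at h1
    linarith

omit [FiniteDimensional ℝ E] in
theorem C10_P0_Z (h : D.Ok) {q : E} (hq : q ∈ D.P0) : q ∈ D.Z := by
  rcases hq with rfl | hq
  · exact h.q0_mem
  · rw [Set.mem_singleton_iff] at hq
    rw [hq]
    exact h.q1_mem

omit [FiniteDimensional ℝ E] in
theorem C10_P0_R (h : D.Ok) (hp : p.Ok D) {q : E} (hq : q ∈ D.P0) : q ∈ D.R p := by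
  show Metric.infDist q D.Z ≤ p.η1
  rw [Metric.infDist_zero_of_mem (C10_P0_Z h hq)]
  exact hp.η1_pos.le

omit [FiniteDimensional ℝ E] in
theorem C10_far (h : D.Ok) (hp : p.Ok D) {q v : E} (hq : q ∈ D.P0) (hv : v ∈ D.Lam)
    (hJ : ¬ D.InJ v) : p.ηc / 4 ≤ Metric.infDist (q + v) D.Z := by
  have h1 := hp.sep v hv hJ q (C10_P0_Z h hq)
  have hηc := hp.ηc_pos
  linarith

omit [FiniteDimensional ℝ E] in
theorem C10_XR (hp : p.Ok D) {x : E} (hx : x ∈ D.R p) : x ∈ D.X p.ρ := by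
  have h1 : x ∈ D.Rm p.ηc := by
    show Metric.infDist x D.Z ≤ p.ηc
    have h2 : Metric.infDist x D.Z ≤ p.η1 := hx
    have := hp.η1_le
    have := hp.η1_pos
    linarith
  have h3 := hp.bnd x (Or.inl h1) 0 (by norm_num)
  simpa using h3

omit [FiniteDimensional ℝ E] in
theorem C10_Mg (hp : p.Ok D) {w : E} (hw : w ∈ D.Md p) : w ∈ D.Mg (p.ηc / 2) (2 * p.κ) := by
  obtain ⟨h1, h2⟩ := hw
  have hηc := hp.ηc_pos
  have hκ := hp.κ_pos
  refine ⟨fun v hv => ?_, ?_⟩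
  · have := h1 v hv
    linarith
  · linarith

omit [FiniteDimensional ℝ E] in
theorem C10_XM (hp : p.Ok D) {w : E} (hw : w ∈ D.Md p) : w ∈ D.X p.ρ := by
  have h3 := hp.bnd w (Or.inr (C10_Mg hp hw)) 0 (by norm_num)
  simpa using h3

omit [FiniteDimensional ℝ E] in
theorem C10_XMg (hp : p.Ok D) {w : E} (hw : w ∈ D.Md p) : w - D.g ∈ D.X p.ρ := by
  have h3 := hp.bnd w (Or.inr (C10_Mg hp hw)) (-1) (by norm_num)
  have h4 : w + (((-1 : ℤ) : ℝ)) • D.g = w - D.g := by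
    push_cast
    rw [neg_one_smul]
    abel
  rwa [h4] at h3

theorem C10_jr (h : D.Ok) (x q : E) {v : E} (hJ : D.InJ v) : D.j x (q + v) = D.j x q := by
  obtain ⟨n, rfl⟩ := hJ
  have h1 := j_J h.toOk0 x q 0 n
  rwa [C10_lv0, add_zero] at h1

theorem C10_jl (h : D.Ok) (x q : E) {v : E} (hJ : D.InJ v) : D.j (q + v) x = D.j q x := by
  obtain ⟨n, rfl⟩ := hJ
  have h1 := j_J h.toOk0 q x n 0
  rwa [C10_lv0, add_zero] at h1

/-- the choice of the constants -/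
theorem C10_const {e e2 om : ℝ} (he : 0 < e) (he2 : 0 < e2) (hom : 6400 * om ≤ e) :
    ∃ ε s0 : ℝ, 0 < ε ∧ 1 ≤ s0 ∧ ∀ s, s0 ≤ s → 5 * (ε * s) + 1 ≤ s * e2 ∧
      5 * (ε * s) + 2 * (s * om) + 1 ≤ s * e := by
  refine ⟨min e e2 / 16, 1 + 2 / e2 + 4 / e, ?_, ?_, ?_⟩
  · have : 0 < min e e2 := lt_min he he2
    positivity
  · have h1 : 0 ≤ 2 / e2 := by positivity
    have h2 : 0 ≤ 4 / e := by positivity
    linarith
  · intro s hs
    have h1 : 0 ≤ 2 / e2 := by positivity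
    have h2 : 0 ≤ 4 / e := by positivity
    have hs0 : 0 ≤ s := by linarith
    have h3 : 2 / e2 ≤ s := by linarith
    have h4 : 4 / e ≤ s := by linarith
    rw [div_le_iff₀ he2] at h3
    rw [div_le_iff₀ he] at h4
    have h5 : min e e2 / 16 * s ≤ e2 / 16 * s := by
      apply mul_le_mul_of_nonneg_right _ hs0
      have := min_le_right e e2
      linarith
    have h6 : min e e2 / 16 * s ≤ e / 16 * s := by
      apply mul_le_mul_of_nonneg_right _ hs0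
      have := min_le_left e e2
      linarith
    have h7 : s * om ≤ s * (e / 6400) := by
      apply mul_le_mul_of_nonneg_left _ hs0
      linarith
    constructor
    · nlinarith
    · nlinarith

/-- lower bound of the kernels on bounded sets, with the full passing cost -/
theorem C10_ge (h : D.Ok) (m : ℝ) (L : LP) (ρ : ℝ) {ε : ℝ} (hε : 0 < ε) :
    ∃ s0 : ℝ, 1 ≤ s0 ∧ ∀ s, s0 ≤ s → ∀ ll, FL D m L ll → ∀ t t', 1 / 4 ≤ t' - t → t' - t ≤ 4 →
    ∀ x ∈ D.X ρ, ∀ x' ∈ D.X ρ, L.fl s t t' + s * D.j x x' - ε * s ≤ D.kk ll s t t' x x' := by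
  obtain ⟨C, s1, hC, hs1, hlin⟩ := kk_lin h m L ρ
  obtain ⟨s2, hs2, hge⟩ := kk_ge h m L (ε := 1 / 2) (by norm_num)
  have hA : 0 ≤ |L.A| := abs_nonneg _
  have hJ0 : 0 < 2 * C + 8 * |L.A| + 2 := by linarith
  obtain ⟨s3, hs3, hge'⟩ := kk_ge h m L (ε := ε / (2 * C + 8 * |L.A| + 2)) (by positivity)
  refine ⟨s1 + s2 + s3, by linarith, ?_⟩
  intro s hs ll hl t t' htt htt' x hx x' hx'
  have hs1' : 1 ≤ s := by linarith
  have hs0 : 0 < s := by linarith
  have b1 := (le_abs_self _).trans (hlin s (by linarith) ll hl t t' htt htt' x hx x' hx')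
  have b2 := hge s (by linarith) ll hl t t' (by linarith) (by linarith) x x'
  have b3 := hge' s (by linarith) ll hl t t' (by linarith) (by linarith) x x'
  have b4 := (abs_le.1 (fl_bd hl.a_bd hs1' t t')).1
  have b5 : L.A * s * |t' - t| ≤ |L.A| * s * 4 := by
    rw [abs_of_nonneg (by linarith : (0 : ℝ) ≤ t' - t)]
    have h1 : L.A * s ≤ |L.A| * s := mul_le_mul_of_nonneg_right (le_abs_self _) hs0.le
    have h2 : 0 ≤ |L.A| * s := by positivity
    have h3 : L.A * s * (t' - t) ≤ |L.A| * s * (t' - t) :=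
      mul_le_mul_of_nonneg_right h1 (by linarith)
    have h4 : |L.A| * s * (t' - t) ≤ |L.A| * s * 4 := mul_le_mul_of_nonneg_left htt' h2
    linarith
  have b6 : s * D.j x x' ≤ s * (2 * C + 8 * |L.A| + 1) := by
    nlinarith
  have b7 : D.j x x' + 1 ≤ 2 * C + 8 * |L.A| + 2 := by
    have := le_of_mul_le_mul_left b6 hs0
    linarith
  have b8 : ε / (2 * C + 8 * |L.A| + 2) * s * (D.j x x' + 1) ≤ ε * s := by
    have h1 : 0 ≤ ε / (2 * C + 8 * |L.A| + 2) * s := by positivity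
    have h2 := mul_le_mul_of_nonneg_left b7 h1
    have h3 : ε / (2 * C + 8 * |L.A| + 2) * s * (2 * C + 8 * |L.A| + 2) = ε * s := by
      field_simp
    linarith
  have b9 : L.fl s t t' + (1 - ε / (2 * C + 8 * |L.A| + 2)) * (s * D.j x x') -
      ε / (2 * C + 8 * |L.A| + 2) * s = L.fl s t t' + s * D.j x x' -
      ε / (2 * C + 8 * |L.A| + 2) * s * (D.j x x' + 1) := by ring
  linarith

theorem lr0 (h : D.Ok) (hp : p.Ok D) (m : ℝ) (L : LP) : ∃ s0 : ℝ, 1 ≤ s0 ∧ ∀ s, s0 ≤ s → ∀ ll,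
    FL D m L ll → ∀ x' ∈ D.R p, ∀ x'' ∈ D.R p, ∀ x, Metric.infDist x D.Z = p.η1 →
    ∃ q ∈ D.P0, D.k1 ll s x' q + D.k1 ll s q x'' + 1 ≤ D.k1 ll s x' x + D.k1 ll s x x'' := by
  obtain ⟨e2, he2, hrt⟩ := h.rt p.η1 hp.η1_pos
  have hom : 6400 * (4 * D.MF * p.η1) ≤ p.e := by
    have h1 := hp.om_le
    have h2 := hp.κ_le
    linarith
  obtain ⟨ε, s1, hε, hs1, hs1'⟩ := C10_const hp.e_pos he2 hom
  obtain ⟨C, s2, hC, hs2, hlin⟩ := kk_lin h m L p.ρ
  obtain ⟨s3, hs3, hlow0⟩ := low0 h m L C hε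
  obtain ⟨s4, hs4, hlow1⟩ := low1 h m L C hε
  obtain ⟨s5, hs5, hupp⟩ := upp h m L p.ρ hε
  obtain ⟨s6, hs6, hge⟩ := C10_ge h m L p.ρ hε
  refine ⟨s1 + s2 + s3 + s4 + s5 + s6, by linarith, ?_⟩
  intro s hs ll hl x' hx' x'' hx'' x hx
  have hs0 : 0 ≤ s := by linarith
  have hεs : 0 ≤ ε * s := mul_nonneg hε.le hs0
  obtain ⟨c1, c2⟩ := hs1' s (by linarith)
  have hxR : x ∈ D.R p := le_of_eq hx
  have hX := C10_XR hp hxR
  have hX' := C10_XR hp hx'
  have hX'' := C10_XR hp hx''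
  have hout := C10_out h hp hx
  have hup : ∀ y ∈ D.X p.ρ, ∀ y' ∈ D.X p.ρ, ∀ q ∈ D.P0,
      D.k1 ll s y y' ≤ L.fl s 0 1 + s * (D.j y q + D.j q y') + ε * s := fun y hy y' hy' q hq =>
    hupp s (by linarith) ll hl 0 1 (by norm_num) (by norm_num) y hy y' hy' q hq
  obtain ⟨q, hq, v, hv, b1⟩ := hlow1 s (by linarith) ll hl 0 1 (by norm_num) (by norm_num) x' x hout
    (le_trans (le_abs_self _) (hlin s (by linarith) ll hl 0 1 (by norm_num) (by norm_num) x' hX' x hX))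
  obtain ⟨q2, hq2, v2, hv2, b2⟩ := hlow0 s (by linarith) ll hl 0 1 (by norm_num) (by norm_num) x x''
    hout (le_trans (le_abs_self _)
      (hlin s (by linarith) ll hl 0 1 (by norm_num) (by norm_num) x hX x'' hX''))
  change s * (D.j x' (q + v) + D.j (q + v) x) + L.fl s 0 1 ≤ D.k1 ll s x' x + ε * s at b1
  change s * (D.j x (q2 + v2) + D.j (q2 + v2) x'') + L.fl s 0 1 ≤ D.k1 ll s x x'' + ε * s at b2
  have g1 : L.fl s 0 1 + s * D.j x' x - ε * s ≤ D.k1 ll s x' x :=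
    hge s (by linarith) ll hl 0 1 (by norm_num) (by norm_num) x' hX' x hX
  have g2 : L.fl s 0 1 + s * D.j x x'' - ε * s ≤ D.k1 ll s x x'' :=
    hge s (by linarith) ll hl 0 1 (by norm_num) (by norm_num) x hX x'' hX''
  by_cases hJ : D.InJ v
  · by_cases hJ2 : D.InJ v2
    · rw [C10_jr h x' q hJ, C10_jl h x q hJ] at b1
      rw [C10_jr h x q2 hJ2, C10_jl h x'' q2 hJ2] at b2
      have r1 := mul_le_mul_of_nonneg_left (hrt x hx.ge q hq q2 hq2) hs0
      have u1 := hup x' hX' q (C10_XR hp (C10_P0_R h hp hq)) q hq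
      have u2 := hup q (C10_XR hp (C10_P0_R h hp hq)) x'' hX'' q2 hq2
      rw [j_self h.toOk0] at u1
      refine ⟨q, hq, ?_⟩
      simp only [mul_add] at *
      linarith
    · obtain ⟨q3, hq3, r1⟩ := rtg h hp hx' hx'' (C10_far h hp hq2 hv2 hJ2)
      have r1' := mul_le_mul_of_nonneg_left r1 hs0
      have t1 := mul_le_mul_of_nonneg_left (j_tri h.toOk0 x' x (q2 + v2)) hs0
      have hX3 := C10_XR hp (C10_P0_R h hp hq3)
      have u1 := hup x' hX' q3 hX3 q3 hq3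
      have u2 := hup q3 hX3 x'' hX'' q3 hq3
      rw [j_self h.toOk0] at u1 u2
      refine ⟨q3, hq3, ?_⟩
      simp only [mul_add] at *
      linarith
  · obtain ⟨q3, hq3, r1⟩ := rtg h hp hx' hx'' (C10_far h hp hq hv hJ)
    have r1' := mul_le_mul_of_nonneg_left r1 hs0
    have t1 := mul_le_mul_of_nonneg_left (j_tri h.toOk0 (q + v) x x'') hs0
    have hX3 := C10_XR hp (C10_P0_R h hp hq3)
    have u1 := hup x' hX' q3 hX3 q3 hq3
    have u2 := hup q3 hX3 x'' hX'' q3 hq3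
    rw [j_self h.toOk0] at u1 u2
    refine ⟨q3, hq3, ?_⟩
    simp only [mul_add] at *
    linarith

theorem lr1 (h : D.Ok) (hp : p.Ok D) (m : ℝ) (L : LP) : ∃ s0 : ℝ, 1 ≤ s0 ∧ ∀ s, s0 ≤ s → ∀ ll,
    FL D m L ll → ∀ w ∈ D.Md p, ∀ r, 0 ≤ r → r ≤ 1 → ∀ x'' ∈ D.R p, ∀ x,
    Metric.infDist x D.Z = p.η1 →
    ∃ q ∈ D.P0, D.P ll s r w q + D.k1 ll s q x'' + 1 ≤ D.P ll s r w x + D.k1 ll s x x'' := by
  obtain ⟨e2, he2, hrt⟩ := h.rt p.η1 hp.η1_pos
  have hom : 6400 * (4 * D.MF * p.η1) ≤ p.e := by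
    have h1 := hp.om_le
    have h2 := hp.κ_le
    linarith
  obtain ⟨ε, s1, hε, hs1, hs1'⟩ := C10_const hp.e_pos he2 hom
  obtain ⟨C, s2, hC, hs2, hlin⟩ := kk_lin h m L p.ρ
  obtain ⟨s3, hs3, hlow0⟩ := low0 h m L C hε
  obtain ⟨s4, hs4, hlow1⟩ := low1 h m L C hε
  obtain ⟨s5, hs5, hupp⟩ := upp h m L p.ρ hε
  obtain ⟨s6, hs6, hge⟩ := C10_ge h m L p.ρ hε
  refine ⟨s1 + s2 + s3 + s4 + s5 + s6, by linarith, ?_⟩
  intro s hs ll hl w hw r hr hr1 x'' hx'' x hx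
  have hs0 : 0 ≤ s := by linarith
  have hεs : 0 ≤ ε * s := mul_nonneg hε.le hs0
  obtain ⟨c1, c2⟩ := hs1' s (by linarith)
  have hxR : x ∈ D.R p := le_of_eq hx
  have hX := C10_XR hp hxR
  have hXw := C10_XMg hp hw
  have hX'' := C10_XR hp hx''
  have hout := C10_out h hp hx
  have hup : ∀ y ∈ D.X p.ρ, ∀ y' ∈ D.X p.ρ, ∀ q ∈ D.P0,
      D.k1 ll s y y' ≤ L.fl s 0 1 + s * (D.j y q + D.j q y') + ε * s := fun y hy y' hy' q hq =>
    hupp s (by linarith) ll hl 0 1 (by norm_num) (by norm_num) y hy y' hy' q hq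
  have hupP : ∀ y' ∈ D.X p.ρ, ∀ q ∈ D.P0,
      D.P ll s r w y' ≤ L.fl s r 2 + s * (D.j (w - D.g) q + D.j q y') + ε * s := fun y' hy' q hq =>
    hupp s (by linarith) ll hl r 2 (by linarith) (by linarith) (w - D.g) hXw y' hy' q hq
  obtain ⟨q, hq, v, hv, b1⟩ := hlow1 s (by linarith) ll hl r 2 (by linarith) (by linarith) (w - D.g) x
    hout (le_trans (le_abs_self _)
      (hlin s (by linarith) ll hl r 2 (by linarith) (by linarith) (w - D.g) hXw x hX))
  obtain ⟨q2, hq2, v2, hv2, b2⟩ := hlow0 s (by linarith) ll hl 0 1 (by norm_num) (by norm_num) x x''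
    hout (le_trans (le_abs_self _)
      (hlin s (by linarith) ll hl 0 1 (by norm_num) (by norm_num) x hX x'' hX''))
  change s * (D.j (w - D.g) (q + v) + D.j (q + v) x) + L.fl s r 2 ≤ D.P ll s r w x + ε * s at b1
  change s * (D.j x (q2 + v2) + D.j (q2 + v2) x'') + L.fl s 0 1 ≤ D.k1 ll s x x'' + ε * s at b2
  have g2 : L.fl s 0 1 + s * D.j x x'' - ε * s ≤ D.k1 ll s x x'' :=
    hge s (by linarith) ll hl 0 1 (by norm_num) (by norm_num) x hX x'' hX''
  by_cases hJ : D.InJ v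
  · rw [C10_jr h (w - D.g) q hJ, C10_jl h x q hJ] at b1
    have hXq := C10_XR hp (C10_P0_R h hp hq)
    by_cases hJ2 : D.InJ v2
    · rw [C10_jr h x q2 hJ2, C10_jl h x'' q2 hJ2] at b2
      have r1 := mul_le_mul_of_nonneg_left (hrt x hx.ge q hq q2 hq2) hs0
      have u1 := hupP q hXq q hq
      have u2 := hup q hXq x'' hX'' q2 hq2
      rw [j_self h.toOk0] at u1
      refine ⟨q, hq, ?_⟩
      simp only [mul_add] at *
      linarith
    · obtain ⟨q3, hq3, r1⟩ := rtg h hp (C10_P0_R h hp hq) hx'' (C10_far h hp hq2 hv2 hJ2)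
      have r1' := mul_le_mul_of_nonneg_left r1 hs0
      have t1 := mul_le_mul_of_nonneg_left (j_tri h.toOk0 q x (q2 + v2)) hs0
      have u1 := hupP q hXq q hq
      have u2 := hup q hXq x'' hX'' q3 hq3
      rw [j_self h.toOk0] at u1
      refine ⟨q, hq, ?_⟩
      simp only [mul_add] at *
      linarith
  · have r1 := no1g h hp hxR (C10_Mg hp hw) hv hJ hq
    have e1 : D.j w (q + v + D.g) = D.j (w - D.g) (q + v) := by
      have := j_Lam h.toOk0 h.g_mem (w - D.g) (q + v)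
      rwa [sub_add_cancel] at this
    have e2' : D.j w (D.q1 + D.g) = D.j (w - D.g) D.q1 := by
      have := j_Lam h.toOk0 h.g_mem (w - D.g) D.q1
      rwa [sub_add_cancel] at this
    rw [e1, e2'] at r1
    have r1' := mul_le_mul_of_nonneg_left r1 hs0
    have hq1 : D.q1 ∈ D.P0 := Or.inr rfl
    have hX1 := C10_XR hp (C10_P0_R h hp hq1)
    have t1 := mul_le_mul_of_nonneg_left (j_tri h.toOk0 D.q1 x x'') hs0
    have u1 := hupP D.q1 hX1 D.q1 hq1
    have u2 := hup D.q1 hX1 x'' hX'' D.q1 hq1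
    rw [j_self h.toOk0] at u1 u2
    have hom0 : 0 ≤ s * (4 * D.MF * p.η1) := by
      have h1 := h.fins.mF_pos
      have h2 := h.fins.mF_le
      have h3 := hp.η1_pos
      have h4 : 0 ≤ D.MF := by linarith
      positivity
    refine ⟨D.q1, hq1, ?_⟩
    simp only [mul_add] at *
    linarith

theorem lr2 (h : D.Ok) (hp : p.Ok D) (m : ℝ) (L : LP) : ∃ s0 : ℝ, 1 ≤ s0 ∧ ∀ s, s0 ≤ s → ∀ ll,
    FL D m L ll → ∀ w ∈ D.Md p, ∀ r, 0 ≤ r → r ≤ 1 → ∀ x' ∈ D.R p, ∀ x,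
    Metric.infDist x D.Z = p.η1 →
    ∃ q ∈ D.P0, D.k1 ll s x' q + D.Q ll s r q w + 1 ≤ D.k1 ll s x' x + D.Q ll s r x w := by
  obtain ⟨e2, he2, hrt⟩ := h.rt p.η1 hp.η1_pos
  have hom : 6400 * (4 * D.MF * p.η1) ≤ p.e := by
    have h1 := hp.om_le
    have h2 := hp.κ_le
    linarith
  obtain ⟨ε, s1, hε, hs1, hs1'⟩ := C10_const hp.e_pos he2 hom
  obtain ⟨C, s2, hC, hs2, hlin⟩ := kk_lin h m L p.ρ
  obtain ⟨s3, hs3, hlow0⟩ := low0 h m L C hε
  obtain ⟨s4, hs4, hlow1⟩ := low1 h m L C hε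
  obtain ⟨s5, hs5, hupp⟩ := upp h m L p.ρ hε
  obtain ⟨s6, hs6, hge⟩ := C10_ge h m L p.ρ hε
  refine ⟨s1 + s2 + s3 + s4 + s5 + s6, by linarith, ?_⟩
  intro s hs ll hl w hw r hr hr1 x' hx' x hx
  have hs0 : 0 ≤ s := by linarith
  have hεs : 0 ≤ ε * s := mul_nonneg hε.le hs0
  obtain ⟨c1, c2⟩ := hs1' s (by linarith)
  have hxR : x ∈ D.R p := le_of_eq hx
  have hX := C10_XR hp hxR
  have hXw := C10_XM hp hw
  have hX' := C10_XR hp hx'
  have hout := C10_out h hp hx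
  have hup : ∀ y ∈ D.X p.ρ, ∀ y' ∈ D.X p.ρ, ∀ q ∈ D.P0,
      D.k1 ll s y y' ≤ L.fl s 0 1 + s * (D.j y q + D.j q y') + ε * s := fun y hy y' hy' q hq =>
    hupp s (by linarith) ll hl 0 1 (by norm_num) (by norm_num) y hy y' hy' q hq
  have hupQ : ∀ y ∈ D.X p.ρ, ∀ q ∈ D.P0,
      D.Q ll s r y w ≤ L.fl s 0 (1 + r) + s * (D.j y q + D.j q w) + ε * s := fun y hy q hq =>
    hupp s (by linarith) ll hl 0 (1 + r) (by linarith) (by linarith) y hy w hXw q hq
  obtain ⟨q, hq, v, hv, b1⟩ := hlow1 s (by linarith) ll hl 0 1 (by norm_num) (by norm_num) x' x hout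
    (le_trans (le_abs_self _) (hlin s (by linarith) ll hl 0 1 (by norm_num) (by norm_num) x' hX' x hX))
  obtain ⟨q2, hq2, v2, hv2, b2⟩ := hlow0 s (by linarith) ll hl 0 (1 + r) (by linarith) (by linarith) x w
    hout (le_trans (le_abs_self _)
      (hlin s (by linarith) ll hl 0 (1 + r) (by linarith) (by linarith) x hX w hXw))
  change s * (D.j x' (q + v) + D.j (q + v) x) + L.fl s 0 1 ≤ D.k1 ll s x' x + ε * s at b1
  change s * (D.j x (q2 + v2) + D.j (q2 + v2) w) + L.fl s 0 (1 + r) ≤ D.Q ll s r x w + ε * s at b2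
  have g1 : L.fl s 0 1 + s * D.j x' x - ε * s ≤ D.k1 ll s x' x :=
    hge s (by linarith) ll hl 0 1 (by norm_num) (by norm_num) x' hX' x hX
  by_cases hJ2 : D.InJ v2
  · rw [C10_jr h x q2 hJ2, C10_jl h w q2 hJ2] at b2
    have hXq2 := C10_XR hp (C10_P0_R h hp hq2)
    by_cases hJ : D.InJ v
    · rw [C10_jr h x' q hJ, C10_jl h x q hJ] at b1
      have hXq := C10_XR hp (C10_P0_R h hp hq)
      have r1 := mul_le_mul_of_nonneg_left (hrt x hx.ge q hq q2 hq2) hs0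
      have u1 := hup x' hX' q hXq q hq
      have u2 := hupQ q hXq q2 hq2
      rw [j_self h.toOk0] at u1
      refine ⟨q, hq, ?_⟩
      simp only [mul_add] at *
      linarith
    · obtain ⟨q3, hq3, r1⟩ := rtg h hp hx' (C10_P0_R h hp hq2) (C10_far h hp hq hv hJ)
      have r1' := mul_le_mul_of_nonneg_left r1 hs0
      have t1 := mul_le_mul_of_nonneg_left (j_tri h.toOk0 (q + v) x q2) hs0
      have u1 := hup x' hX' q2 hXq2 q3 hq3
      have u2 := hupQ q2 hXq2 q2 hq2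
      rw [j_self h.toOk0] at u2
      refine ⟨q2, hq2, ?_⟩
      simp only [mul_add] at *
      linarith
  · have r1 := no0g h hp hxR (C10_Mg hp hw) hv2 hJ2 hq2
    have r1' := mul_le_mul_of_nonneg_left r1 hs0
    have hq0 : D.q0 ∈ D.P0 := Or.inl rfl
    have hX0 := C10_XR hp (C10_P0_R h hp hq0)
    have t1 := mul_le_mul_of_nonneg_left (j_tri h.toOk0 x' x D.q0) hs0
    have u1 := hup x' hX' D.q0 hX0 D.q0 hq0
    have u2 := hupQ D.q0 hX0 D.q0 hq0
    rw [j_self h.toOk0] at u1 u2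
    have hom0 : 0 ≤ s * (4 * D.MF * p.η1) := by
      have h1 := h.fins.mF_pos
      have h2 := h.fins.mF_le
      have h3 := hp.η1_pos
      have h4 : 0 ≤ D.MF := by linarith
      positivity
    refine ⟨D.q0, hq0, ?_⟩
    simp only [mul_add] at *
    linarith

end EscK
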