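import Pool.Agent.EscK.KDefs
import Pool.Agent.EscK.A2b
import Pool.Agent.EscK.A5a
import Pool.Agent.EscK.A5b
import Pool.Agent.EscK.A5c
import Pool.Agent.EscG.A1

/-!
Project EscK (MP_6acca1_an), module C11a: uniform constants for the kernels at fixed speeds.
-/

set_option linter.unusedSectionVars false
set_option linter.unusedVariables false

noncomputable section

namespace EscK

open MeasureTheory Set Filter Topology Esc EscF EscG
open scoped ContDiff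

variable {ι : Type} [Fintype ι] {d : ℕ} {E : Type*} [NormedAddCommGroup E] [InnerProductSpace ℝ E]
  [FiniteDimensional ℝ E] {D : GD ι d E} {p : GP} {m M Mf : ℝ} {L : LP} {ll l : E → E → ℝ → ℝ}
  {f f' : E → ℝ → ℝ}

theorem C11a_lv_zero (b : Fin d → E) : lv b 0 = 0 := by
  simp [lv]

theorem C11a_lv_sub (b : Fin d → E) (n n' : Fin d → ℤ) : lv b (n - n') = lv b n - lv b n' := by
  simp [lv, sub_smul, Finset.sum_sub_distrib]

theorem C11a_X (D : GD ι d E) {ρ : ℝ} {z z' : E} (hz : z ∈ D.X ρ) (hz' : z' ∈ D.X ρ) :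
    ∃ n, ‖z' + lv D.b n - z‖ ≤ 2 * ρ := by
  obtain ⟨n, hn⟩ := hz
  obtain ⟨n', hn'⟩ := hz'
  refine ⟨n' - n, ?_⟩
  rw [C11a_lv_sub]
  have h1 : z' + (lv D.b n' - lv D.b n) - z = (z' + lv D.b n') - (z + lv D.b n) := by abel
  rw [h1]
  refine (norm_sub_le _ _).trans ?_
  linarith

/-- constants on compact sets of speeds, uniform in the potential -/
theorem kk_unif (h : D.Ok) (hl : FL D m L l) (hMf : 0 ≤ Mf) (S ρ : ℝ) : ∃ C : ℝ, 0 ≤ C ∧
    ∀ f, Pt D.β f → Good Mf f → ∀ s, 0 ≤ s → s ≤ S → ∀ t t', 1 / 4 ≤ t' - t → t' - t ≤ 4 →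
      ∀ z ∈ D.X ρ, ∀ z' ∈ D.X ρ, |D.kk (lf l f) s t t' z z'| ≤ C ∧
        (∀ w ∈ D.X ρ, ∀ w' ∈ D.X ρ, |D.kk (lf l f) s t t' z z' - D.kk (lf l f) s t t' w w'| ≤
          C * (dist z w + dist z' w')) ∧
        ∀ s', 0 ≤ s' → s' ≤ S → |D.kk (lf l f) s t t' z z' - D.kk (lf l f) s' t t' z z'| ≤ C * |s - s'| := by
  obtain ⟨C1', hC1, H1⟩ := K_lip h.li h.bβ hl.toTE hMf h.cal S (2 * ρ) (T0 := 1 / 4) (T1 := 4) (by norm_num)
  obtain ⟨C2', hC2, H2⟩ := K_speed h.li h.fins hl.m_pos (add_nonneg hl.M_nonneg hMf) h.cal S (2 * ρ)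
    (T0 := 1 / 4) (T1 := 4) (by norm_num)
  refine ⟨max C1' C2', le_max_of_le_left hC1, ?_⟩
  intro f hf hg s hs hsS t t' ht ht' z hz z' hz'
  obtain ⟨G1, G2⟩ := H1 f hf hg s hs hsS t t' ht ht'
  have hzz := C11a_X D hz hz'
  refine ⟨(G1 z z' hzz).trans (le_max_left _ _), ?_, ?_⟩
  · intro w hw w' hw'
    have h1 := G2 z z' w w' hzz (C11a_X D hw hw')
    rw [dist_eq_norm, dist_eq_norm]
    exact h1.trans (mul_le_mul_of_nonneg_right (le_max_left _ _) (by positivity))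
  · intro s' hs' hsS'
    have h1 := H2 (lf l f) (hl.toTE.add hf hg) s s' hs hsS hs' hsS' t t' ht ht' z z' hzz
    exact h1.trans (mul_le_mul_of_nonneg_right (le_max_right _ _) (abs_nonneg _))

/-- cost of a curve -/
theorem C11a_le_cv (h : D.Ok) (hl : TE D.β D.F D.mF D.MF m M ll) {s : ℝ} (hs : 0 ≤ s) {t t' C : ℝ}
    (htt : t < t') {Z v : ℝ → E} (hv : ∀ r ∈ Icc t t', ∀ r' ∈ Icc t t', ‖v r' - v r‖ ≤ C * |r' - r|)
    (hZ : ∀ r ∈ Icc t t', ∀ r' ∈ Icc t t', Z r' - Z r = ∫ a in r..r', v a) (n : Fin d → ℤ) {x' : E}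
    (hx : Z t' = x' + lv D.b n) : D.kk ll s t t' (Z t) x' ≤ D.cv ll s t t' Z v := by
  obtain ⟨u, hu, -, htr, hact⟩ := adm_of_lip htt hv hZ
  have ht1 : t ∈ Icc t t' := ⟨le_rfl, htt.le⟩
  have ht2 : t' ∈ Icc t t' := ⟨htt.le, le_rfl⟩
  have h1 := K_le hl h.cal hs htt (Z t) x' n
  have h2 : kerl ll t t' (Z t) (x' + lv D.b n) ≤ actl ll t t' (Z t) u :=
    hl.cb.kerl_le htt hu (by rw [htr t ht1 t' ht2, hx])
  rw [hact ll t ht1 t' ht2 htt.le] at h2
  unfold GD.kk GD.cv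
  rw [hx]
  linarith

/-- cost of a curve -/
theorem kk_le_cv (h : D.Ok) (hl : FL D m L ll) {s : ℝ} (hs : 0 ≤ s) {t t' C : ℝ}
    (htt : t < t') {Z v : ℝ → E} (hv : ∀ r ∈ Icc t t', ∀ r' ∈ Icc t t', ‖v r' - v r‖ ≤ C * |r' - r|)
    (hZ : ∀ r ∈ Icc t t', ∀ r' ∈ Icc t t', Z r' - Z r = ∫ a in r..r', v a) (n : Fin d → ℤ) {x' : E}
    (hx : Z t' = x' + lv D.b n) : D.kk ll s t t' (Z t) x' ≤ D.cv ll s t t' Z v :=
  C11a_le_cv h hl.toTE hs htt hv hZ n hx

theorem C11a_ii (hl : TE D.β D.F D.mF D.MF m M ll) {a b V : ℝ} {Z v : ℝ → E}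
    (hG : Geo ll a b V Z v) {r r' : ℝ} (hr : a ≤ r) (hrr : r ≤ r') (hr' : r' ≤ b) :
    IntervalIntegrable (fun t => ll (Z t) (v t) t) volume r r' := by
  obtain ⟨C, hC⟩ := hG.lip
  have hvc : ContinuousOn v (Icc a b) := by
    have : LipschitzOnWith (Real.toNNReal C) v (Icc a b) := by
      apply LipschitzOnWith.of_dist_le_mul
      intro x hx y hy
      rw [dist_eq_norm, Real.dist_eq]
      refine (hC y hy x hx).trans ?_
      exact mul_le_mul_of_nonneg_right (Real.le_coe_toNNReal C) (abs_nonneg _)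
    exact this.continuousOn
  have hZc : ContinuousOn Z (Icc a b) := by
    have : LipschitzOnWith (Real.toNNReal V) Z (Icc a b) := by
      apply LipschitzOnWith.of_dist_le_mul
      intro x hx y hy
      rw [dist_eq_norm, Real.dist_eq, hG.pos y hy x hx]
      have h1 := intervalIntegral.norm_integral_le_of_norm_le_const (a := y) (b := x) (f := v)
        (C := V) (fun t ht => hG.bd t ?_)
      · exact h1.trans (mul_le_mul_of_nonneg_right (Real.le_coe_toNNReal V) (abs_nonneg _))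
      · have h2 := uIoc_subset_uIcc ht
        exact (uIcc_subset_Icc hy hx) h2
    exact this.continuousOn
  apply ContinuousOn.intervalIntegrable
  rw [uIcc_of_le hrr]
  have hsub : Icc r r' ⊆ Icc a b := Icc_subset_Icc hr hr'
  exact hl.smooth.continuous.comp_continuousOn
    ((hZc.mono hsub).prodMk ((hvc.mono hsub).prodMk continuousOn_id))

theorem C11a_cv_add (hl : TE D.β D.F D.mF D.MF m M ll) (s : ℝ) {a b V : ℝ} {Z v : ℝ → E}
    (hG : Geo ll a b V Z v) {x y z : ℝ} (hx : a ≤ x) (hxy : x ≤ y) (hyz : y ≤ z) (hz : z ≤ b) :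
    D.cv ll s x y Z v + D.cv ll s y z Z v = D.cv ll s x z Z v := by
  unfold GD.cv
  have h1 := intervalIntegral.integral_add_adjacent_intervals
    (C11a_ii hl hG hx hxy (hyz.trans hz)) (C11a_ii hl hG (hx.trans hxy) hyz hz)
  rw [← h1]
  ring

/-- optimal curves: every piece is optimal; speed bounded uniformly -/
theorem kk_geo (h : D.Ok) (hl : FL D m L l) (hMf : 0 ≤ Mf) (S ρ : ℝ) : ∃ V : ℝ, 0 < V ∧
    ∀ f, Pt D.β f → Good Mf f → ∀ s, 0 ≤ s → s ≤ S → ∀ t t', 1 / 4 ≤ t' - t → t' - t ≤ 4 →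
      ∀ z ∈ D.X ρ, ∀ z' ∈ D.X ρ, ∃ (n : Fin d → ℤ) (Z v : ℝ → E), Z t = z ∧ Z t' = z' + lv D.b n ∧
        Geo (lf l f) t t' V Z v ∧ ∀ r r', t ≤ r → r < r' → r' ≤ t' →
          D.kk (lf l f) s r r' (Z r) (Z r') = D.cv (lf l f) s r r' Z v := by
  obtain ⟨V, hV, H⟩ := K_geo h.li h.bβ h.fins hl.m_pos (add_nonneg hl.M_nonneg hMf) h.cal S (2 * ρ)
    (T0 := 1 / 4) (T1 := 4) (by norm_num)
  refine ⟨V, hV, ?_⟩
  intro f hf hg s hs hsS t t' ht ht' z hz z' hz'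
  have hL := hl.toTE.add hf hg
  obtain ⟨n, Z, v, hZt, hZt', hG, hK, -⟩ := H (lf l f) hL s hs hsS t t' ht ht' z z' (C11a_X D hz hz')
  refine ⟨n, Z, v, hZt, hZt', hG, ?_⟩
  have htt : t < t' := by linarith
  obtain ⟨C, hC⟩ := hG.lip
  -- every piece costs at most `cv`
  have hle : ∀ r r', t ≤ r → r < r' → r' ≤ t' →
      D.kk (lf l f) s r r' (Z r) (Z r') ≤ D.cv (lf l f) s r r' Z v := by
    intro r r' hr hrr hr'
    have hsub : Icc r r' ⊆ Icc t t' := Icc_subset_Icc hr hr'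
    exact C11a_le_cv h hL hs hrr (fun a ha a' ha' => hC a (hsub ha) a' (hsub ha'))
      (fun a ha a' ha' => hG.pos a (hsub ha) a' (hsub ha')) 0 (by rw [C11a_lv_zero, add_zero])
  -- the total cost
  have htot : D.cv (lf l f) s t t' Z v = D.kk (lf l f) s t t' (Z t) (Z t') := by
    have h1 : D.kk (lf l f) s t t' (Z t) (Z t') = D.kk (lf l f) s t t' z z' := by
      have h2 := K_per h.bβ hL h.cal s t t' z z' 0 n
      rw [C11a_lv_zero, add_zero] at h2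
      unfold GD.kk
      rw [hZt, hZt']
      exact h2
    rw [h1]
    unfold GD.kk GD.cv
    rw [hK, hG.act t t' le_rfl htt le_rfl, hZt, hZt']
  have hadd : ∀ x y w : E, ∀ a b c : ℝ, a < b → b < c →
      D.kk (lf l f) s a c x w ≤ D.kk (lf l f) s a b x y + D.kk (lf l f) s b c y w := by
    intro x y w a b c hab hbc
    exact K_le_add h.li h.bβ hL h.cal hs hab hbc x y w
  intro r r' hr hrr hr'
  apply le_antisymm (hle r r' hr hrr hr')
  rcases eq_or_lt_of_le hr with h1 | h1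
  · subst h1
    rcases eq_or_lt_of_le hr' with h2 | h2
    · subst h2
      exact htot.le
    · have h3 := hadd (Z t) (Z r') (Z t') t r' t' hrr h2
      have h4 := hle r' t' hrr.le h2 le_rfl
      have h5 := C11a_cv_add hL s hG (le_refl t) hrr.le h2.le (le_refl t')
      linarith
  · rcases eq_or_lt_of_le hr' with h2 | h2
    · subst h2
      have h3 := hadd (Z t) (Z r) (Z r') t r r' h1 hrr
      have h4 := hle t r le_rfl h1 hrr.le
      have h5 := C11a_cv_add hL s hG (le_refl t) h1.le hrr.le (le_refl r')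
      linarith
    · have h3 := hadd (Z t) (Z r) (Z t') t r t' h1 (hrr.trans h2)
      have h3' := hadd (Z r) (Z r') (Z t') r r' t' hrr h2
      have h4 := hle t r le_rfl h1 (hrr.le.trans h2.le)
      have h4' := hle r' t' (h1.le.trans hrr.le) h2 le_rfl
      have h5 := C11a_cv_add hL s hG (le_refl t) h1.le (hrr.le.trans h2.le) (le_refl t')
      have h6 := C11a_cv_add hL s hG h1.le hrr.le h2.le (le_refl t')
      linarith

/-- cone lemma -/
theorem kk_cone (h : D.Ok) (hl : FL D m L l) (hMf : 0 ≤ Mf) (S ρ : ℝ) : ∃ V : ℝ, 0 < V ∧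
    ∀ f f', Pt D.β f → Good Mf f → Pt D.β f' → Good Mf f' → ∀ s, 0 ≤ s → s ≤ S → ∀ t t',
      1 / 4 ≤ t' - t → t' - t ≤ 4 → ∀ z ∈ D.X ρ, ∀ z' ∈ D.X ρ, ∀ κ : ℝ → ℝ,
      IntervalIntegrable κ volume t t' →
      (∀ r ∈ Icc t t', ∀ x, ‖x - z‖ ≤ V * (r - t) → (∃ n, ‖x - (z' + lv D.b n)‖ ≤ V * (t' - r)) →
        f x r + κ r ≤ f' x r) →
      D.kk (lf l f) s t t' z z' + ∫ r in t..t', κ r ≤ D.kk (lf l f') s t t' z z' := by
  obtain ⟨V, hV, H⟩ := K_cone h.li h.bβ hl.toTE hMf h.cal S (2 * ρ) (T0 := 1 / 4) (T1 := 4) (by norm_num)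
  refine ⟨V, hV, ?_⟩
  intro f f' hf hg hf' hg' s hs hsS t t' ht ht' z hz z' hz' κ hκ hle
  exact H f f' hf hg hf' hg' s hs hsS t t' ht ht' z z' (C11a_X D hz hz') κ hκ hle

theorem kk_sub_le (h : D.Ok) (hl : FL D m L l) (hf : Pt D.β f) (hg : Good Mf f)
    (hf' : Pt D.β f') (hg' : Good Mf f') {ρ : ℝ} (hρ : ∀ x t, |f x t - f' x t| ≤ ρ) {s : ℝ}
    (hs : 0 ≤ s) {t t' : ℝ} (htt : t < t') (z z' : E) :
    |D.kk (lf l f) s t t' z z' - D.kk (lf l f') s t t' z z'| ≤ ρ * (t' - t) := by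
  refine K_sub_le h.li (hl.toTE.add hf hg) (hl.toTE.add hf' hg') h.cal (fun x u r => ?_) hs htt z z'
  have h1 : lf l f x u r - lf l f' x u r = f x r - f' x r := by
    unfold lf
    ring
  rw [h1]
  exact hρ x r

theorem kk_mono (h : D.Ok) (hl : FL D m L l) (hf : Pt D.β f) (hg : Good Mf f)
    (hf' : Pt D.β f') (hg' : Good Mf f') (hρ : ∀ x t, f x t ≤ f' x t) {s : ℝ}
    (hs : 0 ≤ s) {t t' : ℝ} (htt : t < t') (z z' : E) :
    D.kk (lf l f) s t t' z z' ≤ D.kk (lf l f') s t t' z z' := by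
  refine K_mono h.li (hl.toTE.add hf hg) (hl.toTE.add hf' hg') h.cal (fun x u r => ?_) hs htt z z'
  unfold lf
  linarith [hρ x r]

end EscK
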