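import Pool.Agent.EscK.KDefs
import Pool.Agent.EscG.C1
import Pool.Agent.EscG.C2
import Pool.Agent.EscG.C4
import Pool.Agent.EscG.C5
import Pool.Agent.EscK.C6
import Pool.Agent.EscK.C6b
import Pool.Agent.EscK.C8
import Pool.Agent.EscK.C11a
import Pool.Agent.EscK.C11b
import Pool.Agent.helper1.Esc.ModD
import Pool.Agent.helper42.Esc.K

/-!
Project EscK (MP_6acca1_an), core, module C12: size of the barriers.
-/

set_option linter.unusedSectionVars false

noncomputable section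

namespace EscK

open MeasureTheory Set Filter Topology Esc EscF EscG
open scoped ContDiff

variable {ι : Type} [Fintype ι] {d : ℕ} {E : Type*} [NormedAddCommGroup E] [InnerProductSpace ℝ E]
  [FiniteDimensional ℝ E] {D : GD ι d E} {p : GP} {m M Mf : ℝ} {L : LP} {ll l : E → E → ℝ → ℝ}
  {f f' : E → ℝ → ℝ}

/-! ### critical value of a kernel -/

theorem C12_arch {a b : ℝ} (h : ∀ n : ℕ, -b ≤ ((n : ℝ) + 1) * a) : 0 ≤ a := by
  by_contra ha
  push Not at ha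
  obtain ⟨n, hn⟩ := exists_nat_gt (b / -a)
  have h1 := h n
  have h2 : b < n * -a := by rwa [div_lt_iff₀ (by linarith)] at hn
  nlinarith

section abstract_

variable {Y : Type*} [PseudoMetricSpace Y] {K : Y → Y → ℝ} {C A : Set Y} {B Λ : ℝ}

theorem C12_kp_diag (h : KD K C A B Λ) {c : Y} (hc : c ∈ C) (n : ℕ) :
    kp K C (n + 1) c c ≤ ((n : ℝ) + 1) * K c c := by
  induction n with
  | zero =>
    show K c c ≤ _
    simp
  | succ n ih =>
    show (⨅ x : C, (K c x + kp K C (n + 1) x c)) ≤ _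
    have h1 : (⨅ x : C, (K c x + kp K C (n + 1) x c)) ≤ K c c + kp K C (n + 1) c c :=
      ciInf_le (h.kp_bdd n (h.sub hc) (h.sub hc)) ⟨c, hc⟩
    push_cast
    linarith

theorem C12_kp_low (h : KD K C A B Λ) {M : ℝ} (hM : ∀ z ∈ A, ∀ z' ∈ A, -M ≤ K z z') (n : ℕ) :
    ∀ z ∈ A, ∀ z' ∈ A, -M * ((n : ℝ) + 1) ≤ kp K C (n + 1) z z' := by
  have _i := h.ne.to_subtype
  induction n with
  | zero =>
    intro z hz z' hz'
    show _ ≤ K z z'
    have := hM z hz z' hz'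
    simpa using this
  | succ n ih =>
    intro z hz z' hz'
    show _ ≤ ⨅ x : C, (K z x + kp K C (n + 1) x z')
    refine le_ciInf fun x => ?_
    have h1 := hM z hz x (h.sub x.2)
    have h2 := ih x (h.sub x.2) z' hz'
    push_cast
    linarith

theorem C12_al_low (h : KD K C A B Λ) {c : Y} (hc : c ∈ C) : -K c c ≤ Esc.al K C := by
  have h1 : 0 ≤ Esc.al K C + K c c := by
    refine C12_arch (b := 4 * B) fun n => ?_
    have h2 := (abs_le.1 (al_spec h (T := n + 1) (by omega) (h.sub hc) (h.sub hc))).1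
    have h3 := C12_kp_diag h hc n
    push_cast at h2
    linarith
  linarith

theorem C12_al_upp (h : KD K C A B Λ) {M : ℝ} (hM : ∀ z ∈ A, ∀ z' ∈ A, -M ≤ K z z') :
    Esc.al K C ≤ M := by
  obtain ⟨c, hc⟩ := h.ne
  have h1 : 0 ≤ M - Esc.al K C := by
    refine C12_arch (b := 4 * B) fun n => ?_
    have h2 := (abs_le.1 (al_spec h (T := n + 1) (by omega) (h.sub hc) (h.sub hc))).2
    have h3 := C12_kp_low h hM n c (h.sub hc) c (h.sub hc)
    push_cast at h2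
    linarith
  linarith

end abstract_

/-! ### elementary facts -/

theorem C12_lf0 (ll : E → E → ℝ → ℝ) : lf ll (fun _ _ => 0) = ll := by
  funext x u t
  simp [lf]

theorem C12_kd (h : D.Ok) (hp : p.Ok D) (hl : FL D m L ll) {s : ℝ} (hs : 0 ≤ s) :
    ∃ C : ℝ, KD (D.k1 ll s) (D.C p) (D.R p) C C := by
  obtain ⟨C, -, hC⟩ := kd h hp hl (le_refl (0 : ℝ)) s
  have h1 := hC (fun _ _ => 0) ⟨contDiff_const, fun _ _ _ => rfl, fun _ _ => rfl⟩
    ⟨le_refl _, continuous_const, by simp, by simp, by simp⟩ s hs le_rfl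
  rw [C12_lf0] at h1
  exact ⟨C, h1⟩

theorem C12_R_X (hp : p.Ok D) {x : E} (hx : x ∈ D.R p) : x ∈ D.X p.ρ := by
  have h1 : x ∈ D.Rm p.ηc := by
    have h2 : Metric.infDist x D.Z ≤ p.η1 := hx
    have h3 := hp.η1_le
    have h4 := hp.η1_pos
    show Metric.infDist x D.Z ≤ p.ηc
    linarith
  have := hp.bnd x (Or.inl h1) 0 (by simp)
  simpa using this

theorem C12_M_X (hp : p.Ok D) {w : E} (hw : w ∈ D.Mg (p.ηc / 2) (2 * p.κ)) : w ∈ D.X p.ρ := by
  have := hp.bnd w (Or.inr hw) 0 (by simp)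
  simpa using this

theorem C12_Mg_X (hp : p.Ok D) {w : E} (hw : w ∈ D.Mg (p.ηc / 2) (2 * p.κ)) : w - D.g ∈ D.X p.ρ := by
  have := hp.bnd w (Or.inr hw) (-1) (by simp)
  simpa [sub_eq_add_neg] using this

theorem C12_om (h : D.Ok) (hp : p.Ok D) : 0 ≤ 4 * D.MF * p.η1 := by
  have h1 := h.fins.mF_pos
  have h2 := h.fins.mF_le
  have h3 := hp.η1_pos
  have h4 : 0 < D.MF := by linarith
  positivity

theorem C12_q0P : D.q0 ∈ D.P0 := Or.inl rfl

theorem C12_q1P : D.q1 ∈ D.P0 := Or.inr rfl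

theorem C12_jX (h : D.Ok0) {ρ : ℝ} {x w : E} (hx : x ∈ D.X ρ) (hw : w ∈ D.X ρ) :
    D.j x w ≤ 4 * D.MF * ρ := by
  obtain ⟨n, hn⟩ := hx
  obtain ⟨k, hk⟩ := hw
  rw [← j_J h x w n k]
  have h1 := j_lip h (x + lv D.b n) (w + lv D.b k)
  have h2 : ‖w + lv D.b k - (x + lv D.b n)‖ ≤ ρ + ρ := (norm_sub_le _ _).trans (add_le_add hk hn)
  have h3 : 0 ≤ D.MF := h.fins.mF_pos.le.trans h.fins.mF_le
  have h4 : 2 * D.MF * ‖w + lv D.b k - (x + lv D.b n)‖ ≤ 2 * D.MF * (ρ + ρ) :=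
    mul_le_mul_of_nonneg_left h2 (by positivity)
  linarith

/-- the critical value is minus the flux -/
theorem C12_al (h : D.Ok) (hp : p.Ok D) (m : ℝ) (L : LP) {ε : ℝ} (hε : 0 < ε) : ∃ s0 : ℝ, 1 ≤ s0 ∧
    ∀ s, s0 ≤ s → ∀ ll, FL D m L ll →
    -(ε * s) ≤ L.fl s 0 1 + D.al p ll s ∧ L.fl s 0 1 + D.al p ll s ≤ ε * s := by
  obtain ⟨s1, hs1, H⟩ := upp h m L p.ρ hε
  obtain ⟨s2, hs2, H2⟩ := kk_ge h m L (ε := min ε 1) (by positivity)
  refine ⟨max s1 s2, hs1.trans (le_max_left _ _), fun s hs ll hl => ?_⟩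
  have hss1 : s1 ≤ s := (le_max_left _ _).trans hs
  have hss2 : s2 ≤ s := (le_max_right _ _).trans hs
  have hs0 : 0 ≤ s := by linarith
  obtain ⟨C, hK⟩ := C12_kd h hp hl hs0
  have hq0 := q0_R h hp
  have hq0X := C12_R_X hp hq0
  have hjj := j_self h.toOk0 D.q0
  have hk : D.k1 ll s D.q0 D.q0 ≤ L.fl s 0 1 + ε * s := by
    have := H s hss1 ll hl 0 1 (by norm_num) (by norm_num) D.q0 hq0X D.q0 hq0X D.q0 C12_q0P
    rw [hjj] at this
    show D.kk ll s 0 1 D.q0 D.q0 ≤ _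
    linarith
  obtain ⟨n, hn⟩ := R_red h hp (q0_R h hp)
  constructor
  · have h1 := C12_al_low hK hn
    have h2 : D.k1 ll s (D.q0 + lv D.b n) (D.q0 + lv D.b n) = D.k1 ll s D.q0 D.q0 :=
      kk_J h hl.toTE s 0 1 D.q0 D.q0 n n
    rw [h2] at h1
    have h3 : -D.k1 ll s D.q0 D.q0 ≤ D.al p ll s := h1
    linarith
  · have h1 : D.al p ll s ≤ -L.fl s 0 1 + ε * s := by
      refine C12_al_upp hK fun z _ z' _ => ?_
      have h1 := H2 s hss2 ll hl 0 1 one_pos (by norm_num) z z'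
      have h2 := mul_nonneg hs0 (j_nonneg h.toOk0 z z')
      have h3 : 0 ≤ (1 - min ε 1) * (s * D.j z z') :=
        mul_nonneg (by linarith [min_le_right ε 1]) h2
      have h4 : min ε 1 * s ≤ ε * s := mul_le_mul_of_nonneg_right (min_le_left _ _) hs0
      show -(-L.fl s 0 1 + ε * s) ≤ D.kk ll s 0 1 z z'
      linarith
    linarith

theorem C12_flQ (hl : FL D m L ll) (s r : ℝ) :
    L.fl s 0 (1 + r) = (1 + r) * L.fl s 0 1 + L.gam s r := by
  have h1 := fl_add hl.a_cont s 0 1 (1 + r)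
  have h2 := fl_per hl.a_per s 0 r 1
  rw [Int.cast_one, zero_add, add_comm r 1] at h2
  rw [h1, h2, LP.gam]
  ring

theorem C12_flP (hl : FL D m L ll) (s r : ℝ) :
    L.fl s r 2 = (2 - r) * L.fl s 0 1 - L.gam s r := by
  have h1 := fl_add hl.a_cont s 0 r 2
  have h3 := fl_add hl.a_cont s 0 1 2
  have h2 := fl_per hl.a_per s 0 1 1
  rw [Int.cast_one, zero_add, one_add_one_eq_two] at h2
  rw [h2] at h3
  rw [LP.gam]
  linarith

/-! ### size of the barriers -/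

theorem m1a (h : D.Ok) (hp : p.Ok D) (m : ℝ) (L : LP) {ε : ℝ} (hε : 0 < ε) : ∃ s0 : ℝ, 1 ≤ s0 ∧ ∀ s, s0 ≤ s →
    ∀ ll, FL D m L ll → ∀ r, 0 ≤ r → r ≤ 1 → ∀ w ∈ D.Mg (p.ηc / 2) (2 * p.κ),
    |D.alpha p ll s r w - D.bar p ll s D.q0 D.q0 - s * D.j D.q0 w - L.gam s r| ≤
      (2 * (4 * D.MF * p.η1) + ε) * s := by
  have hom := C12_om h hp
  have hq0 := q0_R h hp
  have hq0X := C12_R_X hp hq0
  have hJ0 : 0 ≤ 4 * D.MF * p.ρ := (j_nonneg h.toOk0 D.q0 D.q0).trans (C12_jX h.toOk0 hq0X hq0X)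
  obtain ⟨ε2, hε2, hε2J⟩ : ∃ ε2 : ℝ, 0 < ε2 ∧ ε2 * (4 * D.MF * p.ρ + 1) ≤ ε / 8 := by
    refine ⟨ε / 8 / (4 * D.MF * p.ρ + 1), by positivity, ?_⟩
    rw [div_mul_cancel₀ _ (by positivity)]
  obtain ⟨s1, hs1, H⟩ := upp h m L p.ρ (ε := ε / 8) (by positivity)
  obtain ⟨s2, hs2, H2⟩ := kk_ge h m L hε2
  obtain ⟨s3, hs3, H3⟩ := C12_al h hp m L (ε := ε / 8) (by positivity)
  refine ⟨max s1 (max s2 s3), hs1.trans (le_max_left _ _), fun s hs ll hl r hr hr1 w hw => ?_⟩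
  have hss : s1 ≤ s := (le_max_left _ _).trans hs
  have hss2 : s2 ≤ s := ((le_max_left _ _).trans (le_max_right _ _)).trans hs
  have hss3 : s3 ≤ s := ((le_max_right _ _).trans (le_max_right _ _)).trans hs
  have hs0 : 0 ≤ s := by linarith
  have hwX := C12_M_X hp hw
  have hjj := j_self h.toOk0 D.q0
  obtain ⟨ha1, ha2⟩ := H3 s hss3 ll hl
  have hes : 0 ≤ ε / 8 * s := by positivity
  have har1 : -(ε / 8 * s) ≤ (L.fl s 0 1 + D.al p ll s) * r := by nlinarith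
  have har2 : (L.fl s 0 1 + D.al p ll s) * r ≤ ε / 8 * s := by nlinarith
  have hfl := C12_flQ hl s r
  rw [abs_le]
  constructor
  · obtain ⟨x, hx, e⟩ := alpha_att h hp hl hs0 hr hr1 hw
    have hxR := C_sub hx
    have hxX := C12_R_X hp hxR
    obtain ⟨C, hK⟩ := C12_kd h hp hl hs0
    have h1 : D.bar p ll s D.q0 D.q0 ≤ D.bar p ll s D.q0 x + (D.k1 ll s x D.q0 + D.al p ll s * ((1 : ℕ) : ℝ)) :=
      bar_right_le hK le_rfl hq0 hxR hq0
    have h2 : D.k1 ll s x D.q0 ≤ L.fl s 0 1 + s * (D.j x D.q0 + D.j D.q0 D.q0) + ε / 8 * s :=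
      H s hss ll hl 0 1 (by norm_num) (by norm_num) x hxX D.q0 hq0X D.q0 C12_q0P
    have h3 : L.fl s 0 (1 + r) + (1 - ε2) * (s * D.j x w) - ε2 * s ≤ D.Q ll s r x w :=
      H2 s hss2 ll hl 0 (1 + r) (by linarith) (by linarith) x w
    have h4 := ex0g h hp hxR hw
    have h5 := mul_le_mul_of_nonneg_left h4 hs0
    have h6 : ε2 * (s * D.j x w) + ε2 * s ≤ ε / 8 * s := by
      have g1 := C12_jX h.toOk0 hxX hwX
      have g2 : ε2 * (s * D.j x w) + ε2 * s = ε2 * (D.j x w + 1) * s := by ring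
      rw [g2]
      refine mul_le_mul_of_nonneg_right (le_trans ?_ hε2J) hs0
      exact mul_le_mul_of_nonneg_left (by linarith) hε2.le
    rw [hjj] at h2
    push_cast at h1
    have h7 : 0 ≤ s * (4 * D.MF * p.η1) := mul_nonneg hs0 hom
    rw [hfl] at h3
    rw [e]
    linarith
  · have h1 := alpha_le h hp hl hs0 hr hr1 hw hq0
    have h2 : D.Q ll s r D.q0 w ≤ L.fl s 0 (1 + r) + s * (D.j D.q0 D.q0 + D.j D.q0 w) + ε / 8 * s :=
      H s hss ll hl 0 (1 + r) (by linarith) (by linarith) D.q0 hq0X w hwX D.q0 C12_q0P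
    rw [hjj, hfl] at h2
    have h7 : 0 ≤ s * (4 * D.MF * p.η1) := mul_nonneg hs0 hom
    linarith

theorem m1b (h : D.Ok) (hp : p.Ok D) (m : ℝ) (L : LP) {ε : ℝ} (hε : 0 < ε) : ∃ s0 : ℝ, 1 ≤ s0 ∧ ∀ s, s0 ≤ s →
    ∀ ll, FL D m L ll → ∀ r, 0 ≤ r → r ≤ 1 → ∀ w ∈ D.Mg (p.ηc / 2) (2 * p.κ),
    |D.beta p ll s r w - D.bar p ll s D.q1 D.q0 - s * D.j w (D.q1 + D.g) + L.gam s r| ≤
      (2 * (4 * D.MF * p.η1) + ε) * s := by
  have hom := C12_om h hp
  have hq0 := q0_R h hp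
  have hq0X := C12_R_X hp hq0
  have hq1 := q1_R h hp
  have hq1X := C12_R_X hp hq1
  have hJ0 : 0 ≤ 4 * D.MF * p.ρ := (j_nonneg h.toOk0 D.q0 D.q0).trans (C12_jX h.toOk0 hq0X hq0X)
  obtain ⟨ε2, hε2, hε2J⟩ : ∃ ε2 : ℝ, 0 < ε2 ∧ ε2 * (4 * D.MF * p.ρ + 1) ≤ ε / 8 := by
    refine ⟨ε / 8 / (4 * D.MF * p.ρ + 1), by positivity, ?_⟩
    rw [div_mul_cancel₀ _ (by positivity)]
  obtain ⟨s1, hs1, H⟩ := upp h m L p.ρ (ε := ε / 8) (by positivity)
  obtain ⟨s2, hs2, H2⟩ := kk_ge h m L hε2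
  obtain ⟨s3, hs3, H3⟩ := C12_al h hp m L (ε := ε / 8) (by positivity)
  refine ⟨max s1 (max s2 s3), hs1.trans (le_max_left _ _), fun s hs ll hl r hr hr1 w hw => ?_⟩
  have hss : s1 ≤ s := (le_max_left _ _).trans hs
  have hss2 : s2 ≤ s := ((le_max_left _ _).trans (le_max_right _ _)).trans hs
  have hss3 : s3 ≤ s := ((le_max_right _ _).trans (le_max_right _ _)).trans hs
  have hs0 : 0 ≤ s := by linarith
  have hwX := C12_Mg_X hp hw
  have hjj1 := j_self h.toOk0 D.q1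
  have hjg : ∀ x : E, D.j (w - D.g) x = D.j w (x + D.g) := by
    intro x
    have := j_Lam h.toOk0 h.g_mem (w - D.g) x
    rw [sub_add_cancel] at this
    exact this.symm
  obtain ⟨ha1, ha2⟩ := H3 s hss3 ll hl
  have hes : 0 ≤ ε / 8 * s := by positivity
  have har1 : -(ε / 8 * s) ≤ (L.fl s 0 1 + D.al p ll s) * (1 - r) := by nlinarith
  have har2 : (L.fl s 0 1 + D.al p ll s) * (1 - r) ≤ ε / 8 * s := by nlinarith
  have hfl := C12_flP hl s r
  rw [abs_le]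
  constructor
  · obtain ⟨x, hx, e⟩ := beta_att h hp hl hs0 hr hr1 hw
    have hxR := C_sub hx
    have hxX := C12_R_X hp hxR
    obtain ⟨C, hK⟩ := C12_kd h hp hl hs0
    have h1 : D.bar p ll s D.q1 D.q0 ≤ D.k1 ll s D.q1 x + D.al p ll s * ((1 : ℕ) : ℝ) + D.bar p ll s x D.q0 :=
      bar_left_le hK le_rfl hq1 hxR hq0
    have h2 : D.k1 ll s D.q1 x ≤ L.fl s 0 1 + s * (D.j D.q1 D.q1 + D.j D.q1 x) + ε / 8 * s :=
      H s hss ll hl 0 1 (by norm_num) (by norm_num) D.q1 hq1X x hxX D.q1 C12_q1P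
    have h3 : L.fl s r 2 + (1 - ε2) * (s * D.j (w - D.g) x) - ε2 * s ≤ D.P ll s r w x :=
      H2 s hss2 ll hl r 2 (by linarith) (by linarith) (w - D.g) x
    have h6 : ε2 * (s * D.j (w - D.g) x) + ε2 * s ≤ ε / 8 * s := by
      have g1 := C12_jX h.toOk0 hwX hxX
      have g2 : ε2 * (s * D.j (w - D.g) x) + ε2 * s = ε2 * (D.j (w - D.g) x + 1) * s := by ring
      rw [g2]
      refine mul_le_mul_of_nonneg_right (le_trans ?_ hε2J) hs0
      exact mul_le_mul_of_nonneg_left (by linarith) hε2.le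
    rw [hjg] at h3 h6
    have h4 := ex1g h hp hxR hw
    have h5 := mul_le_mul_of_nonneg_left h4 hs0
    rw [hjj1] at h2
    push_cast at h1
    have h7 : 0 ≤ s * (4 * D.MF * p.η1) := mul_nonneg hs0 hom
    rw [hfl] at h3
    rw [e]
    linarith
  · have h1 := beta_le h hp hl hs0 hr hr1 hw hq1
    have h2 : D.P ll s r w D.q1 ≤ L.fl s r 2 + s * (D.j (w - D.g) D.q1 + D.j D.q1 D.q1) + ε / 8 * s :=
      H s hss ll hl r 2 (by linarith) (by linarith) (w - D.g) hwX D.q1 hq1X D.q1 C12_q1P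
    rw [hjj1, hjg, hfl] at h2
    have h7 : 0 ≤ s * (4 * D.MF * p.η1) := mul_nonneg hs0 hom
    linarith

/-- there are gate points well inside -/
theorem C12_exists_wit (h : D.Ok) (hp : p.Ok D) {ε : ℝ} (hε : 0 < ε) : ∃ w ∈ D.Out (4 * p.ηc),
    D.j D.q0 w + D.j w (D.q1 + D.g) ≤ D.U + ε := by
  obtain ⟨n, hn⟩ := exists_j_lt h.toOk0 D.q0 (D.q1 + D.g) (ε := ε / 2) (by positivity)
  obtain ⟨u, hu, hend, hpt, -⟩ := exists_path_fd h.fins (ε := ε / 2) (by positivity) D.q0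
    (D.q1 + D.g + lv D.b n)
  have hηc := hp.ηc_pos
  have hcont : Continuous fun t => Metric.infDist (traj 0 D.q0 u t) D.Z :=
    (Metric.continuous_infDist_pt _).comp (traj_cont hu 0 D.q0)
  have hlvL : ∀ n : Fin d → ℤ, lv D.b n ∈ D.Lam := by
    intro n
    unfold lv GD.Lam
    refine Submodule.sum_mem _ fun i _ => ?_
    obtain ⟨k, hk⟩ := h.bβ i
    rw [hk, Int.cast_smul_eq_zsmul]
    exact Submodule.smul_mem _ _ (Submodule.subset_span ⟨k, rfl⟩)
  have h0 : Metric.infDist (traj 0 D.q0 u 0) D.Z = 0 := by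
    have : traj 0 D.q0 u 0 = D.q0 := by simp [traj]
    rw [this]
    exact Metric.infDist_zero_of_mem h.q0_mem
  have hgn : ¬ D.InJ (D.g + lv D.b n) := by
    rintro ⟨n', hn'⟩
    refine h.g_not ⟨n' - n, ?_⟩
    have : D.g = lv D.b n' - lv D.b n := by rw [← hn']; abel
    rw [this]
    unfold lv
    rw [← Finset.sum_sub_distrib]
    refine Finset.sum_congr rfl fun i _ => ?_
    rw [← sub_smul]
    push_cast [Pi.sub_apply]
    rfl
  have h1 : 8 * p.ηc ≤ Metric.infDist (traj 0 D.q0 u 1) D.Z := by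
    have := hp.sep (D.g + lv D.b n) (D.Lam.add_mem h.g_mem (hlvL n)) hgn D.q1 h.q1_mem
    rw [hend]
    rwa [← add_assoc] at this
  obtain ⟨t, ht, ht4⟩ : ∃ t ∈ Icc (0 : ℝ) 1, Metric.infDist (traj 0 D.q0 u t) D.Z = 4 * p.ηc := by
    have := intermediate_value_Icc (zero_le_one (α := ℝ)) hcont.continuousOn
    exact this ⟨by rw [h0]; positivity, by linarith⟩
  have hZne : D.Z.Nonempty := ⟨D.q0, h.q0_mem⟩
  refine ⟨traj 0 D.q0 u t, ?_, ?_⟩
  · intro v hv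
    by_cases hvJ : D.InJ v
    · obtain ⟨k, rfl⟩ := hvJ
      rw [← ht4]
      refine le_of_forall_pos_lt_add fun δ hδ => ?_
      obtain ⟨z, hz, hdz⟩ := (Metric.infDist_lt_iff hZne).1
        (lt_add_of_pos_right (Metric.infDist (traj 0 D.q0 u t + lv D.b k) D.Z) hδ)
      have hz' : z + lv D.b (-k) ∈ D.Z := h.Z_J (-k) z hz
      have hneg : lv D.b (-k) = -lv D.b k := by
        unfold lv
        rw [← Finset.sum_neg_distrib]
        refine Finset.sum_congr rfl fun i _ => ?_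
        rw [← neg_smul]
        push_cast [Pi.neg_apply]
        rfl
      have h2 := Metric.infDist_le_dist_of_mem (x := traj 0 D.q0 u t) hz'
      have h3 : dist (traj 0 D.q0 u t) (z + lv D.b (-k)) = dist (traj 0 D.q0 u t + lv D.b k) z := by
        rw [hneg, dist_eq_norm, dist_eq_norm]
        congr 1
        abel
      rw [h3] at h2
      linarith
    · refine le_of_forall_pos_lt_add fun δ hδ => ?_
      have hlt : Metric.infDist (traj 0 D.q0 u t) D.Z < 4 * p.ηc + δ := by rw [ht4]; linarith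
      obtain ⟨z, hz, hdz⟩ := (Metric.infDist_lt_iff hZne).1 hlt
      have h2 := hp.sep v hv hvJ z hz
      have h3 := Metric.infDist_le_infDist_add_dist (s := D.Z) (x := z + v)
        (y := traj 0 D.q0 u t + v)
      have h4 : dist (z + v) (traj 0 D.q0 u t + v) = dist (traj 0 D.q0 u t) z := by
        rw [dist_add_right, dist_comm]
      rw [h4] at h3
      linarith
  · have h2 := hpt t ht
    have h3 : D.j D.q0 (traj 0 D.q0 u t) ≤ fd D.F D.q0 (traj 0 D.q0 u t) -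
        (D.B (traj 0 D.q0 u t) - D.B D.q0) := by
      have := j_le h.toOk0 D.q0 (traj 0 D.q0 u t) 0
      have h0 : lv D.b (0 : Fin d → ℤ) = 0 := by simp [lv]
      rwa [h0, add_zero] at this
    have h4 := j_le h.toOk0 (traj 0 D.q0 u t) (D.q1 + D.g) n
    unfold GD.U
    linarith

/-- near-minimal gate points have small excess -/
theorem m2 (h : D.Ok) (hp : p.Ok D) (m : ℝ) (L : LP) : ∃ s0 : ℝ, 1 ≤ s0 ∧ ∀ s s', s0 ≤ s → s0 ≤ s' →
    |s' - s| ≤ 1 → ∀ ll, FL D m L ll → ∀ r, 0 ≤ r → r ≤ 1 → ∀ w ∈ D.Md p,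
    (∀ w' ∈ D.Md p, D.W p ll s s' r w ≤ D.W p ll s s' r w' + 1) →
    D.j D.q0 w + D.j w (D.q1 + D.g) ≤ D.U + p.κ / 4 := by
  have hκ := hp.κ_pos
  have hηc := hp.ηc_pos
  have hom := C12_om h hp
  have hom' := hp.om_le
  obtain ⟨sa, hsa, Ha⟩ := m1a h hp m L (ε := p.κ / 100) (by positivity)
  obtain ⟨sb, hsb, Hb⟩ := m1b h hp m L (ε := p.κ / 100) (by positivity)
  obtain ⟨w', hw'O, hw'⟩ := C12_exists_wit h hp (ε := p.κ / 100) (by positivity)
  have hU : 0 ≤ D.U := j_nonneg h.toOk0 _ _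
  set T : ℝ := 100 * (2 * D.U + 4 * p.κ + 1) / p.κ with hT
  refine ⟨max (max sa sb) T, hsa.trans ((le_max_left _ _).trans (le_max_left _ _)),
    fun s s' hs hs' hss ll hl r hr hr1 w hw hmin => ?_⟩
  have hsa' : sa ≤ s := ((le_max_left _ _).trans (le_max_left _ _)).trans hs
  have hsb' : sb ≤ s' := ((le_max_right _ _).trans (le_max_left _ _)).trans hs'
  have hTs : T ≤ s := (le_max_right _ _).trans hs
  have hs0 : 1 ≤ s := hsa.trans hsa'
  have hw'M : w' ∈ D.Md p := by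
    refine ⟨fun v hv => ?_, by linarith⟩
    have := hw'O v hv
    linarith
  have sub : ∀ x ∈ D.Md p, x ∈ D.Mg (p.ηc / 2) (2 * p.κ) := fun x hx =>
    ⟨fun v hv => by have := hx.1 v hv; linarith, by have := hx.2; linarith⟩
  have h1 := abs_le.1 (Ha s hsa' ll hl r hr hr1 w (sub w hw))
  have h2 := abs_le.1 (Hb s' hsb' ll hl r hr hr1 w (sub w hw))
  have h3 := abs_le.1 (Ha s hsa' ll hl r hr hr1 w' (sub w' hw'M))
  have h4 := abs_le.1 (Hb s' hsb' ll hl r hr hr1 w' (sub w' hw'M))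
  have h5 := hmin w' hw'M
  unfold GD.W at h5
  have hss' := abs_le.1 hss
  set a := D.j D.q0 w with ha
  set b := D.j w (D.q1 + D.g) with hb
  set a' := D.j D.q0 w' with ha'
  set b' := D.j w' (D.q1 + D.g) with hb'
  set om := 4 * D.MF * p.η1 with hom_
  have hb0 : 0 ≤ b := j_nonneg h.toOk0 _ _
  have ha0 : 0 ≤ a := j_nonneg h.toOk0 _ _
  have hb0' : 0 ≤ b' := j_nonneg h.toOk0 _ _
  have ha0' : 0 ≤ a' := j_nonneg h.toOk0 _ _
  have hab : a + b ≤ D.U + p.κ := hw.2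
  have hbb : (s - 1) * b ≤ s' * b := mul_le_mul_of_nonneg_right (by linarith) hb0
  have hbb' : s' * b' ≤ (s + 1) * b' := mul_le_mul_of_nonneg_right (by linarith) hb0'
  have hom2 : om ≤ p.κ / 400 := by linarith
  have hss2 : s' ≤ 2 * s := by linarith
  have herr : (2 * om + p.κ / 100) * s' ≤ (2 * om + p.κ / 100) * (2 * s) :=
    mul_le_mul_of_nonneg_left hss2 (by positivity)
  have hTk : 100 * (2 * D.U + 4 * p.κ + 1) ≤ s * p.κ := by
    have := hTs
    rw [hT, div_le_iff₀ hκ] at this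
    exact this
  have hkey : s * (a + b) ≤ s * (a' + b') + b + b' + 6 * ((2 * om + p.κ / 100) * s) + 1 := by
    nlinarith [h1.1, h2.1, h3.2, h4.2]
  have homs : om * s ≤ p.κ / 400 * s := mul_le_mul_of_nonneg_right hom2 (by linarith)
  have hws : s * (a' + b') ≤ s * (D.U + p.κ / 100) := mul_le_mul_of_nonneg_left hw' (by linarith)
  have hfin : s * (a + b) ≤ s * (D.U + p.κ / 4) := by
    nlinarith
  exact le_of_mul_le_mul_left hfin (by linarith)

end EscK
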