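import Pool.Agent.EscK.KDefs
import Pool.Agent.EscG.C2
import Pool.Agent.EscG.C3
import Pool.Agent.EscG.C5
import Pool.Agent.EscK.C6
import Pool.Agent.EscK.C6b
import Pool.Agent.EscK.C7
import Pool.Agent.EscK.C8

/-!
Project EscK, module C9: where minimizers do not go.
-/

noncomputable section

namespace EscK

open MeasureTheory Set Filter Topology Esc EscF EscG
open scoped ContDiff

section MID

variable {ι : Type} [Fintype ι] {d : ℕ} {E : Type*} [NormedAddCommGroup E] [InnerProductSpace ℝ E]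
  [FiniteDimensional ℝ E] {D : GD ι d E} {p : GP} {m M Mf : ℝ} {L : LP} {ll l : E → E → ℝ → ℝ}
  {f f' : E → ℝ → ℝ}

namespace C9

theorem big {δ : ℝ} (hδ : 0 < δ) (K : ℝ) : ∃ s0 : ℝ, 1 ≤ s0 ∧ ∀ s, s0 ≤ s → K < δ * s := by
  refine ⟨max 1 (K / δ + 1), le_max_left _ _, fun s hs => ?_⟩
  have h1 : K / δ + 1 ≤ s := (le_max_right _ _).trans hs
  have h2 : K / δ < s := by linarith
  rw [div_lt_iff₀ hδ] at h2
  linarith [mul_comm s δ]

omit [FiniteDimensional ℝ E] in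
theorem Mg_mono {η η' κ κ' : ℝ} (h1 : η' ≤ η) (h2 : κ ≤ κ') {w : E} (hw : w ∈ D.Mg η κ) :
    w ∈ D.Mg η' κ' :=
  ⟨fun v hv => h1.trans (hw.1 v hv), by linarith [hw.2]⟩

omit [FiniteDimensional ℝ E] in
theorem Md_sub (hp : p.Ok D) {w : E} (hw : w ∈ D.Md p) : w ∈ D.Mg (p.ηc / 2) (2 * p.κ) :=
  Mg_mono (by linarith [hp.ηc_pos]) (by linarith [hp.κ_pos]) hw

omit [FiniteDimensional ℝ E] in
theorem out_dist {η : ℝ} {w : E} (hw : w ∈ D.Out η) : η ≤ Metric.infDist w D.Z := by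
  have := hw 0 D.Lam.zero_mem
  rwa [add_zero] at this

omit [FiniteDimensional ℝ E] in
theorem out_dist_g (h : D.Ok) {η : ℝ} {w : E} (hw : w ∈ D.Out η) :
    η ≤ Metric.infDist (w - D.g) D.Z := by
  have := hw (-D.g) (D.Lam.neg_mem h.g_mem)
  rwa [← sub_eq_add_neg] at this

omit [FiniteDimensional ℝ E] in
theorem R_Rm (hp : p.Ok D) {x : E} (hx : x ∈ D.R p) : x ∈ D.Rm p.ηc := by
  have h1 : Metric.infDist x D.Z ≤ p.η1 := hx
  have h2 := hp.η1_le
  have h3 := hp.η1_pos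
  show Metric.infDist x D.Z ≤ p.ηc
  linarith

omit [FiniteDimensional ℝ E] in
theorem R_X (hp : p.Ok D) {x : E} (hx : x ∈ D.R p) : x ∈ D.X p.ρ := by
  have := hp.bnd x (Or.inl (R_Rm hp hx)) 0 (by simp)
  simpa using this

omit [FiniteDimensional ℝ E] in
theorem Md_X (hp : p.Ok D) {w : E} (hw : w ∈ D.Md p) : w ∈ D.X p.ρ := by
  have := hp.bnd w (Or.inr (Md_sub hp hw)) 0 (by simp)
  simpa using this

omit [FiniteDimensional ℝ E] in
theorem Md_X' (hp : p.Ok D) {w : E} (hw : w ∈ D.Md p) : w - D.g ∈ D.X p.ρ := by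
  have := hp.bnd w (Or.inr (Md_sub hp hw)) (-1) (by simp)
  have e1 : w + (((-1 : ℤ) : ℤ) : ℝ) • D.g = w - D.g := by
    push_cast
    rw [neg_smul, one_smul, sub_eq_add_neg]
  rwa [e1] at this

omit [FiniteDimensional ℝ E] in
theorem P0_cases {q : E} (hq : q ∈ D.P0) : q = D.q0 ∨ q = D.q1 := hq

omit [FiniteDimensional ℝ E] in
theorem q0_P0 : D.q0 ∈ D.P0 := Or.inl rfl

omit [FiniteDimensional ℝ E] in
theorem q1_P0 : D.q1 ∈ D.P0 := Or.inr rfl

omit [FiniteDimensional ℝ E] in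
theorem P0_Z (h : D.Ok) {q : E} (hq : q ∈ D.P0) : q ∈ D.Z := by
  rcases hq with rfl | rfl
  · exact h.q0_mem
  · exact h.q1_mem

omit [FiniteDimensional ℝ E] in
theorem P0_R (h : D.Ok) (hp : p.Ok D) {q : E} (hq : q ∈ D.P0) : q ∈ D.R p := by
  show Metric.infDist q D.Z ≤ p.η1
  rw [Metric.infDist_zero_of_mem (P0_Z h hq)]
  exact hp.η1_pos.le

/-- the exit from the room at `q0` is exact for the anchors -/
theorem ex0 (h : D.Ok) (hp : p.Ok D) {w : E} (hw : w ∈ D.Mg (p.ηc / 2) (2 * p.κ)) {q : E}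
    (hq : q ∈ D.P0) : D.j q D.q0 + D.j D.q0 w ≤ D.j q w := by
  rcases P0_cases hq with rfl | rfl
  · rw [j_self h.toOk0, zero_add]
  · have hg := hp.gate w hw
    have he := hp.e_pos
    rcases hg.ex0 w (out_dist hw.1) with h1 | h1
    · exact h1
    · rw [j_self h.toOk0 w] at h1
      linarith

/-- the entrance into the next room at `q1` is exact for the anchors -/
theorem ex1 (h : D.Ok) (hp : p.Ok D) {w : E} (hw : w ∈ D.Mg (p.ηc / 2) (2 * p.κ)) {q : E}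
    (hq : q ∈ D.P0) : D.j w (D.q1 + D.g) + D.j D.q1 q ≤ D.j w (q + D.g) := by
  rcases P0_cases hq with rfl | rfl
  · have hg := hp.gate w hw
    have he := hp.e_pos
    rcases hg.ex1 w (out_dist_g h hw.1) with h1 | h1
    · exact h1
    · rw [j_self h.toOk0 w] at h1
      linarith
  · rw [j_self h.toOk0, add_zero]

omit [FiniteDimensional ℝ E] in
theorem not_InJ_neg {v : E} (hv : ¬ D.InJ v) : ¬ D.InJ (-v) := by
  rintro ⟨n, hn⟩
  refine hv ⟨-n, ?_⟩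
  have : v = - lv D.b n := by rw [← hn, neg_neg]
  rw [this]
  simp [lv]

omit [FiniteDimensional ℝ E] in
/-- points of the room are not in other rooms -/
theorem R_not (hp : p.Ok D) {x v : E} (hx : x ∈ D.R p) (hv : v ∈ D.Lam) (hJ : ¬ D.InJ v) :
    x + v ∉ D.Z := by
  intro hz
  have h1 := hp.sep (-v) (D.Lam.neg_mem hv) (not_InJ_neg hJ) (x + v) hz
  rw [add_neg_cancel_right] at h1
  have h2 : Metric.infDist x D.Z ≤ p.η1 := hx
  have h3 := hp.η1_le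
  have h4 := hp.η1_pos
  linarith

omit [FiniteDimensional ℝ E] in
/-- a point at positive distance of the zone is not in its fast translates -/
theorem not_Z_J (h : D.Ok) {c : E} (hc : 0 < Metric.infDist c D.Z) {v : E} (hJ : D.InJ v) :
    c + v ∉ D.Z := by
  intro hz
  obtain ⟨n, rfl⟩ := hJ
  have h1 := h.Z_J (-n) _ hz
  have e1 : c + lv D.b n + lv D.b (-n) = c := by simp [lv]
  rw [e1] at h1
  rw [Metric.infDist_zero_of_mem h1] at hc
  exact lt_irrefl _ hc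

omit [FiniteDimensional ℝ E] in
/-- a point on the boundary of the room is outside of all zones -/
theorem bd_out (h : D.Ok) (hp : p.Ok D) {x : E} (hx : Metric.infDist x D.Z = p.η1) :
    ∀ v ∈ D.Lam, x + v ∉ D.Z := by
  intro v hv
  by_cases hJ : D.InJ v
  · exact not_Z_J h (by rw [hx]; exact hp.η1_pos) hJ
  · exact R_not hp (show Metric.infDist x D.Z ≤ p.η1 from hx.le) hv hJ

/-- the shift of the first variable -/
theorem j_sub_g (h : D.Ok) (w x : E) : D.j (w - D.g) x = D.j w (x + D.g) := by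
  have := j_Lam h.toOk0 h.g_mem (w - D.g) x
  rw [sub_add_cancel] at this
  exact this.symm

theorem j_neg_r (h : D.Ok) {v : E} (hv : v ∈ D.Lam) (x q : E) : D.j x (q + -v) = D.j (x + v) q := by
  have := j_Lam h.toOk0 hv x (q + -v)
  rw [neg_add_cancel_right] at this
  exact this.symm

theorem j_neg_l (h : D.Ok) {v : E} (hv : v ∈ D.Lam) (x q : E) : D.j (q + -v) x = D.j q (x + v) := by
  have := j_Lam h.toOk0 hv (q + -v) x
  rw [neg_add_cancel_right] at this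
  exact this.symm

/-- both legs near anchors -/
theorem two (h : D.Ok) {s A B ε e2 K : ℝ} {x c y : E} (hs : 0 ≤ s) (hA : s * D.j x c ≤ A + K)
    (hB : s * D.j c y ≤ B + K)
    (h1 : ∃ q ∈ D.P0, ∃ v ∈ D.Lam, s * (D.j x (q + v) + D.j (q + v) c) ≤ A + ε * s)
    (h2 : ∃ q ∈ D.P0, ∃ v ∈ D.Lam, s * (D.j c (q + v) + D.j (q + v) y) ≤ B + ε * s)
    (hrt : ∀ q ∈ D.P0, ∀ q' ∈ D.P0, D.j q q' + e2 ≤ D.j q c + D.j c q') :
    (∃ q ∈ D.P0, ∃ q' ∈ D.P0, s * (D.j x q + D.j q q' + D.j q' y + e2) ≤ A + B + 2 * (ε * s)) ∨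
      ∃ a ∈ D.P0, ∃ v ∈ D.Lam, ¬ D.InJ v ∧ s * (D.j x (a + v) + D.j (a + v) y) ≤ A + B + ε * s + K := by
  obtain ⟨q, hq, v, hv, hqv⟩ := h1
  obtain ⟨q', hq', v', hv', hqv'⟩ := h2
  by_cases hJ : D.InJ v
  · by_cases hJ' : D.InJ v'
    · left
      obtain ⟨n, rfl⟩ := hJ
      obtain ⟨n', rfl⟩ := hJ'
      have e0 : lv D.b (0 : Fin d → ℤ) = 0 := by simp [lv]
      have a1 : D.j x (q + lv D.b n) = D.j x q := by
        have := j_J h.toOk0 x q 0 n
        rwa [e0, add_zero] at this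
      have a2 : D.j (q + lv D.b n) c = D.j q c := by
        have := j_J h.toOk0 q c n 0
        rwa [e0, add_zero] at this
      have a3 : D.j c (q' + lv D.b n') = D.j c q' := by
        have := j_J h.toOk0 c q' 0 n'
        rwa [e0, add_zero] at this
      have a4 : D.j (q' + lv D.b n') y = D.j q' y := by
        have := j_J h.toOk0 q' y n' 0
        rwa [e0, add_zero] at this
      rw [a1, a2] at hqv
      rw [a3, a4] at hqv'
      refine ⟨q, hq, q', hq', ?_⟩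
      have h5 := mul_le_mul_of_nonneg_left (hrt q hq q' hq') hs
      nlinarith [h5, hqv, hqv']
    · right
      refine ⟨q', hq', v', hv', hJ', ?_⟩
      have h5 := mul_le_mul_of_nonneg_left (j_tri h.toOk0 x c (q' + v')) hs
      nlinarith [h5, hqv', hA]
  · right
    refine ⟨q, hq, v, hv, hJ, ?_⟩
    have h5 := mul_le_mul_of_nonneg_left (j_tri h.toOk0 (q + v) c y) hs
    nlinarith [h5, hqv, hB]

/-- passing costs to the anchors are bounded on bounded sets -/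
theorem jb (h : D.Ok) (ρ : ℝ) : ∃ J : ℝ, 0 ≤ J ∧ ∀ x ∈ D.X ρ, ∀ q ∈ D.P0, D.j x q ≤ J ∧ D.j q x ≤ J := by
  have hMF : 0 ≤ D.MF := h.fins.mF_pos.le.trans h.fins.mF_le
  refine ⟨2 * D.MF * (‖D.q0‖ + ‖D.q1‖ + |ρ|), by positivity, ?_⟩
  rintro x ⟨n, hn⟩ q hq
  have hq' : ‖q‖ ≤ ‖D.q0‖ + ‖D.q1‖ := by
    rcases P0_cases hq with rfl | rfl
    · linarith [norm_nonneg D.q1]
    · linarith [norm_nonneg D.q0]
  have e0 : lv D.b (0 : Fin d → ℤ) = 0 := by simp [lv]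
  have hρ := le_abs_self ρ
  have a1 : D.j x q = D.j (x + lv D.b n) q := by
    have := j_J h.toOk0 x q n 0
    rw [e0, add_zero] at this
    exact this.symm
  have a2 : D.j q x = D.j q (x + lv D.b n) := by
    have := j_J h.toOk0 q x 0 n
    rw [e0, add_zero] at this
    exact this.symm
  have b1 : ‖q - (x + lv D.b n)‖ ≤ ‖D.q0‖ + ‖D.q1‖ + |ρ| := by
    have := norm_sub_le q (x + lv D.b n)
    linarith
  have b2 : ‖(x + lv D.b n) - q‖ ≤ ‖D.q0‖ + ‖D.q1‖ + |ρ| := by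
    rw [norm_sub_rev]; exact b1
  constructor
  · rw [a1]
    exact (j_lip h.toOk0 _ _).trans (mul_le_mul_of_nonneg_left b1 (by positivity))
  · rw [a2]
    exact (j_lip h.toOk0 _ _).trans (mul_le_mul_of_nonneg_left b2 (by positivity))

/-- the common part: a passage through the point `c` at distance at least `η1` of the zone -/
theorem core (h : D.Ok) (hp : p.Ok D) (m : ℝ) (L : LP) (C : ℝ) {ε : ℝ} (hε : 0 < ε) : ∃ s0 : ℝ, 1 ≤ s0 ∧
    ∀ s, s0 ≤ s → ∀ ll, FL D m L ll → ∀ t t' τ τ', 1 / 4 ≤ t' - t → t' - t ≤ 4 →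
    1 / 4 ≤ τ' - τ → τ' - τ ≤ 4 → ∀ x c y : E, p.η1 ≤ Metric.infDist c D.Z →
    (x ∈ D.R p ∨ y ∈ D.R p) → ∀ e2 : ℝ,
    (∀ q ∈ D.P0, ∀ q' ∈ D.P0, D.j q q' + e2 ≤ D.j q c + D.j c q') →
    C * s < D.kk ll s t t' x c + D.kk ll s τ τ' c y ∨
    (∃ q ∈ D.P0, ∃ q' ∈ D.P0, s * (D.j x q + D.j q q' + D.j q' y + e2) + (L.fl s t t' + L.fl s τ τ') ≤
      D.kk ll s t t' x c + D.kk ll s τ τ' c y + 2 * (ε * s)) ∨
    ∃ a ∈ D.P0, ∃ v ∈ D.Lam, ¬ D.InJ v ∧
      s * (D.j x (a + v) + D.j (a + v) y) + (L.fl s t t' + L.fl s τ τ') ≤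
      D.kk ll s t t' x c + D.kk ll s τ τ' c y + 2 * (ε * s) := by
  -- bounds for both kernels if the sum is at most `C * s`
  have hC1 : ∃ C1, C1 = |C| + 4 * |L.A| + 1 := ⟨_, rfl⟩
  obtain ⟨C1, hC1⟩ := hC1
  have hC10 : 0 ≤ C1 := by rw [hC1]; positivity
  obtain ⟨C2, hC2⟩ : ∃ C2, C2 = 2 * (C1 + 4 * |L.A| + 1) := ⟨_, rfl⟩
  have hC20 : 0 ≤ C2 := by rw [hC2]; positivity
  obtain ⟨ε1, hε1⟩ : ∃ ε1, ε1 = min (1 / 2) (ε / (1 + C2)) := ⟨_, rfl⟩
  have hε10 : 0 < ε1 := by rw [hε1]; exact lt_min (by norm_num) (by positivity)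
  have hε12 : ε1 ≤ 1 / 2 := by rw [hε1]; exact min_le_left _ _
  have hε1C : ε1 * (1 + C2) ≤ ε := by
    have : ε1 ≤ ε / (1 + C2) := by rw [hε1]; exact min_le_right _ _
    rwa [le_div_iff₀ (by positivity)] at this
  obtain ⟨sc, hsc, H0⟩ := low0 h m L C1 hε
  obtain ⟨sd, hsd, H1⟩ := low1 h m L C1 hε
  obtain ⟨se, hse, H2⟩ := kk_ge h m L hε10
  refine ⟨max (max sc sd) se, hsc.trans ((le_max_left _ _).trans (le_max_left _ _)), ?_⟩
  intro s hs ll hl t t' τ τ' ht1 ht2 ht3 ht4 x c y hc hxy e2 hrt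
  have hsc' : sc ≤ s := ((le_max_left _ _).trans (le_max_left _ _)).trans hs
  have hsd' : sd ≤ s := ((le_max_right _ _).trans (le_max_left _ _)).trans hs
  have hse' : se ≤ s := (le_max_right _ _).trans hs
  have hs1 : 1 ≤ s := hsc.trans hsc'
  have hs0 : 0 ≤ s := by linarith
  have hes : 0 ≤ ε * s := mul_nonneg hε.le hs0
  by_cases hAB : D.kk ll s t t' x c + D.kk ll s τ τ' c y ≤ C * s
  swap
  · left
    push Not at hAB
    exact hAB
  right
  have gA := H2 s hse' ll hl t t' (by linarith) (by linarith) x c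
  have gB := H2 s hse' ll hl τ τ' (by linarith) (by linarith) c y
  have jA := mul_nonneg hs0 (j_nonneg h.toOk0 x c)
  have jB := mul_nonneg hs0 (j_nonneg h.toOk0 c y)
  have fb : ∀ a b : ℝ, 0 ≤ b - a → b - a ≤ 4 → |L.fl s a b| ≤ 4 * |L.A| * s := by
    intro a b h1 h2
    refine (fl_bd hl.a_bd hs1 a b).trans ?_
    rw [abs_of_nonneg h1]
    have h3 : L.A * s * (b - a) ≤ |L.A| * s * 4 := by
      apply mul_le_mul (mul_le_mul_of_nonneg_right (le_abs_self _) hs0) h2 h1 (by positivity)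
    linarith
  have fA := abs_le.1 (fb t t' (by linarith) ht2)
  have fB := abs_le.1 (fb τ τ' (by linarith) ht4)
  set A := D.kk ll s t t' x c with hA
  set B := D.kk ll s τ τ' c y with hB
  set F1 := L.fl s t t' with hF1
  set F2 := L.fl s τ τ' with hF2
  have hCs : C * s ≤ |C| * s := mul_le_mul_of_nonneg_right (le_abs_self _) hs0
  have e1A : 0 ≤ (1 - ε1) * (s * D.j x c) := mul_nonneg (by linarith) jA
  have e1B : 0 ≤ (1 - ε1) * (s * D.j c y) := mul_nonneg (by linarith) jB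
  have e1s : ε1 * s ≤ 1 * s := mul_le_mul_of_nonneg_right (by linarith) hs0
  have hA1 : A ≤ C1 * s := by rw [hC1]; linarith
  have hB1 : B ≤ C1 * s := by rw [hC1]; linarith
  have half : ∀ z : ℝ, 0 ≤ z → 1 / 2 * z ≤ (1 - ε1) * z := fun z hz =>
    mul_le_mul_of_nonneg_right (by linarith) hz
  have hA2 : s * D.j x c ≤ C2 * s := by
    have := half _ jA
    rw [hC2]; linarith
  have hB2 : s * D.j c y ≤ C2 * s := by
    have := half _ jB
    rw [hC2]; linarith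
  have small : ∀ z : ℝ, z ≤ C2 * s → ε1 * z + ε1 * s ≤ ε * s := by
    intro z hz
    have h1 := mul_le_mul_of_nonneg_left hz hε10.le
    have h2 := mul_le_mul_of_nonneg_right hε1C hs0
    nlinarith
  have hA3 : s * D.j x c ≤ (A - F1) + ε * s := by
    have := small _ hA2
    linarith
  have hB3 : s * D.j c y ≤ (B - F2) + ε * s := by
    have := small _ hB2
    linarith
  by_cases hcv : ∃ v ∈ D.Lam, c + v ∈ D.Z
  · right
    obtain ⟨v, hv, hz⟩ := hcv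
    have hJ : ¬ D.InJ v := fun hJ => not_Z_J h (hp.η1_pos.trans_le hc) hJ hz
    rcases hxy with hx | hy
    · obtain ⟨q, hq, hh⟩ := pass1 h.toOk0 hz (R_not hp hx hv hJ)
      refine ⟨q, hq, -v, D.Lam.neg_mem hv, not_InJ_neg hJ, ?_⟩
      rw [j_Lam h.toOk0 hv] at hh
      have e1 := j_neg_r h hv x q
      have e2' := j_neg_l h hv c q
      have h5 := j_tri h.toOk0 (q + -v) c y
      have h6 : D.j x (q + -v) + D.j (q + -v) y ≤ D.j x c + D.j c y := by linarith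
      have h7 := mul_le_mul_of_nonneg_left h6 hs0
      linarith
    · obtain ⟨q, hq, hh⟩ := pass0 h.toOk0 hz (R_not hp hy hv hJ)
      refine ⟨q, hq, -v, D.Lam.neg_mem hv, not_InJ_neg hJ, ?_⟩
      rw [j_Lam h.toOk0 hv] at hh
      have e1 := j_neg_r h hv c q
      have e2' := j_neg_l h hv y q
      have h5 := j_tri h.toOk0 x c (q + -v)
      have h6 : D.j x (q + -v) + D.j (q + -v) y ≤ D.j x c + D.j c y := by linarith
      have h7 := mul_le_mul_of_nonneg_left h6 hs0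
      linarith
  · have hout : ∀ v ∈ D.Lam, c + v ∉ D.Z := fun v hv hz => hcv ⟨v, hv, hz⟩
    have l1 : ∃ q ∈ D.P0, ∃ v ∈ D.Lam, s * (D.j x (q + v) + D.j (q + v) c) ≤ (A - F1) + ε * s := by
      obtain ⟨q, hq, v, hv, hh⟩ := H1 s hsd' ll hl t t' ht1 ht2 x c hout hA1
      exact ⟨q, hq, v, hv, by linarith⟩
    have l2 : ∃ q ∈ D.P0, ∃ v ∈ D.Lam, s * (D.j c (q + v) + D.j (q + v) y) ≤ (B - F2) + ε * s := by
      obtain ⟨q, hq, v, hv, hh⟩ := H0 s hsc' ll hl τ τ' ht3 ht4 c y hout hB1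
      exact ⟨q, hq, v, hv, by linarith⟩
    rcases two h hs0 hA3 hB3 l1 l2 hrt with h1 | h1
    · left
      obtain ⟨q, hq, q', hq', h1⟩ := h1
      exact ⟨q, hq, q', hq', by linarith⟩
    · right
      obtain ⟨a, ha, v, hv, hJ, h2⟩ := h1
      exact ⟨a, ha, v, hv, hJ, by linarith⟩

end C9

/-! ### V1 -/

theorem v1 (h : D.Ok) (hp : p.Ok D) (m : ℝ) (L : LP) : ∃ s0 : ℝ, 1 ≤ s0 ∧ ∀ s, s0 ≤ s → ∀ ll,
    FL D m L ll → ∀ x ∈ D.R p, ∀ x' ∈ D.R p, ∀ c ∈ D.Out (p.ηc / 2), ∀ t, 0 < t → t < 1 →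
    D.k1 ll s x x' + 1 < D.kk ll s 0 t x c + D.kk ll s t 1 c x' := by
  have he := hp.e_pos
  obtain ⟨J1, hJ1, HJ⟩ := C9.jb h p.ρ
  obtain ⟨ε1, hε1⟩ : ∃ ε1, ε1 = p.e / 8 / (2 * J1 + 3 / 4 * p.e + 2) := ⟨_, rfl⟩
  have hden : 0 < 2 * J1 + 3 / 4 * p.e + 2 := by positivity
  have hε10 : 0 < ε1 := by rw [hε1]; positivity
  have hε1m : ε1 * (2 * J1 + 3 / 4 * p.e + 2) = p.e / 8 := by
    rw [hε1]; exact div_mul_cancel₀ _ hden.ne'
  have hε11 : ε1 ≤ 1 := by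
    rw [hε1, div_le_one hden]
    linarith
  obtain ⟨s1, hs1, H1⟩ := upp h m L p.ρ (ε := p.e / 8) (by positivity)
  obtain ⟨s2, hs2, H2⟩ := C9.big (by positivity : 0 < p.e / 2) 1
  obtain ⟨s3, hs3, H3⟩ := kk_ge h m L hε10
  refine ⟨max (max s1 s2) s3, hs1.trans ((le_max_left _ _).trans (le_max_left _ _)), ?_⟩
  intro s hs ll hl x hx x' hx' c hc t ht0 ht1
  have hs1' : s1 ≤ s := ((le_max_left _ _).trans (le_max_left _ _)).trans hs
  have hs2' : s2 ≤ s := ((le_max_right _ _).trans (le_max_left _ _)).trans hs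
  have hs3' : s3 ≤ s := (le_max_right _ _).trans hs
  have hs0 : 0 ≤ s := by linarith
  have hb := H2 s hs2'
  have hd : p.ηc / 4 ≤ Metric.infDist c D.Z := by
    have := C9.out_dist hc
    linarith [hp.ηc_pos]
  obtain ⟨q, hq, hj⟩ := rtg h hp hx hx' hd
  have hu := H1 s hs1' ll hl 0 1 (by norm_num) (by norm_num) x (C9.R_X hp hx) x' (C9.R_X hp hx') q hq
  have hA := H3 s hs3' ll hl 0 t ht0 (by linarith) x c
  have hB := H3 s hs3' ll hl t 1 ht1 (by linarith) c x'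
  have hfl := fl_add hl.a_cont s 0 t 1
  have hom := hp.om_le
  have hk := hp.κ_le
  have hκ := hp.κ_pos
  have hJx := (HJ x (C9.R_X hp hx) q hq).1
  have hJx' := (HJ x' (C9.R_X hp hx') q hq).2
  show D.kk ll s 0 1 x x' + 1 < _
  obtain ⟨J0, hJ0⟩ : ∃ J0, J0 = D.j x q + D.j q x' := ⟨_, rfl⟩
  obtain ⟨J, hJ⟩ : ∃ J, J = D.j x c + D.j c x' := ⟨_, rfl⟩
  have h6 : J0 + 3 / 4 * p.e ≤ J := by rw [hJ0, hJ]; linarith
  have h7 : (1 - ε1) * (s * (J0 + 3 / 4 * p.e)) ≤ (1 - ε1) * (s * J) :=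
    mul_le_mul_of_nonneg_left (mul_le_mul_of_nonneg_left h6 hs0) (by linarith)
  have h8 : ε1 * (J0 + 3 / 4 * p.e + 2) ≤ p.e / 8 := by
    rw [← hε1m]
    exact mul_le_mul_of_nonneg_left (by rw [hJ0]; linarith) hε10.le
  have h9 := mul_le_mul_of_nonneg_right h8 hs0
  have hAB : (1 - ε1) * (s * D.j x c) + (1 - ε1) * (s * D.j c x') = (1 - ε1) * (s * J) := by
    rw [hJ]; ring
  have hu' : D.kk ll s 0 1 x x' ≤ L.fl s 0 1 + s * J0 + p.e / 8 * s := by rw [hJ0]; exact hu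
  have h10 : (1 - ε1) * (s * (J0 + 3 / 4 * p.e)) =
      s * J0 + 3 / 4 * p.e * s - ε1 * (J0 + 3 / 4 * p.e) * s := by ring
  have h11 : ε1 * (J0 + 3 / 4 * p.e + 2) * s = ε1 * (J0 + 3 / 4 * p.e) * s + 2 * (ε1 * s) := by ring
  linarith

/-! ### V3 -/

theorem v3 (h : D.Ok) (hp : p.Ok D) (m : ℝ) (L : LP) : ∃ s0 : ℝ, 1 ≤ s0 ∧ ∀ s, s0 ≤ s → ∀ ll,
    FL D m L ll → ∀ x ∈ D.R p, ∀ w ∈ D.Md p, ∀ r, 0 ≤ r → r ≤ 1 → ∀ t, 1 / 2 ≤ t →
    t ≤ 1 / 2 + r → ∀ c, p.η1 ≤ Metric.infDist c D.Z →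
    D.Q ll s r x w + 1 < D.kk ll s 0 t x c + D.kk ll s t (1 + r) c w := by
  have he := hp.e_pos
  obtain ⟨e2, he2, hrt⟩ := h.rt p.η1 hp.η1_pos
  have hε0 : 0 < min p.e e2 / 8 := by positivity
  obtain ⟨C1, sa, hC1, hsa, Hlin⟩ := kk_lin h m L p.ρ
  obtain ⟨sb, hsb, Hupp⟩ := upp h m L p.ρ hε0
  obtain ⟨sc, hsc, Hc⟩ := C9.core h hp m L (C1 + min p.e e2 / 8) hε0
  obtain ⟨sd, hsd, Hbig⟩ := C9.big hε0 1
  refine ⟨max (max sa sb) (max sc sd), hsa.trans ((le_max_left _ _).trans (le_max_left _ _)), ?_⟩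
  intro s hs ll hl x hx w hw r hr0 hr1 t ht0 ht1 c hc
  have hsa' : sa ≤ s := ((le_max_left _ _).trans (le_max_left _ _)).trans hs
  have hsb' : sb ≤ s := ((le_max_right _ _).trans (le_max_left _ _)).trans hs
  have hsc' : sc ≤ s := ((le_max_left _ _).trans (le_max_right _ _)).trans hs
  have hsd' : sd ≤ s := ((le_max_right _ _).trans (le_max_right _ _)).trans hs
  have hs0 : 0 ≤ s := by linarith
  have hb := Hbig s hsd'
  have hwM := C9.Md_sub hp hw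
  have hlin := Hlin s hsa' ll hl 0 (1 + r) (by linarith) (by linarith) x (C9.R_X hp hx) w
    (C9.Md_X hp hw)
  have hupp := Hupp s hsb' ll hl 0 (1 + r) (by linarith) (by linarith) x (C9.R_X hp hx) w
    (C9.Md_X hp hw) D.q0 C9.q0_P0
  have hfl := fl_add hl.a_cont s 0 t (1 + r)
  show D.kk ll s 0 (1 + r) x w + 1 < _
  have hle1 : min p.e e2 ≤ p.e := min_le_left _ _
  have hle2 : min p.e e2 ≤ e2 := min_le_right _ _
  set ε := min p.e e2 / 8 with hε
  set A := D.kk ll s 0 t x c with hA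
  set B := D.kk ll s t (1 + r) c w with hB
  have hl1 := (le_abs_self _).trans hlin
  have hse := mul_le_mul_of_nonneg_left (show 8 * ε ≤ p.e by linarith) hs0
  have hse2 := mul_le_mul_of_nonneg_left (show 8 * ε ≤ e2 by linarith) hs0
  rcases Hc s hsc' ll hl 0 t t (1 + r) (by linarith) (by linarith) (by linarith) (by linarith) x c w hc
    (Or.inl hx) e2 (hrt c hc) with h1 | ⟨q, hq, q', hq', h1⟩ | ⟨a, ha, v, hv, hJ, h1⟩
  · rw [← hA, ← hB] at h1
    nlinarith [h1, hl1, hb]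
  · rw [← hA, ← hB] at h1
    have t1 := j_tri h.toOk0 q q' w
    have t2 := C9.ex0 h hp hwM hq
    have t3 := j_tri h.toOk0 x q D.q0
    have t4 : D.j x D.q0 + D.j D.q0 w + e2 ≤ D.j x q + D.j q q' + D.j q' w + e2 := by linarith
    have t5 := mul_le_mul_of_nonneg_left t4 hs0
    nlinarith [t5, h1, hupp, hse2, hb, hfl]
  · rw [← hA, ← hB] at h1
    have t1 := no0g h hp hx hwM hv hJ ha
    have hom := hp.om_le
    have hk := hp.κ_le
    have hκ := hp.κ_pos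
    have t2 : D.j x D.q0 + D.j D.q0 w + p.e / 2 ≤ D.j x (a + v) + D.j (a + v) w := by linarith
    have t3 := mul_le_mul_of_nonneg_left t2 hs0
    nlinarith [t3, h1, hupp, hse, hb, hfl]

theorem v3' (h : D.Ok) (hp : p.Ok D) (m : ℝ) (L : LP) : ∃ s0 : ℝ, 1 ≤ s0 ∧ ∀ s, s0 ≤ s → ∀ ll,
    FL D m L ll → ∀ x ∈ D.R p, ∀ w ∈ D.Md p, ∀ r, 0 ≤ r → r ≤ 1 → ∀ t, r + 1 / 2 ≤ t →
    t ≤ 3 / 2 → ∀ c, p.η1 ≤ Metric.infDist c D.Z →
    D.P ll s r w x + 1 < D.kk ll s r t (w - D.g) c + D.kk ll s t 2 c x := by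
  have he := hp.e_pos
  obtain ⟨e2, he2, hrt⟩ := h.rt p.η1 hp.η1_pos
  have hε0 : 0 < min p.e e2 / 8 := by positivity
  obtain ⟨C1, sa, hC1, hsa, Hlin⟩ := kk_lin h m L p.ρ
  obtain ⟨sb, hsb, Hupp⟩ := upp h m L p.ρ hε0
  obtain ⟨sc, hsc, Hc⟩ := C9.core h hp m L (C1 + min p.e e2 / 8) hε0
  obtain ⟨sd, hsd, Hbig⟩ := C9.big hε0 1
  refine ⟨max (max sa sb) (max sc sd), hsa.trans ((le_max_left _ _).trans (le_max_left _ _)), ?_⟩
  intro s hs ll hl x hx w hw r hr0 hr1 t ht0 ht1 c hc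
  have hsa' : sa ≤ s := ((le_max_left _ _).trans (le_max_left _ _)).trans hs
  have hsb' : sb ≤ s := ((le_max_right _ _).trans (le_max_left _ _)).trans hs
  have hsc' : sc ≤ s := ((le_max_left _ _).trans (le_max_right _ _)).trans hs
  have hsd' : sd ≤ s := ((le_max_right _ _).trans (le_max_right _ _)).trans hs
  have hs0 : 0 ≤ s := by linarith
  have hb := Hbig s hsd'
  have hwM := C9.Md_sub hp hw
  have hlin := Hlin s hsa' ll hl r 2 (by linarith) (by linarith) (w - D.g) (C9.Md_X' hp hw) x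
    (C9.R_X hp hx)
  have hupp := Hupp s hsb' ll hl r 2 (by linarith) (by linarith) (w - D.g) (C9.Md_X' hp hw) x
    (C9.R_X hp hx) D.q1 C9.q1_P0
  have hfl := fl_add hl.a_cont s r t 2
  show D.kk ll s r 2 (w - D.g) x + 1 < _
  have hle1 : min p.e e2 ≤ p.e := min_le_left _ _
  have hle2 : min p.e e2 ≤ e2 := min_le_right _ _
  set ε := min p.e e2 / 8 with hε
  set A := D.kk ll s r t (w - D.g) c with hA
  set B := D.kk ll s t 2 c x with hB
  have hl1 := (le_abs_self _).trans hlin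
  have hse := mul_le_mul_of_nonneg_left (show 8 * ε ≤ p.e by linarith) hs0
  have hse2 := mul_le_mul_of_nonneg_left (show 8 * ε ≤ e2 by linarith) hs0
  rw [C9.j_sub_g h] at hupp
  rcases Hc s hsc' ll hl r t t 2 (by linarith) (by linarith) (by linarith) (by linarith) (w - D.g) c x hc
    (Or.inr hx) e2 (hrt c hc) with h1 | ⟨q, hq, q', hq', h1⟩ | ⟨a, ha, v, hv, hJ, h1⟩
  · rw [← hA, ← hB] at h1
    nlinarith [h1, hl1, hb]
  · rw [← hA, ← hB] at h1
    have t1 := j_tri h.toOk0 (w - D.g) q q'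
    have t2 := C9.ex1 h hp hwM hq'
    rw [← C9.j_sub_g h w q'] at t2
    have t3 := j_tri h.toOk0 D.q1 q' x
    have t4 : D.j w (D.q1 + D.g) + D.j D.q1 x + e2 ≤
        D.j (w - D.g) q + D.j q q' + D.j q' x + e2 := by linarith
    have t5 := mul_le_mul_of_nonneg_left t4 hs0
    nlinarith [t5, h1, hupp, hse2, hb, hfl]
  · rw [← hA, ← hB] at h1
    have t1 := no1g h hp hx hwM hv hJ ha
    rw [C9.j_sub_g h] at h1
    have hom := hp.om_le
    have hk := hp.κ_le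
    have hκ := hp.κ_pos
    have t2 : D.j w (D.q1 + D.g) + D.j D.q1 x + p.e / 2 ≤
        D.j w (a + v + D.g) + D.j (a + v) x := by linarith
    have t3 := mul_le_mul_of_nonneg_left t2 hs0
    nlinarith [t3, h1, hupp, hse, hb, hfl]

end MID

end EscK
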