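import Pool.Agent.EscK.KDefs
import Pool.Agent.EscK.A5a
import Pool.Agent.EscG.C2
import Pool.Agent.EscG.C4
import Pool.Agent.EscG.C5
import Pool.Agent.EscK.C6
import Pool.Agent.EscK.C6b
import Pool.Agent.EscK.C8
import Pool.Agent.EscK.C9
import Pool.Agent.EscK.C11a
import Pool.Agent.EscK.C11b
import Pool.Agent.EscK.C12
import Pool.Agent.helper1.Esc.ModD

/-!
Project EscK (MP_6acca1_an), module C13: a slice well inside of the gate.
-/

noncomputable section

set_option linter.unusedSectionVars false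

namespace EscK

open MeasureTheory Set Filter Topology Esc EscF EscG
open scoped ContDiff

variable {ι : Type} [Fintype ι] {d : ℕ} {E : Type*} [NormedAddCommGroup E] [InnerProductSpace ℝ E]
  [FiniteDimensional ℝ E] {D : GD ι d E} {p : GP} {m M : ℝ} {L : LP} {ll : E → E → ℝ → ℝ}

theorem C13_lf (ll : E → E → ℝ → ℝ) : lf ll (fun _ _ => 0) = ll := by
  funext x u t
  simp [lf]

theorem C13_pt (β : Module.Basis ι ℝ E) : Pt β (fun (_ : E) (_ : ℝ) => (0:ℝ)) :=
  ⟨contDiff_const, by simp, by simp⟩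

omit [FiniteDimensional ℝ E] in
theorem C13_good : Good 0 (fun (_ : E) (_ : ℝ) => (0:ℝ)) :=
  ⟨le_rfl, continuous_const, by simp, by simp, by simp⟩

omit [InnerProductSpace ℝ E] [FiniteDimensional ℝ E] in
theorem C13_cont {f : ℝ → E} {C t t' : ℝ}
    (h : ∀ s ∈ Icc t t', ∀ r ∈ Icc t t', ‖f r - f s‖ ≤ C * |r - s|) : ContinuousOn f (Icc t t') := by
  have : LipschitzOnWith (Real.toNNReal C) f (Icc t t') := by
    refine LipschitzOnWith.of_dist_le_mul fun x hx y hy => ?_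
    rw [dist_eq_norm, Real.dist_eq, Real.coe_toNNReal']
    exact (h y hy x hx).trans (mul_le_mul_of_nonneg_right (le_max_left _ _) (abs_nonneg _))
  exact this.continuousOn

theorem C13_geo (h : D.Ok) (hl : FL D m L ll) {ρ s t t' : ℝ} (hs : 0 ≤ s)
    (h1 : 1 / 4 ≤ t' - t) (h2 : t' - t ≤ 4) {z z' : E} (hz : z ∈ D.X ρ) (hz' : z' ∈ D.X ρ) :
    ∃ (n : Fin d → ℤ) (Z : ℝ → E), Z t = z ∧ Z t' = z' + lv D.b n ∧ ContinuousOn Z (Icc t t') ∧
      ∀ a b c, t ≤ a → a < b → b < c → c ≤ t' →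
        D.kk ll s a b (Z a) (Z b) + D.kk ll s b c (Z b) (Z c) = D.kk ll s a c (Z a) (Z c) := by
  obtain ⟨V, hV, H⟩ := kk_geo h hl le_rfl s ρ
  obtain ⟨n, Z, v, hZt, hZt', hG, hc⟩ := H (fun _ _ => 0) (C13_pt _) C13_good s hs le_rfl t t' h1 h2
    z hz z' hz'
  rw [C13_lf] at hG hc
  have hvc : ContinuousOn v (Icc t t') := by
    obtain ⟨C, hC⟩ := hG.lip
    exact C13_cont hC
  have hZc : ContinuousOn Z (Icc t t') := by
    refine C13_cont (C := V) fun a ha b hb => ?_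
    rw [hG.pos a ha b hb]
    refine intervalIntegral.norm_integral_le_of_norm_le_const fun r hr => hG.bd r ?_
    have h3 := uIoc_subset_uIcc hr
    exact uIcc_subset_Icc ha hb h3
  refine ⟨n, Z, hZt, hZt', hZc, fun a b c ha hab hbc hc' => ?_⟩
  rw [hc a b ha hab (by linarith), hc b c (by linarith) hbc hc', hc a c ha (by linarith) hc']
  unfold GD.cv
  have hint : ∀ p q, t ≤ p → p ≤ q → q ≤ t' →
      IntervalIntegrable (fun r => ll (Z r) (v r) r) volume p q := by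
    intro p q hp hpq hq
    refine ContinuousOn.intervalIntegrable_of_Icc hpq ?_
    refine hl.smooth.continuous.comp_continuousOn (s := Icc p q) (f := fun r => (Z r, v r, r)) ?_
    exact (hZc.mono (Icc_subset_Icc hp hq)).prodMk ((hvc.mono (Icc_subset_Icc hp hq)).prodMk
      continuousOn_id)
  rw [← intervalIntegral.integral_add_adjacent_intervals (hint a b ha hab.le (by linarith))
    (hint b c (by linarith) hbc.le hc')]
  ring

theorem C13_kd (h : D.Ok) (hp : p.Ok D) (hl : FL D m L ll) {s : ℝ} (hs : 0 ≤ s) :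
    ∃ C, KD (D.k1 ll s) (D.C p) (D.R p) C C := by
  obtain ⟨C, -, H⟩ := kd h hp hl le_rfl s
  have := H (fun _ _ => 0) (C13_pt _) C13_good s hs le_rfl
  rw [C13_lf] at this
  exact ⟨C, this⟩

theorem C13_kc0 {mF M s : ℝ} (hmF : 0 < mF) (hM : 0 ≤ M) (hs : 0 ≤ s) : 0 ≤ kc mF M s := by
  unfold kc
  positivity

theorem C13_kc {mF M s : ℝ} (_hmF : 0 < mF) (hM : 0 ≤ M) (hs : 1 ≤ s) :
    kc mF M s ≤ kc mF M 1 * s := by
  unfold kc
  have h1 : 0 ≤ (M / mF) ^ 2 := by positivity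
  nlinarith

/-- change of class -/
theorem C13_class (h : D.Ok) (hM : 0 ≤ L.M) {C0 : ℝ} (hC0 : 0 ≤ C0) : ∃ CI : ℝ, 0 ≤ CI ∧
    ∀ s s', 1 ≤ s → 0 ≤ s' → |s' - s| ≤ 1 → ∀ ll, FL D m L ll → ∀ t t', t < t' →
      t' - t ≤ 4 → ∀ z z', D.kk ll s t t' z z' ≤ C0 * s →
      D.kk ll s' t t' z z' ≤ D.kk ll s t t' z z' + CI * s * |s' - s| := by
  have hmF := h.fins.mF_pos
  have hMF : 0 < D.MF := hmF.trans_le h.fins.mF_le
  set K1 : ℝ := kc D.mF L.M 1 with hK1
  have hK10 : 0 ≤ K1 := C13_kc0 hmF hM zero_le_one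
  set A : ℝ := D.MF * ((4 + Real.sqrt (16 * (C0 + 4 * K1))) / D.mF) with hA
  have hA0 : 0 ≤ A := by positivity
  refine ⟨A + 6, by linarith, fun s s' hs hs' hss ll hl t t' htt ht4 z z' hk => ?_⟩
  have hs0 : 0 ≤ s := by linarith
  have hT : 0 < t' - t := by linarith
  obtain ⟨n, hn⟩ := K_attained h.li hl.toTE h.cal hs0 htt z z'
  have hn' : D.kk ll s t t' z z' = kerl ll t t' z (z' + lv D.b n) - s * (D.B (z' + lv D.b n) - D.B z) +
      s ^ 2 / 2 * (t' - t) := hn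
  have h1 := K_le hl.toTE h.cal hs' htt z z' n
  have h1' : D.kk ll s' t t' z z' ≤ kerl ll t t' z (z' + lv D.b n) - s' * (D.B (z' + lv D.b n) - D.B z) +
      s' ^ 2 / 2 * (t' - t) := h1
  have h2 := disp_le hl.toTE h.cal hs0 htt z (z' + lv D.b n) (hn'.symm.le.trans hk)
  have h3 : Real.sqrt (4 * (C0 * s + kc D.mF L.M s * (t' - t)) * (t' - t)) ≤
      Real.sqrt (16 * (C0 + 4 * K1)) * s := by
    have h4 : C0 * s + kc D.mF L.M s * (t' - t) ≤ (C0 + 4 * K1) * s := by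
      have e2 : kc D.mF L.M s * (t' - t) ≤ K1 * s * (t' - t) :=
        mul_le_mul_of_nonneg_right (C13_kc hmF hM hs) hT.le
      have e3 : K1 * s * (t' - t) ≤ K1 * s * 4 := mul_le_mul_of_nonneg_left ht4 (by positivity)
      linarith
    have h5 : s ≤ s ^ 2 := by nlinarith
    have h6 : 4 * (C0 * s + kc D.mF L.M s * (t' - t)) * (t' - t) ≤ 16 * (C0 + 4 * K1) * s ^ 2 := by
      calc 4 * (C0 * s + kc D.mF L.M s * (t' - t)) * (t' - t) ≤ 4 * ((C0 + 4 * K1) * s) * 4 := by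
            gcongr
        _ = 16 * (C0 + 4 * K1) * s := by ring
        _ ≤ 16 * (C0 + 4 * K1) * s ^ 2 := by gcongr
    refine (Real.sqrt_le_sqrt h6).trans (le_of_eq ?_)
    rw [Real.sqrt_mul (by positivity), Real.sqrt_sq hs0]
  have h4 : ‖z' + lv D.b n - z‖ ≤ (4 + Real.sqrt (16 * (C0 + 4 * K1))) / D.mF * s := by
    rw [div_mul_eq_mul_div, le_div_iff₀ hmF]
    have : s * (t' - t) ≤ 4 * s := by nlinarith
    nlinarith
  have h5 : |D.B (z' + lv D.b n) - D.B z| ≤ A * s := by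
    refine (Cal.lip h.fins h.cal _ _).trans ?_
    rw [hA, mul_assoc]
    exact mul_le_mul_of_nonneg_left h4 hMF.le
  have h6 : D.kk ll s' t t' z z' ≤ D.kk ll s t t' z z' - (s' - s) * (D.B (z' + lv D.b n) - D.B z) +
      (s' - s) * ((s' + s) / 2 * (t' - t)) := by
    rw [hn']
    refine h1'.trans (le_of_eq ?_)
    ring
  have h7 : -((s' - s) * (D.B (z' + lv D.b n) - D.B z)) ≤ |s' - s| * (A * s) := by
    refine (neg_le_abs _).trans ?_
    rw [abs_mul]
    exact mul_le_mul_of_nonneg_left h5 (abs_nonneg _)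
  have h8 : (s' - s) * ((s' + s) / 2 * (t' - t)) ≤ |s' - s| * (6 * s) := by
    have h9 : (s' + s) / 2 * (t' - t) ≤ 6 * s := by
      have h10 : (s' + s) / 2 ≤ 3 / 2 * s := by
        have := (abs_le.1 hss).2
        linarith
      calc (s' + s) / 2 * (t' - t) ≤ 3 / 2 * s * 4 := by gcongr
        _ = 6 * s := by ring
    have h11 : 0 ≤ (s' + s) / 2 * (t' - t) := by positivity
    calc (s' - s) * ((s' + s) / 2 * (t' - t)) ≤ |s' - s| * ((s' + s) / 2 * (t' - t)) :=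
          mul_le_mul_of_nonneg_right (le_abs_self _) h11
      _ ≤ _ := mul_le_mul_of_nonneg_left h9 (abs_nonneg _)
  calc D.kk ll s' t t' z z' ≤ D.kk ll s t t' z z' + |s' - s| * (A * s) + |s' - s| * (6 * s) := by linarith
    _ = _ := by ring

theorem C13_RX (hp : p.Ok D) (_h : D.Ok) {x : E} (hx : x ∈ D.R p) : x ∈ D.X p.ρ := by
  have h1 : x ∈ D.Rm p.ηc := by
    have h2 : Metric.infDist x D.Z ≤ p.η1 := hx
    have h3 := hp.η1_le
    have h4 := hp.η1_pos
    show Metric.infDist x D.Z ≤ p.ηc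
    linarith
  have := hp.bnd x (Or.inl h1) 0 (by norm_num)
  simpa using this

/-- change of the critical value -/
theorem C13_al (h : D.Ok) (hp : p.Ok D) (hM : 0 ≤ L.M) (m : ℝ) : ∃ CA s0 : ℝ, 0 ≤ CA ∧ 1 ≤ s0 ∧
    ∀ s s', s0 ≤ s → s0 ≤ s' → |s' - s| ≤ 1 → ∀ ll, FL D m L ll →
      |D.al p ll s' - D.al p ll s| ≤ CA * s * |s' - s| := by
  obtain ⟨C0, s0, hC0, hs0, H0⟩ := kk_lin h m L p.ρ
  obtain ⟨CI, hCI, H1⟩ := C13_class (m := m) h hM hC0
  refine ⟨2 * CI, s0, by positivity, hs0, fun s s' hs hs' hss ll hl => ?_⟩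
  obtain ⟨C, hK⟩ := C13_kd h hp hl (s := s) (by linarith)
  obtain ⟨C', hK'⟩ := C13_kd h hp hl (s := s') (by linarith)
  refine al_sub_le hK' hK fun z hz z' hz' => ?_
  have hzX := C13_RX hp h hz
  have hzX' := C13_RX hp h hz'
  have h1 := H1 s s' (by linarith) (by linarith) hss ll hl 0 1 one_pos (by norm_num) z z'
    ((le_abs_self _).trans (H0 s hs ll hl 0 1 (by norm_num) (by norm_num) z hzX z' hzX'))
  have h2 := H1 s' s (by linarith) (by linarith) (by rwa [abs_sub_comm]) ll hl 0 1 one_pos (by norm_num) z z'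
    ((le_abs_self _).trans (H0 s' hs' ll hl 0 1 (by norm_num) (by norm_num) z hzX z' hzX'))
  rw [abs_sub_comm s s'] at h2
  have h3 : s' ≤ 2 * s := by
    have := (abs_le.1 hss).2
    linarith
  have h4 : CI * s' * |s' - s| ≤ 2 * CI * s * |s' - s| := by
    refine mul_le_mul_of_nonneg_right ?_ (abs_nonneg _)
    nlinarith
  have h5 : CI * s * |s' - s| ≤ 2 * CI * s * |s' - s| := by
    refine mul_le_mul_of_nonneg_right ?_ (abs_nonneg _)
    nlinarith
  unfold GD.k1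
  rw [abs_le]
  constructor <;> linarith

/-- lower bound of the critical value -/
theorem C13_al_ge (h : D.Ok) (hp : p.Ok D) (m : ℝ) (L : LP) {ε : ℝ} (hε : 0 < ε) : ∃ s0 : ℝ, 1 ≤ s0 ∧
    ∀ s, s0 ≤ s → ∀ ll, FL D m L ll → -(ε * s) ≤ D.al p ll s + L.fl s 0 1 := by
  obtain ⟨s0, hs0, H⟩ := upp h m L p.ρ hε
  refine ⟨s0, hs0, fun s hs ll hl => ?_⟩
  obtain ⟨C, hK⟩ := C13_kd h hp hl (s := s) (by linarith)
  have hq := q0_R h hp
  have hqX := C13_RX hp h hq
  have h1 := H s hs ll hl 0 1 (by norm_num) (by norm_num) D.q0 hqX D.q0 hqX D.q0 (by simp [GD.P0])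
  rw [j_self h.toOk0, add_zero, mul_zero, add_zero] at h1
  have h0 : -(ε * s) - L.fl s 0 1 ≤ D.al p ll s := by
    refine le_al hK (C' := 0) fun n => ⟨n + 1, by omega, by omega, D.q0, hq, D.q0, hq, ?_⟩
    have h2 := kp_le_cost hK (T := n + 1) (by omega) (x := fun _ => D.q0) (fun _ _ => hq)
    have h3 : cost (D.k1 ll s) (fun _ => D.q0) (n + 1) = ((n + 1 : ℕ) : ℝ) * D.k1 ll s D.q0 D.q0 := by
      unfold cost
      rw [Finset.sum_const, Finset.card_range, nsmul_eq_mul]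
    rw [h3] at h2
    have h4 : D.k1 ll s D.q0 D.q0 ≤ L.fl s 0 1 + ε * s := h1
    have h5 : (0:ℝ) ≤ ((n + 1 : ℕ) : ℝ) := Nat.cast_nonneg _
    have h6 := mul_le_mul_of_nonneg_left h4 h5
    linarith
  linarith

/-! ### geometry -/

theorem C13_inf_le (h : D.Ok) (n : Fin d → ℤ) (x : E) :
    Metric.infDist (x + lv D.b n) D.Z ≤ Metric.infDist x D.Z := by
  have hne : D.Z.Nonempty := ⟨_, h.q0_mem⟩
  rw [Metric.le_infDist hne]
  intro z hz
  refine (Metric.infDist_le_dist_of_mem (h.Z_J n z hz)).trans (le_of_eq ?_)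
  rw [dist_add_right]

theorem C13_lv_neg (b : Fin d → E) (n : Fin d → ℤ) : lv b (-n) = -lv b n := by
  unfold lv
  rw [← Finset.sum_neg_distrib]
  refine Finset.sum_congr rfl fun i _ => ?_
  simp

theorem C13_inf (h : D.Ok) (n : Fin d → ℤ) (x : E) :
    Metric.infDist (x + lv D.b n) D.Z = Metric.infDist x D.Z := by
  refine le_antisymm (C13_inf_le h n x) ?_
  have := C13_inf_le h (-n) (x + lv D.b n)
  rwa [C13_lv_neg, add_neg_cancel_right] at this

theorem C13_far (h : D.Ok) (hp : p.Ok D) {x v : E} (hv : v ∈ D.Lam) (hvJ : ¬ D.InJ v) {a : ℝ}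
    (ha : Metric.infDist x D.Z < a) : 8 * p.ηc - a ≤ Metric.infDist (x + v) D.Z := by
  have hne : D.Z.Nonempty := ⟨_, h.q0_mem⟩
  obtain ⟨z, hz, hxz⟩ := (Metric.infDist_lt_iff hne).1 ha
  have h1 := hp.sep v hv hvJ z hz
  have h2 := Metric.infDist_le_infDist_add_dist (s := D.Z) (x := z + v) (y := x + v)
  rw [dist_add_right, dist_comm] at h2
  linarith

theorem C13_out (h : D.Ok) (hp : p.Ok D) {w : E} (h1 : 2 * p.ηc ≤ Metric.infDist w D.Z)
    (h2 : Metric.infDist w D.Z ≤ 4 * p.ηc) : w ∈ D.Out (2 * p.ηc) := by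
  intro v hv
  have hc := hp.ηc_pos
  by_cases hJ : D.InJ v
  · obtain ⟨n, rfl⟩ := hJ
    rwa [C13_inf h]
  · have := C13_far h hp hv hJ (a := 5 * p.ηc) (by linarith)
    linarith

theorem C13_end (h : D.Ok) (hp : p.Ok D) {x : E} (hx : x ∈ D.R p) :
    4 * p.ηc < Metric.infDist (x + D.g) D.Z := by
  have hc := hp.ηc_pos
  have h1 : Metric.infDist x D.Z ≤ p.η1 := hx
  have h2 := hp.η1_le
  have h3 := hp.η1_pos
  have := C13_far h hp h.g_mem h.g_not (x := x) (a := p.ηc) (by linarith)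
  linarith

/-- crossing of a shell -/
theorem C13_cross {φ : ℝ → ℝ} {a b u v : ℝ} (hab : a ≤ b) (huv : u < v)
    (hφ : ContinuousOn φ (Icc a b)) (ha : φ a < u) (hb : v < φ b) :
    ∃ t2 t4, a < t2 ∧ t2 < t4 ∧ t4 < b ∧ φ t2 = u ∧ φ t4 = v ∧ ∀ t ∈ Icc t2 t4, u ≤ φ t ∧ φ t ≤ v := by
  -- first time above
  have hc4 : IsCompact (Icc a b ∩ φ ⁻¹' Ici v) :=
    isCompact_Icc.of_isClosed_subset (hφ.preimage_isClosed_of_isClosed isClosed_Icc isClosed_Ici)
      inter_subset_left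
  obtain ⟨t4, ht4, hl4⟩ := hc4.exists_isLeast ⟨b, right_mem_Icc.2 hab, hb.le⟩
  have ht4' : v ≤ φ t4 := ht4.2
  have h4 : φ t4 = v := by
    have h1 : v ∈ φ '' Icc a t4 := intermediate_value_Icc ht4.1.1
      (hφ.mono (Icc_subset_Icc_right ht4.1.2)) ⟨by linarith, ht4'⟩
    obtain ⟨c, hc, hcv⟩ := h1
    have h2 : t4 ≤ c := hl4 ⟨⟨hc.1, hc.2.trans ht4.1.2⟩, hcv.ge⟩
    rw [← hcv, le_antisymm h2 hc.2]
  have hc2 : IsCompact (Icc a t4 ∩ φ ⁻¹' Iic u) :=
    isCompact_Icc.of_isClosed_subset ((hφ.mono (Icc_subset_Icc_right ht4.1.2)).preimage_isClosed_of_isClosed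
      isClosed_Icc isClosed_Iic) inter_subset_left
  obtain ⟨t2, ht2, hg2⟩ := hc2.exists_isGreatest ⟨a, left_mem_Icc.2 ht4.1.1, ha.le⟩
  have ht2' : φ t2 ≤ u := ht2.2
  have h2 : φ t2 = u := by
    have h1 : u ∈ φ '' Icc t2 t4 := intermediate_value_Icc ht2.1.2
      (hφ.mono (Icc_subset_Icc ht2.1.1 ht4.1.2)) ⟨ht2', by linarith⟩
    obtain ⟨c, hc, hcv⟩ := h1
    have h2 : c ≤ t2 := hg2 ⟨⟨ht2.1.1.trans hc.1, hc.2⟩, hcv.le⟩
    rw [← hcv, le_antisymm h2 hc.1]
  refine ⟨t2, t4, lt_of_le_of_ne ht2.1.1 fun he => ?_, lt_of_le_of_ne ht2.1.2 fun he => ?_,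
    lt_of_le_of_ne ht4.1.2 fun he => ?_, h2, h4, fun t ht => ⟨?_, ?_⟩⟩
  · rw [← he] at h2; linarith
  · rw [he] at h2; linarith
  · rw [he] at h4; linarith
  · by_contra hcon
    push Not at hcon
    have h5 : t ≤ t2 := hg2 ⟨⟨ht2.1.1.trans ht.1, ht.2⟩, hcon.le⟩
    have h6 : t = t2 := le_antisymm h5 ht.1
    rw [h6, h2] at hcon
    exact lt_irrefl _ hcon
  · by_contra hcon
    push Not at hcon
    have h5 : t4 ≤ t := hl4 ⟨⟨ht2.1.1.trans ht.1, ht.2.trans ht4.1.2⟩, hcon.le⟩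
    have h6 : t = t4 := le_antisymm ht.2 h5
    rw [h6, h4] at hcon
    exact lt_irrefl _ hcon

theorem C13_slice {t2 t4 : ℝ} {N : ℕ} (hN : 0 < N) (h0 : 0 ≤ t2) (h : 1 ≤ (N:ℝ) * (t4 - t2)) :
    ∃ j : ℕ, t2 ≤ (j:ℝ) / N ∧ (j:ℝ) / N ≤ t4 := by
  have hN' : (0:ℝ) < N := by exact_mod_cast hN
  refine ⟨⌈t2 * N⌉₊, ?_, ?_⟩
  · rw [le_div_iff₀ hN']
    exact Nat.le_ceil _
  · rw [div_le_iff₀ hN']
    have := (Nat.ceil_lt_add_one (mul_nonneg h0 hN'.le)).le
    nlinarith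

/-- crossing the shell takes time -/
theorem C13_dur (h : D.Ok) (hM : 0 ≤ L.M) {C δ : ℝ} (hC : 0 ≤ C) (hδ : 0 < δ) : ∃ kN : ℝ, 0 < kN ∧
    ∀ s, 1 ≤ s → ∀ ll, FL D m L ll → ∀ t t', t < t' → ∀ z z' : E,
    Metric.infDist z D.Z + δ ≤ Metric.infDist z' D.Z → D.kk ll s t t' z z' ≤ C * s →
    1 ≤ kN * s * (t' - t) := by
  have hmF := h.fins.mF_pos
  set b : ℝ := D.mF * δ with hb
  have hb0 : 0 < b := by positivity
  set K1 : ℝ := kc D.mF L.M 1 with hK1
  have hK10 : 0 ≤ K1 := C13_kc0 hmF hM zero_le_one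
  refine ⟨1 + 2 / b + 16 * (C + K1 + 1) / b ^ 2, by positivity, fun s hs ll hl t t' htt z z' hz hk => ?_⟩
  set kN : ℝ := 1 + 2 / b + 16 * (C + K1 + 1) / b ^ 2 with hkN
  by_contra hcon
  push Not at hcon
  have hT : 0 < t' - t := by linarith
  have hA : 0 < 2 / b := by positivity
  have hB : 0 < 16 * (C + K1 + 1) / b ^ 2 := by positivity
  have h1 : s * (t' - t) < b / 2 := by
    have h2 : 2 / b * (s * (t' - t)) < 1 := by
      have : 2 / b * (s * (t' - t)) ≤ kN * s * (t' - t) := by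
        rw [mul_assoc]
        exact mul_le_mul_of_nonneg_right (by rw [hkN]; linarith) (by positivity)
      linarith
    rw [div_mul_eq_mul_div, div_lt_one hb0] at h2
    linarith
  have hT1 : t' - t ≤ 1 := by
    have : 1 * (t' - t) ≤ kN * s * (t' - t) := by
      refine mul_le_mul_of_nonneg_right ?_ hT.le
      nlinarith
    linarith
  have h2 : 16 * (C + K1 + 1) * s * (t' - t) < b ^ 2 := by
    have h3 : 16 * (C + K1 + 1) / b ^ 2 * (s * (t' - t)) < 1 := by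
      have : 16 * (C + K1 + 1) / b ^ 2 * (s * (t' - t)) ≤ kN * s * (t' - t) := by
        rw [mul_assoc kN]
        exact mul_le_mul_of_nonneg_right (by rw [hkN]; linarith) (by positivity)
      linarith
    rw [div_mul_eq_mul_div, div_lt_one (by positivity)] at h3
    linarith
  have h3 := kk_ge_fast h hl.toTE (s := s) (by linarith) htt (δ := δ) z z' (fun n => by
    have h4 := Metric.infDist_le_infDist_add_dist (s := D.Z) (x := z' + lv D.b n) (y := z)
    rw [C13_inf h, dist_eq_norm] at h4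
    linarith) (by linarith)
  rw [← hb] at h3
  have h4 : (b / 2) ^ 2 / (4 * (t' - t)) ≤ (b - s * (t' - t)) ^ 2 / (4 * (t' - t)) := by
    refine div_le_div_of_nonneg_right ?_ (by positivity)
    refine pow_le_pow_left₀ (by positivity) (by linarith) 2
  have h5 : (C + K1 + 1) * s < (b / 2) ^ 2 / (4 * (t' - t)) := by
    rw [lt_div_iff₀ (by positivity)]
    nlinarith
  have h6 : kc D.mF L.M s * (t' - t) ≤ K1 * s := by
    have h7 := C13_kc (M := L.M) hmF hM hs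
    have h8 : kc D.mF L.M s * (t' - t) ≤ kc D.mF L.M s * 1 :=
      mul_le_mul_of_nonneg_left hT1 (C13_kc0 hmF hM (by linarith))
    linarith
  nlinarith

/-! ### shifts -/

theorem C13_lv0 (b : Fin d → E) : lv b (0 : Fin d → ℤ) = 0 := by simp [lv]

theorem C13_Jr (h : D.Ok) (hl : FL D m L ll) (s t t' : ℝ) (x x' : E) (n : Fin d → ℤ) :
    D.kk ll s t t' x (x' + lv D.b n) = D.kk ll s t t' x x' := by
  have := kk_J h hl.toTE s t t' x x' 0 n
  rwa [C13_lv0, add_zero] at this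

theorem C13_t1 (h : D.Ok) (hl : FL D m L ll) (s a b : ℝ) (x x' : E) :
    D.kk ll s (1 + a) (1 + b) x x' = D.kk ll s a b x x' := by
  have := kk_time h hl.toTE 1 s a b x x'
  rw [Int.cast_one, add_comm a, add_comm b] at this
  exact this

theorem C13_g (h : D.Ok) (hl : FL D m L ll) (s a b : ℝ) (w x : E) :
    D.kk ll s a b w (x + D.g) = D.kk ll s a b (w - D.g) x := by
  have := kk_Lam h hl.toTE h.g_mem s a b (w - D.g) x
  rwa [sub_add_cancel] at this

theorem C13_piece (h : D.Ok) (hl : FL D m L ll) {s t t' : ℝ} (hs : 0 ≤ s)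
    (h2 : t' - t ≤ 4) {Z : ℝ → E}
    (H : ∀ a b c, t ≤ a → a < b → b < c → c ≤ t' →
        D.kk ll s a b (Z a) (Z b) + D.kk ll s b c (Z b) (Z c) = D.kk ll s a c (Z a) (Z c))
    {a b : ℝ} (ha : t ≤ a) (hab : a < b) (hb : b ≤ t') :
    D.kk ll s a b (Z a) (Z b) ≤ D.kk ll s t t' (Z t) (Z t') + 8 * kc D.mF L.M s := by
  have hM : 0 ≤ kc D.mF L.M s := C13_kc0 h.fins.mF_pos hl.M_nonneg hs
  have h3 : D.kk ll s a b (Z a) (Z b) ≤ D.kk ll s a t' (Z a) (Z t') + 4 * kc D.mF L.M s := by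
    rcases hb.eq_or_lt with rfl | hb'
    · linarith
    · have h4 := H a b t' ha hab hb' le_rfl
      have h5 := kk_ge0 h hl.toTE hs hb' (Z b) (Z t')
      have h6 := mul_nonneg hs (j_nonneg h.toOk0 (Z b) (Z t'))
      have h7 : kc D.mF L.M s * (t' - b) ≤ kc D.mF L.M s * 4 :=
        mul_le_mul_of_nonneg_left (by linarith) hM
      linarith
  have h3' : D.kk ll s a t' (Z a) (Z t') ≤ D.kk ll s t t' (Z t) (Z t') + 4 * kc D.mF L.M s := by
    rcases ha.eq_or_lt with rfl | ha'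
    · linarith
    · have h4 := H t a t' le_rfl ha' (by linarith) le_rfl
      have h5 := kk_ge0 h hl.toTE hs ha' (Z t) (Z a)
      have h6 := mul_nonneg hs (j_nonneg h.toOk0 (Z t) (Z a))
      have h7 : kc D.mF L.M s * (a - t) ≤ kc D.mF L.M s * 4 :=
        mul_le_mul_of_nonneg_left (by linarith) hM
      linarith
  linarith

/-! ### transfer of the gate -/

theorem C13_WA (h : D.Ok) (hp : p.Ok D) (hl : FL D m L ll) {s s' r t : ℝ}
    (hs : 0 ≤ s) (hs' : 0 ≤ s') (hr : 0 ≤ r) (hr1 : r < 1) {w x x' w' : E} (hx : x ∈ D.C p)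
    (hx' : x' ∈ D.C p) (hw' : w' ∈ D.Mg (p.ηc / 2) (2 * p.κ)) (ht0 : 0 < t) (ht : t ≤ 1 + r)
    {c c' δ A : ℝ}
    (ha : D.alpha p ll s r w = D.bar p ll s D.q0 x + D.Q ll s r x w + D.al p ll s * (1 + r))
    (hb : D.beta p ll s' r w = D.P ll s' r w x' + D.bar p ll s' x' D.q0 + D.al p ll s' * (2 - r))
    (hc1 : D.kk ll s 0 t x w' + c = D.Q ll s r x w)
    (hc2 : ∀ y T, 1 + r < T → D.kk ll s' t T w' y ≤ c' + D.kk ll s' (1 + r) T w y)
    (hc3 : c' ≤ c + A) (hal : |D.al p ll s' - D.al p ll s| ≤ δ)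
    (hy : t < 1 → ∃ y ∈ D.R p, D.kk ll s' r 1 (w - D.g) y + D.k1 ll s' y x' = D.P ll s' r w x') :
    ∃ r', 0 ≤ r' ∧ r' < 1 ∧ (r' = t ∨ r' = t - 1) ∧
      D.W p ll s s' r' w' ≤ D.W p ll s s' r w + A + 2 * δ := by
  have hδ : 0 ≤ δ := (abs_nonneg _).trans hal
  have hal' : ∀ a : ℝ, 0 ≤ a → a ≤ 2 → (D.al p ll s' - D.al p ll s) * a ≤ 2 * δ := by
    intro a ha0 ha2
    have h1 : (D.al p ll s' - D.al p ll s) * a ≤ δ * a :=
      mul_le_mul_of_nonneg_right ((le_abs_self _).trans hal) ha0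
    have h2 : δ * a ≤ δ * 2 := mul_le_mul_of_nonneg_left ha2 hδ
    linarith
  have hxR := C_sub hx
  have hxR' := C_sub hx'
  obtain ⟨C, hK⟩ := C13_kd h hp hl hs
  obtain ⟨C', hK'⟩ := C13_kd h hp hl hs'
  rcases lt_or_ge t 1 with ht1 | ht1
  · refine ⟨t, ht0.le, ht1, Or.inl rfl, ?_⟩
    obtain ⟨y, hyR, hyP⟩ := hy ht1
    obtain ⟨x'', hx'', he⟩ := bar_right_eq hK (T := 1) le_rfl (q0_R h hp) hxR
    have he' : D.bar p ll s D.q0 x = D.bar p ll s D.q0 x'' + (D.k1 ll s x'' x + D.al p ll s * 1) := by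
      rw [Nat.cast_one] at he
      exact he
    have h1 := alpha_le h hp hl hs ht0.le ht1.le hw' (C_sub hx'')
    have h2 : D.Q ll s t x'' w' ≤ D.k1 ll s x'' x + D.kk ll s 0 t x w' := by
      have h3 := kk_add h hl.toTE hs (t := 0) (t' := 1) (t'' := 1 + t) one_pos (by linarith) x'' x w'
      have h4 := C13_t1 h hl s 0 t x w'
      rw [add_zero] at h4
      rw [h4] at h3
      exact h3
    have h3 := beta_le h hp hl hs' ht0.le ht1.le hw' hyR
    have h4 : D.P ll s' t w' y ≤ c' + D.kk ll s' r 1 (w - D.g) y := by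
      have h5 := hc2 (y + D.g) 2 (by linarith)
      have h6 := C13_g h hl s' t 2 w' y
      have h7 := C13_g h hl s' (1 + r) 2 w y
      have h8 := C13_t1 h hl s' r 1 (w - D.g) y
      rw [show (1:ℝ) + 1 = 2 by norm_num] at h8
      unfold GD.P
      linarith
    have h5 := bar_left_le hK' (T := 1) le_rfl hyR hxR' (q0_R h hp)
    have h5' : D.bar p ll s' y D.q0 ≤ D.k1 ll s' y x' + D.al p ll s' * 1 + D.bar p ll s' x' D.q0 := by
      rw [Nat.cast_one] at h5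
      exact h5
    have h6 := hal' (1 + r - t) (by linarith) (by linarith)
    unfold GD.W
    rw [ha, hb]
    linarith
  · refine ⟨t - 1, by linarith, by linarith, Or.inr rfl, ?_⟩
    have h1 := alpha_le h hp hl hs (r := t - 1) (by linarith) (by linarith) hw' hxR
    have h2 : D.Q ll s (t - 1) x w' = D.kk ll s 0 t x w' := by
      unfold GD.Q
      rw [show 1 + (t - 1) = t by ring]
    have h3 := beta_le h hp hl hs' (r := t - 1) (by linarith) (by linarith) hw' hxR'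
    have h4 : D.P ll s' (t - 1) w' x' ≤ c' + D.P ll s' r w x' := by
      have h5 := hc2 (x' + D.g) 3 (by linarith)
      have h6 := C13_g h hl s' t 3 w' x'
      have h7 := C13_g h hl s' (1 + r) 3 w x'
      have h8 := C13_t1 h hl s' r 2 (w - D.g) x'
      have h9 := C13_t1 h hl s' (t - 1) 2 (w' - D.g) x'
      rw [show (1:ℝ) + 2 = 3 by norm_num] at h8 h9
      rw [show 1 + (t - 1) = t by ring] at h9
      unfold GD.P
      linarith
    have h6 := hal' (1 + r - t) (by linarith) (by linarith)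
    unfold GD.W
    rw [ha, hb]
    rw [h2, show 1 + (t - 1) = t by ring] at h1
    linarith

theorem C13_WB (h : D.Ok) (hp : p.Ok D) (hl : FL D m L ll) {s s' r t : ℝ}
    (hs : 0 ≤ s) (hs' : 0 ≤ s') (hr : 0 ≤ r) (_hr1 : r < 1) {w x x' w' : E} (hx : x ∈ D.C p)
    (hx' : x' ∈ D.C p) (hw' : w' ∈ D.Mg (p.ηc / 2) (2 * p.κ)) (ht0 : r < t) (ht : t < 2)
    {c c' δ A : ℝ}
    (ha : D.alpha p ll s r w = D.bar p ll s D.q0 x + D.Q ll s r x w + D.al p ll s * (1 + r))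
    (hb : D.beta p ll s' r w = D.P ll s' r w x' + D.bar p ll s' x' D.q0 + D.al p ll s' * (2 - r))
    (hc1 : c' + D.kk ll s' t 2 (w' - D.g) x' = D.P ll s' r w x')
    (hc2 : ∀ y T, T < 1 + r → D.kk ll s T (1 + t) y w' ≤ D.kk ll s T (1 + r) y w + c)
    (hc3 : c ≤ c' + A) (hal : |D.al p ll s' - D.al p ll s| ≤ δ)
    (hy : 1 ≤ t → ∃ y ∈ D.R p, 0 < r ∧ D.k1 ll s x y + D.kk ll s 1 (1 + r) y w = D.Q ll s r x w) :
    ∃ r', 0 ≤ r' ∧ r' < 1 ∧ (r' = t ∨ r' = t - 1) ∧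
      D.W p ll s s' r' w' ≤ D.W p ll s s' r w + A + 2 * δ := by
  have hδ : 0 ≤ δ := (abs_nonneg _).trans hal
  have hal' : ∀ a : ℝ, 0 ≤ a → a ≤ 2 → (D.al p ll s - D.al p ll s') * a ≤ 2 * δ := by
    intro a ha0 ha2
    have h1 : (D.al p ll s - D.al p ll s') * a ≤ δ * a := by
      refine mul_le_mul_of_nonneg_right ?_ ha0
      have := (abs_le.1 hal).1
      linarith
    have h2 : δ * a ≤ δ * 2 := mul_le_mul_of_nonneg_left ha2 hδ
    linarith
  have hxR := C_sub hx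
  have hxR' := C_sub hx'
  obtain ⟨C, hK⟩ := C13_kd h hp hl hs
  obtain ⟨C', hK'⟩ := C13_kd h hp hl hs'
  rcases lt_or_ge t 1 with ht1 | ht1
  · refine ⟨t, by linarith, ht1, Or.inl rfl, ?_⟩
    have h1 := alpha_le h hp hl hs (r := t) (by linarith) ht1.le hw' hxR
    have h2 : D.Q ll s t x w' ≤ D.Q ll s r x w + c := hc2 x 0 (by linarith)
    have h3 := beta_le h hp hl hs' (r := t) (by linarith) ht1.le hw' hxR'
    have h4 : D.P ll s' t w' x' = D.kk ll s' t 2 (w' - D.g) x' := rfl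
    have h6 := hal' (t - r) (by linarith) (by linarith)
    unfold GD.W
    rw [ha, hb]
    linarith
  · refine ⟨t - 1, by linarith, by linarith, Or.inr rfl, ?_⟩
    obtain ⟨y, hyR, hr0, hyQ⟩ := hy ht1
    obtain ⟨x3, hx3, he⟩ := bar_left_eq hK' (T := 1) le_rfl hxR' (q0_R h hp)
    have he' : D.bar p ll s' x' D.q0 = D.k1 ll s' x' x3 + D.al p ll s' * 1 + D.bar p ll s' x3 D.q0 := by
      rw [Nat.cast_one] at he
      exact he
    have h1 := alpha_le h hp hl hs (r := t - 1) (by linarith) (by linarith) hw' hyR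
    have h2 : D.Q ll s (t - 1) y w' ≤ D.kk ll s 1 (1 + r) y w + c := by
      have h5 := hc2 y 1 (by linarith)
      have h6 := C13_t1 h hl s 0 t y w'
      rw [add_zero] at h6
      unfold GD.Q
      rw [show 1 + (t - 1) = t by ring]
      linarith
    have h3 := bar_right_le hK (T := 1) le_rfl (q0_R h hp) hxR hyR
    have h3' : D.bar p ll s D.q0 y ≤ D.bar p ll s D.q0 x + (D.k1 ll s x y + D.al p ll s * 1) := by
      rw [Nat.cast_one] at h3
      exact h3
    have h4 := beta_le h hp hl hs' (r := t - 1) (by linarith) (by linarith) hw' (C_sub hx3)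
    have h5 : D.P ll s' (t - 1) w' x3 ≤ D.kk ll s' t 2 (w' - D.g) x' + D.k1 ll s' x' x3 := by
      have h6 := kk_add h hl.toTE hs' (t := t) (t' := 2) (t'' := 3) ht (by norm_num) (w' - D.g) x' x3
      have h7 := C13_t1 h hl s' 1 2 x' x3
      have h8 := C13_t1 h hl s' 0 1 x' x3
      rw [show (1:ℝ) + 2 = 3 by norm_num, show (1:ℝ) + 1 = 2 by norm_num] at h7
      rw [show (1:ℝ) + 1 = 2 by norm_num, add_zero] at h8
      have h9 := C13_t1 h hl s' (t - 1) 2 (w' - D.g) x3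
      rw [show (1:ℝ) + 2 = 3 by norm_num, show 1 + (t - 1) = t by ring] at h9
      unfold GD.P GD.k1
      linarith
    have h6 := hal' (t - r) (by linarith) (by linarith)
    unfold GD.W
    rw [ha, hb]
    rw [show 1 + (t - 1) = t by ring] at h1
    linarith

/-! ### excess -/

theorem C13_jb (h : D.Ok) (ρ : ℝ) : ∃ J : ℝ, 0 ≤ J ∧ ∀ x ∈ D.X ρ, ∀ q ∈ D.P0,
    D.j x q ≤ J ∧ D.j q x ≤ J := by
  have hMF : 0 < D.MF := h.fins.mF_pos.trans_le h.fins.mF_le
  refine ⟨2 * D.MF * (|ρ| + ‖D.q0‖ + ‖D.q1‖), by positivity, fun x hx q hq => ?_⟩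
  obtain ⟨n, hn⟩ := hx
  have hn' : ‖x + lv D.b n‖ ≤ |ρ| := hn.trans (le_abs_self _)
  have hqn : ‖q‖ ≤ ‖D.q0‖ + ‖D.q1‖ := by
    have h0 := norm_nonneg D.q0
    have h1 := norm_nonneg D.q1
    rcases hq with rfl | rfl
    · linarith
    · linarith
  have e1 : D.j x q = D.j (x + lv D.b n) q := by
    have := j_J h.toOk0 x q n 0
    rw [C13_lv0, add_zero] at this
    exact this.symm
  have e2 : D.j q x = D.j q (x + lv D.b n) := by
    have := j_J h.toOk0 q x 0 n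
    rw [C13_lv0, add_zero] at this
    exact this.symm
  have l1 := j_lip h.toOk0 (x + lv D.b n) q
  have l2 := j_lip h.toOk0 q (x + lv D.b n)
  have l3 : ‖q - (x + lv D.b n)‖ ≤ |ρ| + ‖D.q0‖ + ‖D.q1‖ := by
    have := norm_sub_le q (x + lv D.b n)
    linarith
  have l4 : ‖x + lv D.b n - q‖ ≤ |ρ| + ‖D.q0‖ + ‖D.q1‖ := by
    have := norm_sub_le (x + lv D.b n) q
    linarith
  constructor
  · rw [e1]
    exact l1.trans (mul_le_mul_of_nonneg_left l3 (by positivity))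
  · rw [e2]
    exact l2.trans (mul_le_mul_of_nonneg_left l4 (by positivity))

/-- absorption of the factor `1 - ε` -/
theorem C13_absorb {ε X T K k : ℝ} (hε : 0 < ε) (hε1 : ε < 1) (hk : ε * (K + 2) = k)
    (hT : T ≤ K) (hX : (1 - ε) * X ≤ T - k + 2 * ε) : X ≤ T := by
  by_contra hcon
  push Not at hcon
  have h1 := mul_lt_mul_of_pos_left hcon (show 0 < 1 - ε by linarith)
  have h2 := mul_le_mul_of_nonneg_left hT hε.le
  nlinarith

theorem C13_fl_one {s : ℝ} (hl : FL D m L ll) (r : ℝ) : L.fl s 1 (1 + r) = L.fl s 0 r := by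
  have := fl_per hl.a_per s 0 r 1
  rw [Int.cast_one, zero_add, add_comm r] at this
  exact this

theorem C13_fl_self (s r : ℝ) : L.fl s r r = 0 := by
  unfold LP.fl
  exact intervalIntegral.integral_same

theorem C13_EA (h : D.Ok) (hp : p.Ok D) (m : ℝ) (L : LP) : ∃ ε' s0 : ℝ, 0 < ε' ∧ 1 ≤ s0 ∧
    ∀ s, s0 ≤ s → ∀ ll,
    FL D m L ll → ∀ r, 0 ≤ r → r ≤ 1 → ∀ w ∈ D.Mg (p.ηc / 2) (2 * p.κ), ∀ x ∈ D.R p,
    ∀ w', p.ηc / 2 ≤ Metric.infDist w' D.Z → ∀ t, 0 < t → t ≤ 2 → ∀ c,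
    D.alpha p ll s r w = D.bar p ll s D.q0 x + D.Q ll s r x w + D.al p ll s * (1 + r) →
    D.kk ll s 0 t x w' + c = D.Q ll s r x w →
    L.fl s t (1 + r) + (1 - ε') * (s * D.j w' w) - ε' * s ≤ c →
    D.j D.q0 w' + D.j w' w ≤ D.j D.q0 w + p.κ / 4 := by
  have hκ := hp.κ_pos
  have hε : 0 < p.κ / 64 := by positivity
  obtain ⟨J1, hJ1, HJ⟩ := C13_jb h p.ρ
  obtain ⟨ε', hε'd⟩ : ∃ ε', ε' = p.κ / 64 / (2 * J1 + 2 * p.κ + 2) := ⟨_, rfl⟩
  have hden : 0 < 2 * J1 + 2 * p.κ + 2 := by positivity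
  have hε' : 0 < ε' := by rw [hε'd]; positivity
  have hεm : ε' * (2 * J1 + 2 * p.κ + 2) = p.κ / 64 := by
    rw [hε'd]; exact div_mul_cancel₀ _ hden.ne'
  have hε1 : ε' < 1 := by
    rw [hε'd, div_lt_one hden]
    linarith
  obtain ⟨s1, hs1, H1⟩ := m1a h hp m L hε
  obtain ⟨s2, hs2, H2⟩ := upp h m L p.ρ hε
  obtain ⟨s3, hs3, H3⟩ := C13_al_ge h hp m L hε
  obtain ⟨s4, hs4, H4⟩ := kk_ge h m L hε'
  refine ⟨ε', s1 + s2 + s3 + s4, hε', by linarith, ?_⟩
  intro s hs ll hl r hr hr1 w hw x hx w' hw' t ht0 ht2 c ha hc1 hc2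
  have hs0 : 0 < s := by linarith
  obtain ⟨C, hK⟩ := C13_kd h hp hl hs0.le
  have hxX := C13_RX hp h hx
  have hwX : w ∈ D.X p.ρ := by
    have := hp.bnd w (Or.inr hw) 0 (by norm_num)
    simpa using this
  have a1 := (abs_le.1 (H1 s (by linarith) ll hl r hr hr1 w hw)).2
  have a2 := H2 s (by linarith) ll hl 0 1 (by norm_num) (by norm_num) x hxX D.q0
    (C13_RX hp h (q0_R h hp)) D.q0 (by simp [GD.P0])
  rw [j_self h.toOk0, add_zero] at a2
  have a3 := H3 s (by linarith) ll hl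
  have a5 := bar_right_le hK (T := 1) le_rfl (q0_R h hp) hx (q0_R h hp)
  have a5' : D.bar p ll s D.q0 D.q0 ≤ D.bar p ll s D.q0 x + (D.k1 ll s x D.q0 + D.al p ll s * 1) := by
    rw [Nat.cast_one] at a5
    exact a5
  have a6 := H4 s (by linarith) ll hl 0 t ht0 (by linarith) x w'
  have f1 := fl_add hl.a_cont s 0 t (1 + r)
  have f2 := fl_add hl.a_cont s 0 1 (1 + r)
  rw [C13_fl_one hl r] at f2
  have f3 : L.gam s r = L.fl s 0 r - r * L.fl s 0 1 := rfl
  have a8 : -(p.κ / 64 * s) ≤ (D.al p ll s + L.fl s 0 1) * r := by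
    have : -(p.κ / 64 * s) * r ≤ (D.al p ll s + L.fl s 0 1) * r := mul_le_mul_of_nonneg_right a3 hr
    have h2 : p.κ / 64 * s * r ≤ p.κ / 64 * s * 1 := mul_le_mul_of_nonneg_left hr1 (by positivity)
    linarith
  have a9 : D.k1 ll s x D.q0 ≤ L.fl s 0 1 + s * D.j x D.q0 + p.κ / 64 * s := a2
  set om : ℝ := 4 * D.MF * p.η1 with hom
  have homl := hp.om_le
  rw [← hom] at homl
  have key : s * ((1 - ε') * (D.j x w' + D.j w' w)) ≤
      s * (D.j x D.q0 + D.j D.q0 w + (2 * om + 4 * (p.κ / 64)) - p.κ / 64 + 2 * ε') := by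
    linarith
  have key2 := le_of_mul_le_mul_left key hs0
  have b1 := (HJ x hxX D.q0 (by simp [GD.P0])).1
  have b2 := (HJ w hwX D.q0 (by simp [GD.P0])).2
  have key3 := C13_absorb hε' hε1 hεm (by linarith) key2
  have hκe := hp.κ_le
  rcases exg0 h hp hx hw hw' with h1 | h1
  · rw [← hom] at h1
    linarith
  · rw [← hom] at h1
    exfalso
    linarith

theorem C13_EB (h : D.Ok) (hp : p.Ok D) (m : ℝ) (L : LP) : ∃ ε' s0 : ℝ, 0 < ε' ∧ 1 ≤ s0 ∧
    ∀ s, s0 ≤ s → ∀ ll,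
    FL D m L ll → ∀ r, 0 ≤ r → r ≤ 1 → ∀ w ∈ D.Mg (p.ηc / 2) (2 * p.κ), ∀ x ∈ D.R p,
    ∀ w', p.ηc / 2 ≤ Metric.infDist (w' - D.g) D.Z → ∀ t, 0 ≤ t → t < 2 → ∀ c,
    D.beta p ll s r w = D.P ll s r w x + D.bar p ll s x D.q0 + D.al p ll s * (2 - r) →
    c + D.kk ll s t 2 (w' - D.g) x = D.P ll s r w x →
    L.fl s r t + (1 - ε') * (s * D.j w w') - ε' * s ≤ c →
    D.j w w' + D.j w' (D.q1 + D.g) ≤ D.j w (D.q1 + D.g) + p.κ / 4 := by
  have hκ := hp.κ_pos
  have hε : 0 < p.κ / 64 := by positivity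
  obtain ⟨J1, hJ1, HJ⟩ := C13_jb h p.ρ
  obtain ⟨ε', hε'd⟩ : ∃ ε', ε' = p.κ / 64 / (2 * J1 + 2 * p.κ + 2) := ⟨_, rfl⟩
  have hden : 0 < 2 * J1 + 2 * p.κ + 2 := by positivity
  have hε' : 0 < ε' := by rw [hε'd]; positivity
  have hεm : ε' * (2 * J1 + 2 * p.κ + 2) = p.κ / 64 := by
    rw [hε'd]; exact div_mul_cancel₀ _ hden.ne'
  have hε1 : ε' < 1 := by
    rw [hε'd, div_lt_one hden]
    linarith
  obtain ⟨s1, hs1, H1⟩ := m1b h hp m L hε
  obtain ⟨s2, hs2, H2⟩ := upp h m L p.ρ hε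
  obtain ⟨s3, hs3, H3⟩ := C13_al_ge h hp m L hε
  obtain ⟨s4, hs4, H4⟩ := kk_ge h m L hε'
  refine ⟨ε', s1 + s2 + s3 + s4, hε', by linarith, ?_⟩
  intro s hs ll hl r hr hr1 w hw x hx w' hw' t ht0 ht2 c hb hc1 hc2
  have hs0 : 0 < s := by linarith
  obtain ⟨C, hK⟩ := C13_kd h hp hl hs0.le
  have hxX := C13_RX hp h hx
  have hwX : w - D.g ∈ D.X p.ρ := by
    have := hp.bnd w (Or.inr hw) (-1) (by norm_num)
    simpa [sub_eq_add_neg] using this
  have a1 := (abs_le.1 (H1 s (by linarith) ll hl r hr hr1 w hw)).2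
  have a2 := H2 s (by linarith) ll hl 0 1 (by norm_num) (by norm_num) D.q1 (C13_RX hp h (q1_R h hp)) x
    hxX D.q1 (by simp [GD.P0])
  rw [j_self h.toOk0, zero_add] at a2
  have a3 := H3 s (by linarith) ll hl
  have a5 := bar_left_le hK (T := 1) le_rfl (q1_R h hp) hx (q0_R h hp)
  have a5' : D.bar p ll s D.q1 D.q0 ≤ D.k1 ll s D.q1 x + D.al p ll s * 1 + D.bar p ll s x D.q0 := by
    rw [Nat.cast_one] at a5
    exact a5
  have a6 := H4 s (by linarith) ll hl t 2 ht2 (by linarith) (w' - D.g) x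
  have a6' : D.j (w' - D.g) x = D.j w' (x + D.g) := by
    have := j_Lam h.toOk0 h.g_mem (w' - D.g) x
    rw [sub_add_cancel] at this
    exact this.symm
  rw [a6'] at a6
  have f1 := fl_add hl.a_cont s r t 2
  have f2 := fl_add hl.a_cont s 0 r 2
  have f4 := fl_add hl.a_cont s 0 1 2
  have f5 := C13_fl_one (s := s) hl 1
  rw [show (1:ℝ) + 1 = 2 by norm_num] at f5
  have f3 : L.gam s r = L.fl s 0 r - r * L.fl s 0 1 := rfl
  have a8 : -(p.κ / 64 * s) ≤ (D.al p ll s + L.fl s 0 1) * (1 - r) := by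
    have : -(p.κ / 64 * s) * (1 - r) ≤ (D.al p ll s + L.fl s 0 1) * (1 - r) :=
      mul_le_mul_of_nonneg_right a3 (by linarith)
    have h2 : p.κ / 64 * s * (1 - r) ≤ p.κ / 64 * s * 1 :=
      mul_le_mul_of_nonneg_left (by linarith) (by positivity)
    linarith
  have a9 : D.k1 ll s D.q1 x ≤ L.fl s 0 1 + s * D.j D.q1 x + p.κ / 64 * s := a2
  set om : ℝ := 4 * D.MF * p.η1 with hom
  have homl := hp.om_le
  rw [← hom] at homl
  have key : s * ((1 - ε') * (D.j w w' + D.j w' (x + D.g))) ≤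
      s * (D.j D.q1 x + D.j w (D.q1 + D.g) + (2 * om + 4 * (p.κ / 64)) - p.κ / 64 + 2 * ε') := by
    linarith
  have key2 := le_of_mul_le_mul_left key hs0
  have b1 := (HJ x hxX D.q1 (by simp [GD.P0])).2
  have b2 := (HJ (w - D.g) hwX D.q1 (by simp [GD.P0])).1
  have b3 : D.j (w - D.g) D.q1 = D.j w (D.q1 + D.g) := by
    have := j_Lam h.toOk0 h.g_mem (w - D.g) D.q1
    rw [sub_add_cancel] at this
    exact this.symm
  rw [b3] at b2
  have key3 := C13_absorb hε' hε1 hεm (by linarith) key2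
  have hκe := hp.κ_le
  rcases exg1 h hp hx hw hw' with h1 | h1
  · rw [← hom] at h1
    linarith
  · rw [← hom] at h1
    exfalso
    linarith

theorem C13_frac {N j : ℕ} (hN : 0 < N) {r' : ℝ} (h0 : 0 ≤ r') (h1 : r' < 1)
    (hr : r' = (j:ℝ) / N ∨ r' = (j:ℝ) / N - 1) : ∃ k' < N, (k':ℝ) / N = r' := by
  have hN' : (0:ℝ) < N := by exact_mod_cast hN
  rcases hr with hr | hr
  · refine ⟨j, ?_, hr.symm⟩
    rw [hr, div_lt_one hN'] at h1
    exact_mod_cast h1
  · have h2 : (1:ℝ) ≤ (j:ℝ) / N := by linarith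
    rw [le_div_iff₀ hN', one_mul] at h2
    have h3 : N ≤ j := by exact_mod_cast h2
    refine ⟨j - N, ?_, ?_⟩
    · have h4 : (j:ℝ) / N < 2 := by linarith
      rw [div_lt_iff₀ hN'] at h4
      have h5 : j < 2 * N := by exact_mod_cast h4
      omega
    · rw [Nat.cast_sub h3, hr, sub_div, div_self hN'.ne']

theorem C13_Mi (hp : p.Ok D) {w : E} (hw : w ∈ D.Mi p) : w ∈ D.Mg (p.ηc / 2) (2 * p.κ) := by
  have h1 := hp.ηc_pos
  have h2 := hp.κ_pos
  refine ⟨fun v hv => ?_, ?_⟩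
  · have := hw.1 v hv
    linarith
  · have := hw.2
    linarith

theorem C13_Md (hp : p.Ok D) {w : E} (hw : w ∈ D.Md p) : w ∈ D.Mg (p.ηc / 2) (2 * p.κ) := by
  have h1 := hp.ηc_pos
  have h2 := hp.κ_pos
  refine ⟨fun v hv => ?_, ?_⟩
  · have := hw.1 v hv
    linarith
  · have := hw.2
    linarith


theorem C13_Out_mono {a b : ℝ} (hab : a ≤ b) {w : E} (hw : w ∈ D.Out b) : w ∈ D.Out a :=
  fun v hv => hab.trans (hw v hv)

theorem C13_Out_shift (h : D.Ok) {a : ℝ} {w : E} (hw : w + D.g ∈ D.Out a) : w ∈ D.Out a := by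
  intro v hv
  have h1 := hw (v - D.g) (D.Lam.sub_mem hv h.g_mem)
  rwa [show w + D.g + (v - D.g) = w + v by abel] at h1

theorem C13_Out_inf {a : ℝ} {w : E} (hw : w ∈ D.Out a) : a ≤ Metric.infDist w D.Z := by
  have := hw 0 D.Lam.zero_mem
  rwa [add_zero] at this

theorem inner_slice (h : D.Ok) (hp : p.Ok D) (m : ℝ) (L : LP) : ∃ kN CI s0 : ℝ, 0 < kN ∧ 0 ≤ CI ∧ 1 ≤ s0 ∧
    ∀ s s', s0 ≤ s → s0 ≤ s' → |s' - s| ≤ 1 → ∀ ll, FL D m L ll → ∀ N : ℕ,
    kN * s ≤ N → ∀ k < N, ∀ w ∈ D.Md p,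
    (∀ k' < N, ∀ w' ∈ D.Md p, D.W p ll s s' ((k : ℝ) / N) w ≤ D.W p ll s s' ((k' : ℝ) / N) w') →
    ∃ k' < N, ∃ w' ∈ D.Mi p, D.W p ll s s' ((k' : ℝ) / N) w' ≤
      D.W p ll s s' ((k : ℝ) / N) w + CI * s * |s' - s| := by
  rcases lt_or_ge L.M 0 with hM | hM
  · refine ⟨1, 0, 1, one_pos, le_rfl, le_rfl, fun s s' _ _ _ ll hl => ?_⟩
    exact absurd hl.M_nonneg (not_le.2 hM)
  have hc := hp.ηc_pos
  obtain ⟨C, s1, hC, hs1, H1⟩ := kk_lin h m L p.ρ
  obtain ⟨K1, hK1⟩ : ∃ K1, K1 = kc D.mF L.M 1 := ⟨_, rfl⟩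
  have hK10 : 0 ≤ K1 := by
    rw [hK1]
    exact C13_kc0 h.fins.mF_pos hM zero_le_one
  have hkc : ∀ s, 1 ≤ s → kc D.mF L.M s ≤ K1 * s := fun s hs => by
    rw [hK1]
    exact C13_kc h.fins.mF_pos hM hs
  obtain ⟨kN, hkN, HkN⟩ := C13_dur (m := m) h hM (C := C + 8 * K1) (δ := 2 * p.ηc) (by positivity)
    (by positivity)
  obtain ⟨CI, hCI, HCI⟩ := C13_class (m := m) h hM (C0 := C + 8 * K1) (by positivity)
  obtain ⟨CA, s2, hCA, hs2, HCA⟩ := C13_al h hp hM m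
  obtain ⟨εA, s3, hεA, hs3, H3⟩ := C13_EA h hp m L
  obtain ⟨εB, s4, hεB, hs4, H4⟩ := C13_EB h hp m L
  obtain ⟨s9, hs9, H9⟩ := kk_ge h m L hεA
  obtain ⟨s10, hs10, H10⟩ := kk_ge h m L hεB
  obtain ⟨s5, hs5, H5⟩ := v1 h hp m L
  obtain ⟨s6, hs6, H6⟩ := v3 h hp m L
  obtain ⟨s7, hs7, H7⟩ := v3' h hp m L
  obtain ⟨s8, hs8, H8⟩ := m2 h hp m L
  refine ⟨2 * kN, 2 * CI + 2 * CA, s1 + s2 + s3 + s4 + s5 + s6 + s7 + s8 + s9 + s10, by positivity,
    by positivity, by linarith, fun s s' hs hs' hss ll hl N hN k hk w hw hmin => ?_⟩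
  have hN0 : 0 < N := by omega
  have hNr : (0:ℝ) < N := by exact_mod_cast hN0
  set r : ℝ := (k:ℝ) / N with hrdef
  have hr : 0 ≤ r := by positivity
  have hr1 : r < 1 := by
    rw [hrdef, div_lt_one hNr]
    exact_mod_cast hk
  have hs0 : 1 ≤ s := by linarith
  have hs0' : 1 ≤ s' := by linarith
  have hss2 : s' ≤ 2 * s := by
    have := (abs_le.1 hss).2
    linarith
  have hab := abs_nonneg (s' - s)
  have hwg := C13_Md hp hw
  obtain ⟨x, hx, ha⟩ := alpha_att h hp hl (s := s) (by linarith) hr hr1.le hwg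
  obtain ⟨x', hx', hb⟩ := beta_att h hp hl (s := s') (by linarith) hr hr1.le hwg
  have hxR := C_sub hx
  have hxR' := C_sub hx'
  have hxX := C13_RX hp h hxR
  have hxX' := C13_RX hp h hxR'
  have hwX : w ∈ D.X p.ρ := by
    have := hp.bnd w (Or.inr hwg) 0 (by norm_num)
    simpa using this
  have hwX' : w - D.g ∈ D.X p.ρ := by
    have := hp.bnd w (Or.inr hwg) (-1) (by norm_num)
    simpa [sub_eq_add_neg] using this
  obtain ⟨n1, Z1, hZ10, hZ11, hZ1c, HZ1⟩ := C13_geo h hl (s := s) (t := 0) (t' := 1 + r) (by linarith)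
    (by linarith) (by linarith) hxX hwX
  obtain ⟨n2, Z2, hZ20, hZ21, hZ2c, HZ2⟩ := C13_geo h hl (s := s') (t := r) (t' := 2) (by linarith)
    (by linarith) (by linarith) hwX' hxX'
  -- pieces
  have hP1 : ∀ a b, 0 ≤ a → a < b → b ≤ 1 + r → D.kk ll s a b (Z1 a) (Z1 b) ≤ (C + 8 * K1) * s := by
    intro a b ha' hab' hb'
    have h1 := C13_piece h hl (by linarith) (by linarith) HZ1 ha' hab' hb'
    rw [hZ10, hZ11, C13_Jr h hl] at h1
    have h2 := (le_abs_self _).trans (H1 s (by linarith) ll hl 0 (1 + r) (by linarith) (by linarith)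
      x hxX w hwX)
    have h3 := hkc s hs0
    linarith
  have hP2 : ∀ a b, r ≤ a → a < b → b ≤ 2 → D.kk ll s' a b (Z2 a) (Z2 b) ≤ (C + 8 * K1) * s' := by
    intro a b ha' hab' hb'
    have h1 := C13_piece h hl (by linarith) (by linarith) HZ2 ha' hab' hb'
    rw [hZ20, hZ21, C13_Jr h hl] at h1
    have h2 := (le_abs_self _).trans (H1 s' (by linarith) ll hl r 2 (by linarith) (by linarith)
      (w - D.g) hwX' x' hxX')
    have h3 := hkc s' hs0'
    linarith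
  have hQ : ∀ t, 0 < t → t < 1 + r →
      D.kk ll s 0 t x (Z1 t) + D.kk ll s t (1 + r) (Z1 t) w = D.Q ll s r x w := by
    intro t ht0 ht1
    have h1 := HZ1 0 t (1 + r) le_rfl ht0 ht1 le_rfl
    rw [hZ10, hZ11, C13_Jr h hl, C13_Jr h hl] at h1
    exact h1
  have hPP : ∀ t, r < t → t < 2 →
      D.kk ll s' r t (w - D.g) (Z2 t) + D.kk ll s' t 2 (Z2 t) x' = D.P ll s' r w x' := by
    intro t ht0 ht1
    have h1 := HZ2 r t 2 le_rfl ht0 ht1 le_rfl
    rw [hZ20, hZ21, C13_Jr h hl, C13_Jr h hl] at h1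
    exact h1
  -- the positions at time one
  have hy1 : 1 / 2 ≤ r → Z1 1 ∈ D.R p := by
    intro hr2
    by_contra hcon
    have h1 : ¬ Metric.infDist (Z1 1) D.Z ≤ p.η1 := hcon
    push Not at h1
    have h2 := H6 s (by linarith) ll hl x hxR w hw r hr hr1.le 1 (by norm_num) (by linarith) (Z1 1) h1.le
    have h3 := hQ 1 one_pos (by linarith)
    linarith
  have hy2 : r ≤ 1 / 2 → Z2 1 ∈ D.R p := by
    intro hr2
    by_contra hcon
    have h1 : ¬ Metric.infDist (Z2 1) D.Z ≤ p.η1 := hcon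
    push Not at h1
    have h2 := H7 s' (by linarith) ll hl x' hxR' w hw r hr hr1.le 1 (by linarith) (by norm_num) (Z2 1) h1.le
    have h3 := hPP 1 hr1 (by norm_num)
    linarith
  have hm := H8 s s' (by linarith) (by linarith) hss ll hl r hr hr1.le w hw fun w' hw' => by
    have := hmin k hk w' hw'
    linarith
  have hal := HCA s s' (by linarith) (by linarith) hss ll hl
  have hk12 : ∀ y y' : E, D.kk ll s' 1 2 y y' = D.k1 ll s' y y' := by
    intro y y'
    have := C13_t1 h hl s' 0 1 y y'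
    rw [add_zero, show (1:ℝ) + 1 = 2 by norm_num] at this
    exact this
  -- slice in the first leg
  have finA : ∀ j : ℕ, 0 < (j:ℝ) / N → (j:ℝ) / N ≤ 1 + r → ∀ w' ∈ D.Out (2 * p.ηc), ∀ c c' : ℝ,
      D.kk ll s 0 ((j:ℝ) / N) x w' + c = D.Q ll s r x w →
      (∀ y T, 1 + r < T → D.kk ll s' ((j:ℝ) / N) T w' y ≤ c' + D.kk ll s' (1 + r) T w y) →
      c' ≤ c + 2 * CI * s * |s' - s| →
      L.fl s ((j:ℝ) / N) (1 + r) + (1 - εA) * (s * D.j w' w) - εA * s ≤ c → ((j:ℝ) / N < 1 → w' = Z1 ((j:ℝ) / N)) →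
      ∃ k' < N, ∃ w' ∈ D.Mi p, D.W p ll s s' ((k' : ℝ) / N) w' ≤
        D.W p ll s s' r w + (2 * CI + 2 * CA) * s * |s' - s| := by
    intro j hj0 hj w' hwO c c' hc1 hc2 hc3 hc4 hc5
    have hE := H3 s (by linarith) ll hl r hr hr1.le w hwg x hxR w'
      (C13_Out_inf (C13_Out_mono (by linarith) hwO)) _ hj0 (by linarith) c ha hc1 hc4
    have hMi : w' ∈ D.Mi p := by
      refine ⟨hwO, ?_⟩
      have := j_tri h.toOk0 w' w (D.q1 + D.g)
      linarith
    obtain ⟨r', h0, h1, h2, h3⟩ := C13_WA h hp hl (by linarith) (by linarith) hr hr1 hx hx'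
      (C13_Mi hp hMi) hj0 hj ha hb hc1 hc2 hc3 hal (fun ht1 => by
        rcases le_total r (1 / 2) with hr2 | hr2
        · refine ⟨Z2 1, hy2 hr2, ?_⟩
          have h3 := hPP 1 hr1 (by norm_num)
          rwa [hk12] at h3
        · exfalso
          have h2 := H5 s (by linarith) ll hl x hxR (Z1 1) (hy1 hr2) w' (C13_Out_mono (by linarith) hwO)
            _ hj0 ht1
          have h3 := HZ1 0 ((j:ℝ) / N) 1 le_rfl hj0 ht1 (by linarith)
          rw [hZ10, ← hc5 ht1] at h3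
          have h4 : D.k1 ll s x (Z1 1) = D.kk ll s 0 1 x (Z1 1) := rfl
          linarith)
    obtain ⟨k', hk', he⟩ := C13_frac hN0 h0 h1 h2
    refine ⟨k', hk', w', hMi, ?_⟩
    rw [he]
    linarith
  -- slice in the second leg
  have finB : ∀ j : ℕ, r < (j:ℝ) / N → (j:ℝ) / N < 2 → Z2 ((j:ℝ) / N) + D.g ∈ D.Out (2 * p.ηc) →
      ∃ k' < N, ∃ w' ∈ D.Mi p, D.W p ll s s' ((k' : ℝ) / N) w' ≤
        D.W p ll s s' r w + (2 * CI + 2 * CA) * s * |s' - s| := by
    intro j hj0 hj hwO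
    set t : ℝ := (j:ℝ) / N with htdef
    set w' : E := Z2 t + D.g with hw'def
    have hww : w' - D.g = Z2 t := by rw [hw'def, add_sub_cancel_right]
    have hzO : Z2 t ∈ D.Out (2 * p.ηc) := C13_Out_shift h hwO
    have hc1 : D.kk ll s' r t (w - D.g) (Z2 t) + D.kk ll s' t 2 (w' - D.g) x' = D.P ll s' r w x' := by
      rw [hww]
      exact hPP t hj0 hj
    have hc4 : L.fl s' r t + (1 - εB) * (s' * D.j w w') - εB * s' ≤
        D.kk ll s' r t (w - D.g) (Z2 t) := by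
      have h1 := H10 s' (by linarith) ll hl r t hj0 (by linarith) (w - D.g) (Z2 t)
      have h2 := j_Lam h.toOk0 h.g_mem (w - D.g) (Z2 t)
      rw [sub_add_cancel] at h2
      rw [← h2] at h1
      exact h1
    have hE := H4 s' (by linarith) ll hl r hr hr1.le w hwg x' hxR' w'
      (by rw [hww]; exact C13_Out_inf (C13_Out_mono (by linarith) hzO)) t (by linarith) hj _ hb hc1 hc4
    have hMi : w' ∈ D.Mi p := by
      refine ⟨hwO, ?_⟩
      have := j_tri h.toOk0 D.q0 w w'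
      linarith
    have hc2 : ∀ y T, T < 1 + r → D.kk ll s T (1 + t) y w' ≤
        D.kk ll s T (1 + r) y w + D.kk ll s r t (w - D.g) (Z2 t) := by
      intro y T hT
      have h1 := kk_add h hl.toTE (s := s) (by linarith) hT (t'' := 1 + t) (by linarith) y w w'
      have h2 := C13_t1 h hl s r t w w'
      have h3 := C13_g h hl s r t w (Z2 t)
      rw [← hw'def] at h3
      linarith
    have hc3 : D.kk ll s r t (w - D.g) (Z2 t) ≤
        D.kk ll s' r t (w - D.g) (Z2 t) + 2 * CI * s * |s' - s| := by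
      have h1 := hP2 r t le_rfl hj0 hj.le
      rw [hZ20] at h1
      have h2 := HCI s' s hs0' (by linarith) (by rwa [abs_sub_comm]) ll hl r t hj0 (by linarith)
        (w - D.g) (Z2 t) h1
      rw [abs_sub_comm s s'] at h2
      have h3 : CI * s' * |s' - s| ≤ 2 * CI * s * |s' - s| := by
        refine mul_le_mul_of_nonneg_right ?_ hab
        nlinarith
      linarith
    obtain ⟨r', h0, h1, h2, h3⟩ := C13_WB h hp hl (by linarith) (by linarith) hr hr1 hx hx'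
      (C13_Mi hp hMi) hj0 hj ha hb hc1 hc2 hc3 hal (fun ht1 => by
        rcases le_total (1 / 2) r with hr2 | hr2
        · exact ⟨Z1 1, hy1 hr2, by linarith, hQ 1 one_pos (by linarith)⟩
        · exfalso
          have h5 := hy2 hr2
          rcases ht1.eq_or_lt with ht1 | ht1
          · have h6 : Metric.infDist (Z2 1) D.Z ≤ p.η1 := h5
            rw [← ht1] at hzO
            have h7 := C13_Out_inf hzO
            have h8 := hp.η1_le
            have h9 := hp.η1_pos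
            linarith
          · have h6 := H5 s' (by linarith) ll hl (Z2 1) h5 x' hxR' (Z2 t)
              (C13_Out_mono (by linarith) hzO) (t - 1) (by linarith) (by linarith)
            have h7 := HZ2 1 t 2 hr1.le ht1 hj le_rfl
            rw [hZ21, C13_Jr h hl, C13_Jr h hl, hk12] at h7
            have h8 := C13_t1 h hl s' 0 (t - 1) (Z2 1) (Z2 t)
            have h9 := C13_t1 h hl s' (t - 1) 1 (Z2 t) x'
            rw [add_zero, show 1 + (t - 1) = t by ring] at h8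
            rw [show 1 + (t - 1) = t by ring, show (1:ℝ) + 1 = 2 by norm_num] at h9
            linarith)
    obtain ⟨k', hk', he⟩ := C13_frac hN0 h0 h1 h2
    refine ⟨k', hk', w', hMi, ?_⟩
    rw [he]
    linarith
  rcases lt_or_ge (4 * p.ηc) (Metric.infDist w D.Z) with hw4 | hw4
  · -- crossing in the first leg
    obtain ⟨t2, t4, h02, h24, h41, he2, he4, hin⟩ := C13_cross (φ := fun t => Metric.infDist (Z1 t) D.Z)
      (a := 0) (b := 1 + r) (u := 2 * p.ηc) (v := 4 * p.ηc) (by linarith) (by linarith)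
      ((Metric.continuous_infDist_pt _).comp_continuousOn hZ1c) (by
        show Metric.infDist (Z1 0) D.Z < _
        rw [hZ10]
        have h1 : Metric.infDist x D.Z ≤ p.η1 := hxR
        have h2 := hp.η1_le
        have h3 := hp.η1_pos
        linarith) (by
        show _ < Metric.infDist (Z1 (1 + r)) D.Z
        rw [hZ11, C13_inf h]
        exact hw4)
    have hd := HkN s hs0 ll hl t2 t4 h24 (Z1 t2) (Z1 t4) (by linarith) (hP1 t2 t4 h02.le h24 h41.le)
    have hd' : 1 ≤ (N:ℝ) * (t4 - t2) := by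
      have : kN * s * (t4 - t2) ≤ N * (t4 - t2) := by
        refine mul_le_mul_of_nonneg_right ?_ (by linarith)
        nlinarith
      linarith
    obtain ⟨j, hj2, hj4⟩ := C13_slice hN0 h02.le hd'
    have hin' := hin _ ⟨hj2, hj4⟩
    set t : ℝ := (j:ℝ) / N with htdef
    have ht0 : 0 < t := by linarith
    have ht1 : t < 1 + r := by linarith
    refine finA j ht0 ht1.le (Z1 t) (C13_out h hp hin'.1 hin'.2) (D.kk ll s t (1 + r) (Z1 t) w)
      (D.kk ll s' t (1 + r) (Z1 t) w) (hQ t ht0 ht1)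
      (fun y T hT => kk_add h hl.toTE (by linarith) ht1 hT (Z1 t) w y) ?_ ?_ (fun _ => rfl)
    · have h1 := hP1 t (1 + r) ht0.le ht1 le_rfl
      rw [hZ11, C13_Jr h hl] at h1
      have h2 := HCI s s' hs0 (by linarith) hss ll hl t (1 + r) ht1 (by linarith) (Z1 t) w h1
      have h3 : 0 ≤ CI * s * |s' - s| := by positivity
      linarith
    · exact H9 s (by linarith) ll hl t (1 + r) ht1 (by linarith) (Z1 t) w
  · rcases lt_or_ge (Metric.infDist w D.Z) (2 * p.ηc) with hw2 | hw2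
    · -- crossing in the second leg
      obtain ⟨t2, t4, h02, h24, h41, he2, he4, hin⟩ := C13_cross
        (φ := fun t => Metric.infDist (Z2 t + D.g) D.Z)
        (a := r) (b := 2) (u := 2 * p.ηc) (v := 4 * p.ηc) (by linarith) (by linarith)
        ((Metric.continuous_infDist_pt _).comp_continuousOn (hZ2c.add continuousOn_const)) (by
          show Metric.infDist (Z2 r + D.g) D.Z < _
          rw [hZ20, sub_add_cancel]
          exact hw2) (by
          show _ < Metric.infDist (Z2 2 + D.g) D.Z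
          rw [hZ21, add_right_comm, C13_inf h]
          exact C13_end h hp hxR')
      have hd := HkN s' hs0' ll hl t2 t4 h24 (Z2 t2 + D.g) (Z2 t4 + D.g) (by linarith) (by
        rw [kk_Lam h hl.toTE h.g_mem]
        exact hP2 t2 t4 h02.le h24 h41.le)
      have hd' : 1 ≤ (N:ℝ) * (t4 - t2) := by
        have : kN * s' * (t4 - t2) ≤ N * (t4 - t2) := by
          refine mul_le_mul_of_nonneg_right ?_ (by linarith)
          nlinarith
        linarith
      obtain ⟨j, hj2, hj4⟩ := C13_slice hN0 (by linarith) hd'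
      have hin' := hin _ ⟨hj2, hj4⟩
      exact finB j (by linarith) (by linarith) (C13_out h hp hin'.1 hin'.2)
    · -- the gate itself
      have hj : ((k + N : ℕ) : ℝ) / N = 1 + r := by
        rw [Nat.cast_add, add_div, div_self hNr.ne', add_comm]
      refine finA (k + N) (by rw [hj]; linarith) hj.le w (C13_out h hp hw2 hw4) 0 0 ?_ ?_ ?_ ?_ ?_
      · rw [hj, add_zero]
        rfl
      · intro y T _
        rw [hj, zero_add]
      · have : 0 ≤ 2 * CI * s * |s' - s| := by positivity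
        linarith
      · rw [j_self h.toOk0, hj, C13_fl_self]
        have : 0 ≤ εA * s := by positivity
        linarith
      · intro h1
        rw [hj] at h1
        linarith

end EscK
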