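import Pool.Agent.EscK.KDefs
import Pool.Agent.EscG.C4

/-!
EscK, module C4b: parameters with `ηc` and `κ` as small as we like (the proof of `EscG.exists_par` with two
more minima).
-/

noncomputable section

namespace EscK

open MeasureTheory Set Filter Topology Esc EscF EscG
open scoped ContDiff

section MID

variable {ι : Type} [Fintype ι] {d : ℕ} {E : Type*} [NormedAddCommGroup E] [InnerProductSpace ℝ E]
  [FiniteDimensional ℝ E] {D : GD ι d E} {p : GP} {m M Mf : ℝ} {L : LP} {ll l : E → E → ℝ → ℝ}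
  {f f' : E → ℝ → ℝ}

/-- small parameters -/
theorem exists_par_small (h : D.Ok) {δ : ℝ} (hδ : 0 < δ) :
    ∃ p : GP, p.Ok D ∧ p.ηc ≤ δ ∧ p.κ ≤ δ := by
  obtain ⟨s, hs, hsep⟩ := exists_sep h.toOk0
  have hM := C4_MF_pos h
  obtain ⟨c, hc0, hcs, hcδ⟩ : ∃ c : ℝ, 0 < c ∧ 8 * c ≤ s ∧ c ≤ δ :=
    ⟨min (s / 8) δ, lt_min (by positivity) hδ, by
      have := min_le_left (s / 8) δ
      linarith, min_le_right _ _⟩
  obtain ⟨e1, he1, hrt⟩ := h.rt (c / 4) (by positivity)
  obtain ⟨e2, he2, hg⟩ := h.gate (c / 2) (by positivity)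
  obtain ⟨e, he, hee1, hee2, heδ⟩ : ∃ e : ℝ, 0 < e ∧ e ≤ e1 ∧ e ≤ e2 ∧ e ≤ 16 * δ :=
    ⟨min (min e1 e2) (16 * δ), lt_min (lt_min he1 he2) (by positivity),
      (min_le_left _ _).trans (min_le_left _ _), (min_le_left _ _).trans (min_le_right _ _),
      min_le_right _ _⟩
  have hκ : 0 < e / 16 := by positivity
  obtain ⟨ρ1, hρ1⟩ := h.Z_cpt
  obtain ⟨ρ2, hρ2⟩ := coer h.toOk0 (D.U + 2 * (e / 16))
  refine ⟨⟨c, e / 16, min (e / 16 / (1600 * D.MF)) (c / 16), e,
    max (ρ1 + c) ρ2 + 2 * ‖D.g‖⟩, ?_, hcδ, ?_⟩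
  · refine
      { ηc_pos := hc0
        κ_pos := hκ
        η1_pos := lt_min (by positivity) (by positivity)
        e_pos := he
        κ_le := ?_
        om_le := ?_
        η1_le := ?_
        sep := fun v hv hvJ x hx => ?_
        rt := fun w hw p1 h1 p2 h2 => ?_
        gate := fun w hw => ?_
        bnd := fun x hx k hk => ?_ }
    · show 16 * (e / 16) ≤ e
      linarith
    · show 400 * (4 * D.MF * min (e / 16 / (1600 * D.MF)) (c / 16)) ≤ e / 16
      have h1 := min_le_left (e / 16 / (1600 * D.MF)) (c / 16)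
      rw [le_div_iff₀ (by positivity)] at h1
      linarith
    · show 16 * min (e / 16 / (1600 * D.MF)) (c / 16) ≤ c
      have h1 := min_le_right (e / 16 / (1600 * D.MF)) (c / 16)
      linarith
    · show 8 * c ≤ _
      have := hsep v hv hvJ x hx
      linarith
    · show _ + e ≤ _
      have h3 := hrt w hw p1 h1 p2 h2
      linarith
    · refine C4_Gt_mono hee2 (hg w (C4_Mg_mono ?_ hw))
      show 2 * (e / 16) ≤ e2
      linarith
    · have hk1 : ‖(k : ℝ) • D.g‖ ≤ 2 * ‖D.g‖ := by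
        rw [norm_smul]
        refine mul_le_mul_of_nonneg_right ?_ (norm_nonneg _)
        rw [Real.norm_eq_abs]
        exact_mod_cast hk
      have hX : ∃ n : Fin d → ℤ, ‖x + lv D.b n‖ ≤ max (ρ1 + c) ρ2 := by
        rcases hx with hx | hx
        · obtain ⟨z, hz, hd⟩ := h.Z_closed.exists_infDist_eq_dist (C4_Z_ne h) x
          obtain ⟨n, hn⟩ := hρ1 hz
          refine ⟨n, le_trans ?_ (le_max_left _ _)⟩
          have h1 : x + lv D.b n = (z + lv D.b n) + (x - z) := by abel
          rw [h1]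
          refine (norm_add_le _ _).trans (add_le_add hn ?_)
          rw [← dist_eq_norm, ← hd]
          exact hx
        · have h1 := hx.2
          have h2 := j_nonneg h.toOk0 x (D.q1 + D.g)
          obtain ⟨n, hn⟩ := hρ2 x (by
            have h3 : D.j D.q0 x + D.j x (D.q1 + D.g) ≤ D.U + 2 * (e / 16) := h1
            linarith)
          exact ⟨n, hn.trans (le_max_right _ _)⟩
      obtain ⟨n, hn⟩ := hX
      exact C4_X_add hn hk1
  · show e / 16 ≤ δ
    linarith

end MID

end EscK
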