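import Pool.Agent.EscK.KDefs
import Pool.Agent.EscG.C2
import Pool.Agent.EscG.C5
import Pool.Agent.EscK.C6b
import Pool.Agent.EscK.C8

/-!
Project EscK (MP_6acca1_an), module C9n: optimal legs of a passage stay near the room and the set of
passages (helper32).
-/

noncomputable section

namespace EscK

open MeasureTheory Set Filter Topology Esc EscF EscG
open scoped ContDiff

section MID

variable {ι : Type} [Fintype ι] {d : ℕ} {E : Type*} [NormedAddCommGroup E] [InnerProductSpace ℝ E]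
  [FiniteDimensional ℝ E] {D : GD ι d E} {p : GP} {m M Mf : ℝ} {L : LP} {ll l : E → E → ℝ → ℝ}
  {f f' : E → ℝ → ℝ}

namespace C9n

omit [FiniteDimensional ℝ E] in
theorem Mg_mono {η η' κ κ' : ℝ} (h1 : η' ≤ η) (h2 : κ ≤ κ') {w : E} (hw : w ∈ D.Mg η κ) :
    w ∈ D.Mg η' κ' :=
  ⟨fun v hv => h1.trans (hw.1 v hv), by linarith [hw.2]⟩

omit [FiniteDimensional ℝ E] in
theorem Md_sub (hp : p.Ok D) {w : E} (hw : w ∈ D.Md p) : w ∈ D.Mg (p.ηc / 2) (2 * p.κ) :=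
  Mg_mono (by linarith [hp.ηc_pos]) (by linarith [hp.κ_pos]) hw

omit [FiniteDimensional ℝ E] in
theorem R_Rm (hp : p.Ok D) {x : E} (hx : x ∈ D.R p) : x ∈ D.Rm p.ηc := by
  have h1 : Metric.infDist x D.Z ≤ p.η1 := hx
  have h2 := hp.η1_le
  have h3 := hp.η1_pos
  show Metric.infDist x D.Z ≤ p.ηc
  linarith

omit [FiniteDimensional ℝ E] in
theorem R_X (hp : p.Ok D) {x : E} (hx : x ∈ D.R p) : x ∈ D.X p.ρ := by
  have := hp.bnd x (Or.inl (R_Rm hp hx)) 0 (by simp)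
  simpa using this

omit [FiniteDimensional ℝ E] in
theorem Md_X (hp : p.Ok D) {w : E} (hw : w ∈ D.Md p) : w ∈ D.X p.ρ := by
  have := hp.bnd w (Or.inr (Md_sub hp hw)) 0 (by simp)
  simpa using this

omit [FiniteDimensional ℝ E] in
theorem Md_X' (hp : p.Ok D) {w : E} (hw : w ∈ D.Md p) : w - D.g ∈ D.X p.ρ := by
  have := hp.bnd w (Or.inr (Md_sub hp hw)) (-1) (by simp)
  have e1 : w + (((-1 : ℤ) : ℤ) : ℝ) • D.g = w - D.g := by
    push_cast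
    rw [neg_smul, one_smul, sub_eq_add_neg]
  rwa [e1] at this

theorem big {δ : ℝ} (hδ : 0 < δ) (K : ℝ) : ∃ s0 : ℝ, 1 ≤ s0 ∧ ∀ s, s0 ≤ s → K < δ * s := by
  refine ⟨max 1 (K / δ + 1), le_max_left _ _, fun s hs => ?_⟩
  have h1 : K / δ + 1 ≤ s := (le_max_right _ _).trans hs
  have h2 : K / δ < s := by linarith
  rw [div_lt_iff₀ hδ] at h2
  linarith [mul_comm s δ]

omit [FiniteDimensional ℝ E] in
theorem lv0 (x : E) : x + lv D.b (0 : Fin d → ℤ) = x := by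
  simp [lv]

/-- passing costs are bounded on bounded sets -/
theorem j_bd (h : D.Ok) {ρ : ℝ} {x : E} (hx : x ∈ D.X ρ) (q : E) :
    D.j x q ≤ 2 * D.MF * (|ρ| + ‖q‖) ∧ D.j q x ≤ 2 * D.MF * (|ρ| + ‖q‖) := by
  have hMF : 0 < D.MF := lt_of_lt_of_le h.fins.mF_pos h.fins.mF_le
  obtain ⟨k, hk⟩ := hx
  constructor
  · rw [← j_J h.toOk0 x q k 0, lv0]
    refine (j_lip h.toOk0 _ _).trans (mul_le_mul_of_nonneg_left ?_ (by linarith))
    have := norm_sub_le q (x + lv D.b k)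
    linarith [le_abs_self ρ]
  · rw [← j_J h.toOk0 q x 0 k, lv0]
    refine (j_lip h.toOk0 _ _).trans (mul_le_mul_of_nonneg_left ?_ (by linarith))
    have := norm_sub_le (x + lv D.b k) q
    linarith [le_abs_self ρ]

/-- the shift of the first variable -/
theorem j_sub_g (h : D.Ok) (w x : E) : D.j (w - D.g) x = D.j w (x + D.g) := by
  have := j_Lam h.toOk0 h.g_mem (w - D.g) x
  rw [sub_add_cancel] at this
  exact this.symm

omit [FiniteDimensional ℝ E] in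
theorem not_Nr {c : E} (hc : c ∉ Nr D p) :
    c ∈ D.Out (p.ηc / 2) ∧ D.U + 2 * p.κ < D.j D.q0 c + D.j c (D.q1 + D.g) := by
  have h1 : c ∈ D.Out (p.ηc / 2) := by
    by_contra hh
    exact hc (Or.inl hh)
  refine ⟨h1, ?_⟩
  by_contra hh
  push Not at hh
  exact hc (Or.inr ⟨h1, hh⟩)

omit [FiniteDimensional ℝ E] in
theorem out_dist {η : ℝ} {w : E} (hw : w ∈ D.Out η) : η ≤ Metric.infDist w D.Z := by
  have := hw 0 D.Lam.zero_mem
  rwa [add_zero] at this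

omit [FiniteDimensional ℝ E] in
theorem out_dist_g (h : D.Ok) {η : ℝ} {w : E} (hw : w ∈ D.Out η) :
    η ≤ Metric.infDist (w - D.g) D.Z := by
  have := hw (-D.g) (D.Lam.neg_mem h.g_mem)
  rwa [← sub_eq_add_neg] at this

/-- a detour on the way from the room to the gate -/
theorem gainQ (h : D.Ok) (hp : p.Ok D) {x w c : E} (hx : x ∈ D.R p) (hw : w ∈ D.Md p)
    (hc : c ∉ Nr D p) :
    D.j x D.q0 + D.j D.q0 w + p.κ / 2 ≤ D.j x c + D.j c w := by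
  obtain ⟨h1, h2⟩ := not_Nr hc
  have hw2 : D.j D.q0 w + D.j w (D.q1 + D.g) ≤ D.U + p.κ := hw.2
  have hom := hp.om_le
  have hk := hp.κ_le
  have hκ := hp.κ_pos
  have hj := j_tri h.toOk0 c w (D.q1 + D.g)
  rcases exg0 h hp hx (Md_sub hp hw) (out_dist h1) with h3 | h3
  · linarith
  · linarith

/-- a detour on the way from the gate to the room -/
theorem gainP (h : D.Ok) (hp : p.Ok D) {x w c : E} (hx : x ∈ D.R p) (hw : w ∈ D.Md p)
    (hc : c + D.g ∉ Nr D p) :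
    D.j (w - D.g) D.q1 + D.j D.q1 x + p.κ / 2 ≤ D.j (w - D.g) c + D.j c x := by
  obtain ⟨h1, h2⟩ := not_Nr hc
  have hw2 : D.j D.q0 w + D.j w (D.q1 + D.g) ≤ D.U + p.κ := hw.2
  have hom := hp.om_le
  have hk := hp.κ_le
  have hκ := hp.κ_pos
  have hj := j_tri h.toOk0 D.q0 w (c + D.g)
  have e1 := j_sub_g h w D.q1
  have e2 := j_sub_g h w c
  have e3 : D.j (c + D.g) (x + D.g) = D.j c x := j_Lam h.toOk0 h.g_mem c x
  rcases exg1 h hp hx (Md_sub hp hw) (out_dist_g h h1) with h3 | h3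
  · rw [e3] at h3
    rw [e1, e2]
    linarith
  · rw [e3] at h3
    rw [e1, e2]
    linarith

/-- the common part: a detour of cost `κ / 2` is not optimal -/
theorem core (h : D.Ok) (m : ℝ) (L : LP) {κ : ℝ} (hκ : 0 < κ) (ρ : ℝ) : ∃ s0 : ℝ, 1 ≤ s0 ∧
    ∀ s, s0 ≤ s → ∀ ll, FL D m L ll → ∀ t t' t'', t < t' → t' < t'' → 1 / 4 ≤ t'' - t → t'' - t ≤ 4 →
    ∀ x ∈ D.X ρ, ∀ y ∈ D.X ρ, ∀ c : E, ∀ q ∈ D.P0,
    D.j x q + D.j q y + κ / 2 ≤ D.j x c + D.j c y →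
    D.kk ll s t t'' x y + 1 < D.kk ll s t t' x c + D.kk ll s t' t'' c y := by
  have hMF : 0 < D.MF := lt_of_lt_of_le h.fins.mF_pos h.fins.mF_le
  set C : ℝ := 4 * D.MF * (|ρ| + (‖D.q0‖ + ‖D.q1‖)) with hC
  have hC0 : 0 ≤ C := by positivity
  have hden : 0 < 4 * (C + κ + 4) := by positivity
  set ε : ℝ := κ / (4 * (C + κ + 4)) with hε
  have hε0 : 0 < ε := div_pos hκ hden
  have hε1 : ε * (C + κ + 4) = κ / 4 := by
    rw [hε]
    field_simp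
  have hε2 : ε ≤ 1 / 4 := by
    rw [hε, div_le_iff₀ hden]
    linarith
  obtain ⟨s1, hs1, H1⟩ := kk_ge h m L hε0
  obtain ⟨s2, hs2, H2⟩ := upp h m L ρ hε0
  obtain ⟨s3, hs3, H3⟩ := big (by positivity : 0 < κ / 4) 1
  refine ⟨max s1 (max s2 s3), hs1.trans (le_max_left _ _), ?_⟩
  intro s hs ll hl t t' t'' ht ht' h4 h4' x hx y hy c q hq hJ
  have hs1' : s1 ≤ s := (le_max_left _ _).trans hs
  have hs2' : s2 ≤ s := ((le_max_left _ _).trans (le_max_right _ _)).trans hs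
  have hs3' : s3 ≤ s := ((le_max_right _ _).trans (le_max_right _ _)).trans hs
  have hs0 : 0 ≤ s := by linarith
  have a1 := H1 s hs1' ll hl t t' ht (by linarith) x c
  have a2 := H1 s hs1' ll hl t' t'' ht' (by linarith) c y
  have a3 := H2 s hs2' ll hl t t'' h4 h4' x hx y hy q hq
  have a4 := H3 s hs3'
  have a5 := fl_add hl.a_cont s t t' t''
  have hq' : ‖q‖ ≤ ‖D.q0‖ + ‖D.q1‖ := by
    rcases hq with rfl | rfl
    · linarith [norm_nonneg D.q1]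
    · linarith [norm_nonneg D.q0]
  have a6 : D.j x q + D.j q y ≤ C := by
    have b1 := (j_bd h hx q).1
    have b2 := (j_bd h hy q).2
    have b3 : 2 * D.MF * (|ρ| + ‖q‖) ≤ 2 * D.MF * (|ρ| + (‖D.q0‖ + ‖D.q1‖)) :=
      mul_le_mul_of_nonneg_left (by linarith) (by linarith)
    rw [hC]
    linarith
  set J := D.j x c + D.j c y with hJd
  set J0 := D.j x q + D.j q y with hJ0
  have b1 : (1 - ε) * (J0 + κ / 2) ≤ (1 - ε) * J := mul_le_mul_of_nonneg_left hJ (by linarith)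
  have b2 : ε * J0 ≤ ε * C := mul_le_mul_of_nonneg_left a6 hε0.le
  have b3 : J0 + κ / 4 + 3 * ε ≤ (1 - ε) * J := by nlinarith
  have b4 := mul_le_mul_of_nonneg_left b3 hs0
  have b5 : (1 - ε) * (s * D.j x c) + (1 - ε) * (s * D.j c y) = s * ((1 - ε) * J) := by
    rw [hJd]; ring
  have b6 : s * (J0 + κ / 4 + 3 * ε) = s * J0 + κ / 4 * s + 3 * (ε * s) := by ring
  linarith

end C9n

theorem nQ (h : D.Ok) (hp : p.Ok D) (m : ℝ) (L : LP) : ∃ s0 : ℝ, 1 ≤ s0 ∧ ∀ s, s0 ≤ s → ∀ ll,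
    FL D m L ll → ∀ x ∈ D.R p, ∀ w ∈ D.Md p, ∀ r, 0 ≤ r → r ≤ 1 → ∀ t, 0 < t → t < 1 + r →
    ∀ c, c ∉ Nr D p → D.Q ll s r x w + 1 < D.kk ll s 0 t x c + D.kk ll s t (1 + r) c w := by
  obtain ⟨s0, h0, H⟩ := C9n.core h m L hp.κ_pos p.ρ
  refine ⟨s0, h0, ?_⟩
  intro s hs ll hl x hx w hw r hr0 hr1 t ht0 ht1 c hc
  exact H s hs ll hl 0 t (1 + r) ht0 ht1 (by linarith) (by linarith) x (C9n.R_X hp hx) w
    (C9n.Md_X hp hw) c D.q0 (Or.inl rfl) (C9n.gainQ h hp hx hw hc)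

theorem nP (h : D.Ok) (hp : p.Ok D) (m : ℝ) (L : LP) : ∃ s0 : ℝ, 1 ≤ s0 ∧ ∀ s, s0 ≤ s → ∀ ll,
    FL D m L ll → ∀ x ∈ D.R p, ∀ w ∈ D.Md p, ∀ r, 0 ≤ r → r ≤ 1 → ∀ t, r < t → t < 2 →
    ∀ c, c + D.g ∉ Nr D p → D.P ll s r w x + 1 < D.kk ll s r t (w - D.g) c + D.kk ll s t 2 c x := by
  obtain ⟨s0, h0, H⟩ := C9n.core h m L hp.κ_pos p.ρ
  refine ⟨s0, h0, ?_⟩
  intro s hs ll hl x hx w hw r hr0 hr1 t ht0 ht1 c hc
  exact H s hs ll hl r t 2 ht0 ht1 (by linarith) (by linarith) (w - D.g) (C9n.Md_X' hp hw) x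
    (C9n.R_X hp hx) c D.q1 (Or.inr rfl) (C9n.gainP h hp hx hw hc)

end MID

end EscK
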