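import Pool.Agent.EscK.KDefs
import Pool.Agent.EscF.O3
import Pool.Agent.helper1.Esc.ModD

set_option linter.unusedSectionVars false

/-!
Project EscK, module EB: almost calibrated vectors are near the tangent vectors of the closed curve.
-/

noncomputable section

namespace EscK

open MeasureTheory Set Filter Topology Esc EscF EscG
open scoped ContDiff

section B

variable {ι : Type} [Fintype ι] {d : ℕ} {E : Type*} [NormedAddCommGroup E] [InnerProductSpace ℝ E]
  [FiniteDimensional ℝ E] {D : GD ι d E} {p : GP} {m M Mf : ℝ} {L : LP} {ll l : E → E → ℝ → ℝ}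
  {f f' : E → ℝ → ℝ}
variable {β : Module.Basis ι ℝ E} {F : E → E → ℝ} {mF MF : ℝ} {B : E → ℝ} {k0 : ι} {len : ℝ} {c c' : ℝ → E}

/-- functions invariant under the basis vectors are invariant under the lattice -/
theorem EB_inv {α : Type*} {Φ : E → α} (h : ∀ i x, Φ (x + β i) = Φ x) {w : E}
    (hw : w ∈ Submodule.span ℤ (Set.range β)) (x : E) : Φ (x + w) = Φ x := by
  let G : AddSubgroup E :=
    { carrier := {w | ∀ x, Φ (x + w) = Φ x}
      zero_mem' := fun x => by rw [add_zero]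
      add_mem' := fun {a b} ha hb x => by rw [← add_assoc, hb, ha]
      neg_mem' := fun {a} ha x => by
        have := ha (x + -a)
        rwa [neg_add_cancel_right, eq_comm] at this }
  have h1 : Submodule.span ℤ (Set.range β) ≤ AddSubgroup.toIntSubmodule G := by
    rw [Submodule.span_le]
    rintro _ ⟨i, rfl⟩
    exact h i
  exact h1 hw x

theorem EB_fderiv (h : CalC β F mF MF B k0 len c c') (i : ι) (x : E) :
    fderiv ℝ B (x + β i) = fderiv ℝ B x := by
  obtain ⟨a, ha⟩ := h.per i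
  have h1 : fderiv ℝ (fun y => B (y + β i)) x = fderiv ℝ B (x + β i) := fderiv_comp_add_right _
  have h2 : (fun y => B (y + β i)) = fun y => B y + a := funext ha
  rw [← h1, h2, fderiv_add_const]

/-- midpoint convexity of `l` -/
theorem EB_mid (hl : TE β F mF MF m M l) (x u v : E) (t : ℝ) :
    l x ((1 / 2 : ℝ) • (u + v)) t ≤ (l x u t + l x v t) / 2 - m / 8 * ‖u - v‖ ^ 2 := by
  have h1 := hl.conv x u ((1 / 2 : ℝ) • (u + v)) t
  have h2 := hl.conv x v ((1 / 2 : ℝ) • (u + v)) t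
  have e1 : u - (1 / 2 : ℝ) • (u + v) = (1 / 2 : ℝ) • (u - v) := by module
  have e2 : v - (1 / 2 : ℝ) • (u + v) = -((1 / 2 : ℝ) • (u - v)) := by module
  rw [e1] at h1
  rw [e2, norm_neg, inner_neg_right] at h2
  have e3 : ‖(1 / 2 : ℝ) • (u - v)‖ ^ 2 = 1 / 4 * ‖u - v‖ ^ 2 := by
    rw [norm_smul, mul_pow, Real.norm_eq_abs, sq_abs]
    norm_num
  rw [e3] at h1 h2
  linarith

/-- `F² / 2` is strongly convex -/
theorem EB_conv (hl : TE β F mF MF m M l) (x u v : E) :
    F x ((1 / 2 : ℝ) • (u + v)) ^ 2 / 2 ≤ (F x u ^ 2 + F x v ^ 2) / 4 - m / 8 * ‖u - v‖ ^ 2 := by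
  by_contra hcon
  push Not at hcon
  set w : E := (1 / 2 : ℝ) • (u + v) with hw
  set A : ℝ := F x w ^ 2 / 2 - ((F x u ^ 2 + F x v ^ 2) / 4 - m / 8 * ‖u - v‖ ^ 2) with hA
  have hA0 : 0 < A := by rw [hA]; linarith
  have hM := hl.M_nonneg
  set C : ℝ := 2 * M * (1 + ‖u‖ + ‖v‖ + ‖w‖) with hC
  have hC0 : 0 ≤ C := by positivity
  have key : ∀ s : ℝ, 1 ≤ s → s ^ 2 * A ≤ C * s := by
    intro s hs
    have hs0 : 0 ≤ s := by linarith
    have h1 := EB_mid hl x (s • u) (s • v) 0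
    have e1 : (1 / 2 : ℝ) • (s • u + s • v) = s • w := by rw [hw]; module
    have e2 : ‖s • u - s • v‖ ^ 2 = s ^ 2 * ‖u - v‖ ^ 2 := by
      rw [← smul_sub, norm_smul, mul_pow, Real.norm_eq_abs, sq_abs]
    rw [e1, e2] at h1
    have hn : ∀ y : E, ‖s • y‖ = s * ‖y‖ := fun y => by
      rw [norm_smul, Real.norm_eq_abs, abs_of_nonneg hs0]
    have h2 := (abs_le.1 (hl.l_F x (s • w) 0)).1
    have h3 := (abs_le.1 (hl.l_F x (s • u) 0)).2
    have h4 := (abs_le.1 (hl.l_F x (s • v) 0)).2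
    rw [hl.fins.hom x _ s hs0, hn] at h2 h3 h4
    have hu0 := norm_nonneg u
    have hv0 := norm_nonneg v
    have hw0 := norm_nonneg w
    have h5 : s ^ 2 * A ≤ M * (1 + s * ‖w‖) + (M * (1 + s * ‖u‖) + M * (1 + s * ‖v‖)) / 2 := by
      rw [hA]
      nlinarith
    refine h5.trans ?_
    rw [hC]
    have h6 : M * 1 ≤ M * s := mul_le_mul_of_nonneg_left hs hM
    have h7 : 0 ≤ M * (s * ‖u‖) := by positivity
    have h8 : 0 ≤ M * (s * ‖v‖) := by positivity
    have h9 : 0 ≤ M * (s * ‖w‖) := by positivity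
    nlinarith
  have h1 := key (C / A + 1) (by have := div_nonneg hC0 hA0.le; linarith)
  have h2 : 0 < C / A + 1 := by have := div_nonneg hC0 hA0.le; linarith
  have h3 : (C / A + 1) * A ≤ C := by
    have h4 : (C / A + 1) * ((C / A + 1) * A) ≤ (C / A + 1) * C := by nlinarith
    exact le_of_mul_le_mul_left h4 h2
  have h5 : (C / A + 1) * A = C + A := by field_simp
  linarith

/-- almost calibrated vectors are near the tangent vectors of the curve -/
theorem dir_near (h : CalC β F mF MF B k0 len c c') (hl : TE β F mF MF m M l) {ε : ℝ} (hε : 0 < ε) :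
    ∃ ρ : ℝ, 0 < ρ ∧ ∀ x v, v ≠ 0 → F x v - fderiv ℝ B x v ≤ ρ * F x v →
      ∃ (σ : ℝ), ∃ w ∈ Submodule.span ℤ (Set.range β), ‖x - (c σ + w)‖ ≤ ε ∧
        ‖v - F x v • c' σ‖ ≤ ε * F x v := by
  by_contra hcon
  push Not at hcon
  have hmF := h.fins.mF_pos
  choose x v hv0 hv1 hv2 using fun n : ℕ => hcon (1 / ((n : ℝ) + 1)) (by positivity)
  have hF0 : ∀ n, 0 < F (x n) (v n) := fun n =>
    lt_of_lt_of_le (mul_pos hmF (norm_pos_iff.2 (hv0 n))) (h.fins.low _ _)
  have hFinv : ∀ {w : E}, w ∈ Submodule.span ℤ (Set.range β) → ∀ y u, F (y + w) u = F y u :=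
    fun hw y u => congrFun (EB_inv (Φ := F) (fun i y => funext fun u => h.fins.per i y u) hw y) u
  have hBinv : ∀ {w : E}, w ∈ Submodule.span ℤ (Set.range β) → ∀ y,
      fderiv ℝ B (y + w) = fderiv ℝ B y :=
    fun hw y => EB_inv (Φ := fderiv ℝ B) (EB_fderiv h) hw y
  set y : ℕ → E := fun n => ZSpan.fract β (x n) with hy
  set u : ℕ → E := fun n => (F (x n) (v n))⁻¹ • v n with hu
  set wn : ℕ → E := fun n => ((ZSpan.floor β (x n) : Submodule.span ℤ (Set.range β)) : E) with hwn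
  have hwm : ∀ n, wn n ∈ Submodule.span ℤ (Set.range β) := fun n => (ZSpan.floor β (x n)).2
  have hxy : ∀ n, x n = y n + wn n := fun n => by
    simp only [hy, hwn, ZSpan.fract]
    abel
  have hFu : ∀ n, F (y n) (u n) = 1 := fun n => by
    rw [← hFinv (hwm n), ← hxy, hu]
    simp only
    rw [h.fins.hom _ _ _ (inv_nonneg.2 (hF0 n).le), inv_mul_cancel₀ (hF0 n).ne']
  have hBu : ∀ n : ℕ, 1 - 1 / ((n : ℝ) + 1) ≤ fderiv ℝ B (y n) (u n) := fun n => by
    rw [← hBinv (hwm n), ← hxy, hu]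
    simp only
    rw [map_smul, smul_eq_mul]
    have h1 := hv1 n
    have h2 : (1 - 1 / ((n : ℝ) + 1)) * F (x n) (v n) ≤ fderiv ℝ B (x n) (v n) := by linarith
    calc 1 - 1 / ((n : ℝ) + 1) = (F (x n) (v n))⁻¹ * ((1 - 1 / ((n : ℝ) + 1)) * F (x n) (v n)) := by
          have := (hF0 n).ne'
          field_simp
      _ ≤ _ := mul_le_mul_of_nonneg_left h2 (inv_nonneg.2 (hF0 n).le)
  obtain ⟨⟨y0, u0⟩, -, φ, hφ, hlim⟩ := ((isCompact_closedBall (0 : E) (∑ i, ‖β i‖)).prod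
    (isCompact_closedBall (0 : E) (1 / mF))).tendsto_subseq (x := fun n => (y n, u n)) (fun n => by
      refine ⟨?_, ?_⟩
      · rw [mem_closedBall_zero_iff]
        exact ZSpan.norm_fract_le β (x n)
      · rw [mem_closedBall_zero_iff, le_div_iff₀ hmF]
        have := h.fins.low (y n) (u n)
        rw [hFu n] at this
        linarith)
  have hly : Tendsto (fun n => y (φ n)) atTop (𝓝 y0) := (continuous_fst.tendsto _).comp hlim
  have hlu : Tendsto (fun n => u (φ n)) atTop (𝓝 u0) := (continuous_snd.tendsto _).comp hlim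
  have hF1 : F y0 u0 = 1 := by
    have h1 : Tendsto (fun n => F (y (φ n)) (u (φ n))) atTop (𝓝 (F y0 u0)) :=
      (h.fins.cont.tendsto (y0, u0)).comp hlim
    refine tendsto_nhds_unique h1 ?_
    simp only [hFu]
    exact tendsto_const_nhds
  have hBc : Continuous (fun q : E × E => fderiv ℝ B q.1 q.2) :=
    ((h.smooth.continuous_fderiv one_ne_zero).comp continuous_fst).clm_apply continuous_snd
  have hB1 : fderiv ℝ B y0 u0 = 1 := by
    refine le_antisymm ((h.le y0 u0).trans hF1.le) ?_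
    have h1 : Tendsto (fun n => fderiv ℝ B (y (φ n)) (u (φ n))) atTop (𝓝 (fderiv ℝ B y0 u0)) :=
      (hBc.tendsto (y0, u0)).comp hlim
    have h2 : Tendsto (fun n : ℕ => 1 - 1 / (((φ n : ℕ) : ℝ) + 1)) atTop (𝓝 (1 - 0)) :=
      tendsto_const_nhds.sub ((tendsto_one_div_add_atTop_nhds_zero_nat (𝕜 := ℝ)).comp hφ.tendsto_atTop)
    rw [sub_zero] at h2
    exact le_of_tendsto_of_tendsto' h2 h1 fun n => hBu (φ n)
  have hu0 : u0 ≠ 0 := by
    rintro rfl
    have h1 := h.fins.upp y0 0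
    rw [norm_zero, mul_zero, hF1] at h1
    linarith
  obtain ⟨σ, w, hw, hyc⟩ := h.only y0 u0 hu0 (by rw [hB1, hF1])
  have hFc : F y0 (c' σ) = 1 := by rw [hyc, hFinv hw, h.unit]
  have hBc' : fderiv ℝ B y0 (c' σ) = 1 := by rw [hyc, hBinv hw, h.cal]
  have huc : u0 = c' σ := by
    have h1 := EB_conv hl y0 u0 (c' σ)
    have h2 : fderiv ℝ B y0 ((1 / 2 : ℝ) • (u0 + c' σ)) = 1 := by
      rw [map_smul, map_add, hB1, hBc', smul_eq_mul]
      norm_num
    have h3 := h.le y0 ((1 / 2 : ℝ) • (u0 + c' σ))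
    rw [h2] at h3
    rw [hF1, hFc] at h1
    have hm := hl.m_pos
    have h4 : m / 8 * ‖u0 - c' σ‖ ^ 2 ≤ 0 := by nlinarith
    have h5 : ‖u0 - c' σ‖ ^ 2 ≤ 0 := by
      by_contra h6
      push Not at h6
      have : 0 < m / 8 * ‖u0 - c' σ‖ ^ 2 := by positivity
      linarith
    have h6 : ‖u0 - c' σ‖ = 0 := by
      have := sq_nonneg ‖u0 - c' σ‖
      exact pow_eq_zero_iff (n := 2) (by norm_num) |>.1 (le_antisymm h5 this)
    exact sub_eq_zero.1 (norm_eq_zero.1 h6)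
  have he1 : ∀ᶠ n in atTop, ‖y (φ n) - y0‖ < ε := by
    have := Metric.tendsto_nhds.1 hly ε hε
    simpa [dist_eq_norm] using this
  have he2 : ∀ᶠ n in atTop, ‖u (φ n) - u0‖ < ε := by
    have := Metric.tendsto_nhds.1 hlu ε hε
    simpa [dist_eq_norm] using this
  obtain ⟨n, hn1, hn2⟩ := (he1.and he2).exists
  have h1 := hv2 (φ n) σ (w + wn (φ n)) (Submodule.add_mem _ hw (hwm _)) (by
    have e : x (φ n) - (c σ + (w + wn (φ n))) = y (φ n) - y0 := by
      rw [hxy (φ n), hyc]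
      abel
    rw [e]
    exact hn1.le)
  have h2 : v (φ n) - F (x (φ n)) (v (φ n)) • c' σ = F (x (φ n)) (v (φ n)) • (u (φ n) - u0) := by
    rw [huc, smul_sub, hu]
    simp only
    rw [smul_smul, mul_inv_cancel₀ (hF0 (φ n)).ne', one_smul]
  rw [h2, norm_smul, Real.norm_eq_abs, abs_of_pos (hF0 (φ n))] at h1
  have h3 : F (x (φ n)) (v (φ n)) * ‖u (φ n) - u0‖ ≤ ε * F (x (φ n)) (v (φ n)) := by
    rw [mul_comm]
    exact mul_le_mul_of_nonneg_right hn2.le (hF0 (φ n)).le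
  linarith

end B

end EscK
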