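import Pool.Agent.EscK.KDefs
import Pool.Agent.EscG.B2
import Pool.Agent.EscG.C3b
import Pool.Agent.EscG.F2a

/-!
Project EscK (MP_6acca1_an), module EC: functions of the phase near the translates of a calibrated closed
curve (helper56).
-/

set_option linter.unusedSectionVars false

noncomputable section

namespace EscK

open MeasureTheory Set Filter Topology Esc EscF EscG
open scoped ContDiff

variable {ι : Type} [Fintype ι] {E : Type*} [NormedAddCommGroup E] [InnerProductSpace ℝ E]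
  [FiniteDimensional ℝ E]
variable {β : Module.Basis ι ℝ E} {F : E → E → ℝ} {mF MF : ℝ} {B : E → ℝ} {k0 : ι} {len : ℝ} {c c' : ℝ → E}

namespace EC

/-- the translates of the curve are separated -/
theorem sep (h : CalC β F mF MF B k0 len c c') : ∃ δ : ℝ, 0 < δ ∧
    ∀ v ∈ Submodule.span ℤ (Set.range β), ∀ s t : ℝ, ‖c s + v - c t‖ < δ →
      ∃ n : ℤ, v = (n : ℝ) • β k0 := by
  obtain ⟨δ, hδ, H⟩ := exists_sep (gdC_ok0 h 0)
  refine ⟨δ, hδ, fun v hv s t hst => ?_⟩
  by_contra hn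
  have h1 := H v hv (by
    rintro ⟨n, hn'⟩
    exact hn ⟨n 0, hn'.trans (B2.lv1 h n)⟩) (c s) ⟨s, rfl⟩
  have h2 : Metric.infDist (c s + v) (Set.range c) ≤ dist (c s + v) (c t) :=
    Metric.infDist_le_dist_of_mem ⟨t, rfl⟩
  rw [dist_eq_norm] at h2
  have h3 : δ ≤ Metric.infDist (c s + v) (Set.range c) := h1
  linarith

/-- periodic continuous functions are bounded -/
theorem bdd_of_per {W : Type*} [NormedAddCommGroup W] (β : Module.Basis ι ℝ E) {Φ : E → W}
    (hc : Continuous Φ) (hx : ∀ i x, Φ (x + β i) = Φ x) : ∃ C : ℝ, 0 ≤ C ∧ ∀ x, ‖Φ x‖ ≤ C := by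
  have hsp : ∀ y ∈ Submodule.span ℤ (Set.range β), ∀ x, Φ (x + y) = Φ x := by
    intro y hy
    induction hy using Submodule.span_induction with
    | mem y hy =>
      obtain ⟨i, rfl⟩ := hy
      exact hx i
    | zero => intro x; rw [add_zero]
    | add y z _ _ h1 h2 => intro x; rw [← add_assoc, h2, h1]
    | smul n y _ h1 =>
      intro x
      induction n using Int.induction_on generalizing x with
      | zero => rw [zero_smul, add_zero]
      | succ k ih => rw [add_smul, one_smul, ← add_assoc, h1, ih]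
      | pred k ih =>
        rw [sub_smul, one_smul]
        have := h1 (x + (-(k : ℤ) • y - y))
        rw [add_assoc, sub_add_cancel] at this
        rw [← this, ih]
  obtain ⟨C, hC⟩ := (isCompact_closedBall (0 : E) (∑ i, ‖β i‖)).exists_bound_of_continuousOn
    hc.continuousOn
  refine ⟨max C 0, le_max_right _ _, fun x => ?_⟩
  have h2 : Φ (ZSpan.fract β x + (ZSpan.floor β x : E)) = Φ (ZSpan.fract β x) :=
    hsp _ (ZSpan.floor β x).2 _
  have h3 : ZSpan.fract β x + (ZSpan.floor β x : E) = x := by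
    rw [ZSpan.fract_apply, sub_add_cancel]
  rw [h3] at h2
  rw [h2]
  refine (hC _ ?_).trans (le_max_left _ _)
  rw [mem_closedBall_zero_iff]
  exact ZSpan.norm_fract_le β x

/-- a cut-off near the translates of the curve -/
theorem exists_cut (h : CalC β F mF MF B k0 len c c') {r1 : ℝ} (hr1 : 0 < r1) :
    ∃ (ψ : E → ℝ) (r K : ℝ), 0 < r ∧ r ≤ r1 ∧ 0 ≤ K ∧ ContDiff ℝ 1 ψ ∧ (∀ x, |ψ x| ≤ 1) ∧
      (∀ x v, |fderiv ℝ ψ x v| ≤ K * ‖v‖) ∧
      (∀ x, ∀ w ∈ Submodule.span ℤ (Set.range β), ∀ t : ℝ, ‖x - (c t + w)‖ < r → ψ x = 1) ∧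
      (∀ x, (∀ w ∈ Submodule.span ℤ (Set.range β), ∀ t : ℝ, 3 * r ≤ ‖x - (c t + w)‖) → ψ x = 0) := by
  classical
  obtain ⟨r0, hr0, hb⟩ := exists_sbump β
  set r : ℝ := min r0 r1 with hr
  have hrp : 0 < r := lt_min hr0 hr1
  choose g hg1 hg2 hg3 hg4 hg5 using hb r hrp (min_le_left _ _)
  -- finite cover of the curve
  obtain ⟨S, -, hS⟩ : ∃ S : Set ℝ, S ⊆ Icc 0 len ∧ S.Finite ∧
      Icc 0 len ⊆ ⋃ t ∈ S, {s | ‖c s - c t‖ < r} := by
    refine (isCompact_Icc (a := (0 : ℝ)) (b := len)).elim_finite_subcover_image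
      (b := Icc 0 len) (c := fun t => {s | ‖c s - c t‖ < r}) (fun t _ => ?_) (fun s hs => ?_)
    · exact isOpen_lt ((B2.c_cont h).sub continuous_const).norm continuous_const
    · rw [mem_iUnion₂]
      exact ⟨s, hs, by simpa using hrp⟩
  obtain ⟨hSf, hScov⟩ := hS
  set T : Finset ℝ := hSf.toFinset with hT
  set ψ : E → ℝ := fun x => 1 - ∏ t ∈ T, (1 - g (c t) x) with hψ
  have hsm : ContDiff ℝ 1 ψ := by
    rw [hψ]
    refine contDiff_const.sub (contDiff_prod fun t _ => contDiff_const.sub ?_)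
    exact (hg1 (c t)).of_le (by exact_mod_cast le_top)
  have hper : ∀ i x, ψ (x + β i) = ψ x := by
    intro i x
    simp only [hψ, hg2]
  have hper' : ∀ i x, fderiv ℝ ψ (x + β i) = fderiv ℝ ψ x := by
    intro i x
    rw [← fderiv_comp_add_right]
    congr 1
    funext y
    exact hper i y
  obtain ⟨K, hK0, hK⟩ := bdd_of_per β (hsm.continuous_fderiv one_ne_zero) hper'
  refine ⟨ψ, r, K, hrp, min_le_right _ _, hK0, hsm, fun x => ?_, fun x v => ?_, ?_, ?_⟩
  · have h1 : 0 ≤ ∏ t ∈ T, (1 - g (c t) x) :=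
      Finset.prod_nonneg fun t _ => by linarith [(hg3 (c t) x).2]
    have h2 : ∏ t ∈ T, (1 - g (c t) x) ≤ 1 :=
      Finset.prod_le_one (fun t _ => by linarith [(hg3 (c t) x).2])
        fun t _ => by linarith [(hg3 (c t) x).1]
    rw [abs_le]
    constructor <;> simp only [hψ] <;> linarith
  · rw [← Real.norm_eq_abs]
    exact ((fderiv ℝ ψ x).le_opNorm v).trans (mul_le_mul_of_nonneg_right (hK x) (norm_nonneg _))
  · intro x w hw t ht
    obtain ⟨s, hs, n, rfl⟩ := B2.c_red h t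
    obtain ⟨t', ht', hst⟩ := mem_iUnion₂.1 (hScov hs)
    have hst : ‖c s - c t'‖ < r := hst
    rw [B2.c_int h] at ht
    have hv : -(w + (n : ℝ) • β k0) ∈ Submodule.span ℤ (Set.range β) := by
      refine Submodule.neg_mem _ (Submodule.add_mem _ hw ?_)
      rw [Int.cast_smul_eq_zsmul]
      exact Submodule.smul_mem _ _ (Submodule.subset_span ⟨k0, rfl⟩)
    have h1 : g (c t') x = 1 := by
      apply hg4
      refine ⟨_, hv, ?_⟩
      have e : x + -(w + (n : ℝ) • β k0) - c t' = (x - (c s + (n : ℝ) • β k0 + w)) + (c s - c t') := by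
        abel
      rw [e]
      linarith [norm_add_le (x - (c s + (n : ℝ) • β k0 + w)) (c s - c t')]
    have h2 : ∏ t ∈ T, (1 - g (c t) x) = 0 :=
      Finset.prod_eq_zero (i := t') (by rw [hT, Set.Finite.mem_toFinset]; exact ht') (by rw [h1, sub_self])
    simp only [hψ, h2, sub_zero]
  · intro x hx
    have h1 : ∀ t, g (c t) x = 0 := by
      intro t
      apply hg5
      intro v hv
      have h2 := hx (-v) (Submodule.neg_mem _ hv) t
      have e : x - (c t + -v) = x + v - c t := by abel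
      rwa [e] at h2
    simp only [hψ, h1, sub_zero, Finset.prod_const_one, sub_self]

end EC

/-- a function of the phase near the curve, extended periodically -/
theorem exists_phase (h : CalC β F mF MF B k0 len c c') : ∃ C η : ℝ, 0 < C ∧ 0 < η ∧
    ∀ (φ φ' : ℝ → ℝ) (K : ℝ), (∀ σ, HasDerivAt φ (φ' σ) σ) → Continuous φ' → (∀ σ, φ (σ + len) = φ σ) →
      (∀ σ, |φ σ| ≤ K) → (∀ σ, |φ' σ| ≤ K) → ∃ Φ : E → ℝ, ContDiff ℝ 1 Φ ∧
        (∀ x, |Φ x| ≤ K) ∧ (∀ x v, |fderiv ℝ Φ x v| ≤ C * K * ‖v‖) ∧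
        ∀ (σ : ℝ), ∀ w ∈ Submodule.span ℤ (Set.range β), ∀ x, ‖x - (c σ + w)‖ ≤ η →
          ∃ σ', |σ' - σ| ≤ C * ‖x - (c σ + w)‖ ∧ ∀ v, fderiv ℝ Φ x v = φ' σ' * fderiv ℝ B x v := by
  classical
  obtain ⟨δ, hδ, hsep⟩ := EC.sep h
  obtain ⟨ψ, r, Kψ, hr, hr1, hKψ, hψs, hψ1, hψd, hψn, hψf⟩ := EC.exists_cut h (r1 := δ / 8) (by positivity)
  have hMF := B2.MF_pos h
  have hBd : Differentiable ℝ B := h.smooth.differentiable one_ne_zero
  refine ⟨Kψ + MF, r / 2, by positivity, by positivity, fun φ φ' K hφ hφ'c hper hb hb' => ?_⟩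
  have hK0 : 0 ≤ K := (abs_nonneg _).trans (hb 0)
  -- periodicity of φ
  have hpern : ∀ (n : ℤ) σ, φ (σ + n * len) = φ σ := by
    intro n σ
    have h1 : Function.Periodic φ len := hper
    have := h1.int_mul n σ
    exact this
  have hφs : ContDiff ℝ 1 φ := by
    rw [contDiff_one_iff_deriv]
    refine ⟨fun σ => (hφ σ).differentiableAt, ?_⟩
    have e : deriv φ = φ' := funext fun σ => (hφ σ).deriv
    rw [e]
    exact hφ'c
  set Φ : E → ℝ := fun x => if hx : ∃ w ∈ Submodule.span ℤ (Set.range β), ∃ t : ℝ,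
    ‖x - (c t + w)‖ < 3 * r then ψ x * φ (B (x - hx.choose) - B (c 0)) else 0 with hΦ
  -- the local formula
  have hloc : ∀ x, ∀ w ∈ Submodule.span ℤ (Set.range β), ∀ t : ℝ, ‖x - (c t + w)‖ < 4 * r →
      Φ x = ψ x * φ (B (x - w) - B (c 0)) := by
    intro x w hw t ht
    by_cases hx : ∃ w ∈ Submodule.span ℤ (Set.range β), ∃ t : ℝ, ‖x - (c t + w)‖ < 3 * r
    · have e : Φ x = ψ x * φ (B (x - hx.choose) - B (c 0)) := dif_pos hx
      obtain ⟨h1, t', h2⟩ := hx.choose_spec
      set w' := hx.choose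
      obtain ⟨n, hn⟩ := hsep (w - w') (Submodule.sub_mem _ hw h1) t t' (by
        have e : c t + (w - w') - c t' = (x - (c t' + w')) - (x - (c t + w)) := by abel
        rw [e]
        have := norm_sub_le (x - (c t' + w')) (x - (c t + w))
        linarith)
      have e1 : x - w' = (x - w) + (n : ℝ) • β k0 := by
        rw [← hn]
        abel
      have e2 : B (x - w') = B (x - w) + n * len := by
        rw [e1, Int.cast_smul_eq_zsmul]
        exact B2.zsmul_per (B2.B_k0 h) n _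
      rw [e, e2, show B (x - w) + n * len - B (c 0) = (B (x - w) - B (c 0)) + n * len by ring,
        hpern]
    · have e : Φ x = 0 := dif_neg hx
      rw [e, hψf x (fun w hw t => ?_), zero_mul]
      by_contra hc
      exact hx ⟨w, hw, t, not_le.mp hc⟩
  have hfar : ∀ x, (∀ w ∈ Submodule.span ℤ (Set.range β), ∀ t : ℝ, 3 * r ≤ ‖x - (c t + w)‖) →
      Φ x = 0 := by
    intro x hx
    exact dif_neg fun ⟨w, hw, t, ht⟩ => absurd (hx w hw t) (not_le.mpr ht)
  -- the derivative of the local formula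
  have hder : ∀ w x, HasFDerivAt (fun x => φ (B (x - w) - B (c 0)))
      (φ' (B (x - w) - B (c 0)) • fderiv ℝ B (x - w)) x := by
    intro w x
    have h1 : HasFDerivAt (fun x => B (x - w) - B (c 0)) (fderiv ℝ B (x - w)) x := by
      have h2 : HasFDerivAt (fun x => B (x - w)) (fderiv ℝ B (x - w)) x := by
        have h3 := (hBd (x - w)).hasFDerivAt.comp x ((hasFDerivAt_id x).sub_const w)
        rw [ContinuousLinearMap.comp_id] at h3
        exact h3
      exact h2.sub_const _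
    exact (hφ _).comp_hasFDerivAt x h1
  have hcomp : ∀ w, ContDiff ℝ 1 fun x => φ (B (x - w) - B (c 0)) := fun w =>
    hφs.comp ((h.smooth.comp (contDiff_id.sub contDiff_const)).sub contDiff_const)
  have hnear : ∀ (x0 a : E) (R : ℝ), ‖x0 - a‖ < R → ∀ᶠ x in 𝓝 x0, ‖x - a‖ < R := by
    intro x0 a R h1
    have : Continuous fun x : E => ‖x - a‖ := (continuous_id.sub continuous_const).norm
    exact this.continuousAt.eventually_lt continuousAt_const h1
  have hev : ∀ x0, ∀ w ∈ Submodule.span ℤ (Set.range β), ∀ t : ℝ, ‖x0 - (c t + w)‖ < 4 * r →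
      Φ =ᶠ[𝓝 x0] fun x => ψ x * φ (B (x - w) - B (c 0)) := by
    intro x0 w hw t ht
    filter_upwards [hnear x0 _ _ ht] with x hx
    exact hloc x w hw t hx
  have hev0 : ∀ x0, (¬ ∃ w ∈ Submodule.span ℤ (Set.range β), ∃ t : ℝ, ‖x0 - (c t + w)‖ < 4 * r) →
      Φ =ᶠ[𝓝 x0] fun _ => 0 := by
    intro x0 hx0
    have h1 : ∀ᶠ x in 𝓝 x0, ‖x - x0‖ < r := hnear x0 x0 r (by simpa using hr)
    filter_upwards [h1] with x hx
    refine hfar x fun w hw t => ?_
    by_contra hc
    push Not at hc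
    refine hx0 ⟨w, hw, t, ?_⟩
    have e : x0 - (c t + w) = (x - (c t + w)) - (x - x0) := by abel
    rw [e]
    linarith [norm_sub_le (x - (c t + w)) (x - x0)]
  refine ⟨Φ, ?_, fun x => ?_, fun x v => ?_, ?_⟩
  · rw [contDiff_iff_contDiffAt]
    intro x0
    by_cases hx0 : ∃ w ∈ Submodule.span ℤ (Set.range β), ∃ t : ℝ, ‖x0 - (c t + w)‖ < 4 * r
    · obtain ⟨w, hw, t, ht⟩ := hx0
      exact ((hψs.mul (hcomp w)).contDiffAt).congr_of_eventuallyEq (hev x0 w hw t ht)
    · exact contDiffAt_const.congr_of_eventuallyEq (hev0 x0 hx0)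
  · by_cases hx : ∃ w ∈ Submodule.span ℤ (Set.range β), ∃ t : ℝ, ‖x - (c t + w)‖ < 3 * r
    · have e : Φ x = ψ x * φ (B (x - hx.choose) - B (c 0)) := dif_pos hx
      rw [e, abs_mul]
      calc |ψ x| * |φ (B (x - hx.choose) - B (c 0))| ≤ 1 * K :=
            mul_le_mul (hψ1 x) (hb _) (abs_nonneg _) zero_le_one
        _ = K := one_mul K
    · have e : Φ x = 0 := dif_neg hx
      rw [e, abs_zero]
      exact hK0
  · by_cases hx0 : ∃ w ∈ Submodule.span ℤ (Set.range β), ∃ t : ℝ, ‖x - (c t + w)‖ < 4 * r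
    · obtain ⟨w, hw, t, ht⟩ := hx0
      have h1 : HasFDerivAt (fun x => ψ x * φ (B (x - w) - B (c 0)))
          (ψ x • (φ' (B (x - w) - B (c 0)) • fderiv ℝ B (x - w)) +
            φ (B (x - w) - B (c 0)) • fderiv ℝ ψ x) x :=
        ((hψs.differentiable one_ne_zero) x).hasFDerivAt.mul (hder w x)
      rw [(hev x w hw t ht).fderiv_eq, h1.fderiv]
      simp only [add_apply, smul_apply, smul_eq_mul]
      have h2 : |ψ x * (φ' (B (x - w) - B (c 0)) * fderiv ℝ B (x - w) v)| ≤ 1 * (K * (MF * ‖v‖)) := by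
        rw [abs_mul, abs_mul]
        exact mul_le_mul (hψ1 x) (mul_le_mul (hb' _) (B2.dB_abs h _ _) (abs_nonneg _) hK0)
          (by positivity) zero_le_one
      have h3 : |φ (B (x - w) - B (c 0)) * fderiv ℝ ψ x v| ≤ K * (Kψ * ‖v‖) := by
        rw [abs_mul]
        exact mul_le_mul (hb _) (hψd x v) (abs_nonneg _) hK0
      calc _ ≤ _ := abs_add_le _ _
        _ ≤ 1 * (K * (MF * ‖v‖)) + K * (Kψ * ‖v‖) := add_le_add h2 h3
        _ = (Kψ + MF) * K * ‖v‖ := by ring
    · rw [(hev0 x hx0).fderiv_eq]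
      simp only [fderiv_fun_const, Pi.zero_apply, zero_apply, abs_zero]
      positivity
  · intro σ w hw x hx
    refine ⟨B (x - w) - B (c 0), ?_, fun v => ?_⟩
    · have h1 := B2.B_c h 0 σ
      have e : B (x - w) - B (c 0) - σ = B (x - w) - B (c σ) := by linarith
      rw [e]
      have h2 : ∀ y, ‖fderiv ℝ B y‖ ≤ MF := by
        intro y
        refine ContinuousLinearMap.opNorm_le_bound _ hMF.le fun v => ?_
        rw [Real.norm_eq_abs]
        exact B2.dB_abs h y v
      have h3 := (convex_univ (𝕜 := ℝ) (E := E)).norm_image_sub_le_of_norm_fderiv_le (f := B)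
        (fun y _ => hBd y) (fun y _ => h2 y) (mem_univ (c σ)) (mem_univ (x - w))
      rw [Real.norm_eq_abs] at h3
      have e2 : x - w - c σ = x - (c σ + w) := by abel
      rw [e2] at h3
      refine h3.trans (mul_le_mul_of_nonneg_right (by linarith) (norm_nonneg _))
    · have h1 : Φ =ᶠ[𝓝 x] fun x => φ (B (x - w) - B (c 0)) := by
        filter_upwards [hnear x (c σ + w) r (by linarith)] with y hy
        rw [hloc y w hw σ (by linarith), hψn y w hw σ hy, one_mul]
      rw [h1.fderiv_eq, (hder w x).fderiv]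
      simp only [smul_apply, smul_eq_mul]
      have h2 : fderiv ℝ B x = fderiv ℝ B (x - w) := by
        have := B2.dB_per h hw (x - w)
        rwa [sub_add_cancel] at this
      rw [h2]

end EscK
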