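import Pool.Agent.EscK.KDefs
import Pool.Agent.EscK.EB
import Pool.Agent.EscK.EC
import Pool.Agent.EscG.B2

/-!
Project EscK (MP_6acca1_an), module ED: the flux of `l - F²/2` along a calibrated closed curve, and the
pointwise comparison of `l - F²/2` with the flux and a total derivative.
-/

noncomputable section

set_option linter.unusedSectionVars false

namespace EscK

open MeasureTheory Set Filter Topology Esc EscF EscG
open scoped ContDiff

section B

variable {ι : Type} [Fintype ι] {d : ℕ} {E : Type*} [NormedAddCommGroup E] [InnerProductSpace ℝ E]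
  [FiniteDimensional ℝ E] {D : GD ι d E} {p : GP} {m M Mf : ℝ} {L : LP} {ll l : E → E → ℝ → ℝ}
  {f f' : E → ℝ → ℝ}
variable {β : Module.Basis ι ℝ E} {F : E → E → ℝ} {mF MF : ℝ} {B : E → ℝ} {k0 : ι} {len : ℝ} {c c' : ℝ → E}

namespace ED

/-- the difference of `l` and the energy -/
def dl (F : E → E → ℝ) (l : E → E → ℝ → ℝ) (x v : E) (t : ℝ) : ℝ := l x v t - F x v ^ 2 / 2

theorem c'_int (h : CalC β F mF MF B k0 len c c') (n : ℤ) (t : ℝ) : c' (t + n * len) = c' t := by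
  have h1 : HasDerivAt (fun s => c (s + n * len)) (c' (t + n * len)) t :=
    (h.hasDeriv (t + n * len)).comp_add_const t (n * len)
  have h2 : (fun s => c (s + n * len)) = fun s => c s + (n : ℝ) • β k0 := by
    funext s
    exact B2.c_int h n s
  rw [h2] at h1
  exact h1.unique ((h.hasDeriv t).add_const _)

theorem c_lip (h : CalC β F mF MF B k0 len c c') (s t : ℝ) : ‖c s - c t‖ ≤ mF⁻¹ * |s - t| := by
  have h1 := Convex.norm_image_sub_le_of_norm_hasDerivWithin_le (f := c) (f' := c') (s := Set.univ)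
    (x := t) (y := s) (C := mF⁻¹) (fun x _ => (h.hasDeriv x).hasDerivWithinAt)
    (fun x _ => B2.c'_bd h x) convex_univ (mem_univ _) (mem_univ _)
  rwa [Real.norm_eq_abs] at h1

theorem c'_uc (h : CalC β F mF MF B k0 len c c') {e : ℝ} (he : 0 < e) : ∃ δ : ℝ, 0 < δ ∧
    ∀ s t : ℝ, |s - t| ≤ δ → ‖c' s - c' t‖ ≤ e := by
  have h1 : UniformContinuousOn c' (Icc (-len) (2 * len)) :=
    isCompact_Icc.uniformContinuousOn_of_continuous h.contDeriv.continuousOn
  rw [Metric.uniformContinuousOn_iff] at h1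
  obtain ⟨δ, hδ, h2⟩ := h1 e he
  have hl := h.len_pos
  refine ⟨min (δ / 2) len, by positivity, fun s t hst => ?_⟩
  obtain ⟨t0, ht0, n, rfl⟩ := B2.c_red h t
  have h3 : c' s = c' (s - n * len) := by
    have := c'_int h n (s - n * len)
    rw [← this]
    congr 1
    ring
  rw [h3, c'_int h n t0]
  have h4 : |s - (t0 + n * len)| ≤ len := hst.trans (min_le_right _ _)
  have h5 : |s - (t0 + n * len)| ≤ δ / 2 := hst.trans (min_le_left _ _)
  have h6 := abs_le.1 h4
  have h7 := h2 (s - n * len) ⟨by linarith [ht0.1, ht0.2, h6.1], by linarith [ht0.1, ht0.2, h6.2]⟩ t0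
    ⟨by linarith [ht0.1], by linarith [ht0.2]⟩ (by
      rw [Real.dist_eq]
      have : s - n * len - t0 = s - (t0 + n * len) := by ring
      rw [this]
      linarith)
  rw [dist_eq_norm] at h7
  exact h7.le

theorem l_Lam (hl : TE β F mF MF m M l) {v : E} (hv : v ∈ Submodule.span ℤ (Set.range β)) (x u : E)
    (t : ℝ) : l (x + v) u t = l x u t := by
  induction hv using Submodule.span_induction generalizing x with
  | mem w hw =>
    obtain ⟨i, rfl⟩ := hw
    exact hl.per i x u t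
  | zero => rw [add_zero]
  | add w w' _ _ h1 h2 => rw [← add_assoc, h2, h1]
  | smul n w _ h1 =>
    have h2 := B2.zsmul_per (B := fun y => l y u t) (v := w) (a := 0) (fun y => by
      simp only [add_zero]
      exact h1 y) n x
    simpa using h2

theorem dl_Lam (hl : TE β F mF MF m M l) {v : E} (hv : v ∈ Submodule.span ℤ (Set.range β)) (x u : E)
    (t : ℝ) : dl F l (x + v) u t = dl F l x u t := by
  unfold dl
  rw [l_Lam hl hv, B2.F_Lam hl.fins hv]

theorem dl_bd (hl : TE β F mF MF m M l) (x v : E) (t : ℝ) : |dl F l x v t| ≤ M * (1 + ‖v‖) :=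
  hl.l_F x v t

theorem dl_cont (hl : TE β F mF MF m M l) : Continuous fun q : E × E × ℝ => dl F l q.1 q.2.1 q.2.2 := by
  unfold dl
  have h1 := hl.smooth.continuous
  have h2 : Continuous fun q : E × E × ℝ => F q.1 q.2.1 :=
    hl.fins.cont.comp (continuous_fst.prodMk (continuous_fst.comp continuous_snd))
  exact h1.sub ((h2.pow 2).div_const 2)

/-- the integrand of the flux -/
def hh (F : E → E → ℝ) (l : E → E → ℝ → ℝ) (c c' : ℝ → E) (s t σ : ℝ) : ℝ := dl F l (c σ) (s • c' σ) t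

theorem hh_cont (h : CalC β F mF MF B k0 len c c') (hl : TE β F mF MF m M l) (s t : ℝ) :
    Continuous (hh F l c c' s t) := by
  have h1 : Continuous fun σ : ℝ => ((c σ, s • c' σ, t) : E × E × ℝ) :=
    (B2.c_cont h).prodMk ((h.contDeriv.const_smul s).prodMk continuous_const)
  exact (dl_cont hl).comp h1

theorem hh_per (h : CalC β F mF MF B k0 len c c') (hl : TE β F mF MF m M l) (s t σ : ℝ) :
    hh F l c c' s t (σ + len) = hh F l c c' s t σ := by
  unfold hh
  have h1 := c'_int h 1 σ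
  simp only [Int.cast_one, one_mul] at h1
  rw [h.closed, h1, dl_Lam hl (Submodule.subset_span ⟨k0, rfl⟩)]

theorem flx_eq (s t : ℝ) : flx F l len c c' s t = (∫ σ in (0:ℝ)..len, hh F l c c' s t σ) / len := rfl

theorem hh_bd (h : CalC β F mF MF B k0 len c c') (hl : TE β F mF MF m M l) {s : ℝ} (hs : 1 ≤ s)
    (t σ : ℝ) : |hh F l c c' s t σ| ≤ M * (1 + mF⁻¹) * s := by
  refine (dl_bd hl _ _ _).trans ?_
  have h1 : ‖s • c' σ‖ ≤ s * mF⁻¹ := by
    rw [norm_smul, Real.norm_eq_abs, abs_of_nonneg (by linarith)]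
    exact mul_le_mul_of_nonneg_left (B2.c'_bd h σ) (by linarith)
  calc M * (1 + ‖s • c' σ‖) ≤ M * (s + s * mF⁻¹) :=
        mul_le_mul_of_nonneg_left (by linarith) hl.M_nonneg
    _ = M * (1 + mF⁻¹) * s := by ring

theorem int_bd {g : ℝ → ℝ} {C : ℝ} (hlen : 0 < len) (hg : ∀ σ, |g σ| ≤ C) :
    |(∫ σ in (0:ℝ)..len, g σ) / len| ≤ C := by
  have h1 := intervalIntegral.norm_integral_le_of_norm_le_const (a := 0) (b := len) (f := g) (C := C)
    (fun x _ => by rw [Real.norm_eq_abs]; exact hg x)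
  rw [Real.norm_eq_abs, sub_zero, abs_of_pos hlen] at h1
  rw [abs_div, abs_of_pos hlen, div_le_iff₀ hlen]
  exact h1

theorem int_sub {g1 g2 : ℝ → ℝ} {C : ℝ} (hlen : 0 < len) (h1 : Continuous g1) (h2 : Continuous g2)
    (hg : ∀ σ, |g1 σ - g2 σ| ≤ C) :
    |(∫ σ in (0:ℝ)..len, g1 σ) / len - (∫ σ in (0:ℝ)..len, g2 σ) / len| ≤ C := by
  rw [← sub_div, ← intervalIntegral.integral_sub (h1.intervalIntegrable _ _) (h2.intervalIntegrable _ _)]
  exact int_bd hlen hg

end ED

open ED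

theorem flx_reg (h : CalC β F mF MF B k0 len c c') (hl : TE β F mF MF m M l) (hA : AL F M l) :
    ∃ A : ℝ, 0 ≤ A ∧ (∀ s, Continuous (flx F l len c c' s)) ∧
      (∀ s t, flx F l len c c' s (t + 1) = flx F l len c c' s t) ∧
      (∀ s t, 1 ≤ s → |flx F l len c c' s t| ≤ A * s) ∧
      (∀ s s' t, 1 ≤ s → 1 ≤ s' → |flx F l len c c' s t - flx F l len c c' s' t| ≤ A * |s - s'|) ∧
      ∀ s t t', 1 ≤ s → |flx F l len c c' s t - flx F l len c c' s t'| ≤ A * s * |t - t'| := by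
  have hm := h.fins.mF_pos
  have hmi : 0 < mF⁻¹ := inv_pos.2 hm
  have hM := hl.M_nonneg
  have hlen := h.len_pos
  -- general Lipschitz bound in time
  have hT : ∀ s t t', |flx F l len c c' s t - flx F l len c c' s t'| ≤
      M * (1 + |s| * mF⁻¹) * |t - t'| := by
    intro s t t'
    rw [flx_eq, flx_eq]
    refine int_sub hlen (hh_cont h hl s t) (hh_cont h hl s t') fun σ => ?_
    have h1 := hA (c σ) (s • c' σ) t (c σ) (s • c' σ) t'
    rw [sub_self, norm_zero, sub_self, norm_zero, zero_add, zero_add] at h1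
    refine h1.trans ?_
    have h2 : ‖s • c' σ‖ ≤ |s| * mF⁻¹ := by
      rw [norm_smul, Real.norm_eq_abs]
      exact mul_le_mul_of_nonneg_left (B2.c'_bd h σ) (abs_nonneg _)
    calc M * ((1 + ‖s • c' σ‖) * |t - t'|) = M * (1 + ‖s • c' σ‖) * |t - t'| := by ring
      _ ≤ M * (1 + |s| * mF⁻¹) * |t - t'| := by gcongr
  refine ⟨M * (1 + mF⁻¹), by positivity, fun s => ?_, fun s t => ?_, fun s t hs => ?_,
    fun s s' t hs hs' => ?_, fun s t t' hs => ?_⟩
  · have hL : LipschitzWith (Real.toNNReal (M * (1 + |s| * mF⁻¹))) (flx F l len c c' s) := by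
      refine LipschitzWith.of_dist_le_mul fun t t' => ?_
      rw [Real.dist_eq, Real.dist_eq, Real.coe_toNNReal _ (by positivity)]
      exact hT s t t'
    exact hL.continuous
  · unfold flx
    simp only [hl.pert]
  · rw [flx_eq]
    exact int_bd hlen fun σ => hh_bd h hl hs t σ
  · rw [flx_eq, flx_eq]
    refine int_sub hlen (hh_cont h hl s t) (hh_cont h hl s' t) fun σ => ?_
    have h1 := hA (c σ) (s • c' σ) t (c σ) (s' • c' σ) t
    rw [sub_self (c σ), norm_zero, sub_self t, abs_zero, add_zero, mul_zero, add_zero, ← sub_smul,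
      norm_smul, Real.norm_eq_abs] at h1
    refine h1.trans ?_
    have h2 := B2.c'_bd h σ
    calc M * (|s - s'| * ‖c' σ‖) ≤ M * (|s - s'| * mF⁻¹) := by gcongr
      _ ≤ M * (1 + mF⁻¹) * |s - s'| := by nlinarith [abs_nonneg (s - s'), mul_nonneg hM (abs_nonneg (s - s'))]
  · refine (hT s t t').trans ?_
    rw [abs_of_nonneg (by linarith : (0:ℝ) ≤ s)]
    have h3 : 1 + s * mF⁻¹ ≤ (1 + mF⁻¹) * s := by nlinarith
    calc M * (1 + s * mF⁻¹) * |t - t'| ≤ M * ((1 + mF⁻¹) * s) * |t - t'| := by gcongr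
      _ = M * (1 + mF⁻¹) * s * |t - t'| := by ring

/-- final estimate near the curve -/
theorem ED.near_est {a1 a2 a3 a4 fl Fv b s A M mi ε1 e2 ε C : ℝ} (hs : 1 ≤ s) (hA : 0 ≤ A) (hM : 0 ≤ M)
    (hmi : 0 ≤ mi)
    (h12 : |a1 - a2| ≤ M * (ε1 * Fv + (1 + Fv * mi) * ε1)) (h23 : |a2 - a3| ≤ M * (mi * |Fv - s|))
    (h34 : |a4 - a3| ≤ s * e2) (h3 : |a3| ≤ A * s) (hfl : |fl| ≤ A * s) (hF : 0 ≤ Fv) (hb : b ≤ Fv)
    (hb0 : 0 ≤ b) (he2 : 0 ≤ e2) (hε : M * ε1 * (1 + mi) + e2 ≤ ε) (hC1 : M * ε1 ≤ C)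
    (hC2 : M * mi + A ≤ C) (hC3 : 2 * A ≤ C) :
    |a1 - Fv / s * fl - (a4 - fl) / s * b| ≤ ε * Fv + C * (Fv - b) + C * |Fv - s| + C := by
  have hs0 : 0 < s := by linarith
  have key : a1 - Fv / s * fl - (a4 - fl) / s * b =
      (a1 - a2) + (a2 - a3) + a3 / s * (s - b) - fl / s * (Fv - b) - (a4 - a3) / s * b := by
    field_simp
    ring
  have k3 : |a3 / s * (s - b)| ≤ A * (|Fv - s| + (Fv - b)) := by
    rw [abs_mul, abs_div, abs_of_pos hs0]
    have h1 : |a3| / s ≤ A := by rwa [div_le_iff₀ hs0]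
    have h2 : |s - b| ≤ |Fv - s| + (Fv - b) := by
      have e : s - b = -(Fv - s) + (Fv - b) := by ring
      rw [e]
      refine (abs_add_le _ _).trans ?_
      rw [abs_neg, abs_of_nonneg (by linarith : (0:ℝ) ≤ Fv - b)]
    exact mul_le_mul h1 h2 (abs_nonneg _) hA
  have k4 : |fl / s * (Fv - b)| ≤ A * (Fv - b) := by
    rw [abs_mul, abs_div, abs_of_pos hs0, abs_of_nonneg (by linarith : (0:ℝ) ≤ Fv - b)]
    have h1 : |fl| / s ≤ A := by rwa [div_le_iff₀ hs0]
    exact mul_le_mul_of_nonneg_right h1 (by linarith)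
  have k5 : |(a4 - a3) / s * b| ≤ e2 * Fv := by
    rw [abs_mul, abs_div, abs_of_pos hs0, abs_of_nonneg hb0]
    have h1 : |a4 - a3| / s ≤ e2 := by
      rw [div_le_iff₀ hs0]
      linarith
    exact mul_le_mul h1 hb hb0 he2
  have t1 : |a1 - Fv / s * fl - (a4 - fl) / s * b| ≤
      |a1 - a2| + |a2 - a3| + |a3 / s * (s - b)| + |fl / s * (Fv - b)| + |(a4 - a3) / s * b| := by
    rw [key]
    refine (abs_sub _ _).trans (add_le_add ?_ le_rfl)
    refine (abs_sub _ _).trans (add_le_add ?_ le_rfl)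
    refine (abs_add_le _ _).trans (add_le_add ?_ le_rfl)
    exact abs_add_le _ _
  have hD : 0 ≤ Fv - b := by linarith
  have m1 : M * ε1 ≤ C := hC1
  have m2 : (M * ε1 * (1 + mi) + e2) * Fv ≤ ε * Fv := mul_le_mul_of_nonneg_right hε hF
  have m3 : (M * mi + A) * |Fv - s| ≤ C * |Fv - s| := mul_le_mul_of_nonneg_right hC2 (abs_nonneg _)
  have m4 : (2 * A) * (Fv - b) ≤ C * (Fv - b) := mul_le_mul_of_nonneg_right hC3 hD
  have e1 : M * (ε1 * Fv + (1 + Fv * mi) * ε1) = M * ε1 * (1 + mi) * Fv + M * ε1 := by ring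
  rw [e1] at h12
  nlinarith [t1, h12, h23, k3, k4, k5, m1, m2, m3, m4]

/-- pointwise comparison of `l - F²/2` with the flux and a total derivative -/
theorem flx_pt (h : CalC β F mF MF B k0 len c c') (hl : TE β F mF MF m M l) (hA : AL F M l) {ε : ℝ}
    (hε : 0 < ε) : ∃ C : ℝ, 0 ≤ C ∧ ∀ s t0, 1 ≤ s → ∃ Φ : E → ℝ, ContDiff ℝ 1 Φ ∧ (∀ x, |Φ x| ≤ C) ∧
      ∀ x v, |(l x v t0 - F x v ^ 2 / 2) - F x v / s * flx F l len c c' s t0 - fderiv ℝ Φ x v| ≤
        ε * F x v + C * (F x v - fderiv ℝ B x v) + C * |F x v - s| + C := by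
  have hm := h.fins.mF_pos
  have hmi : 0 < mF⁻¹ := inv_pos.2 hm
  have hM := hl.M_nonneg
  have hlen := h.len_pos
  set A : ℝ := M * (1 + mF⁻¹) with hAdef
  have hA0 : 0 ≤ A := by positivity
  have hfl : ∀ s t, 1 ≤ s → |flx F l len c c' s t| ≤ A * s := fun s t hs => by
    rw [flx_eq]
    exact int_bd hlen fun σ => hh_bd h hl hs t σ
  obtain ⟨C0, η, hC0, hη, hph⟩ := exists_phase h
  set K : ℝ := 2 * A + 2 * A * len with hKdef
  have hK0 : 0 ≤ K := by positivity
  set μ : ℝ := ε / (4 * (M + 1)) with hμdef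
  have hμ : 0 < μ := by positivity
  have hMμ : M * μ ≤ ε / 4 := by
    rw [hμdef, mul_div_assoc', div_le_div_iff₀ (by positivity) (by norm_num)]
    nlinarith
  obtain ⟨δ, hδ, huc⟩ := c'_uc h hμ
  set Qc : ℝ := 4 * ((M + 1) * (1 + mF⁻¹) * (1 + mF⁻¹ * C0)) with hQdef
  have hQ : 0 < Qc := by positivity
  set ε1 : ℝ := min η (min (δ / C0) (ε / Qc)) with hε1def
  have hε1 : 0 < ε1 := by positivity
  have hε1η : ε1 ≤ η := min_le_left _ _
  have hε1δ : C0 * ε1 ≤ δ := by
    have : ε1 ≤ δ / C0 := (min_le_right _ _).trans (min_le_left _ _)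
    rw [le_div_iff₀ hC0] at this
    linarith
  have hε1Q : ε1 * Qc ≤ ε := by
    have : ε1 ≤ ε / Qc := (min_le_right _ _).trans (min_le_right _ _)
    rwa [le_div_iff₀ hQ] at this
  have hb1 : M * ε1 * (1 + mF⁻¹) ≤ ε / 4 := by
    have h1 : M * (1 + mF⁻¹) ≤ (M + 1) * (1 + mF⁻¹) * (1 + mF⁻¹ * C0) := by
      have a1 : M * (1 + mF⁻¹) ≤ (M + 1) * (1 + mF⁻¹) := by
        apply mul_le_mul_of_nonneg_right (by linarith) (by positivity)
      have a2 : (M + 1) * (1 + mF⁻¹) * 1 ≤ (M + 1) * (1 + mF⁻¹) * (1 + mF⁻¹ * C0) := by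
        apply mul_le_mul_of_nonneg_left _ (by positivity)
        have : 0 ≤ mF⁻¹ * C0 := by positivity
        linarith
      linarith
    have h2 := mul_le_mul_of_nonneg_left h1 hε1.le
    rw [hQdef] at hε1Q
    linarith
  have hb2 : M * ((1 + mF⁻¹) * (mF⁻¹ * (C0 * ε1))) ≤ ε / 4 := by
    have h1 : M * (1 + mF⁻¹) * (mF⁻¹ * C0) ≤ (M + 1) * (1 + mF⁻¹) * (1 + mF⁻¹ * C0) := by
      have a1 : M * (1 + mF⁻¹) ≤ (M + 1) * (1 + mF⁻¹) := by
        apply mul_le_mul_of_nonneg_right (by linarith) (by positivity)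
      exact mul_le_mul a1 (by linarith) (by positivity) (by positivity)
    have h2 := mul_le_mul_of_nonneg_left h1 hε1.le
    rw [hQdef] at hε1Q
    linarith
  obtain ⟨ρ0, hρ0, hdn⟩ := dir_near h hl hε1
  set ρ : ℝ := min ρ0 1 with hρdef
  have hρ : 0 < ρ := by positivity
  have hρ1 : ρ ≤ 1 := min_le_right _ _
  set G : ℝ := M * mF⁻¹ + A + C0 * K * mF⁻¹ with hGdef
  have hG0 : 0 ≤ G := by positivity
  set C : ℝ := K + M * (1 + ε1) + M * mF⁻¹ + 2 * A + G / ρ with hCdef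
  have hGρ : 0 ≤ G / ρ := by positivity
  have p1 : 0 ≤ M * (1 + ε1) := by positivity
  have p2 : 0 ≤ M * mF⁻¹ := by positivity
  have hMε : 0 ≤ M * ε1 := by positivity
  have hC0' : 0 ≤ C := by positivity
  refine ⟨C, hC0', fun s t0 hs => ?_⟩
  have hs0 : 0 < s := by linarith
  set fl : ℝ := flx F l len c c' s t0 with hfldef
  have hfl0 : |fl| ≤ A * s := hfl s t0 hs
  -- the primitive
  set φ' : ℝ → ℝ := fun σ => (hh F l c c' s t0 σ - fl) / s with hφ'def
  have hφ'c : Continuous φ' := ((hh_cont h hl s t0).sub continuous_const).div_const _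
  set φ : ℝ → ℝ := fun σ => ∫ r in (0:ℝ)..σ, φ' r with hφdef
  have hφd : ∀ σ, HasDerivAt φ (φ' σ) σ := fun σ => (hφ'c.integral_hasStrictDerivAt 0 σ).hasDerivAt
  have hφ'p : Function.Periodic φ' len := fun σ => by
    simp only [hφ'def, hh_per h hl]
  have hφ'0 : ∫ r in (0:ℝ)..0 + len, φ' r = 0 := by
    rw [zero_add, hφ'def, intervalIntegral.integral_div, intervalIntegral.integral_sub
      ((hh_cont h hl s t0).intervalIntegrable _ _) (continuous_const.intervalIntegrable _ _),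
      intervalIntegral.integral_const, hfldef, flx_eq, smul_eq_mul, sub_zero,
      mul_div_cancel₀ _ hlen.ne', sub_self, zero_div]
  have hφp : ∀ σ, φ (σ + len) = φ σ := fun σ => by
    have h1 := intervalIntegral.integral_add_adjacent_intervals (hφ'c.intervalIntegrable (μ := volume) 0 σ)
      (hφ'c.intervalIntegrable (μ := volume) σ (σ + len))
    have h2 := hφ'p.intervalIntegral_add_eq σ 0
    rw [hφ'0] at h2
    rw [h2, add_zero] at h1
    exact h1.symm
  have hφ'b : ∀ σ, |φ' σ| ≤ 2 * A := fun σ => by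
    simp only [hφ'def]
    rw [abs_div, abs_of_pos hs0, div_le_iff₀ hs0]
    have h1 := hh_bd h hl hs t0 σ
    refine (abs_sub _ _).trans ?_
    rw [← hAdef] at h1
    linarith
  have hφb : ∀ σ, |φ σ| ≤ 2 * A * len := fun σ => by
    obtain ⟨y, hy, e⟩ := Function.Periodic.exists_mem_Ico₀ (f := φ) hφp hlen σ
    rw [e]
    have h1 := intervalIntegral.norm_integral_le_of_norm_le_const (a := 0) (b := y) (f := φ') (C := 2 * A)
      (fun x _ => by rw [Real.norm_eq_abs]; exact hφ'b x)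
    rw [Real.norm_eq_abs, sub_zero, abs_of_nonneg hy.1] at h1
    refine h1.trans ?_
    exact mul_le_mul_of_nonneg_left hy.2.le (by positivity)
  obtain ⟨Φ, hΦ, hΦb, hΦd, hΦn⟩ := hph φ φ' K hφd hφ'c hφp
    (fun σ => (hφb σ).trans (by rw [hKdef]; linarith))
    (fun σ => (hφ'b σ).trans (by
      rw [hKdef]
      have : 0 ≤ 2 * A * len := by positivity
      linarith))
  refine ⟨Φ, hΦ, fun x => (hΦb x).trans (by rw [hCdef]; linarith), fun x v => ?_⟩
  have hFv : 0 ≤ F x v := (mul_nonneg hm.le (norm_nonneg _)).trans (h.fins.low x v)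
  have hnv : ‖v‖ ≤ mF⁻¹ * F x v := by
    have := h.fins.low x v
    rw [inv_mul_eq_div, le_div_iff₀ hm]
    linarith
  have hD : 0 ≤ F x v - fderiv ℝ B x v := by
    have := h.le x v
    linarith
  have ha1 : |l x v t0 - F x v ^ 2 / 2| ≤ M * (1 + ‖v‖) := hl.l_F x v t0
  by_cases hn : v ≠ 0 ∧ F x v - fderiv ℝ B x v ≤ ρ * F x v
  · obtain ⟨hv, hn⟩ := hn
    obtain ⟨σ, w, hw, hx, hvc⟩ := hdn x v hv (hn.trans (mul_le_mul_of_nonneg_right (min_le_left _ _) hFv))
    obtain ⟨σ', hσ', hΦv⟩ := hΦn σ w hw x (hx.trans hε1η)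
    rw [hΦv v]
    have hσ'' : |σ' - σ| ≤ C0 * ε1 := hσ'.trans (mul_le_mul_of_nonneg_left hx hC0.le)
    have hb0 : 0 ≤ fderiv ℝ B x v := by
      have : ρ * F x v ≤ 1 * F x v := mul_le_mul_of_nonneg_right hρ1 hFv
      linarith
    have hFc : ‖F x v • c' σ‖ ≤ F x v * mF⁻¹ := by
      rw [norm_smul, Real.norm_eq_abs, abs_of_nonneg hFv]
      exact mul_le_mul_of_nonneg_left (B2.c'_bd h σ) hFv
    refine ED.near_est (a1 := l x v t0 - F x v ^ 2 / 2) (a2 := dl F l (c σ) (F x v • c' σ) t0)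
      (a3 := hh F l c c' s t0 σ) (a4 := hh F l c c' s t0 σ') (fl := fl) (Fv := F x v)
      (b := fderiv ℝ B x v) (s := s) (A := A) (M := M) (mi := mF⁻¹) (ε1 := ε1)
      (e2 := M * (μ + (1 + mF⁻¹) * (mF⁻¹ * (C0 * ε1)))) (ε := ε) (C := C) hs hA0 hM hmi.le
      ?_ ?_ ?_ ?_ hfl0 hFv (h.le x v) hb0 (by positivity) ?_ ?_ ?_ ?_
    · have h1 := hA (c σ + w) (F x v • c' σ) t0 x v t0
      rw [sub_self t0, abs_zero, add_zero] at h1
      have h2 := dl_Lam (F := F) hl hw (c σ) (F x v • c' σ) t0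
      unfold dl at h2
      rw [h2] at h1
      rw [abs_sub_comm]
      refine h1.trans ?_
      have h3 : ‖F x v • c' σ - v‖ ≤ ε1 * F x v := by
        rw [norm_sub_rev]
        exact hvc
      have h4 : ‖c σ + w - x‖ ≤ ε1 := by
        rw [norm_sub_rev]
        exact hx
      gcongr
    · have h1 := hA (c σ) (F x v • c' σ) t0 (c σ) (s • c' σ) t0
      rw [sub_self (c σ), norm_zero, sub_self t0, abs_zero, add_zero, mul_zero, add_zero, ← sub_smul,
        norm_smul, Real.norm_eq_abs] at h1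
      refine h1.trans ?_
      have h2 := B2.c'_bd h σ
      calc M * (|F x v - s| * ‖c' σ‖) ≤ M * (|F x v - s| * mF⁻¹) := by gcongr
        _ = M * (mF⁻¹ * |F x v - s|) := by ring
    · have h1 := hA (c σ') (s • c' σ') t0 (c σ) (s • c' σ) t0
      rw [sub_self t0, abs_zero, add_zero, ← smul_sub, norm_smul, norm_smul, Real.norm_eq_abs,
        abs_of_pos hs0] at h1
      refine h1.trans ?_
      have h2 : ‖c' σ' - c' σ‖ ≤ μ := huc σ' σ (hσ''.trans hε1δ)
      have h3 : ‖c σ' - c σ‖ ≤ mF⁻¹ * (C0 * ε1) :=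
        (c_lip h σ' σ).trans (mul_le_mul_of_nonneg_left hσ'' hmi.le)
      have h4 := B2.c'_bd h σ'
      have h5 : 1 + s * ‖c' σ'‖ ≤ s * (1 + mF⁻¹) := by
        have : s * ‖c' σ'‖ ≤ s * mF⁻¹ := mul_le_mul_of_nonneg_left h4 hs0.le
        linarith
      calc M * (s * ‖c' σ' - c' σ‖ + (1 + s * ‖c' σ'‖) * ‖c σ' - c σ‖)
          ≤ M * (s * μ + (s * (1 + mF⁻¹)) * (mF⁻¹ * (C0 * ε1))) := by gcongr
        _ = s * (M * (μ + (1 + mF⁻¹) * (mF⁻¹ * (C0 * ε1)))) := by ring
    · exact hh_bd h hl hs t0 σ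
    · have e : M * (μ + (1 + mF⁻¹) * (mF⁻¹ * (C0 * ε1))) =
          M * μ + M * ((1 + mF⁻¹) * (mF⁻¹ * (C0 * ε1))) := by ring
      rw [e]
      linarith
    · rw [hCdef]
      have : M * (1 + ε1) = M + M * ε1 := by ring
      linarith
    · rw [hCdef]
      linarith
    · rw [hCdef]
      linarith
  · -- far from the curve
    have hfar : G * F x v ≤ G / ρ * (F x v - fderiv ℝ B x v) := by
      by_cases hv : v = 0
      · subst hv
        have e0 : F x 0 = 0 := by
          have := h.fins.hom x 0 0 le_rfl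
          simpa using this
        rw [e0]
        simp
      · have h1 : ρ * F x v < F x v - fderiv ℝ B x v := by
          by_contra hcon
          exact hn ⟨hv, not_lt.1 hcon⟩
        have h2 := mul_le_mul_of_nonneg_left h1.le hGρ
        calc G * F x v = G / ρ * (ρ * F x v) := by field_simp
          _ ≤ _ := h2
    have h1 : |F x v / s * fl| ≤ A * F x v := by
      rw [abs_mul, abs_div, abs_of_nonneg hFv, abs_of_pos hs0, div_mul_eq_mul_div, div_le_iff₀ hs0]
      calc F x v * |fl| ≤ F x v * (A * s) := mul_le_mul_of_nonneg_left hfl0 hFv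
        _ = A * F x v * s := by ring
    have h2 : |fderiv ℝ Φ x v| ≤ C0 * K * (mF⁻¹ * F x v) :=
      (hΦd x v).trans (mul_le_mul_of_nonneg_left hnv (by positivity))
    have h3 : |l x v t0 - F x v ^ 2 / 2| ≤ M + M * (mF⁻¹ * F x v) := by
      refine ha1.trans ?_
      rw [mul_add, mul_one]
      have := mul_le_mul_of_nonneg_left hnv hM
      linarith
    have h4 : |(l x v t0 - F x v ^ 2 / 2) - F x v / s * fl - fderiv ℝ Φ x v| ≤
        |l x v t0 - F x v ^ 2 / 2| + |F x v / s * fl| + |fderiv ℝ Φ x v| := by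
      refine (abs_sub _ _).trans (add_le_add ?_ le_rfl)
      exact abs_sub _ _
    have h5 : |(l x v t0 - F x v ^ 2 / 2) - F x v / s * fl - fderiv ℝ Φ x v| ≤ M + G * F x v := by
      have e : G * F x v = M * (mF⁻¹ * F x v) + A * F x v + C0 * K * (mF⁻¹ * F x v) := by
        rw [hGdef]
        ring
      rw [e]
      linarith
    have h6 : G / ρ * (F x v - fderiv ℝ B x v) ≤ C * (F x v - fderiv ℝ B x v) := by
      refine mul_le_mul_of_nonneg_right ?_ hD
      rw [hCdef]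
      linarith
    have h7 : M ≤ C := by
      rw [hCdef]
      have : M * (1 + ε1) = M + M * ε1 := by ring
      linarith
    have h8 : 0 ≤ C * |F x v - s| := by positivity
    have h9 : 0 ≤ ε * F x v := by positivity
    linarith

end B

end EscK
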