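import Pool.Agent.EscK.ED
import Pool.Agent.EscG.B1

/-!
Project EscK (MP_6acca1_an), module EE: action minus energy at frozen time is the flux, up to a small
multiple of the speed and a multiple of the excess (helper22).
-/

noncomputable section

namespace EscK

open MeasureTheory Set Filter Topology Esc EscF EscG
open scoped ContDiff

section EEaux

variable {E : Type*} [NormedAddCommGroup E] [InnerProductSpace ℝ E] [FiniteDimensional ℝ E]

/-- continuous functions of position and velocity are integrable along trajectories -/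
theorem EE_ii {Φ : E → E → ℝ} (hΦ : Continuous fun p : E × E => Φ p.1 p.2) {u : ℝ → E} (hu : Adm u)
    (a : ℝ) (z : E) (p q : ℝ) : IntervalIntegrable (fun t => Φ (traj a z u t) (u t)) volume p q := by
  have hc := traj_cont hu a z
  obtain ⟨hm, C, hC⟩ := hu
  have hK : IsCompact ((traj a z u '' uIcc p q) ×ˢ (Metric.closedBall (0 : E) C)) :=
    (isCompact_uIcc.image hc).prod (isCompact_closedBall _ _)
  obtain ⟨B, hB⟩ := hK.exists_bound_of_continuousOn hΦ.continuousOn
  rw [intervalIntegrable_iff]
  refine Measure.integrableOn_of_bounded (M := B) (by simp) ?_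
    (ae_restrict_of_forall_mem measurableSet_uIoc fun t ht => ?_)
  · exact (hΦ.comp_stronglyMeasurable (hc.stronglyMeasurable.prodMk hm)).aestronglyMeasurable
  · have ht' := uIoc_subset_uIcc ht
    exact hB (traj a z u t, u t) ⟨mem_image_of_mem _ ht', by simpa using hC t⟩

omit [FiniteDimensional ℝ E] in
theorem EE_dcont {Φ : E → ℝ} (hΦ : ContDiff ℝ 1 Φ) :
    Continuous fun p : E × E => fderiv ℝ Φ p.1 p.2 :=
  ((hΦ.continuous_fderiv one_ne_zero).comp continuous_fst).clm_apply continuous_snd

end EEaux

section B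

variable {ι : Type} [Fintype ι] {d : ℕ} {E : Type*} [NormedAddCommGroup E] [InnerProductSpace ℝ E]
  [FiniteDimensional ℝ E] {D : GD ι d E} {p : GP} {m M Mf : ℝ} {L : LP} {ll l : E → E → ℝ → ℝ}
  {f f' : E → ℝ → ℝ}
variable {β : Module.Basis ι ℝ E} {F : E → E → ℝ} {mF MF : ℝ} {B : E → ℝ} {k0 : ι} {len : ℝ} {c c' : ℝ → E}

/-- frozen time -/
theorem flx_frozen (h : CalC β F mF MF B k0 len c c') (hl : TE β F mF MF m M l) (hA : AL F M l) {ε : ℝ}
    (hε : 0 < ε) : ∃ C : ℝ, 0 ≤ C ∧ ∀ s t0, 1 ≤ s → ∀ (z : E) (u : ℝ → E), Adm u → ∀ t t' : ℝ, t ≤ t' →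
      t' ≤ t + 4 → |(∫ r in t..t', (l (traj t z u r) (u r) t0 - F (traj t z u r) (u r) ^ 2 / 2)) -
          flx F l len c c' s t0 * (t' - t)| ≤
        ε * s + C * (1 + ((∫ r in t..t', F (traj t z u r) (u r)) - (B (traj t z u t') - B z)) +
          ∫ r in t..t', |F (traj t z u r) (u r) - s|) := by
  obtain ⟨A, hA0, -, -, hAb, -, -⟩ := flx_reg h hl hA
  obtain ⟨C, hC0, hC⟩ := flx_pt h hl hA (ε := ε / 4) (by positivity)
  refine ⟨A + 6 * C + ε / 4, by positivity, ?_⟩
  intro s t0 hs z u hu t t' htt ht4
  obtain ⟨Φ, hΦ, hΦb, hpt⟩ := hC s t0 hs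
  have hs0 : 0 < s := by linarith
  -- continuity and integrability
  have cF : Continuous fun p : E × E => F p.1 p.2 := h.fins.cont
  have cl : Continuous fun p : E × E => l p.1 p.2 t0 :=
    hl.smooth.continuous.comp
      (continuous_fst.prodMk (continuous_snd.prodMk (continuous_const (y := t0))))
  have iF : IntervalIntegrable (fun r => F (traj t z u r) (u r)) volume t t' := EE_ii cF hu t z t t'
  have iq : IntervalIntegrable
      (fun r => l (traj t z u r) (u r) t0 - F (traj t z u r) (u r) ^ 2 / 2) volume t t' :=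
    EE_ii (Φ := fun x v => l x v t0 - F x v ^ 2 / 2) (cl.sub ((cF.pow 2).div_const 2)) hu t z t t'
  have iP : IntervalIntegrable (fun r => fderiv ℝ Φ (traj t z u r) (u r)) volume t t' :=
    EE_ii (Φ := fun x v => fderiv ℝ Φ x v) (EE_dcont hΦ) hu t z t t'
  have iB : IntervalIntegrable (fun r => fderiv ℝ B (traj t z u r) (u r)) volume t t' :=
    EE_ii (Φ := fun x v => fderiv ℝ B x v) (EE_dcont h.smooth) hu t z t t'
  have iS : IntervalIntegrable (fun r => |F (traj t z u r) (u r) - s|) volume t t' :=
    EE_ii (Φ := fun x v => |F x v - s|) ((cF.sub continuous_const).abs) hu t z t t'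
  have eP := ftc_traj hΦ hu t z t'
  have eB := ftc_traj h.smooth hu t z t'
  set a := flx F l len c c' s t0 with ha
  set q : ℝ → ℝ := fun r => l (traj t z u r) (u r) t0 - F (traj t z u r) (u r) ^ 2 / 2 with hq
  set IF := ∫ r in t..t', F (traj t z u r) (u r) with hIF
  set IS := ∫ r in t..t', |F (traj t z u r) (u r) - s| with hIS
  set IB := ∫ r in t..t', fderiv ℝ B (traj t z u r) (u r) with hIB
  -- the error term
  have i1 : IntervalIntegrable (fun r => q r - F (traj t z u r) (u r) / s * a) volume t t' :=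
    iq.sub ((iF.div_const s).mul_const a)
  have i2 : IntervalIntegrable
      (fun r => q r - F (traj t z u r) (u r) / s * a - fderiv ℝ Φ (traj t z u r) (u r)) volume t t' :=
    i1.sub iP
  have e1 : (∫ r in t..t', (q r - F (traj t z u r) (u r) / s * a -
      fderiv ℝ Φ (traj t z u r) (u r))) =
      (∫ r in t..t', q r) - IF / s * a - (Φ (traj t z u t') - Φ z) := by
    rw [intervalIntegral.integral_sub i1 iP, intervalIntegral.integral_sub iq
      ((iF.div_const s).mul_const a), intervalIntegral.integral_mul_const,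
      intervalIntegral.integral_div, eP]
  have iR : IntervalIntegrable (fun r => ε / 4 * F (traj t z u r) (u r) +
      C * (F (traj t z u r) (u r) - fderiv ℝ B (traj t z u r) (u r)) +
      C * |F (traj t z u r) (u r) - s| + C) volume t t' :=
    (((iF.const_mul _).add ((iF.sub iB).const_mul _)).add (iS.const_mul _)).add
      intervalIntegrable_const
  have e2 : (∫ r in t..t', (ε / 4 * F (traj t z u r) (u r) +
      C * (F (traj t z u r) (u r) - fderiv ℝ B (traj t z u r) (u r)) +
      C * |F (traj t z u r) (u r) - s| + C)) =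
      ε / 4 * IF + C * (IF - IB) + C * IS + C * (t' - t) := by
    rw [intervalIntegral.integral_add (((iF.const_mul _).add ((iF.sub iB).const_mul _)).add
        (iS.const_mul _)) intervalIntegrable_const,
      intervalIntegral.integral_add ((iF.const_mul _).add ((iF.sub iB).const_mul _))
        (iS.const_mul _),
      intervalIntegral.integral_add (iF.const_mul _) ((iF.sub iB).const_mul _),
      intervalIntegral.integral_const_mul, intervalIntegral.integral_const_mul,
      intervalIntegral.integral_const_mul, intervalIntegral.integral_sub iF iB,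
      intervalIntegral.integral_const, smul_eq_mul]
    ring
  have b1 : |∫ r in t..t', (q r - F (traj t z u r) (u r) / s * a -
      fderiv ℝ Φ (traj t z u r) (u r))| ≤
      ε / 4 * IF + C * (IF - IB) + C * IS + C * (t' - t) := by
    rw [← e2, ← Real.norm_eq_abs]
    refine (intervalIntegral.norm_integral_le_integral_norm htt).trans ?_
    refine intervalIntegral.integral_mono_on htt i2.norm iR fun r _ => ?_
    rw [Real.norm_eq_abs]
    exact hpt (traj t z u r) (u r)
  rw [e1] at b1
  -- the other terms
  have b2 : |IF - s * (t' - t)| ≤ IS := by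
    have e3 : (∫ r in t..t', (F (traj t z u r) (u r) - s)) = IF - s * (t' - t) := by
      rw [intervalIntegral.integral_sub iF intervalIntegrable_const,
        intervalIntegral.integral_const, smul_eq_mul]
      ring
    rw [← e3, ← Real.norm_eq_abs]
    refine (intervalIntegral.norm_integral_le_integral_norm htt).trans (le_of_eq ?_)
    rfl
  have b3 : |Φ (traj t z u t') - Φ z| ≤ 2 * C := by
    have h1 := hΦb (traj t z u t')
    have h2 := hΦb z
    have h3 := abs_sub (Φ (traj t z u t')) (Φ z)
    linarith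
  have b4 : |(IF - s * (t' - t)) / s * a| ≤ A * IS := by
    have h1 := hAb s t0 hs
    rw [← ha] at h1
    rw [abs_mul, abs_div, abs_of_pos hs0]
    have h2 : |IF - s * (t' - t)| / s ≤ IS / s := div_le_div_of_nonneg_right b2 hs0.le
    have h3 : 0 ≤ |IF - s * (t' - t)| / s := by positivity
    calc |IF - s * (t' - t)| / s * |a| ≤ IS / s * (A * s) :=
          mul_le_mul h2 h1 (abs_nonneg _) (h3.trans h2)
      _ = A * IS := by field_simp
  have hIS0 : 0 ≤ IS := (abs_nonneg _).trans b2
  have hexc : 0 ≤ IF - IB := by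
    rw [hIF, hIB, ← intervalIntegral.integral_sub iF iB]
    exact intervalIntegral.integral_nonneg htt fun r _ => sub_nonneg.2 (h.le _ _)
  have b5 : IF ≤ 4 * s + IS := by
    have h1 := (abs_le.1 b2).2
    nlinarith
  have e4 : (∫ r in t..t', q r) - a * (t' - t) =
      ((∫ r in t..t', q r) - IF / s * a - (Φ (traj t z u t') - Φ z)) +
        (IF - s * (t' - t)) / s * a + (Φ (traj t z u t') - Φ z) := by
    field_simp
    ring
  have b6 : C * (t' - t) ≤ 4 * C := by nlinarith
  have b7 : ε / 4 * IF ≤ ε * s + ε / 4 * IS := by nlinarith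
  change |(∫ r in t..t', q r) - a * (t' - t)| ≤
    ε * s + (A + 6 * C + ε / 4) * (1 + (IF - (B (traj t z u t') - B z)) + IS)
  rw [eB, e4]
  refine (abs_add_three _ _ _).trans ?_
  have h5 : 0 ≤ A * (IF - IB) := mul_nonneg hA0 hexc
  have h6 : 0 ≤ C * (IF - IB) := mul_nonneg hC0 hexc
  have h7 : 0 ≤ ε / 4 * (IF - IB) := mul_nonneg (by positivity) hexc
  have h8 : 0 ≤ C * IS := mul_nonneg hC0 hIS0
  have h9 : 0 ≤ A * IS := mul_nonneg hA0 hIS0
  have h10 : 0 ≤ ε / 4 * IS := mul_nonneg (by positivity) hIS0
  nlinarith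

end B

end EscK
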