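import Pool.Agent.EscK.ED
import Pool.Agent.EscK.EE
import Pool.Agent.EscG.B1

/-!
Project EscK (MP_6acca1_an), module EF: the flux property of a calibrated closed curve (helper35).
-/

set_option linter.unusedSectionVars false

noncomputable section

namespace EscK

open MeasureTheory Set Filter Topology Esc EscF EscG
open scoped ContDiff

section A

variable {E : Type*} [NormedAddCommGroup E] [InnerProductSpace ℝ E] [FiniteDimensional ℝ E]

/-- continuous functions are integrable along trajectories -/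
theorem EF_ii {g : E → E → ℝ → ℝ} (hg : Continuous (fun p : E × E × ℝ => g p.1 p.2.1 p.2.2))
    {u : ℝ → E} (hu : Adm u) (a : ℝ) (z : E) (c d : ℝ) :
    IntervalIntegrable (fun t => g (traj a z u t) (u t) t) volume c d := by
  have hc := traj_cont hu a z
  obtain ⟨hm, C, hC⟩ := hu
  have hK : IsCompact ((traj a z u '' uIcc c d) ×ˢ (Metric.closedBall (0 : E) C) ×ˢ uIcc c d) :=
    (isCompact_uIcc.image hc).prod ((isCompact_closedBall _ _).prod isCompact_uIcc)
  obtain ⟨B, hB⟩ := hK.exists_bound_of_continuousOn hg.continuousOn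
  rw [intervalIntegrable_iff]
  refine Measure.integrableOn_of_bounded (M := B) (by simp) ?_
    (ae_restrict_of_forall_mem measurableSet_uIoc fun t ht => ?_)
  · exact (hg.comp_stronglyMeasurable
      (hc.stronglyMeasurable.prodMk (hm.prodMk stronglyMeasurable_id))).aestronglyMeasurable
  · have ht' := uIoc_subset_uIcc ht
    exact hB (traj a z u t, u t, t)
      ⟨mem_image_of_mem _ ht', by simpa using hC t, ht'⟩

/-- additivity of integrals along trajectories -/
theorem EF_split {g : E → E → ℝ → ℝ} (hg : Continuous (fun p : E × E × ℝ => g p.1 p.2.1 p.2.2))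
    {u : ℝ → E} (hu : Adm u) (z : E) (a b c : ℝ) :
    ∫ r in a..c, g (traj a z u r) (u r) r = (∫ r in a..b, g (traj a z u r) (u r) r) +
      ∫ r in b..c, g (traj b (traj a z u b) u r) (u r) r := by
  have e : ∫ r in b..c, g (traj b (traj a z u b) u r) (u r) r =
      ∫ r in b..c, g (traj a z u r) (u r) r := by
    refine intervalIntegral.integral_congr fun t _ => ?_
    show g (traj b (traj a z u b) u t) (u t) t = g (traj a z u t) (u t) t
    rw [← traj_split hu a b z t]
  rw [e, intervalIntegral.integral_add_adjacent_intervals (EF_ii hg hu a z a b)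
    (EF_ii hg hu a z b c)]

end A

section B

variable {ι : Type} [Fintype ι] {d : ℕ} {E : Type*} [NormedAddCommGroup E] [InnerProductSpace ℝ E]
  [FiniteDimensional ℝ E] {D : GD ι d E} {p : GP} {m M Mf : ℝ} {L : LP} {ll l : E → E → ℝ → ℝ}
  {f f' : E → ℝ → ℝ}
variable {β : Module.Basis ι ℝ E} {F : E → E → ℝ} {mF MF : ℝ} {B : E → ℝ} {k0 : ι} {len : ℝ} {c c' : ℝ → E}

theorem EF_contF (hF : Fins β F mF MF) :
    Continuous (fun p : E × E × ℝ => (fun x v (_ : ℝ) => F x v) p.1 p.2.1 p.2.2) :=
  hF.cont.comp (continuous_fst.prodMk (continuous_fst.comp continuous_snd))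

theorem EF_contD (hF : Fins β F mF MF) (s : ℝ) :
    Continuous (fun p : E × E × ℝ => (fun x v (_ : ℝ) => |F x v - s|) p.1 p.2.1 p.2.2) :=
  ((EF_contF hF).sub continuous_const).abs

theorem EF_contL (hl : TE β F mF MF m M l) :
    Continuous (fun p : E × E × ℝ => (fun x v t => l x v t - F x v ^ 2 / 2) p.1 p.2.1 p.2.2) :=
  hl.smooth.continuous.sub (((EF_contF hl.fins).pow 2).div_const 2)

theorem EF_contL0 (hl : TE β F mF MF m M l) (t0 : ℝ) :
    Continuous (fun p : E × E × ℝ => (fun x v (_ : ℝ) => l x v t0 - F x v ^ 2 / 2)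
      p.1 p.2.1 p.2.2) := by
  have h1 := EF_contL hl
  exact h1.comp (continuous_fst.prodMk ((continuous_fst.comp continuous_snd).prodMk
    continuous_const))

/-- one piece -/
theorem EF_piece (hl : TE β F mF MF m M l) {fl : ℝ → ℝ → ℝ} {A e1 C δ s : ℝ}
    (hfc : ∀ s, Continuous (fl s)) (hA0 : 0 ≤ A)
    (hft : ∀ s t t', 1 ≤ s → |fl s t - fl s t'| ≤ A * s * |t - t'|)
    (hfz : ∀ s t0, 1 ≤ s → ∀ (z : E) (u : ℝ → E), Adm u → ∀ t t' : ℝ, t ≤ t' →
      t' ≤ t + 4 → |(∫ r in t..t', (l (traj t z u r) (u r) t0 - F (traj t z u r) (u r) ^ 2 / 2)) -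
          fl s t0 * (t' - t)| ≤
        e1 * s + C * (1 + ((∫ r in t..t', F (traj t z u r) (u r)) - (B (traj t z u t') - B z)) +
          ∫ r in t..t', |F (traj t z u r) (u r) - s|))
    (hδ4 : δ ≤ 4) (hs : 1 ≤ s) {u : ℝ → E} (hu : Adm u) (z : E) {t t' : ℝ}
    (htt : t ≤ t') (htt' : t' ≤ t + δ) :
    |(∫ r in t..t', (l (traj t z u r) (u r) r - F (traj t z u r) (u r) ^ 2 / 2)) -
        ∫ r in t..t', fl s r| ≤
      (e1 * s + C) + C * ((∫ r in t..t', F (traj t z u r) (u r)) - (B (traj t z u t') - B z)) +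
        (C + M * δ / mF) * (∫ r in t..t', |F (traj t z u r) (u r) - s|) +
        (M * δ + (M * δ / mF + A * δ) * s) * (t' - t) := by
  have hF := hl.fins
  have hmF := hF.mF_pos
  have hδ0 : 0 ≤ δ := by linarith
  have hs0 : 0 ≤ s := by linarith
  have hM := hl.M_nonneg
  have i1 := EF_ii (g := fun x v t => l x v t - F x v ^ 2 / 2) (EF_contL hl) hu t z t t'
  have i2 := EF_ii (g := fun x v _ => l x v t - F x v ^ 2 / 2) (EF_contL0 hl t) hu t z t t'
  have i3 := EF_ii (g := fun x v _ => |F x v - s|) (EF_contD hF s) hu t z t t'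
  have i4 : IntervalIntegrable (fl s) volume t t' := (hfc s).intervalIntegrable _ _
  -- the freezing error
  have h1 : |(∫ r in t..t', (l (traj t z u r) (u r) r - F (traj t z u r) (u r) ^ 2 / 2)) -
      ∫ r in t..t', (l (traj t z u r) (u r) t - F (traj t z u r) (u r) ^ 2 / 2)| ≤
      M * δ / mF * (∫ r in t..t', |F (traj t z u r) (u r) - s|) +
        (M * δ + M * δ / mF * s) * (t' - t) := by
    rw [← intervalIntegral.integral_sub i1 i2]
    have h2 : |∫ r in t..t', (l (traj t z u r) (u r) r - F (traj t z u r) (u r) ^ 2 / 2 -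
        (l (traj t z u r) (u r) t - F (traj t z u r) (u r) ^ 2 / 2))| ≤
        ∫ r in t..t', (M * δ / mF * |F (traj t z u r) (u r) - s| + (M * δ + M * δ / mF * s)) := by
      rw [← Real.norm_eq_abs]
      refine intervalIntegral.norm_integral_le_of_norm_le htt ?_
        ((i3.const_mul _).add intervalIntegrable_const)
      refine ae_of_all _ fun r hr => ?_
      rw [Real.norm_eq_abs, sub_sub_sub_cancel_right]
      have h3 := hl.l_t (traj t z u r) (u r) r t
      have h4 : |r - t| ≤ δ := by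
        rw [abs_le]
        constructor <;> linarith [hr.1, hr.2]
      have h5 := hF.low (traj t z u r) (u r)
      have h6 : ‖u r‖ ≤ (|F (traj t z u r) (u r) - s| + s) / mF := by
        rw [le_div_iff₀ hmF]
        have := le_abs_self (F (traj t z u r) (u r) - s)
        linarith
      have h7 : M * (1 + ‖u r‖) * |r - t| ≤
          M * (1 + (|F (traj t z u r) (u r) - s| + s) / mF) * δ := by
        gcongr
      refine h3.trans (h7.trans (le_of_eq ?_))
      field_simp
      ring
    refine h2.trans (le_of_eq ?_)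
    rw [intervalIntegral.integral_add (i3.const_mul _) intervalIntegrable_const,
      intervalIntegral.integral_const_mul, intervalIntegral.integral_const, smul_eq_mul]
    ring
  -- the flux error
  have h8 : |fl s t * (t' - t) - ∫ r in t..t', fl s r| ≤ A * s * δ * (t' - t) := by
    have e : fl s t * (t' - t) = ∫ _r in t..t', fl s t := by
      rw [intervalIntegral.integral_const, smul_eq_mul]
      ring
    rw [e, ← intervalIntegral.integral_sub intervalIntegrable_const i4, ← Real.norm_eq_abs]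
    have h9 : ∀ r ∈ Set.uIoc t t', ‖fl s t - fl s r‖ ≤ A * s * δ := by
      intro r hr
      rw [uIoc_of_le htt] at hr
      rw [Real.norm_eq_abs]
      refine (hft s t r hs).trans ?_
      have h4 : |t - r| ≤ δ := by
        rw [abs_le]
        constructor <;> linarith [hr.1, hr.2]
      gcongr
    have h10 := intervalIntegral.norm_integral_le_of_norm_le_const h9
    rwa [abs_of_nonneg (sub_nonneg.mpr htt)] at h10
  have h11 := hfz s t hs z u hu t t' htt (by linarith)
  have h12 := abs_add_le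
    ((∫ r in t..t', (l (traj t z u r) (u r) r - F (traj t z u r) (u r) ^ 2 / 2)) -
      ∫ r in t..t', (l (traj t z u r) (u r) t - F (traj t z u r) (u r) ^ 2 / 2))
    (((∫ r in t..t', (l (traj t z u r) (u r) t - F (traj t z u r) (u r) ^ 2 / 2)) -
          fl s t * (t' - t)) + (fl s t * (t' - t) - ∫ r in t..t', fl s r))
  have h13 := abs_add_le ((∫ r in t..t', (l (traj t z u r) (u r) t -
    F (traj t z u r) (u r) ^ 2 / 2)) - fl s t * (t' - t))
    (fl s t * (t' - t) - ∫ r in t..t', fl s r)
  have e14 : (∫ r in t..t', (l (traj t z u r) (u r) r - F (traj t z u r) (u r) ^ 2 / 2)) -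
      (∫ r in t..t', (l (traj t z u r) (u r) t - F (traj t z u r) (u r) ^ 2 / 2)) +
      (((∫ r in t..t', (l (traj t z u r) (u r) t - F (traj t z u r) (u r) ^ 2 / 2)) -
          fl s t * (t' - t)) + (fl s t * (t' - t) - ∫ r in t..t', fl s r)) =
      (∫ r in t..t', (l (traj t z u r) (u r) r - F (traj t z u r) (u r) ^ 2 / 2)) -
        ∫ r in t..t', fl s r := by ring
  rw [e14] at h12
  generalize (∫ r in t..t', |F (traj t z u r) (u r) - s|) = I1 at *
  generalize (∫ r in t..t', F (traj t z u r) (u r)) - (B (traj t z u t') - B z) = I2 at *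
  refine h12.trans ?_
  have e15 : (e1 * s + C) + C * I2 + (C + M * δ / mF) * I1 +
      (M * δ + (M * δ / mF + A * δ) * s) * (t' - t) =
      (M * δ / mF * I1 + (M * δ + M * δ / mF * s) * (t' - t)) +
      ((e1 * s + C * (1 + I2 + I1)) + A * s * δ * (t' - t)) := by ring
  rw [e15]
  exact add_le_add h1 (h13.trans (add_le_add h11 h8))

/-- many pieces -/
theorem EF_pieces (hl : TE β F mF MF m M l) {fl : ℝ → ℝ → ℝ} {A e1 C δ s : ℝ}
    (hfc : ∀ s, Continuous (fl s)) (hA0 : 0 ≤ A)
    (hft : ∀ s t t', 1 ≤ s → |fl s t - fl s t'| ≤ A * s * |t - t'|)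
    (hfz : ∀ s t0, 1 ≤ s → ∀ (z : E) (u : ℝ → E), Adm u → ∀ t t' : ℝ, t ≤ t' →
      t' ≤ t + 4 → |(∫ r in t..t', (l (traj t z u r) (u r) t0 - F (traj t z u r) (u r) ^ 2 / 2)) -
          fl s t0 * (t' - t)| ≤
        e1 * s + C * (1 + ((∫ r in t..t', F (traj t z u r) (u r)) - (B (traj t z u t') - B z)) +
          ∫ r in t..t', |F (traj t z u r) (u r) - s|))
    (hδ0 : 0 ≤ δ) (hδ4 : δ ≤ 4) (hs : 1 ≤ s) {u : ℝ → E} (hu : Adm u) :
    ∀ (n : ℕ) (z : E) (t t' : ℝ), t ≤ t' → t' ≤ t + n * δ →
    |(∫ r in t..t', (l (traj t z u r) (u r) r - F (traj t z u r) (u r) ^ 2 / 2)) -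
        ∫ r in t..t', fl s r| ≤
      n * (e1 * s + C) + C * ((∫ r in t..t', F (traj t z u r) (u r)) -
          (B (traj t z u t') - B z)) +
        (C + M * δ / mF) * (∫ r in t..t', |F (traj t z u r) (u r) - s|) +
        (M * δ + (M * δ / mF + A * δ) * s) * (t' - t) := by
  intro n
  induction n with
  | zero =>
    intro z t t' htt htt'
    have e : t' = t := by
      rw [Nat.cast_zero, zero_mul, add_zero] at htt'
      exact le_antisymm htt' htt
    subst e
    have hz : traj t' z u t' = z := by simp [traj]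
    simp [hz]
  | succ n ih =>
    intro z t t' htt htt'
    obtain ⟨t1, h1, h2, h3, h4⟩ : ∃ t1, t ≤ t1 ∧ t1 ≤ t' ∧ t1 ≤ t + δ ∧ t' ≤ t1 + n * δ := by
      rcases le_total (t + δ) t' with hc | hc
      · refine ⟨t + δ, by linarith, hc, le_rfl, ?_⟩
        rw [Nat.cast_add, Nat.cast_one] at htt'
        linarith
      · refine ⟨t', htt, le_rfl, hc, ?_⟩
        have : 0 ≤ (n : ℝ) * δ := by positivity
        linarith
    have g1 := EF_piece hl hfc hA0 hft hfz hδ4 hs hu z h1 h3
    have g2 := ih (traj t z u t1) t1 t' h2 h4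
    have s1 := EF_split (g := fun x v t => l x v t - F x v ^ 2 / 2) (EF_contL hl) hu z t t1 t'
    have s2 := EF_split (g := fun x v _ => |F x v - s|) (EF_contD hl.fins s) hu z t t1 t'
    have s3 := EF_split (g := fun x v _ => F x v) (EF_contF hl.fins) hu z t t1 t'
    have s4 := intervalIntegral.integral_add_adjacent_intervals
      ((hfc s).intervalIntegrable (μ := volume) t t1) ((hfc s).intervalIntegrable (μ := volume) t1 t')
    have s5 := traj_split hu t t1 z t'
    rw [s1, s2, s3, ← s4, s5]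
    have g3 := abs_add_le
      ((∫ r in t..t1, (l (traj t z u r) (u r) r - F (traj t z u r) (u r) ^ 2 / 2)) -
        ∫ r in t..t1, fl s r)
      ((∫ r in t1..t', (l (traj t1 (traj t z u t1) u r) (u r) r -
          F (traj t1 (traj t z u t1) u r) (u r) ^ 2 / 2)) - ∫ r in t1..t', fl s r)
    have e1' : ((∫ r in t..t1, (l (traj t z u r) (u r) r - F (traj t z u r) (u r) ^ 2 / 2)) +
        ∫ r in t1..t', (l (traj t1 (traj t z u t1) u r) (u r) r -
          F (traj t1 (traj t z u t1) u r) (u r) ^ 2 / 2)) -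
        ((∫ r in t..t1, fl s r) + ∫ r in t1..t', fl s r) =
        ((∫ r in t..t1, (l (traj t z u r) (u r) r - F (traj t z u r) (u r) ^ 2 / 2)) -
        ∫ r in t..t1, fl s r) +
      ((∫ r in t1..t', (l (traj t1 (traj t z u t1) u r) (u r) r -
          F (traj t1 (traj t z u t1) u r) (u r) ^ 2 / 2)) - ∫ r in t1..t', fl s r) := by ring
    rw [e1']
    refine g3.trans ((add_le_add g1 g2).trans (le_of_eq ?_))
    rw [Nat.cast_add, Nat.cast_one]
    ring

/-- the excess is nonnegative -/
theorem EF_exc (h : CalC β F mF MF B k0 len c c') {u : ℝ → E} (hu : Adm u) (z : E) {t t' : ℝ}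
    (htt : t ≤ t') : 0 ≤ (∫ r in t..t', F (traj t z u r) (u r)) - (B (traj t z u t') - B z) := by
  rw [ftc_traj h.smooth hu t z t', sub_nonneg]
  have hc : Continuous (fun p : E × E × ℝ => (fun x v (_ : ℝ) => fderiv ℝ B x v) p.1 p.2.1 p.2.2) :=
    ((h.smooth.continuous_fderiv one_ne_zero).comp continuous_fst).clm_apply
      (continuous_fst.comp continuous_snd)
  exact intervalIntegral.integral_mono_on htt
    (EF_ii (g := fun x v _ => fderiv ℝ B x v) hc hu t z t t')
    (EF_ii (g := fun x v _ => F x v) (EF_contF h.fins) hu t z t t') fun r _ => h.le _ _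

/-- the flux property -/
theorem FL_of_CalC (h : CalC β F mF MF B k0 len c c') (hl : TE β F mF MF m M l) (hA : AL F M l) :
    ∃ L : LP, ∀ g : E, FL (gdC β F mF MF B k0 len c g) m L l := by
  obtain ⟨A, hA0, a1, a2, a3, a4, a5⟩ := flx_reg h hl hA
  have hmF := hl.fins.mF_pos
  have hM := hl.M_nonneg
  -- the constants
  have key : ∀ ε : ℝ, 0 < ε → ∃ K : ℝ, 0 ≤ K ∧ ∀ s : ℝ, 1 ≤ s → ∀ (z : E) (u : ℝ → E), Adm u →
      ∀ t t' : ℝ, t ≤ t' → t' ≤ t + 4 →
      |(∫ r in t..t', (l (traj t z u r) (u r) r - F (traj t z u r) (u r) ^ 2 / 2)) -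
        ∫ r in t..t', flx F l len c c' s r| ≤
      ε * s + K * (1 + ((∫ r in t..t', F (traj t z u r) (u r)) -
        (B (traj t z u t') - B z)) + ∫ r in t..t', |F (traj t z u r) (u r) - s|) := by
    intro ε hε
    obtain ⟨n, hn⟩ := exists_nat_gt (32 * (M / mF + A) / ε)
    have hX : 0 ≤ M / mF + A := by positivity
    have hn0 : (0 : ℝ) < n := lt_of_le_of_lt (by positivity) hn
    have hn1 : (1 : ℝ) ≤ n := by
      have : 0 < n := by exact_mod_cast hn0
      exact_mod_cast this
    obtain ⟨C, hC0, hC⟩ := flx_frozen h hl hA (ε := ε / (2 * n)) (by positivity)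
    obtain ⟨δ, hδ⟩ : ∃ δ : ℝ, δ = 4 / n := ⟨_, rfl⟩
    have hδ0 : 0 ≤ δ := by rw [hδ]; positivity
    have hδ4 : δ ≤ 4 := by
      rw [hδ, div_le_iff₀ hn0]
      linarith
    have hnδ : n * δ = 4 := by
      rw [hδ]
      field_simp
    have hsmall : 4 * ((M / mF + A) * δ) ≤ ε / 2 := by
      rw [div_lt_iff₀ hε] at hn
      rw [hδ]
      have e : 4 * ((M / mF + A) * (4 / n)) = 16 * (M / mF + A) / n := by ring
      rw [e, div_le_iff₀ hn0]
      linarith
    refine ⟨n * C + C + (M * δ / mF) + 4 * (M * δ), by positivity, ?_⟩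
    intro s hs z u hu t t' htt htt'
    have h1 := EF_pieces (B := B) hl a1 hA0 a5 hC hδ0 hδ4 hs hu n z t t' htt
      (by rw [hnδ]; exact htt')
    refine h1.trans ?_
    have hexc := EF_exc h hu z htt
    have hdev : 0 ≤ ∫ r in t..t', |F (traj t z u r) (u r) - s| :=
      intervalIntegral.integral_nonneg htt fun r _ => abs_nonneg _
    generalize (∫ r in t..t', |F (traj t z u r) (u r) - s|) = I1 at *
    generalize (∫ r in t..t', F (traj t z u r) (u r)) - (B (traj t z u t') - B z) = I2 at *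
    have hs0 : 0 ≤ s := by linarith
    have ht4 : t' - t ≤ 4 := by linarith
    have ht0 : 0 ≤ t' - t := by linarith
    have b1 : (n : ℝ) * (ε / (2 * n) * s + C) = ε / 2 * s + n * C := by
      field_simp
    have b2 : (M * δ + (M * δ / mF + A * δ) * s) * (t' - t) ≤ 4 * (M * δ) + ε / 2 * s := by
      have c1 : (M * δ + (M * δ / mF + A * δ) * s) * (t' - t) ≤
          (M * δ + (M * δ / mF + A * δ) * s) * 4 := by
        gcongr
      have c2 : 4 * ((M / mF + A) * δ) * s ≤ ε / 2 * s := by gcongr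
      have c3 : (M * δ + (M * δ / mF + A * δ) * s) * 4 =
          4 * (M * δ) + 4 * ((M / mF + A) * δ) * s := by ring
      linarith
    have b3 : 0 ≤ (n * C + M * δ / mF + 4 * (M * δ)) * I2 := by positivity
    have b4 : 0 ≤ (n * C + 4 * (M * δ)) * I1 := by positivity
    have b5 : 0 ≤ C + M * δ / mF := by positivity
    have e : ε * s + (n * C + C + (M * δ / mF) + 4 * (M * δ)) * (1 + I2 + I1) =
        (ε / 2 * s + n * C + C * I2 + (C + M * δ / mF) * I1 + (4 * (M * δ) + ε / 2 * s)) +
        (C + M * δ / mF) + (n * C + M * δ / mF + 4 * (M * δ)) * I2 +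
        (n * C + 4 * (M * δ)) * I1 := by ring
    rw [e, b1]
    linarith
  choose K hK0 hK using key
  refine ⟨⟨M, A, flx F l len c c', fun ε => if hε : 0 < ε then K ε hε else 0⟩, fun g => ?_⟩
  refine ⟨hl, hA0, ?_, a1, a2, a3, a4, ?_⟩
  · intro ε
    show 0 ≤ (if hε : 0 < ε then K ε hε else 0)
    split_ifs with hε
    · exact hK0 ε hε
    · exact le_rfl
  · intro ε hε s hs z u hu t t' htt htt'
    have h1 := hK ε hε s hs z u hu t t' htt htt'
    show |(∫ r in t..t', (l (traj t z u r) (u r) r - F (traj t z u r) (u r) ^ 2 / 2)) -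
        ∫ r in t..t', flx F l len c c' s r| ≤
      ε * s + (if hε : 0 < ε then K ε hε else 0) * (1 + ((∫ r in t..t', F (traj t z u r) (u r)) -
        (B (traj t z u t') - B z)) + ∫ r in t..t', |F (traj t z u r) (u r) - s|)
    rw [dif_pos hε]
    exact h1

end B

end EscK
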