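import Pool.Agent.EscK.KDefs
import Pool.Agent.EscG.F6m1

/-!
Project EscK (MP_6acca1_an), module F6, first part: finite sums of bumps of the class. The other lemmas of
this part (numbers, cells, visible cells) do not depend on the class of Lagrangians: `EscG.F6m1`.
-/

noncomputable section

namespace EscK

open MeasureTheory Set Filter Topology Esc EscF EscG
open scoped ContDiff

variable {ι : Type} [Fintype ι] {E : Type*} [NormedAddCommGroup E] [InnerProductSpace ℝ E]
  {β : Module.Basis ι ℝ E}

/-- finite sums of bumps of the class -/
theorem F6_mem_sum (S : SCl β) {κ : Type*} (I : Finset κ) {b : κ → E → ℝ → ℝ}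
    (hb : ∀ i, S.mem (b i)) (σ : κ → ℝ) : S.mem (fun x t => ∑ i ∈ I, σ i * b i x t) := by
  classical
  induction I using Finset.induction_on with
  | empty => simpa using S.zero
  | insert a s ha ih =>
    have h1 : (fun (x : E) (t : ℝ) => ∑ i ∈ insert a s, σ i * b i x t) =
        fun x t => (σ a * b a x t) + ∑ i ∈ s, σ i * b i x t := by
      funext x t
      rw [Finset.sum_insert ha]
    rw [h1]
    exact S.add _ _ (S.smul _ _ (hb a)) ih

end EscK
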