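import Pool.Agent.EscK.KDefs
import Pool.Agent.EscK.F6m2
import Pool.Agent.EscG.A5a
import Pool.Agent.EscK.C13
import Pool.Agent.EscG.F2a
import Pool.Agent.EscG.F4

/-!
Project EscK (MP_6acca1_an), module F6: gates for the barrier functional.
-/

set_option linter.unusedSectionVars false

noncomputable section

namespace EscK

open MeasureTheory Set Filter Topology Esc EscF EscG
open scoped ContDiff Pointwise

variable {ι : Type} [Fintype ι] {d : ℕ} {E : Type*} [NormedAddCommGroup E] [InnerProductSpace ℝ E]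
  [FiniteDimensional ℝ E] {D : GD ι d E} {p : GP} {m M : ℝ} {L : LP} {l : E → E → ℝ → ℝ}

/-- there are gate points well inside -/
private theorem F6_wit (h : D.Ok) (hp : p.Ok D) {ε : ℝ} (hε : 0 < ε) : ∃ w ∈ D.Out (4 * p.ηc),
    D.j D.q0 w + D.j w (D.q1 + D.g) ≤ D.U + ε := by
  obtain ⟨n, hn⟩ := exists_j_lt h.toOk0 D.q0 (D.q1 + D.g) (ε := ε / 2) (by positivity)
  obtain ⟨u, hu, hend, hpt, -⟩ := exists_path_fd h.fins (ε := ε / 2) (by positivity) D.q0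
    (D.q1 + D.g + lv D.b n)
  have hηc := hp.ηc_pos
  have hcont : Continuous fun t => Metric.infDist (traj 0 D.q0 u t) D.Z :=
    (Metric.continuous_infDist_pt _).comp (traj_cont hu 0 D.q0)
  have hlvL : ∀ n : Fin d → ℤ, lv D.b n ∈ D.Lam := by
    intro n
    unfold lv GD.Lam
    refine Submodule.sum_mem _ fun i _ => ?_
    obtain ⟨k, hk⟩ := h.bβ i
    rw [hk, Int.cast_smul_eq_zsmul]
    exact Submodule.smul_mem _ _ (Submodule.subset_span ⟨k, rfl⟩)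
  have h0 : Metric.infDist (traj 0 D.q0 u 0) D.Z = 0 := by
    have : traj 0 D.q0 u 0 = D.q0 := by simp [traj]
    rw [this]
    exact Metric.infDist_zero_of_mem h.q0_mem
  have hgn : ¬ D.InJ (D.g + lv D.b n) := by
    rintro ⟨n', hn'⟩
    refine h.g_not ⟨n' - n, ?_⟩
    have : D.g = lv D.b n' - lv D.b n := by rw [← hn']; abel
    rw [this]
    unfold lv
    rw [← Finset.sum_sub_distrib]
    refine Finset.sum_congr rfl fun i _ => ?_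
    rw [← sub_smul]
    push_cast [Pi.sub_apply]
    rfl
  have h1 : 8 * p.ηc ≤ Metric.infDist (traj 0 D.q0 u 1) D.Z := by
    have := hp.sep (D.g + lv D.b n) (D.Lam.add_mem h.g_mem (hlvL n)) hgn D.q1 h.q1_mem
    rw [hend]
    rwa [← add_assoc] at this
  obtain ⟨t, ht, ht4⟩ : ∃ t ∈ Icc (0 : ℝ) 1, Metric.infDist (traj 0 D.q0 u t) D.Z = 4 * p.ηc := by
    have := intermediate_value_Icc (zero_le_one (α := ℝ)) hcont.continuousOn
    exact this ⟨by rw [h0]; positivity, by linarith⟩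
  have hZne : D.Z.Nonempty := ⟨D.q0, h.q0_mem⟩
  refine ⟨traj 0 D.q0 u t, ?_, ?_⟩
  · intro v hv
    by_cases hvJ : D.InJ v
    · obtain ⟨k, rfl⟩ := hvJ
      rw [← ht4]
      refine le_of_forall_pos_lt_add fun δ hδ => ?_
      obtain ⟨z, hz, hdz⟩ := (Metric.infDist_lt_iff hZne).1
        (lt_add_of_pos_right (Metric.infDist (traj 0 D.q0 u t + lv D.b k) D.Z) hδ)
      have hz' : z + lv D.b (-k) ∈ D.Z := h.Z_J (-k) z hz
      have hneg : lv D.b (-k) = -lv D.b k := by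
        unfold lv
        rw [← Finset.sum_neg_distrib]
        refine Finset.sum_congr rfl fun i _ => ?_
        rw [← neg_smul]
        push_cast [Pi.neg_apply]
        rfl
      have h2 := Metric.infDist_le_dist_of_mem (x := traj 0 D.q0 u t) hz'
      have h3 : dist (traj 0 D.q0 u t) (z + lv D.b (-k)) = dist (traj 0 D.q0 u t + lv D.b k) z := by
        rw [hneg, dist_eq_norm, dist_eq_norm]
        congr 1
        abel
      rw [h3] at h2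
      linarith
    · refine le_of_forall_pos_lt_add fun δ hδ => ?_
      have hlt : Metric.infDist (traj 0 D.q0 u t) D.Z < 4 * p.ηc + δ := by rw [ht4]; linarith
      obtain ⟨z, hz, hdz⟩ := (Metric.infDist_lt_iff hZne).1 hlt
      have h2 := hp.sep v hv hvJ z hz
      have h3 := Metric.infDist_le_infDist_add_dist (s := D.Z) (x := z + v)
        (y := traj 0 D.q0 u t + v)
      have h4 : dist (z + v) (traj 0 D.q0 u t + v) = dist (traj 0 D.q0 u t) z := by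
        rw [dist_add_right, dist_comm]
      rw [h4] at h3
      linarith
  · have h2 := hpt t ht
    have h3 : D.j D.q0 (traj 0 D.q0 u t) ≤ fd D.F D.q0 (traj 0 D.q0 u t) -
        (D.B (traj 0 D.q0 u t) - D.B D.q0) := by
      have := j_le h.toOk0 D.q0 (traj 0 D.q0 u t) 0
      have h0 : lv D.b (0 : Fin d → ℤ) = 0 := by simp [lv]
      rwa [h0, add_zero] at this
    have h4 := j_le h.toOk0 (traj 0 D.q0 u t) (D.q1 + D.g) n
    unfold GD.U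
    linarith

/-- from few near-minimal cells to a gate -/
theorem F6_front (h : D.Ok) (hp : p.Ok D) {Nn : ℕ} {Φ : Fin Nn → E → ℝ}
    (hΦ : ∀ k, ContinuousOn (Φ k) (D.Mg (p.ηc / 2) (2 * p.κ)))
    (hJ : ∀ k w (n : Fin d → ℤ), Φ k (w + lv D.b n) = Φ k w) {Cn : Finset E} {ρ : ℝ} (hρ : 0 < ρ)
    (hCnM : ∀ c ∈ Cn, c ∈ D.Md p) (hCn : ∀ w ∈ D.Md p, ∃ c ∈ Cn, ∃ v ∈ D.Lam, ‖w + v - c‖ ≤ ρ)
    (hne : Nonempty (Fin Nn × {c // c ∈ Cn})) {C1 η δ ds : ℝ} {N1 : ℕ}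
    (hin : ∀ k, ∀ w ∈ D.Md p, (∀ k', ∀ w' ∈ D.Md p, Φ k w ≤ Φ k' w') →
      ∃ k', ∃ w' ∈ D.Mi p, Φ k' w' ≤ Φ k w + C1)
    (hfew : ∀ μ : ℝ, (∀ k : Fin Nn, ∀ w ∈ D.Md p, μ ≤ Φ k w) →
      ∀ T : Finset (Fin Nn × {c // c ∈ Cn}), (∀ q ∈ T, ∃ w ∈ F6_Q D p ρ q.2, Φ q.1 w ≤ μ + η) →
      T.card ≤ N1)
    {ρ0 r0 : ℝ} (hρ0 : ∀ w ∈ D.Mi p, ∀ z, ‖z - w‖ ≤ ρ0 → z ∈ D.Md p)
    (hsf : ∀ (N1 : ℕ) (r : ℝ), 0 < r → 3 * r * (N1 + 2) ≤ r0 →
      ∀ (z0 : E) (P : E → Prop) (T : Finset E), T.card ≤ N1 →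
      (∀ z, P z → ∃ c ∈ T, ∃ v ∈ D.Lam, ‖z + v - c‖ ≤ r) →
      ∃ ρ : ℝ, 0 < ρ ∧ ρ ≤ 3 * r * (N1 + 1) ∧ ∀ z, ‖z - z0‖ = ρ → ¬ P z)
    (h1 : 3 * ρ * (N1 + 2) ≤ r0) (h2 : 3 * ρ * (N1 + 1) ≤ ρ0)
    (hδ : C1 + δ + ds * (D.MF * (3 * ρ * (N1 + 1))) ≤ η) (hds : 0 ≤ ds) :
    ∃ (k : Fin Nn) (A : Set E), IsCompact A ∧ A.Nonempty ∧ A ⊆ D.Md p ∧ ∀ z ∈ frontier A, ∃ w ∈ A,
      Φ k w - ds * D.B w + δ ≤ Φ k z - ds * D.B z := by
  classical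
  have : ProperSpace E := FiniteDimensional.proper ℝ E
  have hmin : ∀ q : Fin Nn × {c // c ∈ Cn}, ∃ w ∈ F6_Q D p ρ q.2,
      ∀ z ∈ F6_Q D p ρ q.2, Φ q.1 w ≤ Φ q.1 z := by
    intro q
    refine F6_min h hp ⟨q.2, hCnM _ q.2.2, 0, D.Lam.zero_mem, ?_⟩ (hΦ q.1) (hJ q.1)
    rw [add_zero, sub_self, norm_zero]
    exact hρ.le
  choose wq hwq hwqmin using hmin
  obtain ⟨q0, hq0⟩ := Finite.exists_min fun q : Fin Nn × {c // c ∈ Cn} => Φ q.1 (wq q)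
  have hμ : ∀ k : Fin Nn, ∀ w ∈ D.Md p, Φ q0.1 (wq q0) ≤ Φ k w := by
    intro k w hw
    obtain ⟨c, hc, v, hv, hwv⟩ := hCn w hw
    exact (hq0 (k, ⟨c, hc⟩)).trans (hwqmin (k, ⟨c, hc⟩) w ⟨hw, v, hv, hwv⟩)
  obtain ⟨k, w, hw, hwk⟩ := hin q0.1 (wq q0) (hwq q0).1 hμ
  set μ := Φ q0.1 (wq q0) with hμdef
  set T' : Finset (Fin Nn × {c // c ∈ Cn}) := Finset.univ.filter fun q =>
    q.1 = k ∧ ∃ w ∈ F6_Q D p ρ q.2, Φ q.1 w ≤ μ + η with hT'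
  have hT'c : T'.card ≤ N1 := hfew μ hμ T' fun q hq => (Finset.mem_filter.1 hq).2.2
  obtain ⟨ρi, hρi, hρi1, hfree⟩ := hsf N1 ρ hρ h1 w (fun z => z ∈ D.Md p ∧ Φ k z ≤ μ + η)
    (T'.image fun q => (q.2 : E)) (Finset.card_image_le.trans hT'c) (by
      rintro z ⟨hz, hzk⟩
      obtain ⟨c, hc, v, hv, hzv⟩ := hCn z hz
      refine ⟨c, Finset.mem_image.2 ⟨(k, ⟨c, hc⟩), Finset.mem_filter.2 ⟨Finset.mem_univ _, rfl, z,
        ⟨hz, v, hv, hzv⟩, hzk⟩, rfl⟩, v, hv, hzv⟩)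
  have hsub : Metric.closedBall w ρi ⊆ D.Md p := by
    intro z hz
    rw [Metric.mem_closedBall, dist_eq_norm] at hz
    exact hρ0 w hw z (hz.trans (hρi1.trans h2))
  refine ⟨k, Metric.closedBall w ρi, isCompact_closedBall w ρi,
    ⟨w, Metric.mem_closedBall_self hρi.le⟩, hsub, fun z hz => ⟨w, Metric.mem_closedBall_self hρi.le, ?_⟩⟩
  have hzs := Metric.frontier_closedBall_subset_sphere hz
  rw [mem_sphere_iff_norm] at hzs
  have hzM : z ∈ D.Md p := hsub (by rw [Metric.mem_closedBall, dist_eq_norm]; exact hzs.le)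
  have hz1 : μ + η < Φ k z := by
    by_contra hcon
    push Not at hcon
    exact hfree z hzs ⟨hzM, hcon⟩
  have hB := Cal.lip h.fins h.cal z w
  have hMF : 0 ≤ D.MF := h.fins.mF_pos.le.trans h.fins.mF_le
  have hB1 : D.B z - D.B w ≤ D.MF * (3 * ρ * (N1 + 1)) := by
    refine (le_abs_self _).trans (hB.trans ?_)
    rw [hzs]
    exact mul_le_mul_of_nonneg_left hρi1 hMF
  have hB2 := mul_le_mul_of_nonneg_left hB1 hds
  have hB3 : ds * (D.B z - D.B w) = ds * D.B z - ds * D.B w := by ring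
  rw [hB3] at hB2
  linarith

theorem gates (S : SCl D.β) (h : D.Ok) (hp : p.Ok D) (hl : FL D m L l) (Mf : ℝ) (hMf : 0 ≤ Mf) :
    ∃ q0 : ℕ, ∀ (N : SmNorm D.β) (q : ℕ), q0 ≤ q → ∀ ε : ℝ, 0 < ε → ∃ (J : ℕ) (s : ℕ → ℝ) (δ : ℝ),
    0 < J ∧ 0 < δ ∧ s 0 = q ∧ s J = q + 1 ∧ (∀ i ≤ J, (q : ℝ) ≤ s i ∧ s i ≤ q + 1) ∧
    ∀ f, Pt D.β f → Good Mf f → ∃ G, S.mem G ∧ N.nm G ≤ ε ∧ Good ε G ∧ (∀ x t, 0 ≤ G x t) ∧
      (∀ x, x ∉ D.Out (p.ηc / 2) → ∀ t, G x t = 0) ∧ ∀ i < J, ∃ (r : ℝ) (A : Set E), 0 ≤ r ∧ r < 1 ∧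
        IsCompact A ∧ A.Nonempty ∧ A ⊆ D.Md p ∧ ∀ z ∈ frontier A, ∃ w ∈ A,
          D.W p (lf l (fun x t => f x t + G x t)) (s i) (s (i + 1)) r w - (s (i + 1) - s i) * D.B w + δ ≤
            D.W p (lf l (fun x t => f x t + G x t)) (s i) (s (i + 1)) r z
              - (s (i + 1) - s i) * D.B z := by
  classical
  obtain ⟨s0, hs0, HF⟩ := F6_H h hp hl (Mf + 1)
  obtain ⟨kN, CI, s1, hkN, hCI, hs1, Hin⟩ := inner_slice h hp m (L + (Mf + 1))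
  obtain ⟨q0, hq0⟩ := exists_nat_ge (max s0 s1)
  refine ⟨q0, fun N q hq ε hε => ?_⟩
  have hqm : max s0 s1 ≤ (q : ℝ) := hq0.trans (by exact_mod_cast hq)
  have hqs0 : s0 ≤ (q : ℝ) := (le_max_left _ _).trans hqm
  have hqs1 : s1 ≤ (q : ℝ) := (le_max_right _ _).trans hqm
  obtain ⟨V, H⟩ := HF ((q : ℝ) + 1)
  obtain ⟨mult, r1, hr1, Hc⟩ := exists_centres h hp
  obtain ⟨r2, hr2, Hsb⟩ := S.bump
  obtain ⟨r3, hr3, Hsf⟩ := sphere_free h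
  obtain ⟨ρ0, hρ0, HMi⟩ := Mi_nhd h hp
  have hηc := hp.ηc_pos
  have hMF : 0 ≤ D.MF := h.fins.mF_pos.le.trans h.fins.mF_le
  obtain ⟨Nn, hNn, hNk⟩ : ∃ Nn : ℕ, 0 < Nn ∧ kN * ((q : ℝ) + 1) ≤ Nn :=
    ⟨⌈kN * ((q : ℝ) + 1)⌉₊ + 1, by omega, (Nat.le_ceil _).trans (by push_cast; linarith)⟩
  have hNn' : (0:ℝ) < Nn := by exact_mod_cast hNn
  obtain ⟨N1, hN1⟩ : ∃ N1 : ℕ, N1 = 2 * (2 * (2 * (3 * Nn * mult)) + 1) := ⟨_, rfl⟩
  -- radius of the cells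
  obtain ⟨ρ, hρ, hρ1, hρ2, hρ3, hρ4, hρ5⟩ : ∃ ρ : ℝ, 0 < ρ ∧ ρ ≤ r1 ∧ ρ ≤ r2 ∧
      3 * ρ * (N1 + 2) ≤ r3 ∧ 3 * ρ * (N1 + 1) ≤ ρ0 ∧ 3 * ρ ≤ p.ηc / 2 := by
    refine ⟨min r1 (min r2 (min (r3 / (3 * (N1 + 2))) (min (ρ0 / (3 * (N1 + 1))) (p.ηc / 6)))),
      ?_, ?_, ?_, ?_, ?_, ?_⟩
    · positivity
    · exact min_le_left _ _
    · exact (min_le_right _ _).trans (min_le_left _ _)
    · have h1 : min r1 (min r2 (min (r3 / (3 * (N1 + 2))) (min (ρ0 / (3 * (N1 + 1))) (p.ηc / 6)))) ≤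
          r3 / (3 * (N1 + 2)) :=
        (min_le_right _ _).trans ((min_le_right _ _).trans (min_le_left _ _))
      rw [le_div_iff₀ (by positivity)] at h1
      linarith
    · have h1 : min r1 (min r2 (min (r3 / (3 * (N1 + 2))) (min (ρ0 / (3 * (N1 + 1))) (p.ηc / 6)))) ≤
          ρ0 / (3 * (N1 + 1)) :=
        (min_le_right _ _).trans ((min_le_right _ _).trans ((min_le_right _ _).trans
          (min_le_left _ _)))
      rw [le_div_iff₀ (by positivity)] at h1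
      linarith
    · have h1 : min r1 (min r2 (min (r3 / (3 * (N1 + 2))) (min (ρ0 / (3 * (N1 + 1))) (p.ηc / 6)))) ≤
          p.ηc / 6 :=
        (min_le_right _ _).trans ((min_le_right _ _).trans ((min_le_right _ _).trans
          (min_le_right _ _)))
      linarith
  -- width of the time bumps
  have hV := H.V_pos
  obtain ⟨wb, hwb, hwb4, hwbN, hwbV⟩ : ∃ wb : ℝ, 0 < wb ∧ wb ≤ 1 / 4 ∧ wb ≤ 1 / Nn ∧
      V * (2 * wb) ≤ ρ := by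
    refine ⟨min (1 / 4) (min (1 / Nn) (ρ / (2 * V))), by positivity, min_le_left _ _,
      (min_le_right _ _).trans (min_le_left _ _), ?_⟩
    have h1 : min (1 / 4) (min (1 / (Nn : ℝ)) (ρ / (2 * V))) ≤ ρ / (2 * V) :=
      (min_le_right _ _).trans (min_le_right _ _)
    rw [le_div_iff₀ (by positivity)] at h1
    linarith
  -- centres and bumps
  obtain ⟨Cn, hCnM, hCn, hmult⟩ := Hc ρ hρ hρ1
  choose g hg1 hg2 hg3 hg4 hg5 hg6 using fun c : {c // c ∈ Cn} => Hsb ρ hρ hρ2 (c : E)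
  choose θ hθ1 hθ2 hθ3 hθ4 hθ5 using fun k : Fin Nn =>
    exists_tbump hwb hwb4 (((k : ℕ) : ℝ) / Nn)
  have hB : F6B D p ρ wb mult g θ :=
    { Nn_pos := hNn, ρ_pos := hρ, ρ3 := hρ5, wb_pos := hwb, wb_lt := by linarith, wb_le := hwbN
      Cn_M := hCnM, mult_le := hmult, g01 := hg3, g1 := hg4, g0 := hg5, θ01 := hθ3, θ1 := hθ4
      θ0 := hθ5 }
  have hbS : ∀ q : Fin Nn × {c // c ∈ Cn}, S.mem (fun x t => g q.2 x * θ q.1 t) := fun q => by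
    have h1 := hg6 q.2 (θ q.1) (hθ1 q.1) (hθ2 q.1)
    have h2 : (fun (x : E) (t : ℝ) => g q.2 x * θ q.1 t) = fun x t => θ q.1 t * g q.2 x := by
      funext x t
      rw [mul_comm]
    rw [h2]
    exact h1
  have hb : ∀ q : Fin Nn × {c // c ∈ Cn}, Sm D.β (fun x t => g q.2 x * θ q.1 t) :=
    fun q => S.sm _ (hbS q)
  obtain ⟨A, hA, hamp⟩ := F6_amp N hb (ε := min ε 1) (lt_min hε one_pos)
  -- number of gates
  obtain ⟨R, hR⟩ : ∃ R : ℝ, R = D.MF * (3 * ρ * (N1 + 1)) := ⟨_, rfl⟩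
  have hR0 : 0 ≤ R := by rw [hR]; positivity
  obtain ⟨Ch, hCh⟩ : ∃ Ch : ℝ, Ch = CI * ((q : ℝ) + 1) + R + 1 := ⟨_, rfl⟩
  have hCh0 : 0 ≤ Ch := by rw [hCh]; positivity
  obtain ⟨Lc, J, hLc, hJ, hLJ, hcount⟩ := F6_LJ (2 * Ch / (wb * A)) (by positivity)
    (Fintype.card (Fin Nn × {c // c ∈ Cn}))
  have hJ' : (0:ℝ) < J := by exact_mod_cast hJ
  have hLc' : (0:ℝ) < Lc := by exact_mod_cast hLc
  have hsi : ∀ i ≤ J, (q : ℝ) ≤ (q : ℝ) + (i : ℝ) / J ∧ (q : ℝ) + (i : ℝ) / J ≤ q + 1 := by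
    intro i hi
    have h1 : (i : ℝ) ≤ J := by exact_mod_cast hi
    have h2 : (i : ℝ) / J ≤ 1 := by rwa [div_le_one hJ']
    have h3 : 0 ≤ (i : ℝ) / J := by positivity
    constructor <;> linarith
  refine ⟨J, fun i => (q : ℝ) + (i : ℝ) / J, 1 / J, hJ, by positivity, by simp,
    by simp [hJ'.ne'], hsi, fun f hf hgf => ?_⟩
  -- the perturbed potentials
  have hF : ∀ σ : Fin Nn × {c // c ∈ Cn} → ℝ, (∀ q, 0 ≤ σ q ∧ σ q ≤ A) →
      Pt D.β (F6F f g θ σ) ∧ Good (Mf + 1) (F6F f g θ σ) := by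
    intro σ hσ
    obtain ⟨h1, _, h3⟩ := hamp σ hσ
    exact ⟨Pt.add hf (Sm.pt h1), F6_good_mono (Good.add' hgf h3)
      (by linarith [min_le_right ε 1])⟩
  have hη : 0 ≤ Ch / J := by positivity
  have hstep : 2 * (Ch / J) < wb * (A / Lc) := by
    rw [← mul_div_assoc, ← mul_div_assoc, div_lt_div_iff₀ hJ' hLc']
    have h1 : 2 * Ch / (wb * A) * Lc = 2 * Ch * Lc / (wb * A) := by ring
    rw [h1, div_lt_iff₀ (by positivity)] at hLJ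
    linarith
  obtain ⟨σ, hσ, hfew⟩ := F6_sigma h hp hl H hB hwbV hA hF (fun i => (q : ℝ) + (i : ℝ) / J)
    (fun i hi => ⟨hqs0.trans (hsi i hi).1, (hsi i hi).2⟩) hLc hη hstep hcount
  obtain ⟨hSm, hnm, hGood⟩ := hamp σ hσ
  refine ⟨fun x t => ∑ q, σ q * (g q.2 x * θ q.1 t), F6_mem_sum S Finset.univ hbS σ, hnm.trans (min_le_left _ _),
    F6_good_mono hGood (min_le_left _ _),
    fun x t => Finset.sum_nonneg fun q' _ => mul_nonneg (hσ q').1 (F6_b_nonneg hB q' x t),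
    fun x hx t => Finset.sum_eq_zero fun q' _ => by rw [F6_b_out h hB q' hx, mul_zero],
    fun i hi => ?_⟩
  have hTL : FL D m (L + (Mf + 1)) (lf l (F6F f g θ σ)) :=
    FL.add h.toOk0 hl (hF σ hσ).1 (hF σ hσ).2
  have hk0 : ∀ k : Fin Nn, (0:ℝ) ≤ ((k : ℕ) : ℝ) / Nn := fun k => by positivity
  have hk1 : ∀ k : Fin Nn, ((k : ℕ) : ℝ) / Nn < 1 := fun k => by
    rw [div_lt_one hNn']
    exact_mod_cast k.2
  have hds : (q : ℝ) + ((i + 1 : ℕ) : ℝ) / J - ((q : ℝ) + (i : ℝ) / J) = 1 / J := by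
    push_cast
    ring
  have hq1 : 1 ≤ (q : ℝ) := hs0.trans hqs0
  obtain ⟨w1, hw1, hw1'⟩ := F6_wit h hp hp.κ_pos
  have hw1M : w1 ∈ D.Md p := ⟨fun v hv => by linarith [hw1 v hv], hw1'⟩
  obtain ⟨c1, hc1, _⟩ := hCn w1 hw1M
  obtain ⟨k, A', hA1, hA2, hA3, hA4⟩ := F6_front h hp (Nn := Nn)
    (Φ := fun k w => D.W p (lf l (F6F f g θ σ)) ((q : ℝ) + (i : ℝ) / J)
      ((q : ℝ) + ((i + 1 : ℕ) : ℝ) / J) (((k : ℕ) : ℝ) / Nn) w)
    (fun k => W_cont h hp hl (hF σ hσ).1 (hF σ hσ).2 (by linarith [(hsi i hi.le).1])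
      (by linarith [(hsi (i + 1) hi).1]) (hk0 k) (hk1 k).le)
    (fun k w n => W_J h hTL w n) hρ hCnM hCn ⟨(⟨0, hNn⟩, ⟨c1, hc1⟩)⟩
    (C1 := CI * ((q : ℝ) + 1) / J) (η := Ch / J) (δ := 1 / J) (ds := 1 / J) (N1 := N1)
    (by
      intro k w hw hmin
      obtain ⟨k', hk', w', hw', hle⟩ := Hin ((q : ℝ) + (i : ℝ) / J) ((q : ℝ) + ((i + 1 : ℕ) : ℝ) / J)
        (hqs1.trans (hsi i hi.le).1) (hqs1.trans (hsi (i + 1) hi).1)
        (by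
          rw [hds, abs_of_nonneg (by positivity), div_le_one hJ']
          exact_mod_cast hJ) _ hTL Nn
        ((mul_le_mul_of_nonneg_left (hsi i hi.le).2 hkN.le).trans hNk) k k.2 w hw
        (fun k' hk' w' hw' => hmin ⟨k', hk'⟩ w' hw')
      refine ⟨⟨k', hk'⟩, w', hw', hle.trans ?_⟩
      rw [hds, abs_of_nonneg (by positivity : (0:ℝ) ≤ 1 / J)]
      have h1 : CI * ((q : ℝ) + (i : ℝ) / J) * (1 / J) ≤ CI * ((q : ℝ) + 1) / J := by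
        rw [mul_one_div]
        exact div_le_div_of_nonneg_right (mul_le_mul_of_nonneg_left (hsi i hi.le).2 hCI) hJ'.le
      linarith)
    (by
      intro μ hμ T hT
      rw [hN1]
      exact hfew i hi μ hμ T hT) HMi Hsf hρ3 hρ4
    (by
      rw [← hR, hCh]
      apply le_of_eq
      field_simp
      ring) (by positivity)
  refine ⟨((k : ℕ) : ℝ) / Nn, A', hk0 k, hk1 k, hA1, hA2, hA3, fun z hz => ?_⟩
  obtain ⟨w, hw, hle⟩ := hA4 z hz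
  refine ⟨w, hw, ?_⟩
  simp only [hds]
  exact hle

end EscK
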