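import Pool.Agent.EscK.KDefs
import Pool.Agent.EscK.A5a
import Pool.Agent.EscK.C11a
import Pool.Agent.EscK.C11b
import Pool.Agent.EscN.Chain
import Pool.Agent.EscN.Flat
import Pool.Agent.helper33.Esc.Seg
import Pool.Agent.helper1.Esc.ModD

/-!
Module H1: chain data from the stages, with a prescribed starting point.
-/

noncomputable section

namespace EscK

open MeasureTheory Set Filter Topology Esc EscF EscG
open scoped ContDiff

/-! ### a leg, the room, a leg -/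

section abstr

variable {Y : Type*} [PseudoMetricSpace Y] {K : Y → Y → ℝ} {C A W : Set Y} {B Λ L L' : ℝ}
  {P Q : Y → Y → ℝ} {I : Finset (ℕ × ℕ)} {c : ℕ × ℕ → ℝ}

/-- Lipschitz on a product -/
def H1L (P : Y → Y → ℝ) (A W : Set Y) (L : ℝ) : Prop :=
  ∀ x ∈ A, ∀ y ∈ A, ∀ w ∈ W, ∀ v ∈ W, |P x w - P y v| ≤ L * (dist x y + dist w v)

/-- a leg, the room, a leg -/
def H1g (P Q : Y → Y → ℝ) (K : Y → Y → ℝ) (C : Set Y) (I : Finset (ℕ × ℕ)) (c : ℕ × ℕ → ℝ)
    (w w' : Y) : ℝ :=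
  ⨅ q : (C ×ˢ C : Set (Y × Y)), (P w q.1.1 + H33.gI K C I c q.1.1 q.1.2 + Q q.1.2 w')

lemma H1L.right (h : H1L P A W L) {x : Y} (hx : x ∈ A) : ContinuousOn (fun w => P x w) W := by
  refine ModD.contOn_of_lip (L := L) fun w hw v hv => ?_
  have := h x hx x hx w hw v hv
  rwa [dist_self, zero_add] at this

lemma H1L.left (h : H1L P A W L) {w : Y} (hw : w ∈ W) : ContinuousOn (fun x => P x w) A := by
  refine ModD.contOn_of_lip (L := L) fun x hx y hy => ?_
  have := h x hx y hy w hw w hw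
  rwa [dist_self, add_zero] at this

lemma H1_bdd {f : Y → ℝ} (hC : IsCompact C) (hf : ContinuousOn f C) :
    BddBelow (range fun x : C => f x) := by
  have h1 := hC.bddBelow_image hf
  rwa [image_eq_range] at h1

lemma H1_att (h : KD K C A B Λ) (hI : I.Nonempty) (hI1 : ∀ q ∈ I, 1 ≤ q.1 + q.2)
    (hP : H1L P W A L) (hQ : H1L Q A W L') {w w' : Y} (hw : w ∈ W) (hw' : w' ∈ W) :
    ∃ x0 ∈ C, ∃ x1 ∈ C, H1g P Q K C I c w w' = P w x0 + H33.gI K C I c x0 x1 + Q x1 w' ∧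
      ∀ y0 ∈ C, ∀ y1 ∈ C, H1g P Q K C I c w w' ≤ P w y0 + H33.gI K C I c y0 y1 + Q y1 w' := by
  have hcont : ContinuousOn (fun q : Y × Y => P w q.1 + H33.gI K C I c q.1 q.2 + Q q.2 w')
      (C ×ˢ C) := by
    refine (ContinuousOn.add ?_ ?_).add ?_
    · exact (hP.right hw).comp continuous_fst.continuousOn (fun q hq => h.sub hq.1)
    · exact (H33.gI_continuousOn h hI hI1 c).mono (prod_mono h.sub h.sub)
    · exact (hQ.left hw').comp continuous_snd.continuousOn (fun q hq => h.sub hq.2)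
  have hcomp : IsCompact (C ×ˢ C) := h.comp.prod h.comp
  obtain ⟨q, hq, hmin⟩ := hcomp.exists_isMinOn (h.ne.prod h.ne) hcont
  have : Nonempty (C ×ˢ C : Set (Y × Y)) := ⟨⟨q, hq⟩⟩
  have hb := H1_bdd hcomp hcont
  refine ⟨q.1, hq.1, q.2, hq.2, le_antisymm ?_ ?_, ?_⟩
  · exact ciInf_le hb ⟨q, hq⟩
  · exact le_ciInf fun x => hmin x.2
  · intro y0 hy0 y1 hy1
    exact ciInf_le hb ⟨(y0, y1), ⟨hy0, hy1⟩⟩

lemma H1_near (h : KD K C A B Λ) (hI : I.Nonempty) (hI1 : ∀ q ∈ I, 1 ≤ q.1 + q.2)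
    (hP : H1L P W A L) (hQ : H1L Q A W L') {w w' v v' : Y} (hw : w ∈ W) (hw' : w' ∈ W)
    (hv : v ∈ W) (hv' : v' ∈ W) :
    H1g P Q K C I c w w' ≤ H1g P Q K C I c v v' + (L * dist w v + L' * dist w' v') := by
  obtain ⟨_, _, _, _, _, h2⟩ := H1_att (c := c) h hI hI1 hP hQ hw hw'
  obtain ⟨x0, hx0, x1, hx1, h1, _⟩ := H1_att (c := c) h hI hI1 hP hQ hv hv'
  have a := h2 x0 hx0 x1 hx1
  have b := (abs_le.1 (hP w hw v hv x0 (h.sub hx0) x0 (h.sub hx0))).2
  have b' := (abs_le.1 (hQ x1 (h.sub hx1) x1 (h.sub hx1) w' hw' v' hv')).2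
  rw [dist_self, add_zero] at b
  rw [dist_self, zero_add] at b'
  linarith

lemma H1_cont (h : KD K C A B Λ) (hI : I.Nonempty) (hI1 : ∀ q ∈ I, 1 ≤ q.1 + q.2)
    (hP : H1L P W A L) (hQ : H1L Q A W L') :
    ContinuousOn (fun q : Y × Y => H1g P Q K C I c q.1 q.2) (W ×ˢ W) := by
  refine ModD.contOn_of_lip (L := |L| + |L'|) fun q hq r hr => ?_
  have a := H1_near (c := c) h hI hI1 hP hQ hq.1 hq.2 hr.1 hr.2
  have b := H1_near (c := c) h hI hI1 hP hQ hr.1 hr.2 hq.1 hq.2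
  rw [dist_comm r.1, dist_comm r.2] at b
  have h1 : dist q.1 r.1 ≤ dist q r := le_max_left _ _
  have h2 : dist q.2 r.2 ≤ dist q r := le_max_right _ _
  have h3 : L * dist q.1 r.1 ≤ |L| * dist q r :=
    (mul_le_mul_of_nonneg_right (le_abs_self _) dist_nonneg).trans
      (mul_le_mul_of_nonneg_left h1 (abs_nonneg _))
  have h4 : L' * dist q.2 r.2 ≤ |L'| * dist q r :=
    (mul_le_mul_of_nonneg_right (le_abs_self _) dist_nonneg).trans
      (mul_le_mul_of_nonneg_left h2 (abs_nonneg _))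
  rw [abs_le]
  constructor <;> nlinarith

/-- realization by a path of room points -/
lemma H1_path (h : KD K C A B Λ) (hI : I.Nonempty) (hI1 : ∀ q ∈ I, 1 ≤ q.1 + q.2)
    (hP : H1L P W A L) (hQ : H1L Q A W L') {w w' : Y} (hw : w ∈ W) (hw' : w' ∈ W) :
    ∃ (T : ℕ) (c0 : ℝ) (y : ℕ → Y), 1 ≤ T ∧ (∀ k ≤ T, y k ∈ C) ∧
      H1g P Q K C I c w w' = P w (y 0) + cost K y T + Q (y T) w' + c0 ∧
      ∀ v ∈ W, ∀ v' ∈ W, ∀ x : ℕ → Y, (∀ k ≤ T, x k ∈ C) →
        H1g P Q K C I c v v' ≤ P v (x 0) + cost K x T + Q (x T) v' + c0 := by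
  obtain ⟨x0, hx0, x1, hx1, h1, _⟩ := H1_att (c := c) h hI hI1 hP hQ hw hw'
  obtain ⟨q, hq, h2⟩ := H33.gI_attained (K := K) (C := C) hI c x0 x1
  obtain ⟨y, hy, hyc⟩ := exists_path h (hI1 q hq) (h.sub hx0) (h.sub hx1)
  refine ⟨q.1 + q.2, c q, y, hI1 q hq, ?_, ?_, ?_⟩
  · intro k hk
    rcases Nat.eq_zero_or_pos k with h0 | h0
    · rw [h0, hy.1]; exact hx0
    · rcases Nat.lt_or_ge k (q.1 + q.2) with h3 | h3
      · exact hy.2.2 k h0 h3
      · rw [le_antisymm hk h3, hy.2.1]; exact hx1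
  · rw [h1, h2, hy.1, hy.2.1, hyc]
    ring
  · intro v hv v' hv' x hx
    obtain ⟨_, _, _, _, _, h3⟩ := H1_att (c := c) h hI hI1 hP hQ hv hv'
    have a := h3 (x 0) (hx 0 (Nat.zero_le _)) (x (q.1 + q.2)) (hx _ le_rfl)
    have b := H33.gI_le (K := K) (C := C) c hq (x 0) (x (q.1 + q.2))
    have b' := kp_le_cost h (hI1 q hq) (x := x) (fun k hk => h.sub (hx k hk))
    linarith

/-- exposing the part before the last gate -/
lemma H1_left (h : KD K C A B Λ) (hI : I.Nonempty) (hI1 : ∀ q ∈ I, 1 ≤ q.1 + q.2)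
    (hP : H1L P W A L) (hQ : H1L Q A W L') {F : Finset ℕ} {c2 : ℕ → ℝ} (hF : F.Nonempty)
    (hF1 : ∀ T ∈ F, 1 ≤ T)
    (H : ∀ x ∈ A, ∀ z ∈ A, ∃ ξ ∈ A, ∃ k : ℝ, H33.gI K C I c x z = k + gk K C F c2 ξ z ∧
      ∀ w ∈ A, H33.gI K C I c x w ≤ k + gk K C F c2 ξ w) {x z : Y} (hx : x ∈ W) (hz : z ∈ W) :
    ∃ ξ ∈ A, ∃ k : ℝ, (⨅ x1 : C, (gk K C F c2 ξ x1 + Q x1 z)) + k ≤ H1g P Q K C I c x z ∧
      ∀ w ∈ W, H1g P Q K C I c x w ≤ (⨅ x1 : C, (gk K C F c2 ξ x1 + Q x1 w)) + k := by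
  have := h.ne.to_subtype
  obtain ⟨x0, hx0, x1, hx1, h1, _⟩ := H1_att (c := c) h hI hI1 hP hQ hx hz
  obtain ⟨ξ, hξ, k, e1, e2⟩ := H x0 (h.sub hx0) x1 (h.sub hx1)
  have hgc : ContinuousOn (fun y => gk K C F c2 ξ y) C := by
    refine ModD.contOn_of_lip (L := Λ) fun y hy y' hy' => ?_
    have := gk_lip h hF hF1 c2 hξ (h.sub hy) hξ (h.sub hy')
    rwa [dist_self, zero_add] at this
  have hb : BddBelow (range fun y : C => gk K C F c2 ξ y + Q y z) :=
    H1_bdd h.comp (hgc.add ((hQ.left hz).mono h.sub))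
  refine ⟨ξ, hξ, P x x0 + k, ?_, fun w hw => ?_⟩
  · have a := ciInf_le hb ⟨x1, hx1⟩
    simp only at a
    rw [h1, e1]
    linarith
  · obtain ⟨_, _, _, _, _, h3⟩ := H1_att (c := c) h hI hI1 hP hQ hx hw
    have key : H1g P Q K C I c x w - (P x x0 + k) ≤ ⨅ y : C, (gk K C F c2 ξ y + Q y w) := by
      refine le_ciInf fun y => ?_
      have a := h3 x0 hx0 y y.2
      have b := e2 y (h.sub y.2)
      linarith
    linarith

/-- exposing the part after the first gate -/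
lemma H1_right (h : KD K C A B Λ) (hI : I.Nonempty) (hI1 : ∀ q ∈ I, 1 ≤ q.1 + q.2)
    (hP : H1L P W A L) (hQ : H1L Q A W L') {F : Finset ℕ} {c2 : ℕ → ℝ} (hF : F.Nonempty)
    (hF1 : ∀ T ∈ F, 1 ≤ T)
    (H : ∀ z ∈ A, ∀ x ∈ A, ∃ ξ ∈ A, ∃ k : ℝ, H33.gI K C I c z x = k + gk K C F c2 z ξ ∧
      ∀ w ∈ A, H33.gI K C I c w x ≤ k + gk K C F c2 w ξ) {x z : Y} (hz : z ∈ W) (hx : x ∈ W) :
    ∃ ξ ∈ A, ∃ k : ℝ, (⨅ x1 : C, (P z x1 + gk K C F c2 x1 ξ)) + k ≤ H1g P Q K C I c z x ∧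
      ∀ w ∈ W, H1g P Q K C I c w x ≤ (⨅ x1 : C, (P w x1 + gk K C F c2 x1 ξ)) + k := by
  have := h.ne.to_subtype
  obtain ⟨x0, hx0, x1, hx1, h1, _⟩ := H1_att (c := c) h hI hI1 hP hQ hz hx
  obtain ⟨ξ, hξ, k, e1, e2⟩ := H x0 (h.sub hx0) x1 (h.sub hx1)
  have hgc : ContinuousOn (fun y => gk K C F c2 y ξ) C := by
    refine ModD.contOn_of_lip (L := Λ) fun y hy y' hy' => ?_
    have := gk_lip h hF hF1 c2 (h.sub hy) hξ (h.sub hy') hξ
    rwa [dist_self, add_zero] at this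
  have hb : BddBelow (range fun y : C => P z y + gk K C F c2 y ξ) :=
    H1_bdd h.comp (((hP.right hz).mono h.sub).add hgc)
  refine ⟨ξ, hξ, k + Q x1 x, ?_, fun w hw => ?_⟩
  · have a := ciInf_le hb ⟨x0, hx0⟩
    simp only at a
    rw [h1, e1]
    linarith
  · obtain ⟨_, _, _, _, _, h3⟩ := H1_att (c := c) h hI hI1 hP hQ hw hx
    have key : H1g P Q K C I c w x - (k + Q x1 x) ≤ ⨅ y : C, (P w y + gk K C F c2 y ξ) := by
      refine le_ciInf fun y => ?_
      have a := h3 y y.2 x1 hx1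
      have b := e2 y (h.sub y.2)
      linarith
    linarith

/-! ### change of one point of a path -/

lemma H1_c0 (K : Y → Y → ℝ) (y : ℕ → Y) (x : Y) {T : ℕ} (hT : 1 ≤ T) :
    cost K (Function.update y 0 x) T = cost K y T - K (y 0) (y 1) + K x (y 1) := by
  obtain ⟨n, rfl⟩ : ∃ n, T = n + 1 := ⟨T - 1, by omega⟩
  rw [cost_succ', cost_succ']
  have h1 : (fun i => Function.update y 0 x (i + 1)) = fun i => y (i + 1) := by
    funext i
    rw [Function.update_of_ne (by omega)]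
  rw [h1, Function.update_self, Function.update_of_ne (by omega)]
  ring

omit [PseudoMetricSpace Y] in
lemma H1_cT (K : Y → Y → ℝ) (y : ℕ → Y) (x : Y) (n : ℕ) :
    cost K (Function.update y (n + 1) x) (n + 1) = cost K y (n + 1) - K (y n) (y (n + 1)) + K (y n) x := by
  unfold cost
  rw [Finset.sum_range_succ, Finset.sum_range_succ]
  have h1 : ∑ i ∈ Finset.range n, K (Function.update y (n + 1) x i) (Function.update y (n + 1) x (i + 1)) =
      ∑ i ∈ Finset.range n, K (y i) (y (i + 1)) := by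
    refine Finset.sum_congr rfl fun i hi => ?_
    rw [Finset.mem_range] at hi
    rw [Function.update_of_ne (by omega), Function.update_of_ne (by omega)]
  rw [h1, Function.update_self, Function.update_of_ne (by omega)]
  ring

lemma H1_cm (K : Y → Y → ℝ) (y : ℕ → Y) (x : Y) {k T : ℕ} (hk : k + 1 < T) :
    cost K (Function.update y (k + 1) x) T = cost K y T - (K (y k) (y (k + 1)) + K (y (k + 1)) (y (k + 2))) +
      (K (y k) x + K x (y (k + 2))) := by
  obtain ⟨n, rfl⟩ : ∃ n, T = (k + 1) + (n + 1) := ⟨T - k - 2, by omega⟩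
  rw [cost_add K _ (k + 1) (n + 1), cost_add K y (k + 1) (n + 1), H1_cT]
  have h1 : (fun i => Function.update y (k + 1) x (k + 1 + i)) =
      Function.update (fun i => y (k + 1 + i)) 0 x := by
    funext i
    rcases Nat.eq_zero_or_pos i with h0 | h0
    · subst h0
      rw [Function.update_self]
      simp
    · rw [Function.update_of_ne (by omega), Function.update_of_ne (by omega)]
  rw [h1, H1_c0 K _ x (Nat.succ_pos n)]
  simp only [add_zero, add_assoc, Nat.reduceAdd]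
  ring

end abstr

/-! ### the kernels of the gap -/

variable {ι : Type} [Fintype ι] {d : ℕ} {E : Type*} [NormedAddCommGroup E] [InnerProductSpace ℝ E]
  [FiniteDimensional ℝ E] {D : GD ι d E} {p : GP} {m M Mf : ℝ} {L : LP} {ll l : E → E → ℝ → ℝ}

omit [FiniteDimensional ℝ E] in
lemma H1_pt : Pt D.β (fun (_ : E) (_ : ℝ) => (0 : ℝ)) :=
  ⟨contDiff_const, fun _ _ _ => rfl, fun _ _ => rfl⟩

omit [InnerProductSpace ℝ E] [FiniteDimensional ℝ E] in
lemma H1_good : Good 0 (fun (_ : E) (_ : ℝ) => (0 : ℝ)) :=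
  ⟨le_rfl, continuous_const, fun _ _ => by simp, fun _ _ _ => by simp, fun _ _ _ => by simp⟩

lemma H1_lf {E : Type*} (ll : E → E → ℝ → ℝ) : lf ll (fun _ _ => 0) = ll := by
  funext x u t
  simp [lf]

omit [FiniteDimensional ℝ E] in
lemma H1_Md (hp : p.Ok D) {w : E} (hw : w ∈ D.Md p) : w ∈ D.Mg (p.ηc / 2) (2 * p.κ) := by
  have h1 := hp.ηc_pos
  have h2 := hp.κ_pos
  refine ⟨fun v hv => ?_, ?_⟩
  · have := hw.1 v hv
    linarith
  · have := hw.2
    linarith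

omit [FiniteDimensional ℝ E] in
lemma H1_XM (hp : p.Ok D) {w : E} (hw : w ∈ D.Md p) : w ∈ D.X p.ρ ∧ w - D.g ∈ D.X p.ρ := by
  have h1 := hp.bnd w (Or.inr (H1_Md hp hw))
  have a := h1 0 (by norm_num)
  have b := h1 (-1) (by norm_num)
  refine ⟨by simpa using a, ?_⟩
  have e : w - D.g = w + (((-1 : ℤ) : ℝ)) • D.g := by
    push_cast
    rw [neg_one_smul, sub_eq_add_neg]
  rw [e]; exact b

omit [FiniteDimensional ℝ E] in
lemma H1_XR (hp : p.Ok D) {x : E} (hx : x ∈ D.R p) : x ∈ D.X p.ρ := by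
  have h0 := hp.η1_pos
  have h1 := hp.η1_le
  have hx' : x ∈ D.Rm p.ηc := by
    have : Metric.infDist x D.Z ≤ p.η1 := hx
    show Metric.infDist x D.Z ≤ p.ηc
    linarith
  simpa using hp.bnd x (Or.inl hx') 0 (by norm_num)

lemma H1_kd (h : D.Ok) (hp : p.Ok D) (hl : FL D m L ll) {s : ℝ} (hs : 0 ≤ s) :
    ∃ C : ℝ, KD (D.k1 ll s) (D.C p) (D.R p) C C := by
  obtain ⟨C, _, hC⟩ := kd h hp hl (le_refl (0:ℝ)) s
  refine ⟨C, ?_⟩
  have := hC _ H1_pt H1_good s hs le_rfl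
  rwa [H1_lf] at this

lemma H1_PQ (h : D.Ok) (hp : p.Ok D) (hl : FL D m L ll) {s : ℝ} (hs : 0 ≤ s) :
    ∃ L : ℝ, ∀ r, 0 ≤ r → r < 1 → H1L (D.P ll s r) (D.Md p) (D.R p) L ∧
      H1L (D.Q ll s r) (D.R p) (D.Md p) L := by
  obtain ⟨C, _, hC⟩ := kk_unif h hl (le_refl (0:ℝ)) s p.ρ
  have hC' := hC _ H1_pt H1_good s hs le_rfl
  rw [H1_lf] at hC'
  refine ⟨C, fun r hr hr1 => ⟨fun w hw v hv x hx y hy => ?_, fun x hx y hy w hw v hv => ?_⟩⟩
  · have := (hC' r 2 (by linarith) (by linarith) (w - D.g) (H1_XM hp hw).2 x (H1_XR hp hx)).2.1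
      (v - D.g) (H1_XM hp hv).2 y (H1_XR hp hy)
    rwa [dist_sub_right] at this
  · exact (hC' 0 (1 + r) (by linarith) (by linarith) x (H1_XR hp hx) w (H1_XM hp hw).1).2.1
      y (H1_XR hp hy) v (H1_XM hp hv).1

lemma H1_B (h : D.Ok) : Continuous D.B := by
  have hl := fun x y => Cal.lip h.fins h.cal x y
  have : LipschitzWith (Real.toNNReal D.MF) D.B := by
    refine LipschitzWith.of_dist_le_mul fun x y => ?_
    rw [Real.dist_eq, Real.coe_toNNReal _ (h.fins.mF_pos.le.trans h.fins.mF_le), dist_eq_norm]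
    exact hl x y
  exact this.continuous

/-! ### the chain -/

theorem exists_chs (h : D.Ok) (hp : p.Ok D) (hl : FL D m L ll) (q0 : ℕ)
    (hS : ∀ q : ℕ, q0 ≤ q → D.Stage p ll q) {x0 : E} (hx0 : x0 ∈ D.C p) :
    ∃ (s r : ℕ → ℝ) (T : ℕ → ℕ) (z : ℕ → E) (y : ℕ → ℕ → E),
    Chs D p ll x0 s r T z y ∧ ∀ n, (q0 : ℝ) ≤ s n := by
  classical
  have hS' : ∀ k : ℕ, D.Stage p ll (q0 + k) := fun k => hS _ (Nat.le_add_right _ _)
  choose J s r F c G δ hJ hδ hs0 hsJ hsb hF hgate using hS'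
  -- the enumeration of the gates
  set S := EscN.st J with hSdef
  have hlt : ∀ n, (S n).2 < J (S n).1 := EscN.st_lt hJ
  have hS1 : ∀ n, S (n + 1) = if (S n).2 + 1 < J (S n).1 then ((S n).1, (S n).2 + 1)
      else ((S n).1 + 1, 0) := fun n => rfl
  set σ : ℕ → ℝ := fun n => s (S n).1 ((S n).2 + 1) with hσ
  set ρ : ℕ → ℝ := fun n => r (S n).1 (S n).2 with hρ
  set I : ℕ → Finset (ℕ × ℕ) := fun n =>
    if (S n).2 + 1 < J (S n).1 then F (S n).1 ((S n).2 + 1) ×ˢ {0}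
    else F (S n).1 ((S n).2 + 1) ×ˢ F ((S n).1 + 1) 0 with hI
  set cc : ℕ → ℕ × ℕ → ℝ := fun n q => c (S n).1 ((S n).2 + 1) q.1 +
    (if (S n).2 + 1 < J (S n).1 then 0 else c ((S n).1 + 1) 0 q.2) with hcc
  set D' : ℕ → Set E := fun n => G (S n).1 (S n).2 with hD'
  -- classes
  have hσq : ∀ n, ((q0 + (S n).1 : ℕ) : ℝ) ≤ σ n := fun n => (hsb (S n).1 ((S n).2 + 1) (hlt n)).1
  have hσ0 : ∀ n, (q0 : ℝ) ≤ σ n := fun n => by
    have h1 := hσq n
    have h2 : (0:ℝ) ≤ ((S n).1 : ℝ) := Nat.cast_nonneg _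
    push_cast at h1
    linarith
  have hσnn : ∀ n, 0 ≤ σ n := fun n => (Nat.cast_nonneg _).trans (hσ0 n)
  have hσm : ∀ n, σ n = s (S (n + 1)).1 (S (n + 1)).2 := by
    intro n
    simp only [hσ]
    rw [hS1]
    by_cases hj : (S n).2 + 1 < J (S n).1
    · rw [if_pos hj]
    · rw [if_neg hj]
      simp only
      have hl := hlt n
      have h2 : (S n).2 + 1 = J (S n).1 := by omega
      rw [h2, hsJ, hs0]
      push_cast; ring
  -- the kernels
  have hK : ∀ n, ∃ C0 : ℝ, KD (D.k1 ll (σ n)) (D.C p) (D.R p) C0 C0 := fun n => H1_kd h hp hl (hσnn n)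
  choose CK hK using hK
  choose L hL using fun n => H1_PQ h hp hl (hσnn n)
  have hr0 : ∀ n, 0 ≤ ρ n := fun n => (hgate (S n).1 (S n).2 (hlt n)).1
  have hr1 : ∀ n, ρ n < 1 := fun n => (hgate (S n).1 (S n).2 (hlt n)).2.1
  -- the first leg starts at `x0`: a large penalty
  set PP : ℕ → E → E → ℝ := fun n => if n = 0 then (fun _ x => (|CK 0| + 1) * dist x x0)
    else D.P ll (σ n) (ρ n) with hPP
  have hPP1 : ∀ n, PP (n + 1) = D.P ll (σ (n + 1)) (ρ (n + 1)) := fun n => by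
    simp only [hPP]; rw [if_neg (Nat.succ_ne_zero n)]
  have hPP0 : ∀ w x, PP 0 w x = (|CK 0| + 1) * dist x x0 := fun w x => by
    simp only [hPP, if_true]
  have hPn' : ∀ n, ∃ L0 : ℝ, H1L (PP n) (D.Md p) (D.R p) L0 := by
    intro n
    cases n with
    | zero =>
      refine ⟨|CK 0| + 1, fun w _ v _ x _ y _ => ?_⟩
      rw [hPP0, hPP0, ← mul_sub, abs_mul, abs_of_pos (by positivity : 0 < |CK 0| + 1)]
      refine mul_le_mul_of_nonneg_left ?_ (by positivity)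
      have h1 := abs_dist_sub_le x y x0
      have h2 : 0 ≤ dist w v := dist_nonneg
      linarith
    | succ n =>
      rw [hPP1]
      exact ⟨_, (hL (n + 1) _ (hr0 (n + 1)) (hr1 (n + 1))).1⟩
  choose LP' hPn using hPn'
  have hQn : ∀ n, H1L (D.Q ll (σ n) (ρ (n + 1))) (D.R p) (D.Md p) (L n) :=
    fun n => (hL n _ (hr0 (n + 1)) (hr1 (n + 1))).2
  have hFa : ∀ n, (F (S n).1 ((S n).2 + 1)).Nonempty := fun n => (hF _ _ (hlt n)).1
  have hFa1 : ∀ n, ∀ T ∈ F (S n).1 ((S n).2 + 1), 1 ≤ T := fun n => (hF _ _ (hlt n)).2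
  have hFb : ∀ k, (F k 0).Nonempty := fun k => (hF _ _ (Nat.zero_le _)).1
  have hFb1 : ∀ k, ∀ T ∈ F k 0, 1 ≤ T := fun k => (hF _ _ (Nat.zero_le _)).2
  have hIne : ∀ n, (I n).Nonempty := by
    intro n
    simp only [hI]
    split_ifs with hj
    · simpa using hFa n
    · exact (hFa n).product (hFb _)
  have hI1 : ∀ n, ∀ q ∈ I n, 1 ≤ q.1 + q.2 := by
    intro n q hq
    simp only [hI] at hq
    split_ifs at hq with hj
    · rw [Finset.mem_product] at hq
      have := hFa1 n _ hq.1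
      omega
    · rw [Finset.mem_product] at hq
      have := hFa1 n _ hq.1
      omega
  -- the segment after gate n
  have hRr : ∀ n, ∀ z ∈ D.R p, ∀ x ∈ D.R p, ∃ ξ ∈ D.R p, ∃ k : ℝ,
      H33.gI (D.k1 ll (σ n)) (D.C p) (I n) (cc n) z x =
        k + gk (D.k1 ll (σ n)) (D.C p) (F (S n).1 ((S n).2 + 1)) (c (S n).1 ((S n).2 + 1)) z ξ ∧
      ∀ w ∈ D.R p, H33.gI (D.k1 ll (σ n)) (D.C p) (I n) (cc n) w x ≤
        k + gk (D.k1 ll (σ n)) (D.C p) (F (S n).1 ((S n).2 + 1)) (c (S n).1 ((S n).2 + 1)) w ξ := by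
    intro n z hz x hx
    by_cases hj : (S n).2 + 1 < J (S n).1
    · have e : ∀ w w', H33.gI (D.k1 ll (σ n)) (D.C p) (I n) (cc n) w w' =
          gk (D.k1 ll (σ n)) (D.C p) (F (S n).1 ((S n).2 + 1)) (c (S n).1 ((S n).2 + 1)) w w' := by
        intro w w'
        have h1 : I n = F (S n).1 ((S n).2 + 1) ×ˢ {0} := by simp only [hI]; rw [if_pos hj]
        rw [h1, H33.gI_single _ (hFa n)]
        have h2 : (fun T => cc n (T, 0)) = c (S n).1 ((S n).2 + 1) := by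
          funext T
          simp only [hcc]; rw [if_pos hj, add_zero]
        rw [h2]
      refine ⟨x, hx, 0, by rw [e, zero_add], fun w _ => by rw [e, zero_add]⟩
    · have h1 : I n = F (S n).1 ((S n).2 + 1) ×ˢ F ((S n).1 + 1) 0 := by
        simp only [hI]; rw [if_neg hj]
      rw [h1]
      exact H33.gI_right (hK n) (hFa n) (hFb _) (hFa1 n) (hFb1 _) _ _ (c ((S n).1 + 1) 0)
        (fun q => by simp only [hcc]; rw [if_neg hj]) hx hz
  -- the segment before gate n + 1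
  have hLl : ∀ n, ∀ x ∈ D.R p, ∀ z ∈ D.R p, ∃ ξ ∈ D.R p, ∃ k : ℝ,
      H33.gI (D.k1 ll (σ n)) (D.C p) (I n) (cc n) x z =
        k + gk (D.k1 ll (σ n)) (D.C p) (F (S (n + 1)).1 (S (n + 1)).2) (c (S (n + 1)).1 (S (n + 1)).2) ξ z ∧
      ∀ w ∈ D.R p, H33.gI (D.k1 ll (σ n)) (D.C p) (I n) (cc n) x w ≤
        k + gk (D.k1 ll (σ n)) (D.C p) (F (S (n + 1)).1 (S (n + 1)).2) (c (S (n + 1)).1 (S (n + 1)).2) ξ w := by
    intro n x hx z hz
    rw [hS1]
    by_cases hj : (S n).2 + 1 < J (S n).1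
    · rw [if_pos hj]
      simp only
      have e : ∀ w w', H33.gI (D.k1 ll (σ n)) (D.C p) (I n) (cc n) w w' =
          gk (D.k1 ll (σ n)) (D.C p) (F (S n).1 ((S n).2 + 1)) (c (S n).1 ((S n).2 + 1)) w w' := by
        intro w w'
        have h1 : I n = F (S n).1 ((S n).2 + 1) ×ˢ {0} := by simp only [hI]; rw [if_pos hj]
        rw [h1, H33.gI_single _ (hFa n)]
        have h2 : (fun T => cc n (T, 0)) = c (S n).1 ((S n).2 + 1) := by
          funext T
          simp only [hcc]; rw [if_pos hj, add_zero]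
        rw [h2]
      refine ⟨x, hx, 0, by rw [e, zero_add], fun w _ => by rw [e, zero_add]⟩
    · rw [if_neg hj]
      simp only
      have h1 : I n = F (S n).1 ((S n).2 + 1) ×ˢ F ((S n).1 + 1) 0 := by
        simp only [hI]; rw [if_neg hj]
      rw [h1]
      exact H33.gI_left (hK n) (hFa n) (hFb _) (hFa1 n) (hFb1 _) _ (c (S n).1 ((S n).2 + 1)) _
        (fun q => by simp only [hcc]; rw [if_neg hj]) hx hz
  have hFm : ∀ n, (F (S (n + 1)).1 (S (n + 1)).2).Nonempty ∧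
      ∀ T ∈ F (S (n + 1)).1 (S (n + 1)).2, 1 ≤ T := fun n => hF _ _ (hlt (n + 1)).le
  -- the kernel between the gates n and n + 1
  set GG : ℕ → E → E → ℝ := fun n => H1g (PP n) (D.Q ll (σ n) (ρ (n + 1))) (D.k1 ll (σ n))
    (D.C p) (I n) (cc n) with hGG
  have hBc := H1_B h
  have hDsub : ∀ n, D' n ⊆ D.Md p := fun n => (hgate (S n).1 (S n).2 (hlt n)).2.2.2.2.1
  have hDcomp : ∀ n, IsCompact (D' n) := fun n => (hgate (S n).1 (S n).2 (hlt n)).2.2.1
  have hDne : ∀ n, (D' n).Nonempty := fun n => (hgate (S n).1 (S n).2 (hlt n)).2.2.2.1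
  obtain ⟨z, hzD, hzint, hopt⟩ := EscN.chain_points (E := E) univ (D.Md p) id continuous_id
    (fun n x w => GG n x w + σ n * D.B w - σ n * D.B x) D' (fun _ => 0) isClosed_univ hDcomp hDne
    (fun n => subset_univ _) hDsub (fun n z hz => hDsub n hz)
    (fun n => by
      refine ((H1_cont (hK n) (hIne n) (hI1 n) (hPn n) (hQn n)).add ?_).sub ?_
      · exact (continuous_const.mul (hBc.comp continuous_snd)).continuousOn
      · exact (continuous_const.mul (hBc.comp continuous_fst)).continuousOn)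
    (by
      rintro n z ⟨hz, hz'⟩
      have hzf : z ∈ frontier (G (S (n + 1)).1 (S (n + 1)).2) := by
        rw [frontier_eq_closure_inter_closure]
        refine ⟨subset_closure hz, ?_⟩
        rwa [compl_eq_univ_sdiff]
      obtain ⟨w, hw, hw'⟩ := (hgate (S (n + 1)).1 (S (n + 1)).2 (hlt (n + 1))).2.2.2.2.2 z hzf
      refine ⟨w, hw, fun x hx x' hx' => ?_⟩
      obtain ⟨ξ, hξ, k, e1, e2⟩ := H1_left (hK n) (hIne n) (hI1 n) (hPn n) (hQn n) (hFm n).1 (hFm n).2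
        (hLl n) hx (hDsub _ hz)
      obtain ⟨ξ', hξ', k', e1', e2'⟩ := H1_right (hK (n + 1)) (hIne _) (hI1 _) (hPn _) (hQn _)
        (hFa (n + 1)) (hFa1 (n + 1)) (hRr (n + 1)) (hDsub _ hz) hx'
      have a := hw' ξ hξ ξ' hξ'
      have b := e2 w (hDsub _ hw)
      have b' := e2' w (hDsub _ hw)
      have hδ' := hδ (S (n + 1)).1
      rw [← hσm n] at a
      rw [hPP1] at b' e1'
      simp only [GD.Gm, GD.Gp] at a
      simp only [id, inner_zero_left, sub_zero, hGG]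
      rw [hPP1]
      simp only [hσ, hρ] at a b b' e1 e1' ⊢
      linarith)
  -- room points
  have hzM : ∀ n, z n ∈ D.Md p := fun n => hDsub n (hzD n)
  have hpath := fun n => H1_path (c := cc n) (hK n) (hIne n) (hI1 n) (hPn n) (hQn n) (hzM n) (hzM (n + 1))
  choose T c0 y hT hyC heq hle using hpath
  -- optimality of the path
  have hpo : ∀ n, ∀ x : ℕ → E, (∀ k ≤ T n, x k ∈ D.C p) →
      PP n (z n) (y n 0) + cost (D.k1 ll (σ n)) (y n) (T n) +
        D.Q ll (σ n) (ρ (n + 1)) (y n (T n)) (z (n + 1)) ≤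
      PP n (z n) (x 0) + cost (D.k1 ll (σ n)) x (T n) +
        D.Q ll (σ n) (ρ (n + 1)) (x (T n)) (z (n + 1)) := by
    intro n x hx
    have a := hle n (z n) (hzM n) (z (n + 1)) (hzM (n + 1)) x hx
    rw [heq n] at a
    linarith
  have hup : ∀ n k x, x ∈ D.C p → ∀ j ≤ T n, Function.update (y n) k x j ∈ D.C p := by
    intro n k x hx j hj
    by_cases hjk : j = k
    · subst hjk
      rw [Function.update_self]; exact hx
    · rw [Function.update_of_ne hjk]; exact hyC n j hj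
  -- the starting point
  have hstart : y 0 0 = x0 := by
    have a := hpo 0 _ (hup 0 0 x0 hx0)
    rw [H1_c0 _ _ _ (hT 0), Function.update_self, Function.update_of_ne (by have := hT 0; omega),
      hPP0, hPP0, dist_self, mul_zero] at a
    have hxR : x0 ∈ D.R p := (hK 0).sub hx0
    have hyR : y 0 0 ∈ D.R p := (hK 0).sub (hyC 0 0 (Nat.zero_le _))
    have hyR1 : y 0 1 ∈ D.R p := (hK 0).sub (hyC 0 1 (hT 0))
    have b := (hK 0).lip x0 hxR (y 0 0) hyR (y 0 1) hyR1 (y 0 1) hyR1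
    rw [dist_self, add_zero] at b
    have b' := (abs_le.1 b).2
    have c1 : CK 0 * dist x0 (y 0 0) ≤ |CK 0| * dist x0 (y 0 0) :=
      mul_le_mul_of_nonneg_right (le_abs_self _) dist_nonneg
    rw [dist_comm x0] at b' c1
    have hd : dist (y 0 0) x0 ≤ 0 := by linarith
    exact dist_le_zero.mp hd
  refine ⟨σ, ρ, T, z, y, ⟨hstart, hr0, hr1, hT, fun n => hzM (n + 1), fun n k hk => hyC n k hk, ?_,
    ?_, ?_, ?_, ?_⟩, hσ0⟩
  · refine tendsto_atTop_mono (f := fun n => ((S n).1 : ℝ)) (fun n => ?_) ?_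
    · have h1 := hσq n
      have h2 : (0:ℝ) ≤ (q0 : ℝ) := Nat.cast_nonneg _
      push_cast at h1
      linarith
    · exact tendsto_natCast_atTop_atTop.comp (EscN.st_tendsto hJ)
  · intro n
    have hnb : D' (n + 1) ∈ 𝓝 (z (n + 1)) := by
      rw [← mem_interior_iff_mem_nhds, interior_eq_compl_closure_compl]
      have := hzint n
      rwa [← compl_eq_univ_sdiff] at this
    filter_upwards [hnb] with x hx
    have a := hopt n x hx
    simp only [id, inner_zero_left, sub_zero] at a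
    have b := hle n (z n) (hzM n) x (hDsub _ hx) (y n) (hyC n)
    have b' := hle (n + 1) x (hDsub _ hx) (z (n + 2)) (hzM (n + 2)) (y (n + 1)) (hyC (n + 1))
    have e := heq n
    have e' := heq (n + 1)
    simp only [hGG] at a
    rw [hPP1] at a b' e'
    linarith
  · intro n x hx
    have a := hpo (n + 1) _ (hup (n + 1) 0 x hx)
    rw [H1_c0 _ _ _ (hT (n + 1)), Function.update_self,
      Function.update_of_ne (by have := hT (n + 1); omega), hPP1] at a
    linarith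
  · intro n k hk x hx
    have a := hpo n _ (hup n (k + 1) x hx)
    rw [H1_cm _ _ _ hk, Function.update_of_ne (by omega), Function.update_of_ne (by omega)] at a
    linarith
  · intro n k hk x hx
    have a := hpo n _ (hup n (k + 1) x hx)
    rw [← hk, H1_cT, Function.update_of_ne (by omega), Function.update_self] at a
    linarith

end EscK
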