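import Pool.Agent.EscK.KDefs
import Pool.Agent.EscG.A1
import Pool.Agent.EscK.A5a

/-!
Project EscK (MP_6acca1_an), module H2: one local minimum in the universal cover (helper52).
-/

noncomputable section

namespace EscK

open MeasureTheory Set Filter Topology Esc EscF EscG
open scoped ContDiff

variable {ι : Type} [Fintype ι] {d : ℕ} {E : Type*} [NormedAddCommGroup E] [InnerProductSpace ℝ E]
  [FiniteDimensional ℝ E] {D : GD ι d E} {m M : ℝ} {ll : E → E → ℝ → ℝ}

/-- periodicity along the fast lattice -/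
theorem H2_per (h : D.Ok) (hl : TE D.β D.F D.mF D.MF m M ll) (n : Fin d → ℤ) (x u : E) (t : ℝ) :
    ll (x + lv D.b n) u t = ll x u t := by
  let S : AddSubgroup E :=
    { carrier := {p : E | ∀ x u t, ll (x + p) u t = ll x u t}
      zero_mem' := fun x u t => by rw [add_zero]
      add_mem' := fun {p q} hp hq x u t => by rw [← add_assoc, hq, hp]
      neg_mem' := fun {p} hp x u t => by rw [← hp (x + -p), neg_add_cancel_right] }
  have hS : ∀ i, D.b i ∈ S := by
    intro i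
    obtain ⟨k, hk⟩ := h.bβ i
    rw [hk]
    exact fun x u t => hl.per k x u t
  have h1 : lv D.b n ∈ S := by
    unfold lv
    refine AddSubgroup.sum_mem S fun i _ => ?_
    rw [Int.cast_smul_eq_zsmul]
    exact S.zsmul_mem (hS i) _
  exact h1 x u t

/-- one site -/
theorem site (h : D.Ok) (hl : TE D.β D.F D.mF D.MF m M ll) {s s' : ℝ} (hs : 0 ≤ s) (hs' : 0 ≤ s')
    {t t' t'' : ℝ} (htt : t < t') (htt' : t' < t'') {x0 a x2 : E}
    (H : ∀ᶠ x in 𝓝 a, D.kk ll s t t' x0 a + D.kk ll s' t' t'' a x2 - (s' - s) * D.B a ≤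
      D.kk ll s t t' x0 x + D.kk ll s' t' t'' x x2 - (s' - s) * D.B x) {n n' : Fin d → ℤ}
    (hn : D.kk ll s t t' x0 a = kerl ll t t' x0 (a + lv D.b n) - s * (D.B (a + lv D.b n) - D.B x0) +
      s ^ 2 / 2 * (t' - t))
    (hn' : D.kk ll s' t' t'' a x2 = kerl ll t' t'' a (x2 + lv D.b n') -
      s' * (D.B (x2 + lv D.b n') - D.B a) + s' ^ 2 / 2 * (t'' - t')) :
    IsLocalMin (fun x => kerl ll t t' x0 x + kerl ll t' t'' x (x2 + lv D.b n' + lv D.b n))
      (a + lv D.b n) := by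
  have htend : Tendsto (fun x => x - lv D.b n) (𝓝 (a + lv D.b n)) (𝓝 a) := by
    have h1 : Tendsto (fun x => x - lv D.b n) (𝓝 (a + lv D.b n)) (𝓝 (a + lv D.b n - lv D.b n)) :=
      tendsto_id.sub_const _
    rwa [add_sub_cancel_right] at h1
  have hsh : ∀ y : E, kerl ll t' t'' (y + lv D.b n) (x2 + lv D.b n' + lv D.b n) =
      kerl ll t' t'' y (x2 + lv D.b n') := fun y => kerl_shift (lv D.b n) (H2_per h hl n) t' t'' y _
  have hB : ∀ y : E, D.B (y + lv D.b n) = D.B y + ∑ i, (n i : ℝ) * D.c i := fun y => h.cal.lvB n y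
  filter_upwards [htend.eventually H] with x hx
  obtain ⟨y, rfl⟩ : ∃ y, x = y + lv D.b n := ⟨x - lv D.b n, (sub_add_cancel _ _).symm⟩
  rw [add_sub_cancel_right] at hx
  have h1 : D.kk ll s t t' x0 y ≤ kerl ll t t' x0 (y + lv D.b n) -
      s * (D.B (y + lv D.b n) - D.B x0) + s ^ 2 / 2 * (t' - t) := K_le hl h.cal hs htt x0 y n
  have h2 : D.kk ll s' t' t'' y x2 ≤ kerl ll t' t'' y (x2 + lv D.b n') -
      s' * (D.B (x2 + lv D.b n') - D.B y) + s' ^ 2 / 2 * (t'' - t') :=
    K_le hl h.cal hs' htt' y x2 n'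
  simp only [hsh]
  rw [hB] at h1 hn
  linarith

end EscK
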