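import Pool.Agent.EscG.CDefs
import Pool.Agent.EscG.BDefs

/-!
Project EscK (MP_6acca1_an): Lagrangians `l` with `l - F²/2` of linear growth, classes of potentials,
orbits with a prescribed starting point. Definitions.
-/

noncomputable section

namespace EscK

open MeasureTheory Set Filter Topology Esc EscF EscG
open scoped ContDiff

variable {E : Type*} [NormedAddCommGroup E] [InnerProductSpace ℝ E]

section TE

variable [CompleteSpace E]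

/-- a Lagrangian at distance `O(1 + ‖v‖)` of the energy of `F`: `C^2`, periodic, strongly convex in the
velocity, with time derivative `O(1 + ‖v‖)` -/
structure TE {ι : Type*} [Fintype ι] (β : Module.Basis ι ℝ E) (F : E → E → ℝ) (mF MF m M : ℝ)
    (l : E → E → ℝ → ℝ) : Prop where
  fins : Fins β F mF MF
  m_pos : 0 < m
  M_nonneg : 0 ≤ M
  smooth : ContDiff ℝ 2 (fun p : E × E × ℝ => l p.1 p.2.1 p.2.2)
  per : ∀ i x v t, l (x + β i) v t = l x v t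
  pert : ∀ x v t, l x v (t + 1) = l x v t
  conv : ∀ x u v t, l x v t + inner ℝ (gu l x v t) (u - v) + m / 2 * ‖u - v‖ ^ 2 ≤ l x u t
  l_t : ∀ x v t t', |l x v t - l x v t'| ≤ M * (1 + ‖v‖) * |t - t'|
  l_F : ∀ x v t, |l x v t - F x v ^ 2 / 2| ≤ M * (1 + ‖v‖)

/-- constants: `‖gu l x v t‖ ≤ kG (1 + ‖v‖)` and `m / 4 ‖v‖² - kC ≤ l x v t` -/
def kG (MF M : ℝ) : ℝ := 4 * MF ^ 2 + 8 * M
def kC (MF m M : ℝ) : ℝ := M + kG MF M ^ 2 / m

/-- loss of the action at speed `s` per unit of time -/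
def kc (mF M s : ℝ) : ℝ := M + M / mF * s + (M / mF) ^ 2

/-- `l'` is a cut-off of `l`: globally `C^{1,1}`, below `l`, equal to `l` for speeds `≤ R` -/
structure Cut (l l' : E → E → ℝ → ℝ) (lx' lu' : E → E → ℝ → E) (m C M R Λ : ℝ) : Prop where
  cl : CL l' lx' lu' 0 (m / 4) Λ
  le : ∀ x u t, l' x u t ≤ l x u t
  low : ∀ x u t, m / 4 * ‖u‖ ^ 2 - C ≤ l' x u t
  eq : ∀ x u t, ‖u‖ ≤ R → l' x u t = l x u t
  equ : ∀ x u t, ‖u‖ ≤ R → lu' x u t = gu l x u t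
  eqx : ∀ x u t, ‖u‖ ≤ R → lx' x u t = gx l x u t
  l_t : ∀ x v t t', |l' x v t - l' x v t'| ≤ M * (1 + ‖v‖) * |t - t'|

end TE

/-- parameters of a class of Lagrangians: size `M`, flux `a s t` per unit of time at speed `s`, size `A`
of the flux, error constants `c ε` -/
structure LP where
  M : ℝ
  A : ℝ
  a : ℝ → ℝ → ℝ
  c : ℝ → ℝ

/-- parameters after addition of a potential of size `x` -/
instance : HAdd LP ℝ LP := ⟨fun L x => ⟨L.M + x, L.A, L.a, fun ε => L.c ε + 4 * x⟩⟩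

/-- the flux over a time interval -/
def LP.fl (L : LP) (s t t' : ℝ) : ℝ := ∫ r in t..t', L.a s r

/-- periodic part of the flux -/
def LP.gam (L : LP) (s r : ℝ) : ℝ := L.fl s 0 r - r * L.fl s 0 1

/-- Lagrangians `l` whose action minus energy is the flux up to a small multiple of the speed and a
multiple of the excess -/
structure FL {ι : Type} [Fintype ι] {d : ℕ} [CompleteSpace E] (D : GD ι d E) (m : ℝ) (L : LP)
    (l : E → E → ℝ → ℝ) : Prop extends TE D.β D.F D.mF D.MF m L.M l where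
  A_nonneg : 0 ≤ L.A
  c_nonneg : ∀ ε, 0 ≤ L.c ε
  a_cont : ∀ s, Continuous (L.a s)
  a_per : ∀ s t, L.a s (t + 1) = L.a s t
  a_bd : ∀ s t, 1 ≤ s → |L.a s t| ≤ L.A * s
  a_lip : ∀ s s' t, 1 ≤ s → 1 ≤ s' → |L.a s t - L.a s' t| ≤ L.A * |s - s'|
  flux : ∀ ε : ℝ, 0 < ε → ∀ s : ℝ, 1 ≤ s → ∀ (z : E) (u : ℝ → E), Adm u → ∀ t t' : ℝ, t ≤ t' → t' ≤ t + 4 →
    |(∫ r in t..t', (l (traj t z u r) (u r) r - D.F (traj t z u r) (u r) ^ 2 / 2)) - L.fl s t t'| ≤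
      ε * s + L.c ε * (1 + ((∫ r in t..t', D.F (traj t z u r) (u r)) -
        (D.B (traj t z u t') - D.B z)) + ∫ r in t..t', |D.F (traj t z u r) (u r) - s|)

/-- a linear class of smooth periodic potentials which contains many bumps -/
structure SCl {ι : Type*} [Fintype ι] (β : Module.Basis ι ℝ E) where
  mem : (E → ℝ → ℝ) → Prop
  sm : ∀ G, mem G → Sm β G
  zero : mem (fun _ _ => 0)
  add : ∀ G G', mem G → mem G' → mem (fun x t => G x t + G' x t)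
  smul : ∀ (c : ℝ) G, mem G → mem (fun x t => c * G x t)
  bump : ∃ r0 : ℝ, 0 < r0 ∧ ∀ r, 0 < r → r ≤ r0 → ∀ c : E,
    ∃ g : E → ℝ, ContDiff ℝ ∞ g ∧ (∀ i x, g (x + β i) = g x) ∧ (∀ x, 0 ≤ g x ∧ g x ≤ 1) ∧
      (∀ x, (∃ v ∈ Submodule.span ℤ (Set.range β), ‖x + v - c‖ ≤ 2 * r) → g x = 1) ∧
      (∀ x, (∀ v ∈ Submodule.span ℤ (Set.range β), 3 * r ≤ ‖x + v - c‖) → g x = 0) ∧
      ∀ θ : ℝ → ℝ, ContDiff ℝ ∞ θ → (∀ t, θ (t + 1) = θ t) → mem (fun x t => θ t * g x)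

section GD

variable {ι : Type} [Fintype ι] {d : ℕ} (D : GD ι d E) (p : GP)

/-- points near which optimal legs go: near a room or on a passage -/
def Nr : Set E := {c | c ∉ D.Out (p.ηc / 2)} ∪ D.Mg (p.ηc / 2) (2 * p.κ)

/-- the same modulo the lattice -/
def Near : Set E := {c | ∃ v ∈ D.Lam, c + v ∈ Nr D p}

/-- Chain data with a prescribed starting point `x0` in the room: gate points `z (n+1)` at times
`r (n+1)` modulo one, classes `s n`, room points `y n 0, ..., y n (T n)`. -/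
structure Chs (ll : E → E → ℝ → ℝ) (x0 : E) (s r : ℕ → ℝ) (T : ℕ → ℕ) (z : ℕ → E) (y : ℕ → ℕ → E) :
    Prop where
  start : y 0 0 = x0
  r_nonneg : ∀ n, 0 ≤ r n
  r_lt : ∀ n, r n < 1
  T_pos : ∀ n, 1 ≤ T n
  zM : ∀ n, z (n + 1) ∈ D.Md p
  yC : ∀ n k, k ≤ T n → y n k ∈ D.C p
  tend : Tendsto s atTop atTop
  mz : ∀ n, ∀ᶠ x in 𝓝 (z (n + 1)),
    D.Q ll (s n) (r (n + 1)) (y n (T n)) (z (n + 1)) + D.P ll (s (n + 1)) (r (n + 1)) (z (n + 1)) (y (n + 1) 0)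
        - (s (n + 1) - s n) * D.B (z (n + 1)) ≤
      D.Q ll (s n) (r (n + 1)) (y n (T n)) x + D.P ll (s (n + 1)) (r (n + 1)) x (y (n + 1) 0)
        - (s (n + 1) - s n) * D.B x
  m0 : ∀ n, ∀ x ∈ D.C p,
    D.P ll (s (n + 1)) (r (n + 1)) (z (n + 1)) (y (n + 1) 0) +
        D.k1 ll (s (n + 1)) (y (n + 1) 0) (y (n + 1) 1) ≤
      D.P ll (s (n + 1)) (r (n + 1)) (z (n + 1)) x + D.k1 ll (s (n + 1)) x (y (n + 1) 1)
  mm : ∀ n k, k + 1 < T n → ∀ x ∈ D.C p,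
    D.k1 ll (s n) (y n k) (y n (k + 1)) + D.k1 ll (s n) (y n (k + 1)) (y n (k + 2)) ≤
      D.k1 ll (s n) (y n k) x + D.k1 ll (s n) x (y n (k + 2))
  mT : ∀ n k, k + 1 = T n → ∀ x ∈ D.C p,
    D.k1 ll (s n) (y n k) (y n (k + 1)) + D.Q ll (s n) (r (n + 1)) (y n (k + 1)) (z (n + 1)) ≤
      D.k1 ll (s n) (y n k) x + D.Q ll (s n) (r (n + 1)) x (z (n + 1))

/-- an orbit of the Euler-Lagrange equation of `l + f` on `(t0,∞)`, `t0 ≤ 0`, which starts at `x0`, stays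
in the set `N` and whose speed tends to infinity -/
def EscapesFrom [CompleteSpace E] (l : E → E → ℝ → ℝ) (f : E → ℝ → ℝ) (x0 : E) (N : Set E) : Prop :=
  ∃ (t0 : ℝ) (x v : ℝ → E), t0 ≤ 0 ∧ x t0 = x0 ∧ ContinuousOn x (Ici t0) ∧
    (∀ t, t0 < t → HasDerivAt x (v t) t) ∧ ContinuousOn v (Ici t0) ∧
    (∀ t, t0 < t → HasDerivAt (fun t => gu l (x t) (v t) t) (gx (lf l f) (x t) (v t) t) t) ∧
    (∀ t, t0 ≤ t → x t ∈ N) ∧ Tendsto (fun t => ‖v t‖) atTop atTop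

end GD

/-- `l - F²/2` is Lipschitz in `v` and has derivatives `O(1 + ‖v‖)` in `x`, `t` -/
def AL (F : E → E → ℝ) (M : ℝ) (l : E → E → ℝ → ℝ) : Prop :=
  ∀ x v t x' v' t', |(l x v t - F x v ^ 2 / 2) - (l x' v' t' - F x' v' ^ 2 / 2)| ≤
    M * (‖v - v'‖ + (1 + ‖v‖) * (‖x - x'‖ + |t - t'|))

/-- flux of `l - F²/2` along the closed curve `c` of length `len` at speed `s` -/
def flx (F : E → E → ℝ) (l : E → E → ℝ → ℝ) (len : ℝ) (c c' : ℝ → E) (s t : ℝ) : ℝ :=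
  (∫ σ in (0:ℝ)..len, (l (c σ) (s • c' σ) t - F (c σ) (s • c' σ) ^ 2 / 2)) / len

end EscK
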